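import Pool.Agent.D0H40.CX.Mero2

/-! The order of a meromorphic continuation and the finite sums. -/

set_option autoImplicit false

namespace Pool.Agent.D0H40.CX

open Complex MeasureTheory Filter Topology Set
open Pool.Agent.D0H40.KX
open Pool.Agent.W189.ML (ser)
open Pool.Agent.W334.BSD (exists_log log_unique)
open scoped ComplexConjugate

variable {k σ : ℝ} {lam c : ℕ → ℝ} {G E : ℂ → ℂ} {W : ℝ → ℝ → ℝ → ℂ}

/-- **A sector without zeros and poles.** -/
theorem MCont.sector (S : ESys lam c G E σ) (hσ0 : 0 ≤ σ) {F : ℂ → ℂ} (hF : MCont E σ F) :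
    ∃ θ φ : ℝ, 0 < φ ∧ |θ| + φ ≤ Real.pi / 2 ∧ ∃ ℓ : ℂ → ℂ, DifferentiableOn ℂ ℓ (Os θ φ) ∧
      (∀ w ∈ Os θ φ, σ < w.re → exp (ℓ w) = E w) ∧
      ∃ ρ : ℝ, 0 < ρ ∧ ∀ w ∈ Os θ φ, ‖w‖ < ρ → exp (ℓ w) = F w := by
  have hpi := Real.pi_pos
  obtain ⟨ρ, hρ, hnear⟩ := hF.near S
  -- the compact set
  set T : Set ℂ := {w : ℂ | ρ / 2 ≤ w.re ∧ w.re ≤ σ ∧ 0 ≤ w.im ∧ w.im ≤ 1} with hT
  have hTc : IsCompact T := by
    have h1 : T = Icc (ρ / 2) σ ×ℂ Icc 0 1 := by
      ext w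
      simp only [hT, mem_ofPred_eq, Complex.mem_reProdIm, mem_Icc]
      tauto
    rw [h1]
    exact isCompact_Icc.reProdIm isCompact_Icc
  have hbad := finite_bad hTc (Q := fun w => AnalyticAt ℂ F w ∧ F w ≠ 0) (fun w hw => by
    have hw0 : 0 < w.re := by
      have := hw.1
      linarith
    exact (hF.mero w hw0).eventually_analyticAt.and
      ((meromorphicOrderAt_ne_top_iff_eventually_ne_zero (hF.mero w hw0)).1 (hF.order_ne S hw0)))
  set A : Set ℝ := arg '' {w | w ∈ T ∧ ¬ (AnalyticAt ℂ F w ∧ F w ≠ 0)} with hA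
  have hAf : A.Finite := hbad.image arg
  -- the angle
  set ψ : ℝ := Real.arctan (1 / (σ + 1)) with hψ
  have hψ0 : 0 < ψ := Real.arctan_pos.2 (by positivity)
  have hψ1 : ψ < Real.pi / 2 := Real.arctan_lt_pi_div_two _
  have hopen : IsOpen (Ioo 0 ψ \ A) := isOpen_Ioo.sdiff hAf.isClosed
  have hne : (Ioo 0 ψ \ A).Nonempty := by
    have h1 : (Ioo 0 ψ).Infinite := Ioo_infinite hψ0
    exact (h1.sdiff hAf).nonempty
  obtain ⟨θ, hθ⟩ := hne
  obtain ⟨φ, hφ, hball⟩ := Metric.isOpen_iff.1 hopen θ hθ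
  have hang : ∀ t : ℝ, |t - θ| < φ → 0 < t ∧ t < ψ ∧ t ∉ A := by
    intro t ht
    have := hball (show t ∈ Metric.ball θ φ by rwa [Metric.mem_ball, Real.dist_eq])
    exact ⟨this.1.1, this.1.2, this.2⟩
  have hθ0 := (hang θ (by rw [sub_self, abs_zero]; exact hφ)).1
  have hθφ : θ + φ ≤ ψ := by
    by_contra hc
    push Not at hc
    have h1 : |max ψ θ - θ| < φ := by
      rw [abs_of_nonneg (by
        have := le_max_right ψ θ
        linarith)]
      have : max ψ θ < θ + φ := max_lt hc (by linarith)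
      linarith
    have h2 := (hang _ h1).2.1
    have := le_max_left ψ θ
    linarith
  have hφ2 : |θ| + φ ≤ Real.pi / 2 := by
    rw [abs_of_pos hθ0]
    linarith
  have hdom := Os_dom' hφ hφ2
  -- the points of the sector
  have hpt : ∀ w ∈ Os θ φ, w.re ≤ σ → AnalyticAt ℂ F w ∧ F w ≠ 0 := by
    intro w hw hre
    have hre0 := hdom.pos w hw
    obtain ⟨h1, h2, h3⟩ := hang (arg w) hw.2
    have h4 := Real.tan_lt_tan_of_nonneg_of_lt_pi_div_two h1.le hψ1 h2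
    rw [Complex.tan_arg, hψ, Real.tan_arctan, div_lt_div_iff₀ hre0 (by positivity), one_mul] at h4
    have h5 : 0 ≤ w.im := by
      rw [← Complex.arg_nonneg_iff]
      exact h1.le
    have h6 : w.im ≤ w.im * (σ + 1) := by nlinarith
    rcases lt_or_ge w.re (ρ / 2) with h7 | h7
    · refine hnear w hw.1 ?_
      have h8 := Complex.norm_le_abs_re_add_abs_im w
      rw [abs_of_pos hre0, abs_of_nonneg h5] at h8
      linarith
    · by_contra hc
      exact h3 ⟨w, ⟨⟨h7, hre, h5, by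
        have : w.im * (σ + 1) ≤ σ := by linarith
        have h9 : σ ≤ σ + 1 := by linarith
        have h10 : w.im * (σ + 1) < 1 * (σ + 1) := by linarith
        exact (lt_of_mul_lt_mul_right h10 (by positivity)).le⟩, hc⟩, rfl⟩
  -- the continuation
  classical
  set Φ : ℂ → ℂ := fun w => if σ < w.re then E w else F w with hΦ
  have hΦd : DifferentiableOn ℂ Φ (Os θ φ) := by
    intro w hw
    refine DifferentiableAt.differentiableWithinAt ?_
    rcases lt_or_ge σ w.re with h1 | h1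
    · have h2 : DifferentiableAt ℂ E w := (S.E_diff hσ0).differentiableAt ((re_open σ).mem_nhds h1)
      refine h2.congr_of_eventuallyEq ?_
      filter_upwards [(re_open σ).mem_nhds h1] with z hz
      exact if_pos hz
    · have h2 : DifferentiableAt ℂ F w := (hpt w hw h1).1.differentiableAt
      refine h2.congr_of_eventuallyEq (Eventually.of_forall fun z => ?_)
      show (if σ < z.re then E z else F z) = F z
      by_cases h3 : σ < z.re
      · rw [if_pos h3, hF.eq z h3]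
      · rw [if_neg h3]
  have hΦ0 : ∀ w ∈ Os θ φ, Φ w ≠ 0 := by
    intro w hw
    show (if σ < w.re then E w else F w) ≠ 0
    by_cases h3 : σ < w.re
    · rw [if_pos h3]
      exact S.E_ne h3
    · rw [if_neg h3]
      exact (hpt w hw (not_lt.1 h3)).2
  have hne2 : (Os θ φ).Nonempty := by
    refine ⟨exp ((θ : ℂ) * I), exp_ne_zero _, ?_⟩
    rw [Complex.arg_exp_mul_I, (toIocMod_eq_self Real.two_pi_pos).2 ⟨by linarith, by linarith⟩, sub_self,
      abs_zero]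
    exact hφ
  obtain ⟨ℓ, hℓ1, hℓ2⟩ := exists_log hdom.op hdom.cv hne2 hΦd hΦ0
  refine ⟨θ, φ, hφ, hφ2, ℓ, hℓ1, fun w hw h1 => ?_, ρ, hρ, fun w hw _ => ?_⟩
  · rw [hℓ2 w hw]
    exact if_pos h1
  · rw [hℓ2 w hw]
    show (if σ < w.re then E w else F w) = F w
    by_cases h3 : σ < w.re
    · rw [if_pos h3, hF.eq w h3]
    · rw [if_neg h3]

/-- **The order of a meromorphic continuation gives a law.** -/
theorem Data.mero_law (D : Data W lam c G E σ) (hσ0 : 0 ≤ σ) {F : ℂ → ℂ} (hF : MCont E σ F) {r : ℤ}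
    (hr : meromorphicOrderAt F 0 = r) : ∃ k τ : ℝ, 1 < k ∧ ∃ C : ℝ, XLaw (W k τ) k r 0 C := by
  obtain ⟨θ, φ, h0, hφ, ℓ, h1, h2, ρ, hρ, h3⟩ := hF.sector D.S hσ0
  obtain ⟨ρ', C, hρ', h4⟩ := vertex_bound h0 hφ hF.vert hr h1 hρ h3
  exact (D.someO r).2 ⟨θ, φ, h0, hφ, ℓ, (OrdO_iff _ _ _ _).2 ⟨h1, h2, vertex_VB hφ h1 hρ' h4⟩⟩

/-- the identity theorem for meromorphic functions -/
theorem MCont.ident (S : ESys lam c G E σ) {F : ℂ → ℂ} (hF : MCont E σ F) {θ φ : ℝ} (h0 : 0 < φ)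
    (hφ : |θ| + φ ≤ Real.pi / 2) {ℓ : ℂ → ℂ} (hℓ : DifferentiableOn ℂ ℓ (Os θ φ))
    (h : ∀ w ∈ Os θ φ, σ < w.re → exp (ℓ w) = E w) :
    ∃ ρ : ℝ, 0 < ρ ∧ ∀ w ∈ Os θ φ, ‖w‖ < ρ → exp (ℓ w) = F w := by
  have hpi := Real.pi_pos
  have hdom := Os_dom' h0 hφ
  obtain ⟨ρ, hρ, hnear⟩ := hF.near S
  refine ⟨ρ, hρ, fun w hw hwρ => ?_⟩
  set g : ℂ → ℂ := fun w => F w - exp (ℓ w) with hg
  have hgm : MeromorphicOn g (Os θ φ) := by
    intro z hz
    refine (hF.mero z (hdom.pos z hz)).sub ?_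
    have : AnalyticAt ℂ (fun w => exp (ℓ w)) z := hℓ.cexp.analyticAt (hdom.op.mem_nhds hz)
    exact this.meromorphicAt
  -- the order is infinite
  obtain ⟨r, hr1, hr2, hr3⟩ := hdom.far hw σ
  have htop : meromorphicOrderAt g ((r : ℂ) * w) = ⊤ := by
    rw [meromorphicOrderAt_eq_top_iff]
    refine eventually_nhdsWithin_of_eventually_nhds ?_
    filter_upwards [(hdom.op.inter (re_open σ)).mem_nhds ⟨hr2, hr3⟩] with z hz
    rw [hg]
    simp only
    rw [hF.eq z hz.2, h z hz.1 hz.2, sub_self]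
  have htop2 : meromorphicOrderAt g w = ⊤ := by
    by_contra hc
    exact hgm.meromorphicOrderAt_ne_top_of_isPreconnected hdom.cv.isPreconnected hw hr2 hc htop
  rw [meromorphicOrderAt_eq_top_iff] at htop2
  -- continuity at `w`
  have hga : AnalyticAt ℂ g w := by
    have : AnalyticAt ℂ (fun w => exp (ℓ w)) w := hℓ.cexp.analyticAt (hdom.op.mem_nhds hw)
    exact (hnear w hw.1 hwρ).1.sub this
  have hgw : g w = 0 := by
    have h5 : Tendsto g (𝓝[≠] w) (𝓝 (g w)) := hga.continuousAt.tendsto.mono_left nhdsWithin_le_nhds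
    have h6 : Tendsto g (𝓝[≠] w) (𝓝 0) :=
      tendsto_const_nhds.congr' (htop2.mono fun z hz => hz.symm)
    exact tendsto_nhds_unique h5 h6
  exact (sub_eq_zero.1 hgw).symm

/-- **A law gives the order of a meromorphic continuation.** -/
theorem Data.law_mero (D : Data W lam c G E σ) {F : ℂ → ℂ} (hF : MCont E σ F) (hk : 1 < k) (τ : ℝ)
    {r : ℂ} (h : ∀ ε > 0, ∃ C : ℝ, XLaw (W k τ) k r ε C) :
    ∃ m : ℤ, meromorphicOrderAt F 0 = m ∧ r = m := by
  have hpi := Real.pi_pos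
  have hφ := (bt_abs_lt hk τ).le
  have hfc := fc_pos hk
  obtain ⟨ℓ, hℓ⟩ := D.too hk τ h
  obtain ⟨ρ, hρ, h1⟩ := hF.ident D.S hfc hφ hℓ.1 hℓ.2.1
  obtain ⟨ρ₀, hρ₀, hnear⟩ := hF.near D.S
  have hne : meromorphicOrderAt F 0 ≠ ⊤ := by
    rw [meromorphicOrderAt_ne_top_iff_eventually_ne_zero hF.vert, eventually_nhdsWithin_iff,
      Metric.eventually_nhds_iff]
    exact ⟨ρ₀, hρ₀, fun w hw hw0 => (hnear w hw0 (by rwa [dist_zero_right] at hw)).2⟩
  obtain ⟨m, hm⟩ : ∃ m : ℤ, meromorphicOrderAt F 0 = m := ⟨_, (WithTop.coe_untop₀_of_ne_top hne).symm⟩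
  refine ⟨m, hm, ?_⟩
  obtain ⟨ρ', C, hρ', h2⟩ := vertex_bound hfc hφ hF.vert hm hℓ.1 hρ h1
  -- compare on the axis of the sector
  have hV : VB (Ioi 0) (bt k τ) (fc k) m ℓ := by
    have := vertex_VB hφ hℓ.1 hρ' h2
    intro φ' hφ' ε hε
    obtain ⟨C', hC'⟩ := this φ' hφ' 0 (mem_singleton _)
    refine ⟨C', fun w hw hw1 => (hC' w hw hw1).trans ?_⟩
    have h3 : 0 ≤ Real.log (1 / ‖w‖) := log_inv_nonneg (norm_pos_iff.2 hw.1) hw1
    have h4 : 0 < ε := hε
    have h5 : 0 ≤ ε * Real.log (1 / ‖w‖) := by positivity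
    linarith
  have hV2 : VB (Ioi 0) (bt k τ) (fc k) r ℓ := ((Ordo_iff _ _ _ _).1 hℓ).2.2
  have hhalf : fc k / 2 < fc k := by linarith
  have t1 := (vertex_iff hφ _ hℓ.1.continuousOn).1 hV _ hhalf
  have t2 := (vertex_iff hφ _ hℓ.1.continuousOn).1 hV2 _ hhalf
  have hbot : (𝓝[Os (bt k τ) (fc k / 2)] (0 : ℂ)).NeBot := by
    rw [← mem_closure_iff_nhdsWithin_neBot, Metric.mem_closure_iff]
    intro ε hε
    have habs : |bt k τ| < Real.pi / 2 := by linarith
    have habs' := abs_lt.1 habs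
    have hn : ‖((ε / 2 : ℝ) : ℂ) * exp ((bt k τ : ℂ) * I)‖ = ε / 2 := by
      rw [norm_mul, Complex.norm_exp_ofReal_mul_I, mul_one, Complex.norm_real,
        Real.norm_of_nonneg (by positivity)]
    refine ⟨((ε / 2 : ℝ) : ℂ) * exp ((bt k τ : ℂ) * I), ⟨?_, ?_⟩, ?_⟩
    · intro h0
      rw [h0, norm_zero] at hn
      linarith
    · rw [Complex.arg_real_mul _ (by positivity), Complex.arg_exp_mul_I,
        (toIocMod_eq_self Real.two_pi_pos).2 ⟨by linarith, by linarith⟩, sub_self, abs_zero]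
      positivity
    · rw [dist_zero_left, hn]
      linarith
  exact tendsto_nhds_unique t2 t1

end Pool.Agent.D0H40.CX
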