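import Pool.Agent.D0H40.CX.LawB

/-! Sums and continuations: the abstract theorems. -/

set_option autoImplicit false

namespace Pool.Agent.D0H40.CX

open Complex MeasureTheory Filter Topology Set
open Pool.Agent.D0H40.KX
open Pool.Agent.W189.ML (ser)
open Pool.Agent.W334.BSD (exists_log log_unique)
open scoped ComplexConjugate

variable {k σ : ℝ} {lam c : ℕ → ℝ} {G E : ℂ → ℂ}

/-- The Euler product `E`, its Dirichlet series `ser` over the primes and the correction `G`. -/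
structure ESys (lam c : ℕ → ℝ) (G E : ℂ → ℂ) (σ : ℝ) : Prop where
  sys : Sys lam c
  hσ : σ ≤ 2
  sd : DifferentiableOn ℂ (ser lam c) {w | σ < w.re}
  Gd : DifferentiableOn ℂ G {w | 0 < w.re}
  Gb : ∀ M : ℝ, ∃ C : ℝ, ∀ w : ℂ, 0 < w.re → ‖w‖ ≤ 1 → ‖w‖ ≤ M * w.re → ‖G w‖ ≤ C
  eq : ∀ w : ℂ, σ < w.re → exp (G w - ser lam c w) = E w

/-- convex domains in the half-plane that are closed under dilations -/
structure Dom (U : Set ℂ) : Prop where
  op : IsOpen U
  cv : Convex ℝ U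
  pos : ∀ w ∈ U, 0 < w.re
  sc : ∀ w ∈ U, ∀ r : ℝ, 1 ≤ r → (r : ℂ) * w ∈ U

theorem Dom.inter {U V : Set ℂ} (hU : Dom U) (hV : Dom V) : Dom (U ∩ V) where
  op := hU.op.inter hV.op
  cv := hU.cv.inter hV.cv
  pos := fun w hw => hU.pos w hw.1
  sc := fun w hw r hr => ⟨hU.sc w hw.1 r hr, hV.sc w hw.2 r hr⟩

/-- `F` is a zero-free continuation of `E` -/
def Cont (E : ℂ → ℂ) (σ : ℝ) (U : Set ℂ) (F : ℂ → ℂ) : Prop :=
  DifferentiableOn ℂ F U ∧ (∀ w ∈ U, F w ≠ 0) ∧ ∀ w ∈ U, σ < w.re → F w = E w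

theorem re_open (σ : ℝ) : IsOpen {w : ℂ | σ < w.re} := isOpen_lt continuous_const Complex.continuous_re

theorem re_conv (σ : ℝ) : Convex ℝ {w : ℂ | σ < w.re} := convex_halfSpace_re_gt σ

theorem Dom.far {U : Set ℂ} (hU : Dom U) {w : ℂ} (hw : w ∈ U) (M : ℝ) :
    ∃ r : ℝ, 1 ≤ r ∧ (r : ℂ) * w ∈ U ∧ M < ((r : ℂ) * w).re := by
  have h0 := hU.pos w hw
  set r : ℝ := max 1 (|M| / w.re + 1) with hr
  have hr1 : 1 ≤ r := le_max_left _ _
  refine ⟨r, hr1, hU.sc w hw r hr1, ?_⟩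
  rw [Complex.re_ofReal_mul]
  have h1 : |M| / w.re + 1 ≤ r := le_max_right _ _
  have h2 := mul_le_mul_of_nonneg_right h1 h0.le
  have h3 : (|M| / w.re + 1) * w.re = |M| + w.re := by field_simp
  rw [h3] at h2
  have := le_abs_self M
  linarith

/-- the identity theorem -/
theorem Dom.ident {U : Set ℂ} (hU : Dom U) {f g : ℂ → ℂ} {σ M : ℝ}
    (hf : DifferentiableOn ℂ f (U ∩ {w | σ < w.re})) (hg : DifferentiableOn ℂ g (U ∩ {w | σ < w.re}))
    (h : ∀ w ∈ U, M < w.re → f w = g w) {w : ℂ} (hw : w ∈ U) (hwσ : σ < w.re) : f w = g w := by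
  have hVo : IsOpen (U ∩ {w | σ < w.re}) := hU.op.inter (re_open σ)
  have hVc : Convex ℝ (U ∩ {w | σ < w.re}) := hU.cv.inter (re_conv σ)
  obtain ⟨r, hr1, hr2, hr3⟩ := hU.far hw (max M σ)
  have hmem : (r : ℂ) * w ∈ U ∩ {w | σ < w.re} := ⟨hr2, (le_max_right _ _).trans_lt hr3⟩
  refine (hf.analyticOnNhd hVo).eqOn_of_preconnected_of_eventuallyEq (hg.analyticOnNhd hVo)
    hVc.isPreconnected hmem ?_ ⟨hw, hwσ⟩
  filter_upwards [(hU.op.inter (re_open (max M σ))).mem_nhds ⟨hr2, hr3⟩] with v hv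
  exact h v hv.1 ((le_max_left _ _).trans_lt hv.2)

/-- the identity theorem on the whole domain -/
theorem Dom.ident' {U : Set ℂ} (hU : Dom U) {f g : ℂ → ℂ} {M : ℝ}
    (hf : DifferentiableOn ℂ f U) (hg : DifferentiableOn ℂ g U)
    (h : ∀ w ∈ U, M < w.re → f w = g w) {w : ℂ} (hw : w ∈ U) : f w = g w :=
  hU.ident (hf.mono inter_subset_left) (hg.mono inter_subset_left) h hw (hU.pos w hw)

/-- from the continuation of the Euler product to the continuation of the series -/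
theorem ESys.to_ser (S : ESys lam c G E σ) {U : Set ℂ} (hU : IsOpen U) (hc : Convex ℝ U)
    (hp : ∀ w ∈ U, 0 < w.re) {L : ℂ → ℂ} (hL : DifferentiableOn ℂ L U)
    (hE : ∀ w ∈ U, σ < w.re → exp (L w) = E w) :
    ∃ κ : ℂ, exp κ = 1 ∧ ∀ w ∈ U, σ < w.re → G w - L w + κ = ser lam c w := by
  set V : Set ℂ := U ∩ {w | σ < w.re} with hV
  have hVo : IsOpen V := hU.inter (re_open σ)
  have hVc : Convex ℝ V := hc.inter (re_conv σ)
  by_cases hne : V.Nonempty
  · obtain ⟨p, hpV⟩ := hne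
    have hGd : DifferentiableOn ℂ (fun w => G w - ser lam c w) V :=
      (S.Gd.mono fun w hw => hp w hw.1).sub (S.sd.mono inter_subset_right)
    have hu := log_unique hVo hVc.isPreconnected (f := L) (g := fun w => G w - ser lam c w)
      (hL.mono inter_subset_left) hGd (fun q hq => by
        rw [hE q hq.1 hq.2, S.eq q hq.2]) hpV
    refine ⟨L p - (G p - ser lam c p), ?_, fun w hw1 hw2 => ?_⟩
    · rw [Complex.exp_sub, hE p hpV.1 hpV.2, S.eq p hpV.2, div_self]
      rw [← S.eq p hpV.2]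
      exact Complex.exp_ne_zero _
    · have := hu w ⟨hw1, hw2⟩
      linear_combination -this
  · refine ⟨0, Complex.exp_zero, fun w hw1 hw2 => ?_⟩
    exact absurd ⟨w, hw1, hw2⟩ hne

/-- from the continuation of the series to the continuation of the Euler product -/
theorem ESys.to_cont (S : ESys lam c G E σ) {U : Set ℂ} (hU : Dom U) {Ψ : ℂ → ℂ}
    (hΨ : DifferentiableOn ℂ Ψ U) (he : ∀ w ∈ U, 2 < w.re → Ψ w = ser lam c w) :
    DifferentiableOn ℂ (fun w => G w - Ψ w) U ∧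
      ∀ w ∈ U, σ < w.re → exp (G w - Ψ w) = E w := by
  refine ⟨(S.Gd.mono fun w hw => hU.pos w hw).sub hΨ, fun w hw hwσ => ?_⟩
  rw [hU.ident (σ := σ) (hΨ.mono inter_subset_left) (S.sd.mono inter_subset_right) he hw hwσ,
    S.eq w hwσ]

/-- **Gluing.** -/
theorem glue {ι : Type} {U : ι → Set ℂ} (hU : ∀ i, Dom (U i)) (h : ∀ i, ∃ F : ℂ → ℂ, Cont E σ (U i) F) :
    ∃ F : ℂ → ℂ, Cont E σ (⋃ i, U i) F := by
  classical
  choose F hF using h
  set H : ℂ → ℂ := fun w => if h : ∃ i, w ∈ U i then F h.choose w else 0 with hH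
  have key : ∀ i, ∀ w ∈ U i, H w = F i w := by
    intro i w hw
    have hex : ∃ i, w ∈ U i := ⟨i, hw⟩
    have e : H w = F hex.choose w := by
      rw [hH]
      simp only
      rw [dif_pos hex]
    rw [e]
    set j := hex.choose
    have hj : w ∈ U j := hex.choose_spec
    exact ((hU j).inter (hU i)).ident' (M := σ) ((hF j).1.mono inter_subset_left)
      ((hF i).1.mono inter_subset_right) (fun v hv hv2 => by
        rw [(hF j).2.2 v hv.1 hv2, (hF i).2.2 v hv.2 hv2]) ⟨hj, hw⟩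
  refine ⟨H, fun w hw => ?_, fun w hw => ?_, fun w hw hwσ => ?_⟩
  · obtain ⟨i, hi⟩ := mem_iUnion.1 hw
    have h1 : H =ᶠ[𝓝 w] F i := by
      filter_upwards [(hU i).op.mem_nhds hi] with v hv
      exact key i v hv
    exact (((hF i).1.differentiableAt ((hU i).op.mem_nhds hi)).congr_of_eventuallyEq
      h1).differentiableWithinAt
  · obtain ⟨i, hi⟩ := mem_iUnion.1 hw
    rw [key i w hi]
    exact (hF i).2.1 w hi
  · obtain ⟨i, hi⟩ := mem_iUnion.1 hw
    rw [key i w hi]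
    exact (hF i).2.2 w hi hwσ

/-- turned points of the sector are in the half-plane -/
theorem turn_re {β φ : ℝ} (h : |β| + φ ≤ Real.pi / 2) {w : ℂ} (hw0 : w ≠ 0)
    (hw : |arg (conj (dl β) * w)| < φ) : 0 < w.re := by
  set z : ℂ := conj (dl β) * w with hz
  have hwz : w = z * exp (β * I) := by
    rw [hz]
    have := dl_mul_conj β
    unfold dl at this ⊢
    linear_combination (-w) * this
  have hz0 : z ≠ 0 := by
    intro h0
    rw [h0, zero_mul] at hwz
    exact hw0 hwz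
  rw [hwz, mul_exp_re]
  refine mul_pos (norm_pos_iff.2 hz0) (Real.cos_pos_of_mem_Ioo ?_)
  have h1 := abs_lt.1 hw
  have h2 := neg_abs_le β
  have h3 := le_abs_self β
  exact ⟨by linarith [h1.1], by linarith [h1.2]⟩

/-- the region -/
def Hd (k β b : ℝ) : Set ℂ := {w | conj (dl β) * w ∈ HB k b}

theorem HB_sc (hk : 1 < k) {b : ℝ} {z : ℂ} (hz : z ∈ HB k b) {r : ℝ} (hr : 1 ≤ r) : (r : ℂ) * z ∈ HB k b := by
  have hr0 : 0 < r := by linarith
  refine ⟨Sk_mul hr0 hz.1, ?_⟩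
  rw [B_mul k hr0]
  have h1 := B_pos hk hz.1
  have h2 : B k z ≤ r * B k z := le_mul_of_one_le_left h1.le hr
  exact hz.2.trans_le h2

theorem conj_turn_conv {U : Set ℂ} (hU : Convex ℝ U) (d : ℂ) : Convex ℝ {w : ℂ | d * w ∈ U} := by
  intro x hx y hy s t hs ht hst
  show d * (s • x + t • y) ∈ U
  have e : d * (s • x + t • y) = s • (d * x) + t • (d * y) := by
    simp only [Complex.real_smul]
    ring
  rw [e]
  exact hU hx hy hs ht hst

theorem Hd_dom (hk : 1 < k) {β : ℝ} (hβ : |k * β| < Real.pi / 2) (b : ℝ) : Dom (Hd k β b) where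
  op := (HB_open hk b).preimage (by fun_prop)
  cv := conj_turn_conv (HB_conv hk b) _
  pos := fun w hw => by
    have h1 := beta_lt hk hβ
    refine turn_re (β := β) (φ := fc k) (by linarith) (fun h0 => ?_) hw.1.2
    have := hw.1.1
    rw [h0, mul_zero] at this
    exact this rfl
  sc := fun w hw r hr => by
    show conj (dl β) * ((r : ℂ) * w) ∈ HB k b
    have e : conj (dl β) * ((r : ℂ) * w) = (r : ℂ) * (conj (dl β) * w) := by ring
    rw [e]
    exact HB_sc hk hw hr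

/-- **Growth of the sums and zero-free continuation.** -/
theorem ESys.growth_iff (S : ESys lam c G E σ) (hk : 1 < k) {β : ℝ} (hβ : |k * β| < Real.pi / 2) {b : ℝ}
    (hb : 0 ≤ b) : Growth lam c k β b ↔ ∃ F : ℂ → ℂ, Cont E σ (Hd k β b) F := by
  have hD := Hd_dom hk hβ b
  constructor
  · intro hG
    have h1 := S.to_cont hD (Ψ := Phi lam c k β)
      (fun w hw => (Phi_diff S.sys hk hβ hb hG hw).differentiableWithinAt)
      (fun w hw hw2 => Phi_eq2 S.sys hk hβ hb hG hw hw2)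
    exact ⟨fun w => exp (G w - Phi lam c k β w), h1.1.cexp, fun w _ => Complex.exp_ne_zero _, h1.2⟩
  · rintro ⟨F, hF1, hF2, hF3⟩
    have hne : (Hd k β b).Nonempty := by
      have hbp : 0 < b + 1 := by linarith
      refine ⟨dl β * ((b + 1 : ℝ) : ℂ), ?_⟩
      show conj (dl β) * (dl β * ((b + 1 : ℝ) : ℂ)) ∈ HB k b
      have e : conj (dl β) * (dl β * ((b + 1 : ℝ) : ℂ)) = ((b + 1 : ℝ) : ℂ) := by
        linear_combination ((b + 1 : ℝ) : ℂ) * dl_mul_conj β
      rw [e]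
      refine ⟨real_mem_Sk hk hbp, ?_⟩
      rw [B_real k hbp]
      linarith
    obtain ⟨L, hL1, hL2⟩ := exists_log hD.op hD.cv hne hF1 hF2
    obtain ⟨κ, -, hκ⟩ := S.to_ser hD.op hD.cv hD.pos hL1 (fun w hw hwσ => by
      rw [hL2 w hw, hF3 w hw hwσ])
    have hturn : ∀ z ∈ HB k b, dl β * z ∈ Hd k β b := by
      intro z hz
      show conj (dl β) * (dl β * z) ∈ HB k b
      have e : conj (dl β) * (dl β * z) = z := by
        linear_combination z * dl_mul_conj β
      rwa [e]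
    refine backward hk S.sys hβ hb (Ψ := fun z => G (dl β * z) - L (dl β * z) + κ) ?_ (fun z hz hz2 => ?_)
    · have h1 : DifferentiableOn ℂ (fun w => G w - L w + κ) (Hd k β b) :=
        ((S.Gd.mono fun w hw => hD.pos w hw).sub hL1).add_const κ
      exact h1.comp (f := fun z : ℂ => dl β * z) (by fun_prop) hturn
    · exact hκ _ (hturn z hz) (by linarith [S.hσ])

end Pool.Agent.D0H40.CX
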