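import Pool.Agent.D0H40.CX.Abs
import Pool.Agent.D0H40.KX.CurveK

/-! The law for the sums and the behaviour of the logarithm at the vertex. -/

set_option autoImplicit false

namespace Pool.Agent.D0H40.CX

open Complex MeasureTheory Filter Topology Set
open Pool.Agent.D0H40.KX
open Pool.Agent.W189.ML (ser)
open Pool.Agent.W334.BSD (exists_log log_unique)
open scoped ComplexConjugate

variable {k σ : ℝ} {lam c : ℕ → ℝ} {G E : ℂ → ℂ}

/-- the law for the sums -/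
def Law (lam c : ℕ → ℝ) (k β : ℝ) (r : ℂ) (ε C : ℝ) : Prop :=
  ∀ κ : ℝ, 0 < κ → κ ≤ 1 →
    ‖fk lam c k (kb k β κ) - (r / k) * (Real.log (1 / κ) : ℝ)‖ ≤ ε * Real.log (1 / κ) + C

theorem log_inv_nonneg {x : ℝ} (h0 : 0 < x) (h1 : x ≤ 1) : 0 ≤ Real.log (1 / x) :=
  Real.log_nonneg (by
    rw [le_div_iff₀ h0]
    linarith)

/-- the law implies the growth bound -/
theorem Law.growth (hk : 1 < k) {β : ℝ} {r : ℂ} {ε C : ℝ} (hC : 0 ≤ C) (h : Law lam c k β r ε C) :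
    Growth lam c k β 0 := by
  intro b' hb'
  have hk1 : 0 < k - 1 := by linarith
  have hE := Ex_pos hk hb'
  set A : ℝ := ‖r / k‖ + |ε| with hA
  refine ⟨A * ((k - 1) / Ex k b') + C, by positivity, fun κ hκ hκ1 => ?_⟩
  have h1 := h κ hκ hκ1
  have hl := log_inv_nonneg hκ hκ1
  have h2 : ‖fk lam c k (kb k β κ)‖ ≤ A * Real.log (1 / κ) + C := by
    have h3 : ‖fk lam c k (kb k β κ)‖ ≤ ‖fk lam c k (kb k β κ) - (r / k) * (Real.log (1 / κ) : ℝ)‖ +
        ‖(r / k) * ((Real.log (1 / κ) : ℝ) : ℂ)‖ := by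
      have := norm_add_le (fk lam c k (kb k β κ) - (r / k) * (Real.log (1 / κ) : ℝ))
        ((r / k) * ((Real.log (1 / κ) : ℝ) : ℂ))
      rwa [sub_add_cancel] at this
    rw [norm_mul _ ((Real.log (1 / κ) : ℝ) : ℂ), Complex.norm_real, Real.norm_of_nonneg hl] at h3
    have h4 : ε * Real.log (1 / κ) ≤ |ε| * Real.log (1 / κ) :=
      mul_le_mul_of_nonneg_right (le_abs_self _) hl
    rw [hA, add_mul]
    linarith
  set v : ℝ := κ ^ (-(1 / (k - 1))) with hv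
  have hv0 : 0 < v := Real.rpow_pos_of_pos hκ _
  have h3 : Real.log (1 / κ) = (k - 1) * Real.log v := by
    rw [hv, Real.log_rpow hκ, one_div, Real.log_inv]
    field_simp
  have hv1 : 1 ≤ v := Real.one_le_rpow_of_pos_of_le_one_of_nonpos hκ hκ1 (by
    have : 0 < 1 / (k - 1) := by positivity
    linarith)
  have h4 : Real.log v ≤ (Ex k b')⁻¹ * Real.exp (Ex k b' * v) := by
    have h5 : Real.log v ≤ v := (Real.log_le_sub_one_of_pos hv0).trans (by linarith)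
    have h6 := Real.add_one_le_exp (Ex k b' * v)
    rw [← div_eq_inv_mul, le_div_iff₀ hE]
    have := mul_le_mul_of_nonneg_right h5 hE.le
    linarith
  have h5 : 1 ≤ Real.exp (Ex k b' * v) := Real.one_le_exp (by positivity)
  calc ‖fk lam c k (kb k β κ)‖ ≤ A * Real.log (1 / κ) + C := h2
    _ = A * ((k - 1) * Real.log v) + C := by rw [h3]
    _ ≤ A * ((k - 1) * ((Ex k b')⁻¹ * Real.exp (Ex k b' * v))) + C * Real.exp (Ex k b' * v) := by
        refine add_le_add ?_ (le_mul_of_one_le_right hC h5)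
        gcongr
    _ = _ := by
        field_simp

/-- the open sector of direction `β` and half-angle `φ` -/
def Os (β φ : ℝ) : Set ℂ := {w | w ≠ 0 ∧ |arg w - β| < φ}

theorem Os_iff {β φ : ℝ} (hφ : |β| + φ ≤ Real.pi / 2) (w : ℂ) :
    w ∈ Os β φ ↔ conj (dl β) * w ≠ 0 ∧ |arg (conj (dl β) * w)| < φ := by
  have hpi := Real.pi_pos
  have hb := abs_nonneg β
  have hne : conj (dl β) ≠ 0 := by
    rw [conj_dl]
    exact dl_ne _
  constructor
  · rintro ⟨h1, h2⟩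
    refine ⟨mul_ne_zero hne h1, ?_⟩
    have h3 : arg (conj (dl β) * w) = arg w + -β := by
      rw [conj_dl]
      unfold dl
      refine arg_rot h1 ?_
      rw [← sub_eq_add_neg]
      linarith
    rw [h3, ← sub_eq_add_neg]
    exact h2
  · rintro ⟨h1, h2⟩
    refine ⟨right_ne_zero_of_mul h1, ?_⟩
    have e : w = exp (β * I) * (conj (dl β) * w) := by
      have := dl_mul_conj β
      unfold dl at this ⊢
      linear_combination (-w) * this
    have h3 : arg w = arg (conj (dl β) * w) + β := by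
      nth_rewrite 1 [e]
      refine arg_rot h1 ?_
      have := abs_add_le (arg (conj (dl β) * w)) β
      linarith
    rw [h3, add_sub_cancel_right]
    exact h2

theorem Os_Sk {β : ℝ} (hβ : |β| + fc k ≤ Real.pi / 2) (w : ℂ) :
    w ∈ Os β (fc k) ↔ conj (dl β) * w ∈ Sk k := Os_iff hβ w

/-- closed subsectors -/
theorem Os_Cs {β φ φ' : ℝ} (hφ : |β| + φ ≤ Real.pi / 2) {w : ℂ} (h : w ∈ Os β φ') (h' : φ' ≤ φ) :
    conj (dl β) * w ∈ Cs φ' := by
  have h1 := (Os_iff (by linarith : |β| + φ' ≤ Real.pi / 2) w).1 h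
  exact ⟨h1.1, h1.2.le⟩

theorem Cs_Os {β φ φ' : ℝ} (hφ : |β| + φ ≤ Real.pi / 2) {w : ℂ} (h : conj (dl β) * w ∈ Cs φ')
    (h' : φ' < φ) : w ∈ Os β φ :=
  (Os_iff hφ w).2 ⟨h.1, h.2.trans_lt h'⟩

/-- every half-angle smaller than a right angle is that of a parameter -/
theorem exists_fc {φ : ℝ} (h0 : 0 < φ) (h1 : φ < Real.pi / 2) : ∃ k : ℝ, 1 < k ∧ fc k = φ := by
  have hpi := Real.pi_pos
  set x : ℝ := 1 - φ / (Real.pi / 2) with hx
  have hp2 : 0 < Real.pi / 2 := by positivity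
  have hx0 : 0 < x := by
    have : φ / (Real.pi / 2) < 1 := (div_lt_one hp2).2 h1
    linarith
  have hx1 : x < 1 := by
    have : 0 < φ / (Real.pi / 2) := by positivity
    linarith
  refine ⟨1 / x, (one_lt_div hx0).2 hx1, ?_⟩
  unfold fc
  rw [one_div_one_div, hx]
  field_simp
  ring

theorem Os_pos {β φ : ℝ} (hφ : |β| + φ ≤ Real.pi / 2) {w : ℂ} (hw : w ∈ Os β φ) : 0 < w.re :=
  turn_re hφ hw.1 ((Os_iff hφ w).1 hw).2

theorem Os_mono {β β' φ φ' : ℝ} (h : |β' - β| + φ' ≤ φ) : Os β' φ' ⊆ Os β φ := by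
  rintro w ⟨h1, h2⟩
  refine ⟨h1, ?_⟩
  have h3 : arg w - β = (arg w - β') + (β' - β) := by ring
  rw [h3]
  have := abs_add_le (arg w - β') (β' - β)
  linarith

theorem Os_scale {β φ : ℝ} {w : ℂ} (hw : w ∈ Os β φ) {r : ℝ} (hr : 0 < r) : (r : ℂ) * w ∈ Os β φ := by
  refine ⟨mul_ne_zero (by exact_mod_cast hr.ne') hw.1, ?_⟩
  rw [Complex.arg_real_mul _ hr]
  exact hw.2

/-- sectors with `φ < π/2` -/
theorem Os_dom {β φ : ℝ} (h0 : 0 < φ) (hφ : |β| + φ ≤ Real.pi / 2) (h1 : φ < Real.pi / 2) :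
    Dom (Os β φ) := by
  obtain ⟨k, hk, hfk⟩ := exists_fc h0 h1
  have e : Os β φ = {w : ℂ | conj (dl β) * w ∈ Sk k} := by
    ext w
    rw [← hfk]
    exact Os_Sk (by rw [hfk]; exact hφ) w
  refine ⟨?_, ?_, fun w hw => Os_pos hφ hw, fun w hw r hr => Os_scale hw (by linarith)⟩
  · rw [e]
    exact (Sk_open k hk).preimage (by fun_prop)
  · rw [e]
    exact conj_turn_conv (Sk_conv hk) _

/-- the half-plane -/
theorem Os_half : Os 0 (Real.pi / 2) = {w : ℂ | 0 < w.re} := by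
  ext w
  constructor
  · intro hw
    exact Os_pos (by simp) hw
  · intro hw
    have hw' : 0 < w.re := hw
    refine ⟨fun h => ?_, ?_⟩
    · rw [h] at hw'
      simp at hw'
    · rw [sub_zero]
      exact Complex.abs_arg_lt_pi_div_two_iff.2 (Or.inl hw')

theorem Os_dom' {β φ : ℝ} (h0 : 0 < φ) (hφ : |β| + φ ≤ Real.pi / 2) : Dom (Os β φ) := by
  rcases lt_or_ge φ (Real.pi / 2) with h | h
  · exact Os_dom h0 hφ h
  · have h1 : φ = Real.pi / 2 := le_antisymm (by have := abs_nonneg β; linarith) h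
    have h2 : β = 0 := by
      rw [← abs_nonpos_iff]
      linarith
    subst h1 h2
    rw [Os_half]
    exact ⟨re_open 0, re_conv 0, fun w hw => hw, fun w hw r hr => by
      show 0 < ((r : ℂ) * w).re
      rw [Complex.re_ofReal_mul]
      exact mul_pos (by linarith) hw⟩

/-- the bound of the correction in closed sectors -/
theorem ESys.G_bound (S : ESys lam c G E σ) {β φ : ℝ} (h0 : 0 ≤ φ) (hφ : |β| + φ < Real.pi / 2) :
    ∃ C : ℝ, 0 ≤ C ∧ ∀ w : ℂ, conj (dl β) * w ∈ Cs φ → ‖w‖ ≤ 1 → ‖G w‖ ≤ C := by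
  have hb := abs_nonneg β
  have hc : 0 < Real.cos (|β| + φ) := Real.cos_pos_of_mem_Ioo ⟨by linarith [Real.pi_pos], hφ⟩
  obtain ⟨C, hC⟩ := S.Gb (Real.cos (|β| + φ))⁻¹
  refine ⟨|C|, abs_nonneg _, fun w hw hw1 => (hC w ?_ hw1 ?_).trans (le_abs_self _)⟩
  · obtain ⟨φ', h1, h2⟩ := exists_between hφ
    refine turn_re (β := β) (φ := φ' - |β|) (by linarith) ?_ (hw.2.trans_lt (by linarith))
    exact right_ne_zero_of_mul hw.1
  · set z : ℂ := conj (dl β) * w with hz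
    have hwz : w = z * exp (β * I) := by
      rw [hz]
      have := dl_mul_conj β
      unfold dl at this ⊢
      linear_combination (-w) * this
    have hn : ‖w‖ = ‖z‖ := by
      rw [hz, norm_mul, Complex.norm_conj, dl_norm, one_mul]
    have h1 : Real.cos (|β| + φ) ≤ Real.cos (arg z + β) := by
      rw [← Real.cos_abs (arg z + β)]
      refine Real.cos_le_cos_of_nonneg_of_le_pi (abs_nonneg _) (by linarith [Real.pi_pos]) ?_
      have := abs_add_le (arg z) β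
      linarith [hw.2]
    have h2 : w.re = ‖z‖ * Real.cos (arg z + β) := by
      nth_rewrite 1 [hwz]
      exact mul_exp_re z β
    rw [h2, hn, ← div_eq_inv_mul, le_div_iff₀ hc]
    exact mul_le_mul_of_nonneg_left h1 (norm_nonneg _)

/-- **The law for the sums gives the behaviour of the logarithm at the vertex.** -/
theorem ESys.law_to_log (S : ESys lam c G E σ) (hk : 1 < k) {β : ℝ} (hβ : |k * β| < Real.pi / 2) (r : ℂ)
    {C₀ ε₀ : ℝ} (hC₀ : 0 ≤ C₀) (hL : Law lam c k β r ε₀ C₀) :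
    ∃ ℓ : ℂ → ℂ, DifferentiableOn ℂ ℓ (Os β (fc k)) ∧
      (∀ w ∈ Os β (fc k), σ < w.re → exp (ℓ w) = E w) ∧
      ∀ φ : ℝ, 0 ≤ φ → φ < fc k → ∃ K : ℝ, 0 ≤ K ∧ ∀ ε C : ℝ, 0 ≤ ε → 0 ≤ C → Law lam c k β r ε C →
        ∃ C' : ℝ, 0 ≤ C' ∧ ∀ w : ℂ, w ∈ Os β φ → ‖w‖ ≤ 1 →
          ‖ℓ w - r * (Real.log ‖w‖ : ℝ)‖ ≤ K * ε * Real.log (1 / ‖w‖) + C' := by
  have hbf := beta_lt hk hβ
  have hG := hL.growth hk hC₀
  have hHd : Hd k β 0 = Os β (fc k) := by
    ext w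
    constructor
    · intro hw
      exact (Os_Sk (by linarith) w).2 hw.1
    · intro hw
      have := (Os_Sk (by linarith) w).1 hw
      exact ⟨this, B_pos hk this⟩
  have hD := Hd_dom hk hβ 0
  have h1 := S.to_cont hD (Ψ := Phi lam c k β)
    (fun w hw => (Phi_diff S.sys hk hβ le_rfl hG hw).differentiableWithinAt)
    (fun w hw hw2 => Phi_eq2 S.sys hk hβ le_rfl hG hw hw2)
  rw [hHd] at h1
  refine ⟨fun w => G w - Phi lam c k β w, h1.1, h1.2, fun φ h0 hφ => ?_⟩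
  obtain ⟨K, hK, hlaw⟩ := law_fwd hk S.sys hβ (r := r) h0 hφ
  obtain ⟨CG, hCG0, hCG⟩ := S.G_bound (β := β) h0 (by linarith)
  refine ⟨K, hK, fun ε C hε hC h => ?_⟩
  obtain ⟨C', hC'0, hC'⟩ := hlaw ε C hε hC h
  refine ⟨CG + C', by positivity, fun w hw hw1 => ?_⟩
  have hm := Os_Cs (β := β) (φ := fc k) (by linarith) hw hφ.le
  have h2 := hC' w hm hw1
  have h3 := hCG w hm hw1
  have e : (G w - Phi lam c k β w) - r * (Real.log ‖w‖ : ℝ) =
      G w - (Phi lam c k β w - r * (Real.log (1 / ‖w‖) : ℝ)) := by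
    rw [one_div, Real.log_inv]
    push_cast
    ring
  rw [e]
  refine (norm_sub_le _ _).trans ?_
  linarith

/-- **The behaviour of the logarithm at the vertex gives the law for the sums.** -/
theorem ESys.log_to_law (S : ESys lam c G E σ) (hk : 1 < k) {β : ℝ} (hβ : |k * β| < Real.pi / 2) (r : ℂ)
    {θ φ : ℝ} (hφ : |θ| + φ ≤ Real.pi / 2) (hin : |β - θ| + fc k < φ) {ℓ : ℂ → ℂ}
    (hℓ : DifferentiableOn ℂ ℓ (Os θ φ)) (hE : ∀ w ∈ Os θ φ, σ < w.re → exp (ℓ w) = E w) :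
    ∃ φ' K : ℝ, 0 < φ' ∧ φ' < φ ∧ 0 ≤ K ∧ ∀ ε C δ : ℝ, 0 ≤ ε → 0 ≤ C → 0 < δ → δ ≤ 1 →
      (∀ w ∈ Os θ φ', ‖w‖ ≤ δ → ‖ℓ w - r * (Real.log ‖w‖ : ℝ)‖ ≤ ε * Real.log (1 / ‖w‖) + C) →
      ∃ C' : ℝ, 0 ≤ C' ∧ Law lam c k β r (K * ε) C' := by
  have hbt := abs_nonneg (β - θ)
  obtain ⟨φ₃, h31, h32⟩ := exists_between hin
  obtain ⟨φ₂, h21, h22⟩ := exists_between h31
  have hfc := fc_pos hk
  obtain ⟨k₂, hk₂1, hk₂⟩ := exists_fc (φ := φ₂ - |β - θ|) (by linarith) (by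
    have := abs_nonneg θ
    linarith)
  have hkk : k < k₂ := by
    by_contra hc
    push Not at hc
    rcases hc.eq_or_lt with h | h
    · rw [h] at hk₂
      linarith
    · have := fc_mono hk₂1 h
      linarith
  have hβ2 : |β| + fc k₂ ≤ Real.pi / 2 := by
    have h1 : |β| ≤ |β - θ| + |θ| := by
      have := abs_add_le (β - θ) θ
      rwa [sub_add_cancel] at this
    linarith
  have hsub : Os β (fc k₂) ⊆ Os θ φ₂ := Os_mono (by linarith)
  have hsub2 : Os β (fc k₂) ⊆ Os θ φ := hsub.trans (Os_mono (by simp; linarith))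
  have hD : Dom (Os β (fc k₂)) := Os_dom' (fc_pos hk₂1) hβ2
  obtain ⟨κ, -, hκ⟩ := S.to_ser hD.op hD.cv hD.pos (hℓ.mono hsub2)
    (fun w hw hwσ => hE w (hsub2 hw) hwσ)
  have hturn : ∀ z ∈ Sk k₂, dl β * z ∈ Os β (fc k₂) := by
    intro z hz
    refine (Os_Sk hβ2 _).2 ?_
    have e : conj (dl β) * (dl β * z) = z := by
      linear_combination z * dl_mul_conj β
    rwa [e]
  set Ψ : ℂ → ℂ := fun z => G (dl β * z) - ℓ (dl β * z) + κ with hΨ
  have hΨd : DifferentiableOn ℂ Ψ (Sk k₂) := by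
    have h1 : DifferentiableOn ℂ (fun w => G w - ℓ w + κ) (Os β (fc k₂)) :=
      ((S.Gd.mono fun w hw => hD.pos w hw).sub (hℓ.mono hsub2)).add_const κ
    exact h1.comp (f := fun z : ℂ => dl β * z) (by fun_prop) hturn
  obtain ⟨φ₁, K, hφ₁0, hφ₁, hK, hlaw⟩ := law_bwd hk S.sys hβ hkk hΨd
    (fun z hz hz2 => hκ _ (hturn z hz) (by linarith [S.hσ])) r
  obtain ⟨CG, hCG0, hCG⟩ := S.G_bound (β := β) (φ := φ₁) hφ₁0.le (by linarith)
  refine ⟨φ₂, K, by linarith, by linarith, hK, fun ε C δ hε hC hδ hδ1 h => ?_⟩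
  obtain ⟨C', hC'0, hC'⟩ := hlaw ε (C + CG + ‖κ‖) δ hε (by positivity) hδ hδ1 (fun z hz hzδ => by
    have hzS : z ∈ Sk k₂ := ⟨hz.1, hz.2.trans_lt hφ₁⟩
    have hn : ‖dl β * z‖ = ‖z‖ := by rw [norm_mul, dl_norm, one_mul]
    have h1 := h (dl β * z) (hsub (hturn z hzS)) (by rw [hn]; exact hzδ)
    have h2 := hCG (dl β * z) (by
      have e : conj (dl β) * (dl β * z) = z := by
        linear_combination z * dl_mul_conj β
      rw [e]
      exact hz) (by rw [hn]; linarith)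
    rw [hn] at h1
    have e : Ψ z - r * (Real.log (1 / ‖z‖) : ℝ) = (G (dl β * z) + κ) -
        (ℓ (dl β * z) - r * (Real.log ‖z‖ : ℝ)) := by
      rw [hΨ, one_div, Real.log_inv]
      push_cast
      ring
    rw [e]
    refine (norm_sub_le _ _).trans ?_
    have h3 := norm_add_le (G (dl β * z)) κ
    linarith)
  exact ⟨C', hC'0, hC'⟩

end Pool.Agent.D0H40.CX
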