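import Pool.Agent.D0H40.KX.Geo

/-! The function `B` which measures the regions: `B (z) = |z| cos (q arg z)^(1/q)`, `q = k/(k-1)`. -/

set_option autoImplicit false

namespace Pool.Agent.D0H40.CX

open Complex MeasureTheory Filter Topology Set
open Pool.Agent.D0H40.KX
open scoped ComplexConjugate

variable {k : ℝ}

/-- log-concavity of the cosine -/
theorem cos_geom {x y l : ℝ} (hx : |x| < Real.pi / 2) (hy : |y| < Real.pi / 2) (h0 : 0 ≤ l) (h1 : l ≤ 1) :
    Real.cos x ^ (1 - l) * Real.cos y ^ l ≤ Real.cos ((1 - l) * x + l * y) := by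
  have hx' := abs_lt.1 hx
  have hy' := abs_lt.1 hy
  have hcx : 0 < Real.cos x := Real.cos_pos_of_mem_Ioo ⟨by linarith, hx'.2⟩
  have hcy : 0 < Real.cos y := Real.cos_pos_of_mem_Ioo ⟨by linarith, hy'.2⟩
  have h2 := Real.geom_mean_le_arith_mean2_weighted (w₁ := 1 - l) (w₂ := l) (by linarith) h0 hcx.le hcy.le
    (by ring)
  refine h2.trans ?_
  have h3 := strictConcaveOn_cos_Icc.concaveOn.2
    (show x ∈ Icc (-(Real.pi / 2)) (Real.pi / 2) from ⟨by linarith, hx'.2.le⟩)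
    (show y ∈ Icc (-(Real.pi / 2)) (Real.pi / 2) from ⟨by linarith, hy'.2.le⟩)
    (by linarith : 0 ≤ 1 - l) h0 (by ring)
  simpa [smul_eq_mul] using h3

theorem kp_inv (hk : 1 < k) : 1 / kp k = 1 - 1 / k := by
  unfold kp
  have h1 : k ≠ 0 := by linarith
  have h2 : k - 1 ≠ 0 := by linarith
  field_simp

theorem kp_mul (hk : 1 < k) : kp k * (1 - 1 / k) = 1 := by
  rw [← kp_inv hk]
  have := kp_pos hk
  field_simp

theorem inv_k (hk : 1 < k) : 0 < 1 / k ∧ 1 / k < 1 := by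
  refine ⟨by positivity, ?_⟩
  rw [div_lt_one (by linarith)]
  exact hk

/-- the function that measures the regions -/
noncomputable def B (k : ℝ) (z : ℂ) : ℝ := ‖z‖ * Real.cos (kp k * arg z) ^ (1 / kp k)

theorem kp_arg (hk : 1 < k) {x : ℝ} (hx : |x| < fc k) : |kp k * x| < Real.pi / 2 := by
  rw [abs_mul, abs_of_pos (kp_pos hk), ← kp_fc hk]
  exact mul_lt_mul_of_pos_left hx (kp_pos hk)

theorem cos_kp_pos (hk : 1 < k) {x : ℝ} (hx : |x| < fc k) : 0 < Real.cos (kp k * x) := by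
  have := abs_lt.1 (kp_arg hk hx)
  exact Real.cos_pos_of_mem_Ioo ⟨by linarith, this.2⟩

theorem B_nonneg (hk : 1 < k) {z : ℂ} (hz : z ∈ Sk k) : 0 ≤ B k z := by
  unfold B
  exact mul_nonneg (norm_nonneg _) (Real.rpow_nonneg (cos_kp_pos hk hz.2).le _)

theorem B_pos (hk : 1 < k) {z : ℂ} (hz : z ∈ Sk k) : 0 < B k z := by
  unfold B
  exact mul_pos (norm_pos_iff.2 hz.1) (Real.rpow_pos_of_pos (cos_kp_pos hk hz.2) _)

/-- `B` is below all the linear functions `z ↦ Re (z e^{iψ}) / cos (kψ)^(1/k)` -/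
theorem B_le (hk : 1 < k) {z : ℂ} (hz : z ∈ Sk k) {ψ : ℝ} (hψ : |k * ψ| < Real.pi / 2) :
    B k z * Real.cos (k * ψ) ^ (1 / k) ≤ ‖z‖ * Real.cos (arg z + ψ) := by
  unfold B
  have hk0 : k ≠ 0 := by linarith
  have h1 := cos_geom (kp_arg hk hz.2) hψ (inv_k hk).1.le (inv_k hk).2.le
  rw [← kp_inv hk] at h1
  have e : 1 / kp k * (kp k * arg z) + 1 / k * (k * ψ) = arg z + ψ := by
    have := kp_pos hk
    field_simp
  rw [e] at h1
  calc ‖z‖ * Real.cos (kp k * arg z) ^ (1 / kp k) * Real.cos (k * ψ) ^ (1 / k) =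
      ‖z‖ * (Real.cos (kp k * arg z) ^ (1 / kp k) * Real.cos (k * ψ) ^ (1 / k)) := by ring
    _ ≤ _ := mul_le_mul_of_nonneg_left h1 (norm_nonneg _)

theorem mul_exp_re (z : ℂ) (ψ : ℝ) : (z * exp (ψ * I)).re = ‖z‖ * Real.cos (arg z + ψ) := by
  have e : z * exp (ψ * I) = ‖z‖ * exp ((arg z + ψ : ℝ) * I) := by
    conv_lhs => rw [← Complex.norm_mul_exp_arg_mul_I z]
    rw [mul_assoc, ← Complex.exp_add]
    congr 2
    push_cast
    ring
  rw [e, Complex.re_ofReal_mul, Complex.exp_ofReal_mul_I_re]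

/-- the minimum is attained -/
theorem B_eq (hk : 1 < k) {z : ℂ} (hz : z ∈ Sk k) :
    ∃ ψ : ℝ, |k * ψ| < Real.pi / 2 ∧ (z * exp (ψ * I)).re = B k z * Real.cos (k * ψ) ^ (1 / k) := by
  have hk1 : k - 1 ≠ 0 := by linarith
  have hkψ : k * (arg z / (k - 1)) = kp k * arg z := by
    unfold kp
    ring
  refine ⟨arg z / (k - 1), by rw [hkψ]; exact kp_arg hk hz.2, ?_⟩
  rw [mul_exp_re, hkψ]
  unfold B
  have h1 : arg z + arg z / (k - 1) = kp k * arg z := by
    unfold kp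
    field_simp
    ring
  rw [h1, mul_assoc, ← Real.rpow_add (cos_kp_pos hk hz.2), kp_inv hk]
  have : 1 - 1 / k + 1 / k = 1 := by ring
  rw [this, Real.rpow_one]

theorem B_cont (hk : 1 < k) {z : ℂ} (hz : z ∈ Sk k) : ContinuousAt (B k) z := by
  have hre : z ∈ slitPlane := by
    rw [Complex.mem_slitPlane_iff_arg]
    have h1 := fc_lt hk
    have h2 := hz.2
    refine ⟨fun h => ?_, hz.1⟩
    rw [h, abs_of_pos Real.pi_pos] at h2
    linarith [Real.pi_pos]
  unfold B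
  refine continuous_norm.continuousAt.mul ?_
  refine ContinuousAt.rpow_const ?_ (Or.inl (cos_kp_pos hk hz.2).ne')
  exact Real.continuous_cos.continuousAt.comp ((Complex.continuousAt_arg hre).const_mul _)

theorem Sk_re (hk : 1 < k) {z : ℂ} (hz : z ∈ Sk k) : 0 < z.re := by
  have h1 := fc_lt hk
  have h2 : |arg z| < Real.pi / 2 := hz.2.trans h1
  rcases Complex.abs_arg_lt_pi_div_two_iff.1 h2 with h | h
  · exact h
  · exact absurd h hz.1

theorem cone_conv {φ : ℝ} (h0 : 0 < φ) (h1 : φ < Real.pi / 2) : Convex ℝ {z : ℂ | |arg z| ≤ φ} := by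
  have e : {z : ℂ | |arg z| ≤ φ} = {z : ℂ | |z.im| ≤ Real.tan φ * z.re} := by
    ext z
    exact (cone_arg h0 h1 z).symm
  rw [e]
  intro z hz w hw s r hs hr hsr
  have e1 : (s • z + r • w).re = s * z.re + r * w.re := by simp
  have e2 : (s • z + r • w).im = s * z.im + r * w.im := by simp
  show |(s • z + r • w).im| ≤ Real.tan φ * (s • z + r • w).re
  rw [e1, e2]
  have hz' : |z.im| ≤ Real.tan φ * z.re := hz
  have hw' : |w.im| ≤ Real.tan φ * w.re := hw
  calc |s * z.im + r * w.im| ≤ |s * z.im| + |r * w.im| := abs_add_le _ _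
    _ = s * |z.im| + r * |w.im| := by rw [abs_mul, abs_mul, abs_of_nonneg hs, abs_of_nonneg hr]
    _ ≤ s * (Real.tan φ * z.re) + r * (Real.tan φ * w.re) := by gcongr
    _ = _ := by ring

theorem Sk_conv (hk : 1 < k) : Convex ℝ (Sk k) := by
  intro z hz w hw s r hs hr hsr
  have h1 := fc_lt hk
  have h0 := fc_pos hk
  have hz2 : |arg z| < fc k := hz.2
  have hw2 : |arg w| < fc k := hw.2
  obtain ⟨φ, h2, h3⟩ := exists_between (max_lt (max_lt hz2 hw2) h0)
  have hφ0 : 0 < φ := (le_max_right _ _).trans_lt h2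
  have hm : max |arg z| |arg w| < φ := (le_max_left _ _).trans_lt h2
  have h4 := cone_conv hφ0 (h3.trans h1) (show z ∈ {z : ℂ | |arg z| ≤ φ} from
    ((le_max_left _ _).trans hm.le)) (show w ∈ {z : ℂ | |arg z| ≤ φ} from
    ((le_max_right _ _).trans hm.le)) hs hr hsr
  refine ⟨fun h5 => ?_, lt_of_le_of_lt h4 h3⟩
  have h6 := Sk_re hk hz
  have h7 := Sk_re hk hw
  have h8 : (s • z + r • w).re = s * z.re + r * w.re := by simp
  rw [h5, Complex.zero_re] at h8
  have h9 : 0 ≤ s * z.re := mul_nonneg hs h6.le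
  have h10 : 0 ≤ r * w.re := mul_nonneg hr h7.le
  have h11 : s * z.re = 0 := by linarith
  have h12 : r * w.re = 0 := by linarith
  have h13 : s = 0 := by
    rcases mul_eq_zero.1 h11 with h | h
    · exact h
    · linarith
  have h14 : r = 0 := by
    rcases mul_eq_zero.1 h12 with h | h
    · exact h
    · linarith
  rw [h13, h14] at hsr
  norm_num at hsr

theorem Sk_open (k : ℝ) (hk : 1 < k) : IsOpen (Sk k) := by
  rw [isOpen_iff_mem_nhds]
  intro z hz
  have h1 := Sk_re hk hz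
  have hs : z ∈ slitPlane := Or.inl h1
  have h2 : ∀ᶠ w in 𝓝 z, |arg w| < fc k :=
    (continuous_abs.continuousAt.comp (Complex.continuousAt_arg hs)).eventually_lt
      continuousAt_const hz.2
  filter_upwards [h2, eventually_ne_nhds hz.1] with w h3 h4
  exact ⟨h4, h3⟩

/-- the regions -/
def HB (k b : ℝ) : Set ℂ := {z | z ∈ Sk k ∧ b < B k z}

theorem HB_open (hk : 1 < k) (b : ℝ) : IsOpen (HB k b) := by
  rw [isOpen_iff_mem_nhds]
  intro z hz
  filter_upwards [(Sk_open k hk).mem_nhds hz.1,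
    continuousAt_const.eventually_lt (B_cont hk hz.1) hz.2] with w h1 h2
  exact ⟨h1, h2⟩

theorem HB_conv (hk : 1 < k) (b : ℝ) : Convex ℝ (HB k b) := by
  intro z hz w hw s r hs hr hsr
  have h1 := Sk_conv hk hz.1 hw.1 hs hr hsr
  refine ⟨h1, ?_⟩
  obtain ⟨ψ, h2, h3⟩ := B_eq hk h1
  have hc : 0 < Real.cos (k * ψ) ^ (1 / k) := by
    have := abs_lt.1 h2
    exact Real.rpow_pos_of_pos (Real.cos_pos_of_mem_Ioo ⟨by linarith, this.2⟩) _
  have hz2 := B_le hk hz.1 h2
  have hw2 := B_le hk hw.1 h2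
  rw [← mul_exp_re] at hz2 hw2
  have e : ((s • z + r • w) * exp (ψ * I)).re = s * (z * exp (ψ * I)).re + r * (w * exp (ψ * I)).re := by
    rw [add_mul, Complex.add_re, smul_mul_assoc, smul_mul_assoc, Complex.smul_re, Complex.smul_re]
    simp
  rw [e] at h3
  have h4 : b * Real.cos (k * ψ) ^ (1 / k) < B k (s • z + r • w) * Real.cos (k * ψ) ^ (1 / k) := by
    rw [← h3]
    have h5 : b * Real.cos (k * ψ) ^ (1 / k) < (z * exp (ψ * I)).re :=
      (mul_lt_mul_of_pos_right hz.2 hc).trans_le hz2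
    have h6 : b * Real.cos (k * ψ) ^ (1 / k) < (w * exp (ψ * I)).re :=
      (mul_lt_mul_of_pos_right hw.2 hc).trans_le hw2
    have e2 : b * Real.cos (k * ψ) ^ (1 / k) =
        s * (b * Real.cos (k * ψ) ^ (1 / k)) + r * (b * Real.cos (k * ψ) ^ (1 / k)) := by
      rw [← add_mul, hsr, one_mul]
    rw [e2]
    rcases hs.eq_or_lt with h | h
    · have hr1 : r = 1 := by linarith
      rw [← h, hr1]
      linarith
    · have := mul_lt_mul_of_pos_left h5 h
      have := mul_le_mul_of_nonneg_left h6.le hr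
      linarith
  exact lt_of_mul_lt_mul_right h4 hc.le

theorem B_mul (k : ℝ) {r : ℝ} (hr : 0 < r) (z : ℂ) : B k (r * z) = r * B k z := by
  unfold B
  rw [Complex.arg_real_mul _ hr, norm_mul, Complex.norm_real, Real.norm_of_nonneg hr.le, mul_assoc]

theorem Sk_mul {r : ℝ} (hr : 0 < r) {z : ℂ} (hz : z ∈ Sk k) : (r : ℂ) * z ∈ Sk k := by
  refine ⟨mul_ne_zero (by exact_mod_cast hr.ne') hz.1, ?_⟩
  rw [Complex.arg_real_mul _ hr]
  exact hz.2

theorem real_mem_Sk (hk : 1 < k) {x : ℝ} (hx : 0 < x) : (x : ℂ) ∈ Sk k := by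
  refine ⟨by exact_mod_cast hx.ne', ?_⟩
  rw [Complex.arg_ofReal_of_nonneg hx.le, abs_zero]
  exact fc_pos hk

theorem B_real (k : ℝ) {x : ℝ} (hx : 0 < x) : B k x = x := by
  unfold B
  rw [Complex.arg_ofReal_of_nonneg hx.le, mul_zero, Real.cos_zero, Real.one_rpow, mul_one,
    Complex.norm_real, Real.norm_of_nonneg hx.le]

/-- moving to the right -/
theorem B_add (hk : 1 < k) {z : ℂ} (hz : z ∈ Sk k) {t : ℝ} (ht : 0 ≤ t) :
    z + t ∈ Sk k ∧ B k z + t ≤ B k (z + t) := by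
  rcases ht.eq_or_lt with h | h
  · rw [← h]
    simp [hz]
  have ht2 := real_mem_Sk hk h
  have h1 : z + t ∈ Sk k := by
    have := Sk_conv hk hz ht2 (a := 1 / 2) (b := 1 / 2) (by norm_num) (by norm_num) (by norm_num)
    have h2 := Sk_mul (k := k) (r := 2) (by norm_num) this
    have e : ((2 : ℝ) : ℂ) * ((1 / 2 : ℝ) • z + (1 / 2 : ℝ) • (t : ℂ)) = z + t := by
      simp only [Complex.real_smul]
      push_cast
      ring
    rwa [e] at h2
  refine ⟨h1, ?_⟩
  obtain ⟨ψ, h2, h3⟩ := B_eq hk h1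
  have hc : 0 < Real.cos (k * ψ) ^ (1 / k) := by
    have := abs_lt.1 h2
    exact Real.rpow_pos_of_pos (Real.cos_pos_of_mem_Ioo ⟨by linarith, this.2⟩) _
  have hz2 := B_le hk hz h2
  have hw2 := B_le hk ht2 h2
  rw [← mul_exp_re] at hz2 hw2
  rw [B_real k h] at hw2
  rw [add_mul, Complex.add_re] at h3
  refine le_of_mul_le_mul_right ?_ hc
  rw [← h3, add_mul]
  exact add_le_add hz2 hw2

end Pool.Agent.D0H40.CX
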