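import Pool.Agent.D0H40.CX.Fwd2

/-! From the continuation to the growth of the sums: the kernel. -/

set_option autoImplicit false

namespace Pool.Agent.D0H40.CX

open Complex MeasureTheory Filter Topology Set
open Pool.Agent.D0H40.KX
open Pool.Agent.W189.ML (ser)
open scoped ComplexConjugate

variable {k β t ψ : ℝ} {lam c : ℕ → ℝ}

/-- the representation of the series -/
theorem rep_sys (P : Par k β t ψ) (D : Sys lam c) {ρ : ℝ} (hρ : 0 < ρ) :
    (1 / (2 * Real.pi) : ℝ) * ∫ y : ℝ, NN k (sk k β ρ) y * ser lam c (3 + y * I) =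
      fk lam c k (sk k β ρ) - ser lam c 4 := by
  have hN := NN_int P hρ
  set F : ℕ → ℝ → ℂ := fun i y =>
    (c i : ℂ) * (NN k (sk k β ρ) y * exp (-((3 + y * I) * lam i))) with hF
  have hn : ∀ i y, ‖F i y‖ = |c i| * Real.exp (-(3 * lam i)) * ‖NN k (sk k β ρ) y‖ := by
    intro i y
    rw [hF]
    simp only
    rw [norm_mul, norm_mul, Complex.norm_real, Real.norm_eq_abs, Complex.norm_exp (-(_ * _))]
    have : (-((3 + (y : ℂ) * I) * lam i)).re = -(3 * lam i) := by simp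
    rw [this]
    ring
  have hint : ∀ i, Integrable (F i) := fun i => by
    refine Integrable.const_mul ?_ _
    refine hN.mul_bdd (c := 1) ?_ (Eventually.of_forall fun y => ?_)
    · exact (by fun_prop : Continuous fun y : ℝ => exp (-((3 + y * I) * lam i))).aestronglyMeasurable
    · rw [Complex.norm_exp]
      apply Real.exp_le_one_iff.2
      have := D.nonneg i
      have e : (-((3 + (y : ℂ) * I) * lam i)).re = -(3 * lam i) := by simp
      rw [e]
      linarith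
  have hs : Summable fun i => ∫ y, ‖F i y‖ := by
    simp only [hn, integral_const_mul]
    refine Summable.mul_right _ ?_
    refine Summable.of_nonneg_of_le (fun i => by positivity) (fun i => ?_) D.sum
    refine mul_le_mul_of_nonneg_left ?_ (abs_nonneg _)
    apply Real.exp_le_exp.2
    have := D.nonneg i
    linarith
  have h := hasSum_integral_of_summable_integral_norm hint hs
  have e1 : ∀ y : ℝ, ∑' i, F i y = NN k (sk k β ρ) y * ser lam c (3 + y * I) := by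
    intro y
    unfold ser
    rw [← tsum_mul_left]
    refine tsum_congr fun i => ?_
    rw [hF]
    ring
  simp only [e1] at h
  have h2 := h.mul_left (((1 / (2 * Real.pi) : ℝ)) : ℂ)
  have e2 : ∀ i, ((1 / (2 * Real.pi) : ℝ) : ℂ) * ∫ y, F i y =
      (c i : ℂ) * EE k (sk k β ρ) (lam i) - (c i : ℂ) * exp (-(4 * (lam i : ℂ))) := by
    intro i
    rw [← mul_sub, inv_sk P hρ (D.nonneg i), hF]
    simp only
    rw [integral_const_mul]
    ring
  simp only [e2] at h2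
  rw [← h2.tsum_eq]
  have h3 : Summable fun i => (c i : ℂ) * EE k (sk k β ρ) (lam i) :=
    (D.term_summable P.hk (P.sk_pos hρ)).of_norm
  have h4 : Summable fun i => (c i : ℂ) * exp (-(4 * (lam i : ℂ))) := by
    refine Summable.of_norm_bounded D.sum fun i => ?_
    rw [norm_mul, Complex.norm_real, Real.norm_eq_abs, Complex.norm_exp]
    refine mul_le_mul_of_nonneg_left ?_ (abs_nonneg _)
    apply Real.exp_le_exp.2
    have e : (-(4 * (lam i : ℂ))).re = -(4 * lam i) := by simp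
    rw [e]
    have := D.nonneg i
    linarith
  rw [h3.tsum_sub h4]
  rfl

theorem cos_kψ {ψ : ℝ} (h : |k * ψ| < Real.pi / 2) : 0 < Real.cos (k * ψ) :=
  Real.cos_pos_of_mem_Ioo ⟨(abs_lt.1 h).1, (abs_lt.1 h).2⟩

/-- the exponent of the boundary -/
theorem Ex_cos (hk : 1 < k) {b' a : ℝ} (hb : 0 ≤ b') (ha : 0 < a) :
    Ex k (b' * a ^ (1 / k)) * a ^ (-(1 / (k - 1))) = Ex k b' := by
  have hk0 : 0 < k := by linarith
  unfold Ex
  have e : b' * a ^ (1 / k) / k = (b' / k) * a ^ (1 / k) := by ring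
  rw [e, Real.mul_rpow (by positivity) (by positivity), ← Real.rpow_mul ha.le]
  have h7 : 1 / k * kp k = 1 / (k - 1) := by
    rw [← kp_div hk]
    ring
  rw [h7, ← mul_assoc, mul_assoc, ← Real.rpow_add ha, add_neg_cancel, Real.rpow_zero, mul_one]

theorem Kr_loc (hk : 1 < k) {ψ : ℝ} (hψ : |k * ψ| < Real.pi / 2) {b' : ℝ} (hb : 0 ≤ b') :
    ∃ C : ℝ, 0 ≤ C ∧ ∀ ρ : ℝ, 0 < ρ → ρ ≤ 1 → ∀ z : ℂ,
      (z * exp (ψ * I)).re ≤ b' * Real.cos (k * ψ) ^ (1 / k) →
      ‖Kr k ρ z‖ ≤ C * ρ ^ (-kp k) * Real.exp (Ex k b' * ρ ^ (-kp k)) := by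
  have hk0 : 0 < k := by linarith
  have hk1 : 0 < k - 1 := by linarith
  have hc := cos_kψ hψ
  set a : ℝ := Real.cos (k * ψ) with ha
  set x : ℝ := b' * a ^ (1 / k) with hx
  have hx0 : 0 ≤ x := by positivity
  have hxi := int_dom hk hc x
  set Q : ℝ := ∫ v in Ioi (0:ℝ), Real.exp (x * v - a * v ^ k) with hQ
  have hQ0 : 0 ≤ Q := integral_nonneg fun v => (Real.exp_pos _).le
  refine ⟨Q, hQ0, fun ρ hρ hρ1 z hz => ?_⟩
  have hq1 : 1 ≤ ρ ^ (-kp k) := Real.one_le_rpow_of_pos_of_le_one_of_nonpos hρ hρ1 (by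
    have := kp_pos hk
    linarith)
  -- turn
  have h1 := KK_rot hk (α := 0) (ψ := ψ) (by simp; positivity) (by rwa [zero_add]) (z / ρ)
  rw [Complex.ofReal_zero, zero_mul, Complex.exp_zero, zero_add] at h1
  have h2 : ‖Kr k ρ z‖ = ρ⁻¹ * ‖KK k (exp ((k * ψ : ℝ) * I)) (z / ρ * exp (ψ * I))‖ := by
    unfold Kr
    rw [norm_mul, norm_inv, Complex.norm_real, Real.norm_of_nonneg hρ.le, h1, norm_mul,
      Complex.norm_exp_ofReal_mul_I, one_mul]
  rw [h2]
  have hre : (exp ((k * ψ : ℝ) * I)).re = a := by rw [exp_I_re]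
  set s : ℝ := ρ ^ (-(1 / (k - 1))) with hs
  have hs0 : 0 < s := Real.rpow_pos_of_pos hρ _
  have hsk : s ^ k = ρ ^ (-kp k) := by
    rw [hs, ← Real.rpow_mul hρ.le]
    congr 1
    unfold kp
    field_simp
  have hsρ : ρ⁻¹ * s = ρ ^ (-kp k) := by
    rw [hs, ← Real.rpow_neg_one, ← Real.rpow_add hρ]
    congr 1
    rw [kp_eq hk, kp_div hk]
    ring
  have hint2 : IntegrableOn (fun u : ℝ => Real.exp (x / ρ * u - a * u ^ k)) (Ioi 0) := int_dom hk hc _
  have h3 : ‖KK k (exp ((k * ψ : ℝ) * I)) (z / ρ * exp (ψ * I))‖ ≤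
      ∫ u in Ioi (0:ℝ), Real.exp (x / ρ * u - a * u ^ k) := by
    unfold KK
    refine norm_integral_le_of_norm_le hint2 ?_
    refine (ae_restrict_iff' measurableSet_Ioi).2 (Eventually.of_forall fun u hu => ?_)
    have hu0 : 0 < u := hu
    rw [KK_norm_int, hre]
    apply Real.exp_le_exp.2
    have h4 : (z / ρ * exp (ψ * I)).re ≤ x / ρ := by
      have e : z / ρ * exp (ψ * I) = (z * exp (ψ * I)) / (ρ : ℝ) := by ring
      rw [e, Complex.div_ofReal_re]
      exact div_le_div_of_nonneg_right hz hρ.le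
    have := mul_le_mul_of_nonneg_right h4 hu0.le
    linarith
  have h5 : ∫ u in Ioi (0:ℝ), Real.exp (x / ρ * u - a * u ^ k) =
      s * ∫ v in Ioi (0:ℝ), Real.exp (ρ ^ (-kp k) * (x * v - a * v ^ k)) := by
    have h6 := integral_comp_mul_left_Ioi (fun u : ℝ => Real.exp (x / ρ * u - a * u ^ k)) 0 hs0
    rw [mul_zero, smul_eq_mul] at h6
    have h7 : ∫ u in Ioi (0:ℝ), Real.exp (x / ρ * u - a * u ^ k) =
        s * ∫ v in Ioi (0:ℝ), Real.exp (x / ρ * (s * v) - a * (s * v) ^ k) := by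
      rw [h6, ← mul_assoc, mul_inv_cancel₀ hs0.ne', one_mul]
    rw [h7]
    congr 1
    refine setIntegral_congr_fun measurableSet_Ioi fun v hv => ?_
    have hv0 : 0 < v := hv
    rw [Real.mul_rpow hs0.le hv0.le, hsk, ← hsρ]
    congr 1
    ring
  have h8 : ∫ v in Ioi (0:ℝ), Real.exp (ρ ^ (-kp k) * (x * v - a * v ^ k)) ≤
      Real.exp (Ex k b' * ρ ^ (-kp k)) * Q := by
    rw [hQ, ← integral_const_mul]
    refine setIntegral_mono_on ?_ (hxi.const_mul _) measurableSet_Ioi fun v hv => ?_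
    · have h9 := int_dom hk (mul_pos (by linarith : 0 < ρ ^ (-kp k)) hc) (ρ ^ (-kp k) * x)
      refine h9.congr_fun (fun v _ => ?_) measurableSet_Ioi
      simp only
      congr 1
      ring
    · have hv0 : 0 < v := hv
      rw [← Real.exp_add]
      apply Real.exp_le_exp.2
      have h10 := young hk hx0 hc hv0.le
      rw [Ex_cos hk hb hc] at h10
      have h11 := mul_le_mul_of_nonneg_left h10 (sub_nonneg.2 hq1)
      have h12 := Ex_nonneg hk hb
      linarith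
  have hρi : 0 < ρ⁻¹ := inv_pos.2 hρ
  calc ρ⁻¹ * ‖KK k (exp ((k * ψ : ℝ) * I)) (z / ρ * exp (ψ * I))‖ ≤
      ρ⁻¹ * (s * (Real.exp (Ex k b' * ρ ^ (-kp k)) * Q)) := by
        refine mul_le_mul_of_nonneg_left (h3.trans ?_) hρi.le
        rw [h5]
        exact mul_le_mul_of_nonneg_left h8 hs0.le
    _ = Q * (ρ⁻¹ * s) * Real.exp (Ex k b' * ρ ^ (-kp k)) := by ring
    _ = _ := by rw [hsρ]

/-- points at which the kernel is at most `exp (Ex k b' ρ^(-q))` -/
def Good (k b' : ℝ) (z : ℂ) : Prop :=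
  ∃ ψ : ℝ, |k * ψ| < Real.pi / 2 ∧ (z * exp (ψ * I)).re < b' * Real.cos (k * ψ) ^ (1 / k)

theorem Kr_compact (hk : 1 < k) {b' : ℝ} (hb : 0 ≤ b') {K : Set ℂ} (hK : IsCompact K)
    (hG : ∀ z ∈ K, Good k b' z) :
    ∃ C : ℝ, 0 ≤ C ∧ ∀ ρ : ℝ, 0 < ρ → ρ ≤ 1 → ∀ z ∈ K,
      ‖Kr k ρ z‖ ≤ C * ρ ^ (-kp k) * Real.exp (Ex k b' * ρ ^ (-kp k)) := by
  choose! ψ h1 h2 using hG
  have h3 : ∀ z ∈ K, ∃ C : ℝ, 0 ≤ C ∧ ∀ ρ : ℝ, 0 < ρ → ρ ≤ 1 → ∀ v : ℂ,
      (v * exp (ψ z * I)).re ≤ b' * Real.cos (k * ψ z) ^ (1 / k) →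
      ‖Kr k ρ v‖ ≤ C * ρ ^ (-kp k) * Real.exp (Ex k b' * ρ ^ (-kp k)) :=
    fun z hz => Kr_loc hk (h1 z hz) hb
  choose! C hC0 hC using h3
  obtain ⟨T, hTK, hT⟩ := hK.elim_nhds_subcover
    (fun z => {v : ℂ | (v * exp (ψ z * I)).re < b' * Real.cos (k * ψ z) ^ (1 / k)}) (fun z hz => by
      refine (isOpen_lt ?_ continuous_const).mem_nhds (h2 z hz)
      exact Complex.continuous_re.comp (by fun_prop))
  refine ⟨∑ z ∈ T, C z, Finset.sum_nonneg fun z hz => hC0 z (hTK z hz), fun ρ hρ hρ1 v hv => ?_⟩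
  obtain ⟨z, hz, hvz⟩ := mem_iUnion₂.1 (hT hv)
  have hvz' : (v * exp (ψ z * I)).re < b' * Real.cos (k * ψ z) ^ (1 / k) := hvz
  refine (hC z (hTK z hz) ρ hρ hρ1 v hvz'.le).trans ?_
  have h4 : C z ≤ ∑ z ∈ T, C z :=
    Finset.single_le_sum (f := C) (fun z hz => hC0 z (hTK z hz)) hz
  have h5 : 0 ≤ ρ ^ (-kp k) := Real.rpow_nonneg hρ.le _
  gcongr

theorem good_in (hk : 1 < k) {b' : ℝ} {z : ℂ} (hz : z ∈ Sk k) (hB : B k z < b') : Good k b' z := by
  obtain ⟨ψ, h1, h2⟩ := B_eq hk hz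
  refine ⟨ψ, h1, ?_⟩
  rw [h2]
  exact mul_lt_mul_of_pos_right hB (Real.rpow_pos_of_pos (cos_kψ h1) _)

theorem good_out (hk : 1 < k) {b' : ℝ} (hb : 0 < b') {z : ℂ} (hz : z ≠ 0) (h1 : fc k ≤ |arg z|)
    (h2 : |arg z| < Real.pi / 2) : Good k b' z := by
  have hk0 : 0 < k := by linarith
  have hpi := Real.pi_pos
  have hn : 0 < ‖z‖ := norm_pos_iff.2 hz
  have hfe := fc_eq hk
  obtain ⟨ha0, ha1⟩ := inv_k hk
  -- a small angle
  have h3 : Tendsto (fun ε : ℝ => ‖z‖ * ε ^ (1 - 1 / k)) (𝓝[>] 0) (𝓝 0) := by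
    have h4 : ContinuousAt (fun ε : ℝ => ‖z‖ * ε ^ (1 - 1 / k)) 0 :=
      continuousAt_const.mul (Real.continuousAt_rpow_const _ _ (Or.inr (by linarith)))
    have h5 := h4.tendsto
    rw [Real.zero_rpow (by linarith), mul_zero] at h5
    exact h5.mono_left nhdsWithin_le_nhds
  have hpos : 0 < b' * (2 / Real.pi * k) ^ (1 / k) := by positivity
  have h6 : ∀ᶠ ε : ℝ in 𝓝[>] 0, ε < Real.pi / (2 * k) := by
    have : (0:ℝ) < Real.pi / (2 * k) := by positivity
    exact nhdsWithin_le_nhds (eventually_lt_nhds this)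
  obtain ⟨ε, ⟨h7, h8⟩, h9⟩ := ((h3.eventually (eventually_lt_nhds hpos)).and h6 |>.and
    self_mem_nhdsWithin).exists
  have hε : 0 < ε := h9
  have hkε : k * ε < Real.pi / 2 := by
    rw [lt_div_iff₀ (by positivity)] at h8
    linarith
  -- the angle `ψ`, with the sign of `arg z`
  obtain ⟨σ, hσ1, hσ2⟩ : ∃ σ : ℝ, |σ| = 1 ∧ arg z = σ * |arg z| := by
    rcases le_total 0 (arg z) with h | h
    · exact ⟨1, by simp, by rw [abs_of_nonneg h, one_mul]⟩
    · exact ⟨-1, by simp, by rw [abs_of_nonpos h]; ring⟩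
  set x : ℝ := Real.pi / (2 * k) - ε with hx
  have hx0 : 0 < x := by rw [hx]; linarith
  have hσs : σ * σ = 1 := by
    have := congrArg (fun u : ℝ => u ^ 2) hσ1
    simp only [sq_abs, one_pow] at this
    rw [← sq]
    exact this
  have hcos : ∀ u : ℝ, Real.cos (σ * u) = Real.cos u := by
    intro u
    rw [← Real.cos_abs (σ * u), abs_mul, hσ1, one_mul, Real.cos_abs]
  refine ⟨σ * x, ?_, ?_⟩
  · rw [abs_mul, abs_mul, hσ1, one_mul, abs_of_pos hk0, abs_of_pos hx0, hx]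
    have : k * (Real.pi / (2 * k) - ε) = Real.pi / 2 - k * ε := by field_simp
    rw [this]
    have := mul_pos hk0 hε
    linarith
  · rw [mul_exp_re]
    have e1 : arg z + σ * x = σ * (|arg z| + x) := by
      conv_lhs => rw [hσ2]
      ring
    have e2 : k * (σ * x) = σ * (k * x) := by ring
    rw [e1, hcos, e2, hcos]
    have e3 : k * x = Real.pi / 2 - k * ε := by
      rw [hx]
      field_simp
    rw [e3, Real.cos_pi_div_two_sub]
    have h10 : Real.cos (|arg z| + x) ≤ ε := by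
      have h11 : |arg z| + x = Real.pi / 2 - (ε - (|arg z| - fc k)) := by
        rw [hx, hfe]
        ring
      rw [h11, Real.cos_pi_div_two_sub]
      set d : ℝ := |arg z| - fc k with hd
      have hd0 : 0 ≤ d := by rw [hd]; linarith
      rcases le_total (ε - d) 0 with h12 | h12
      · have h13 : Real.sin (ε - d) ≤ 0 := by
          apply Real.sin_nonpos_of_nonpos_of_neg_pi_le h12
          have h14 := fc_pos hk
          linarith
        linarith
      · have := Real.sin_le h12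
        linarith
    have h15 : 2 / Real.pi * (k * ε) ≤ Real.sin (k * ε) :=
      Real.mul_le_sin (by positivity) hkε.le
    have h16 : (2 / Real.pi * k) ^ (1 / k) * ε ^ (1 / k) ≤ Real.sin (k * ε) ^ (1 / k) := by
      rw [← Real.mul_rpow (by positivity) hε.le]
      refine Real.rpow_le_rpow (by positivity) ?_ ha0.le
      rw [mul_assoc]
      exact h15
    have h17 : ‖z‖ * ε = (‖z‖ * ε ^ (1 - 1 / k)) * ε ^ (1 / k) := by
      rw [mul_assoc, ← Real.rpow_add hε]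
      have : 1 - 1 / k + 1 / k = 1 := by ring
      rw [this, Real.rpow_one]
    have hεk : 0 < ε ^ (1 / k) := Real.rpow_pos_of_pos hε _
    calc ‖z‖ * Real.cos (|arg z| + x) ≤ ‖z‖ * ε := mul_le_mul_of_nonneg_left h10 hn.le
      _ = (‖z‖ * ε ^ (1 - 1 / k)) * ε ^ (1 / k) := h17
      _ < (b' * (2 / Real.pi * k) ^ (1 / k)) * ε ^ (1 / k) := mul_lt_mul_of_pos_right h7 hεk
      _ = b' * ((2 / Real.pi * k) ^ (1 / k) * ε ^ (1 / k)) := by ring
      _ ≤ b' * Real.sin (k * ε) ^ (1 / k) := mul_le_mul_of_nonneg_left h16 hb.le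

end Pool.Agent.D0H40.CX
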