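import Pool.Agent.D0H40.CX.Bwd1

/-! From the continuation to the growth of the sums: the geometry of the contour. -/

set_option autoImplicit false

namespace Pool.Agent.D0H40.CX

open Complex MeasureTheory Filter Topology Set
open Pool.Agent.D0H40.KX
open Pool.Agent.D0H40.GC (zt zt_re zt_im pt pt_re pt_im zt_hasDeriv zt_mem exists_prim split_line half_convex)
open Pool.Agent.W189.ML (ser)
open scoped ComplexConjugate

variable {k β t ψ : ℝ} {lam c : ℕ → ℝ}

/-- a continuous version of `B` -/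
noncomputable def Bp (k : ℝ) (z : ℂ) : ℝ := ‖z‖ * (max 0 (Real.cos (kp k * arg z))) ^ (1 / kp k)

theorem Bp_eq (hk : 1 < k) {z : ℂ} (hz : z ∈ Sk k) : Bp k z = B k z := by
  unfold Bp B
  rw [max_eq_right (cos_kp_pos hk hz.2).le]

theorem Bp_cont (hk : 1 < k) {z : ℂ} (hz : 0 < z.re) : ContinuousAt (Bp k) z := by
  unfold Bp
  refine continuous_norm.continuousAt.mul ?_
  refine ContinuousAt.rpow_const ?_ (Or.inr (by have := kp_pos hk; positivity))
  have h1 : ContinuousAt (fun z : ℂ => Real.cos (kp k * arg z)) z :=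
    Real.continuous_cos.continuousAt.comp ((Complex.continuousAt_arg (Or.inl hz)).const_mul _)
  have h2 : Continuous fun x : ℝ => max 0 x := by fun_prop
  exact h2.continuousAt.comp h1

theorem kp_fc2 (hk : 1 < k) {x : ℝ} (h1 : fc k ≤ x) (h2 : x < 2 * fc k) : Real.cos (kp k * x) ≤ 0 := by
  have hq := kp_pos hk
  have h3 := kp_fc hk
  refine Real.cos_nonpos_of_pi_div_two_le_of_le ?_ ?_
  · rw [← h3]
    exact mul_le_mul_of_nonneg_left h1 hq.le
  · have h4 := mul_lt_mul_of_pos_left h2 hq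
    have e : kp k * (2 * fc k) = Real.pi := by
      calc kp k * (2 * fc k) = 2 * (kp k * fc k) := by ring
        _ = _ := by rw [h3]; ring
    rw [e] at h4
    linarith [Real.pi_pos]

theorem Bp_out (hk : 1 < k) {z : ℂ} (h1 : fc k ≤ |arg z|) (h2 : |arg z| < 2 * fc k) : Bp k z = 0 := by
  unfold Bp
  have hq := kp_pos hk
  have h3 : Real.cos (kp k * arg z) = Real.cos (kp k * |arg z|) := by
    rw [← Real.cos_abs (kp k * arg z), abs_mul, abs_of_pos hq]
  rw [h3, max_eq_left (kp_fc2 hk h1 h2), Real.zero_rpow (by positivity), mul_zero]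

/-- the parameters -/
theorem exists_par2 (hk : 1 < k) (hβ : |k * β| < Real.pi / 2) :
    ∃ φ ψ : ℝ, fc k < φ ∧ φ < 2 * fc k ∧ φ < Real.pi / 2 ∧ Par k β (Real.tan φ) ψ := by
  have hk0 : 0 < k := by linarith
  have hfc := fc_pos hk
  have hfe := fc_eq hk
  have h1 : |β| < Real.pi / (2 * k) := by
    rw [abs_mul, abs_of_pos hk0] at hβ
    rw [lt_div_iff₀ (by positivity)]
    linarith
  have h2 : fc k < min (2 * fc k) (Real.pi / 2 - |β|) := lt_min (by linarith) (by linarith)
  obtain ⟨φ, h3, h4⟩ := exists_between h2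
  obtain ⟨ψ, hP⟩ := exists_par hk h3 (h4.trans_le (min_le_right _ _))
  have := abs_nonneg β
  exact ⟨φ, ψ, h3, h4.trans_le (min_le_left _ _), by
    have := h4.trans_le (min_le_right _ _)
    linarith, hP⟩

theorem slope_convex (t : ℝ) : Convex ℝ {z : ℂ | |z.im| ≤ t * z.re} := by
  intro z hz w hw s r hs hr hsr
  have e1 : (s • z + r • w).re = s * z.re + r * w.re := by simp
  have e2 : (s • z + r • w).im = s * z.im + r * w.im := by simp
  show |(s • z + r • w).im| ≤ t * (s • z + r • w).re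
  rw [e1, e2]
  have hz' : |z.im| ≤ t * z.re := hz
  have hw' : |w.im| ≤ t * w.re := hw
  calc |s * z.im + r * w.im| ≤ |s * z.im| + |r * w.im| := abs_add_le _ _
    _ = s * |z.im| + r * |w.im| := by rw [abs_mul, abs_mul, abs_of_nonneg hs, abs_of_nonneg hr]
    _ ≤ s * (t * z.re) + r * (t * w.re) := by gcongr
    _ = _ := by ring

theorem line_cone (P : Par k β t ψ) {y : ℝ} (hy : y ∈ Icc (Y1 β t) (Y2 β t)) :
    |(zt (dl β) y).im| ≤ t * (zt (dl β) y).re := by
  have ht := P.t0
  have h1 := P.X1pos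
  have h2 := P.X2pos
  refine zt_mem (slope_convex t) P.Y12 ?_ ?_ hy
  · rw [P.zY1]
    show |(pt (X1 β t) (-t)).im| ≤ t * (pt (X1 β t) (-t)).re
    rw [pt_re, pt_im, abs_mul, abs_neg, abs_of_pos h1, abs_of_pos ht, mul_comm]
  · rw [P.zY2]
    show |(pt (X2 β t) t).im| ≤ t * (pt (X2 β t) t).re
    rw [pt_re, pt_im, abs_mul, abs_of_pos h2, abs_of_pos ht, mul_comm]

theorem line_pos (P : Par k β t ψ) {y : ℝ} (hy : y ∈ Icc (Y1 β t) (Y2 β t)) :
    0 < (zt (dl β) y).re := by
  have h1 := line_cone P hy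
  have h2 : 0 ≤ (zt (dl β) y).re := Ct_re (R := 0) P.t0 h1
  rcases h2.eq_or_lt with h3 | h3
  · exfalso
    rw [← h3, mul_zero] at h1
    have h4 : (zt (dl β) y).im = 0 := abs_nonpos_iff.1 h1
    have h5 : zt (dl β) y = 0 := Complex.ext h3.symm h4
    have h6 := mul_zt β y
    rw [h5, mul_zero] at h6
    have := congrArg Complex.re h6
    simp at this
  · exact h3

/-- the point of the line where `B` is largest -/
theorem top_point (hk : 1 < k) (hβ : |k * β| < Real.pi / 2) (P : Par k β t ψ) :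
    ∃ y ∈ Icc (Y1 β t) (Y2 β t), zt (dl β) y ∈ Sk k ∧ b0 k β < B k (zt (dl β) y) := by
  have hk0 : 0 < k := by linarith
  have hc := cos_kb hβ
  have hpi := Real.pi_pos
  set y : ℝ := 3 * Real.tan (k * β) with hy
  have hz : zt (dl β) y = ((3 / Real.cos (k * β) : ℝ) : ℂ) * exp ((((k - 1) * β : ℝ) : ℂ) * I) := by
    have h1 : (3 : ℂ) + y * I = ((3 / Real.cos (k * β) : ℝ) : ℂ) * exp ((k * β : ℝ) * I) := by
      apply Complex.ext
      · rw [Complex.re_ofReal_mul, Complex.exp_ofReal_mul_I_re]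
        simp only [Complex.add_re, Complex.mul_re, Complex.ofReal_re, Complex.I_re, mul_zero,
          Complex.ofReal_im, Complex.I_im, mul_one, sub_self, add_zero]
        rw [div_mul_cancel₀ _ hc.ne']
        simp
      · rw [Complex.im_ofReal_mul, Complex.exp_ofReal_mul_I_im]
        simp only [Complex.add_im, Complex.mul_im, Complex.ofReal_re, Complex.I_re, mul_zero,
          Complex.ofReal_im, Complex.I_im, mul_one, add_zero]
        rw [hy, Real.tan_eq_sin_div_cos]
        simp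
        ring
    have h2 : zt (dl β) y = conj (dl β) * ((3 : ℂ) + y * I) := rfl
    rw [h2, h1, conj_dl]
    unfold dl
    have e : exp (((-β : ℝ) : ℂ) * I) * (((3 / Real.cos (k * β) : ℝ) : ℂ) * exp ((k * β : ℝ) * I)) =
        ((3 / Real.cos (k * β) : ℝ) : ℂ) * (exp (((-β : ℝ) : ℂ) * I) * exp ((k * β : ℝ) * I)) := by ring
    rw [e, ← Complex.exp_add]
    congr 2
    push_cast
    ring
  have h3c : 0 < 3 / Real.cos (k * β) := by positivity
  have hlt : |(k - 1) * β| < fc k := by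
    rw [abs_mul, abs_of_pos (by linarith : 0 < k - 1)]
    rw [abs_mul, abs_of_pos hk0] at hβ
    unfold fc
    have e : Real.pi / 2 * (1 - 1 / k) = (k - 1) * (Real.pi / 2 / k) := by field_simp
    rw [e]
    refine mul_lt_mul_of_pos_left ?_ (by linarith)
    rw [lt_div_iff₀ hk0]
    linarith
  have hfl := fc_lt hk
  have harg : arg (zt (dl β) y) = (k - 1) * β := by
    rw [hz, Complex.arg_real_mul _ h3c, Complex.arg_exp_mul_I, toIocMod_eq_self]
    have := abs_lt.1 hlt
    exact ⟨by linarith, by linarith⟩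
  have hnorm : ‖zt (dl β) y‖ = 3 / Real.cos (k * β) := by
    rw [hz, norm_mul, Complex.norm_exp_ofReal_mul_I, mul_one, Complex.norm_real,
      Real.norm_of_nonneg h3c.le]
  have hmem : zt (dl β) y ∈ Sk k := by
    refine ⟨fun h => ?_, by rw [harg]; exact hlt⟩
    rw [h, norm_zero] at hnorm
    linarith
  refine ⟨y, ?_, hmem, ?_⟩
  · have hψ0 := P.ψ0
    have hψ2 : ψ < Real.pi / (2 * k) := by
      have := P.hψ
      rw [lt_div_iff₀ (by positivity)]
      linarith
    have hfe := fc_eq hk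
    have hab := abs_lt.1 hlt
    have hpos : ∀ x : ℝ, |x| = ψ → 0 < (zt (dl β) y * exp ((x : ℂ) * I)).re := by
      intro x hx
      rw [mul_exp_re, harg, hnorm]
      refine mul_pos h3c ?_
      have hx2 : |(k - 1) * β + x| < Real.pi / 2 := by
        refine (abs_add_le _ _).trans_lt ?_
        rw [hx]
        linarith
      exact Real.cos_pos_of_mem_Ioo ⟨(abs_lt.1 hx2).1, (abs_lt.1 hx2).2⟩
    constructor
    · by_contra hc'
      push Not at hc'
      obtain ⟨c₁, hc₁, h1⟩ := P.tail_down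
      have h2 := h1 y hc'
      have h3 := hpos (-ψ) (by rw [abs_neg, abs_of_pos hψ0])
      have : 0 < c₁ * (1 + |y|) := by positivity
      linarith
    · by_contra hc'
      push Not at hc'
      obtain ⟨c₁, hc₁, h1⟩ := P.tail_up
      have h2 := h1 y hc'
      have h3 := hpos ψ (abs_of_pos hψ0)
      have : 0 < c₁ * (1 + |y|) := by positivity
      linarith
  · unfold B b0
    rw [harg, hnorm]
    have e1 : kp k * ((k - 1) * β) = k * β := by
      unfold kp
      have : k - 1 ≠ 0 := by linarith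
      field_simp
    rw [e1, kp_inv hk]
    have e2 : 3 / Real.cos (k * β) * Real.cos (k * β) ^ (1 - 1 / k) =
        3 * Real.cos (k * β) ^ (-(1 / k)) := by
      rw [div_eq_mul_inv, mul_assoc, ← Real.rpow_neg_one, ← Real.rpow_add hc]
      congr 2
      ring
    rw [e2]
    have : 0 < Real.cos (k * β) ^ (-(1 / k)) := Real.rpow_pos_of_pos hc _
    linarith

/-- a continuous function which is large at the left end and small at the right end has a last passage -/
theorem last_pass {f : ℝ → ℝ} {x y b : ℝ} (hxy : x ≤ y) (hf : ContinuousOn f (Icc x y))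
    (hx : b ≤ f x) (hy : f y < b) : ∃ u ∈ Icc x y, f u = b ∧ ∀ v ∈ Icc u y, f v ≤ b := by
  have hcl : IsCompact {v | v ∈ Icc x y ∧ b ≤ f v} := by
    have h1 : IsClosed (Icc x y ∩ f ⁻¹' (Ici b)) := hf.preimage_isClosed_of_isClosed isClosed_Icc isClosed_Ici
    exact isCompact_Icc.of_isClosed_subset h1 inter_subset_left
  obtain ⟨u, hu, hu2⟩ := hcl.exists_isGreatest ⟨x, ⟨le_rfl, hxy⟩, hx⟩
  have h2 : f u = b := by
    rcases hu.2.eq_or_lt with h | h
    · exact h.symm
    · exfalso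
      have h3 : ContinuousOn f (Icc u y) := hf.mono (Icc_subset_Icc_left hu.1.1)
      obtain ⟨v, hv, hv2⟩ := intermediate_value_Icc' hu.1.2 h3 ⟨hy.le, h.le⟩
      have h4 : v ≤ u := hu2 ⟨⟨hu.1.1.trans hv.1, hv.2⟩, hv2.ge⟩
      have h5 : v = u := le_antisymm h4 hv.1
      rw [h5] at hv2
      linarith
  refine ⟨u, hu.1, h2, fun v hv => ?_⟩
  by_contra hc
  push Not at hc
  have h4 : v ≤ u := hu2 ⟨⟨hu.1.1.trans hv.1, hv.2⟩, hc.le⟩
  have h5 : v = u := le_antisymm h4 hv.1
  rw [h5] at hc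
  linarith

theorem first_pass {f : ℝ → ℝ} {x y b : ℝ} (hxy : x ≤ y) (hf : ContinuousOn f (Icc x y))
    (hx : f x < b) (hy : b ≤ f y) : ∃ u ∈ Icc x y, f u = b ∧ ∀ v ∈ Icc x u, f v ≤ b := by
  have hneg : ∀ v : ℝ, v ∈ Icc (-y) (-x) → -v ∈ Icc x y := fun v hv =>
    ⟨by linarith [hv.2], by linarith [hv.1]⟩
  have h1 : ContinuousOn (fun v => f (-v)) (Icc (-y) (-x)) :=
    hf.comp continuous_neg.continuousOn hneg
  obtain ⟨u, hu, h2, h3⟩ := last_pass (f := fun v => f (-v)) (neg_le_neg hxy) h1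
    (by simpa using hy) (by simpa using hx)
  refine ⟨-u, hneg u hu, h2, fun v hv => ?_⟩
  have := h3 (-v) ⟨by linarith [hv.2], by linarith [hv.1]⟩
  simpa using this

/-- the level curve -/
noncomputable def gam (k b φ : ℝ) : ℂ := ((b * Real.cos (kp k * φ) ^ (-(1 / kp k)) : ℝ) : ℂ) * exp (φ * I)

/-- its derivative -/
noncomputable def gam' (k b φ : ℝ) : ℂ :=
  ((b * (Real.sin (kp k * φ) * Real.cos (kp k * φ) ^ (-(1 / kp k) - 1)) : ℝ) : ℂ) * exp (φ * I) +
    ((b * Real.cos (kp k * φ) ^ (-(1 / kp k)) : ℝ) : ℂ) * (exp (φ * I) * I)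

theorem gam_arg (hk : 1 < k) {b φ : ℝ} (hb : 0 < b) (hφ : |φ| < fc k) : arg (gam k b φ) = φ ∧
    gam k b φ ∈ Sk k ∧ B k (gam k b φ) = b := by
  have hc := cos_kp_pos hk hφ
  have hr : 0 < b * Real.cos (kp k * φ) ^ (-(1 / kp k)) := by positivity
  have hfl := fc_lt hk
  have h1 : arg (gam k b φ) = φ := by
    unfold gam
    rw [Complex.arg_real_mul _ hr, Complex.arg_exp_mul_I, toIocMod_eq_self]
    have := abs_lt.1 hφ
    have := Real.pi_pos
    exact ⟨by linarith, by linarith⟩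
  refine ⟨h1, ⟨?_, by rw [h1]; exact hφ⟩, ?_⟩
  · unfold gam
    exact mul_ne_zero (by exact_mod_cast hr.ne') (Complex.exp_ne_zero _)
  · unfold B
    rw [h1]
    unfold gam
    rw [norm_mul, Complex.norm_exp_ofReal_mul_I, mul_one, Complex.norm_real,
      Real.norm_of_nonneg hr.le, mul_assoc, ← Real.rpow_add hc, neg_add_cancel, Real.rpow_zero, mul_one]

theorem gam_of (hk : 1 < k) {b : ℝ} {z : ℂ} (hz : z ∈ Sk k) (hB : B k z = b) : gam k b (arg z) = z := by
  have hc := cos_kp_pos hk hz.2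
  unfold gam
  have h1 : b * Real.cos (kp k * arg z) ^ (-(1 / kp k)) = ‖z‖ := by
    rw [← hB]
    unfold B
    rw [mul_assoc, ← Real.rpow_add hc, add_neg_cancel, Real.rpow_zero, mul_one]
  rw [h1]
  exact Complex.norm_mul_exp_arg_mul_I z

theorem gam_deriv (hk : 1 < k) (b : ℝ) {φ : ℝ} (hφ : |φ| < fc k) :
    HasDerivAt (gam k b) (gam' k b φ) φ := by
  have hc := cos_kp_pos hk hφ
  have hq := kp_pos hk
  have h1 : HasDerivAt (fun φ : ℝ => Real.cos (kp k * φ)) (-Real.sin (kp k * φ) * kp k) φ := by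
    have h0 : HasDerivAt (fun φ : ℝ => kp k * φ) (kp k) φ := by
      simpa using (hasDerivAt_id φ).const_mul (kp k)
    exact (Real.hasDerivAt_cos (kp k * φ)).comp φ h0
  have h2 : HasDerivAt (fun φ : ℝ => b * Real.cos (kp k * φ) ^ (-(1 / kp k)))
      (b * (Real.sin (kp k * φ) * Real.cos (kp k * φ) ^ (-(1 / kp k) - 1))) φ := by
    refine ((h1.rpow_const (p := -(1 / kp k)) (Or.inl hc.ne')).const_mul b).congr_deriv ?_
    field_simp
  have h3 : HasDerivAt (fun φ : ℝ => exp ((φ : ℂ) * I)) (exp (φ * I) * I) φ := by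
    have := ((hasDerivAt_id φ).ofReal_comp.mul_const I).cexp
    simpa using this
  have h4 := h2.ofReal_comp.mul h3
  unfold gam gam'
  exact h4

theorem gam'_cont (hk : 1 < k) (b : ℝ) {φ : ℝ} (hφ : |φ| < fc k) : ContinuousAt (gam' k b) φ := by
  have hc := cos_kp_pos hk hφ
  have h1 : ContinuousAt (fun φ : ℝ => Real.cos (kp k * φ)) φ := by fun_prop
  have h2 : ContinuousAt (fun φ : ℝ => Real.cos (kp k * φ) ^ (-(1 / kp k) - 1)) φ :=
    h1.rpow_const (Or.inl hc.ne')
  have h3 : ContinuousAt (fun φ : ℝ => Real.cos (kp k * φ) ^ (-(1 / kp k))) φ :=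
    h1.rpow_const (Or.inl hc.ne')
  have h4 : ContinuousAt (fun φ : ℝ => Real.sin (kp k * φ)) φ := by fun_prop
  have h5 : ContinuousAt (fun φ : ℝ => exp ((φ : ℂ) * I)) φ := by fun_prop
  unfold gam'
  refine ContinuousAt.add ?_ ?_
  · exact (Complex.continuous_ofReal.continuousAt.comp (continuousAt_const.mul (h4.mul h2))).mul h5
  · exact (Complex.continuous_ofReal.continuousAt.comp (continuousAt_const.mul h3)).mul (h5.mul_const I)

end Pool.Agent.D0H40.CX
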