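import Pool.Agent.D0H40.CX.Bwd2

/-! From the continuation to the growth of the sums. -/

set_option autoImplicit false

namespace Pool.Agent.D0H40.CX

open Complex MeasureTheory Filter Topology Set
open Pool.Agent.D0H40.KX
open Pool.Agent.D0H40.GC (zt zt_re zt_im pt pt_re pt_im zt_hasDeriv zt_mem exists_prim split_line half_convex)
open Pool.Agent.W189.ML (ser)
open scoped ComplexConjugate

variable {k β t ψ : ℝ} {lam c : ℕ → ℝ}

theorem ser_line (S : Sys lam c) : ∃ M : ℝ, 0 ≤ M ∧ ∀ y : ℝ, ‖ser lam c (3 + y * I)‖ ≤ M := by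
  refine ⟨∑' i, |c i| * Real.exp (-(2 * lam i)), tsum_nonneg fun i => by positivity, fun y => ?_⟩
  unfold ser
  refine tsum_of_norm_bounded S.sum.hasSum fun i => ?_
  rw [norm_mul, Complex.norm_real, Real.norm_eq_abs, Complex.norm_exp]
  refine mul_le_mul_of_nonneg_left ?_ (abs_nonneg _)
  apply Real.exp_le_exp.2
  have : (-((3 + (y : ℂ) * I) * lam i)).re = -(3 * lam i) := by simp
  rw [this]
  have := S.nonneg i
  linarith

theorem ser_line_cont (S : Sys lam c) : Continuous fun y : ℝ => ser lam c (3 + y * I) := by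
  have h1 : ContinuousOn (ser lam c) {w | 2 < w.re} := (ser_diff S).continuousOn
  refine h1.comp_continuous (by fun_prop) fun y => ?_
  show 2 < (3 + (y : ℂ) * I).re
  simp
  norm_num

theorem frac_cont : Continuous fun y : ℝ => (1 / (3 + y * I) + 1 / (1 - y * I) : ℂ) := by
  refine Continuous.add ?_ ?_
  · refine continuous_const.div (by fun_prop) fun y => ?_
    intro h
    have := congrArg Complex.re h
    simp at this
  · refine continuous_const.div (by fun_prop) fun y => ?_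
    intro h
    have := congrArg Complex.re h
    simp at this

theorem zt_cont (d : ℂ) : Continuous fun y : ℝ => zt d y := by
  unfold zt
  fun_prop

theorem absorb (hk : 1 < k) {b₂ b' : ℝ} (hb : 0 ≤ b₂) (h : b₂ < b') {v : ℝ} (_hv : 0 ≤ v) :
    v * Real.exp (Ex k b₂ * v) ≤ (Ex k b' - Ex k b₂)⁻¹ * Real.exp (Ex k b' * v) := by
  have hE : 0 < Ex k b' - Ex k b₂ := sub_pos.2 (Ex_lt hk hb h)
  have h1 := Real.add_one_le_exp ((Ex k b' - Ex k b₂) * v)
  have h2 : v ≤ (Ex k b' - Ex k b₂)⁻¹ * Real.exp ((Ex k b' - Ex k b₂) * v) := by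
    rw [← div_eq_inv_mul, le_div_iff₀ hE]
    linarith
  calc v * Real.exp (Ex k b₂ * v) ≤
      ((Ex k b' - Ex k b₂)⁻¹ * Real.exp ((Ex k b' - Ex k b₂) * v)) * Real.exp (Ex k b₂ * v) :=
        mul_le_mul_of_nonneg_right h2 (Real.exp_pos _).le
    _ = _ := by
        rw [mul_assoc, ← Real.exp_add]
        ring_nf

/-- **From the continuation to the growth.** -/
theorem backward (hk : 1 < k) (S : Sys lam c) (hβ : |k * β| < Real.pi / 2) {b : ℝ} (hb : 0 ≤ b)
    {Ψ : ℂ → ℂ} (hΨ : DifferentiableOn ℂ Ψ (HB k b))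
    (heq : ∀ z ∈ HB k b, 2 < (dl β * z).re → Ψ z = ser lam c (dl β * z)) : Growth lam c k β b := by
  have hk0 : 0 < k := by linarith
  have hk1 : 0 < k - 1 := by linarith
  intro b' hb'
  have hb'0 : 0 < b' := hb.trans_lt hb'
  have hA0 : 0 ≤ ∑' i, |c i| * Real.exp (-(2 * lam i)) := tsum_nonneg fun i => by positivity
  by_cases hbig : b0 k β ≤ b'
  · refine ⟨∑' i, |c i| * Real.exp (-(2 * lam i)), hA0, fun κ hκ _ => ?_⟩
    refine (S.fk_le hk (kb_pos hβ hκ)).trans ?_
    rw [Ex_b0 hk hβ κ hκ]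
    refine mul_le_mul_of_nonneg_left ?_ hA0
    apply Real.exp_le_exp.2
    refine mul_le_mul_of_nonneg_right (Ex_mono hk (b0_nonneg hβ) hbig) (Real.rpow_nonneg hκ.le _)
  push Not at hbig
  obtain ⟨b₁, hb1, hb12⟩ := exists_between hb'
  obtain ⟨b₂, hb2, hb2'⟩ := exists_between hb12
  have hb10 : 0 < b₁ := hb.trans_lt hb1
  have hb20 : 0 < b₂ := hb10.trans hb2
  obtain ⟨φ, ψ, hφ1, hφ2, hφ3, P⟩ := exists_par2 hk hβ
  have hfc := fc_pos hk
  have hφ0 : 0 < φ := by linarith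
  set t : ℝ := Real.tan φ with ht
  have h12 := P.Y12
  -- the line
  have hargl : ∀ y ∈ Icc (Y1 β t) (Y2 β t), |arg (zt (dl β) y)| ≤ φ := fun y hy =>
    (cone_arg hφ0 hφ3 _).1 (line_cone P hy)
  have hztc := zt_cont (dl β)
  have hfcont : ContinuousOn (fun y : ℝ => Bp k (zt (dl β) y)) (Icc (Y1 β t) (Y2 β t)) := by
    intro y hy
    refine ContinuousAt.continuousWithinAt ?_
    exact ContinuousAt.comp (f := fun y : ℝ => zt (dl β) y) (Bp_cont hk (line_pos P hy)) hztc.continuousAt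
  obtain ⟨ys, hys, hys1, hys2⟩ := top_point hk hβ P
  have htop : b₁ ≤ Bp k (zt (dl β) ys) := by
    rw [Bp_eq hk hys1]
    linarith
  have hargend : ∀ x : ℝ, 0 < x → ∀ s : ℝ, |s| = t → |arg (pt x s)| = φ := by
    intro x hx s hs
    have h1 : |arg (pt x s)| ≤ φ := (cone_arg hφ0 hφ3 _).1 (by
      show |(pt x s).im| ≤ t * (pt x s).re
      rw [pt_re, pt_im, abs_mul, hs, abs_of_pos hx, mul_comm])
    refine le_antisymm h1 ?_
    by_contra hc
    push Not at hc
    obtain ⟨φ', h2, h3⟩ := exists_between hc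
    have hφ'0 : 0 < φ' := (abs_nonneg _).trans_lt h2
    have h4 := (cone_arg hφ'0 (h3.trans hφ3) (pt x s)).2 h2.le
    rw [pt_re, pt_im, abs_mul, hs, abs_of_pos hx] at h4
    have h5 : Real.tan φ' < Real.tan φ :=
      Real.tan_lt_tan_of_nonneg_of_lt_pi_div_two hφ'0.le hφ3 h3
    rw [← ht] at h5
    have := mul_lt_mul_of_pos_right h5 hx
    linarith
  have hend2 : Bp k (zt (dl β) (Y2 β t)) < b₁ := by
    rw [P.zY2, Bp_out hk (by rw [hargend _ P.X2pos t (abs_of_pos P.t0)]; exact hφ1.le)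
      (by rw [hargend _ P.X2pos t (abs_of_pos P.t0)]; exact hφ2)]
    exact hb10
  have hend1 : Bp k (zt (dl β) (Y1 β t)) < b₁ := by
    rw [P.zY1, Bp_out hk (by rw [hargend _ P.X1pos (-t) (by rw [abs_neg, abs_of_pos P.t0])]; exact hφ1.le)
      (by rw [hargend _ P.X1pos (-t) (by rw [abs_neg, abs_of_pos P.t0])]; exact hφ2)]
    exact hb10
  obtain ⟨yp, hyp, hyp1, hyp2⟩ := last_pass (b := b₁) hys.2 (hfcont.mono (Icc_subset_Icc_left hys.1)) htop hend2
  obtain ⟨ym, hym, hym1, hym2⟩ := first_pass (b := b₁) hys.1 (hfcont.mono (Icc_subset_Icc_right hys.2)) hend1 htop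
  have hypI : yp ∈ Icc (Y1 β t) (Y2 β t) := ⟨hys.1.trans hyp.1, hyp.2⟩
  have hymI : ym ∈ Icc (Y1 β t) (Y2 β t) := ⟨hym.1, hym.2.trans hys.2⟩
  have hmp : ym ≤ yp := hym.2.trans hyp.1
  -- the crossing points
  have hcross : ∀ y ∈ Icc (Y1 β t) (Y2 β t), Bp k (zt (dl β) y) = b₁ →
      zt (dl β) y ∈ Sk k ∧ B k (zt (dl β) y) = b₁ := by
    intro y hy h1
    have h2 : |arg (zt (dl β) y)| < fc k := by
      by_contra hc
      push Not at hc
      rw [Bp_out hk hc ((hargl y hy).trans_lt hφ2)] at h1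
      linarith
    have h3 : zt (dl β) y ∈ Sk k := by
      refine ⟨fun h => ?_, h2⟩
      have := line_pos P hy
      rw [h] at this
      simp at this
    exact ⟨h3, by rw [← Bp_eq hk h3]; exact h1⟩
  obtain ⟨hzp, hBp⟩ := hcross yp hypI hyp1
  obtain ⟨hzm, hBm⟩ := hcross ym hymI hym1
  have hgood : ∀ y ∈ Icc (Y1 β t) (Y2 β t), Bp k (zt (dl β) y) ≤ b₁ → Good k b₂ (zt (dl β) y) := by
    intro y hy h1
    have hne : zt (dl β) y ≠ 0 := by
      intro h
      have := line_pos P hy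
      rw [h] at this
      simp at this
    rcases lt_or_ge |arg (zt (dl β) y)| (fc k) with h2 | h2
    · have h3 : zt (dl β) y ∈ Sk k := ⟨hne, h2⟩
      rw [Bp_eq hk h3] at h1
      exact good_in hk h3 (h1.trans_lt hb2)
    · exact good_out hk hb20 hne h2 ((hargl y hy).trans_lt hφ3)
  -- the compact sets
  obtain ⟨C₁, hC₁, hK1⟩ := Kr_compact hk hb20.le (K := (fun y : ℝ => zt (dl β) y) '' Icc yp (Y2 β t))
    (isCompact_Icc.image hztc) (by
      rintro z ⟨y, hy, rfl⟩
      exact hgood y ⟨hypI.1.trans hy.1, hy.2⟩ (hyp2 y hy))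
  obtain ⟨C₂, hC₂, hK2⟩ := Kr_compact hk hb20.le (K := (fun y : ℝ => zt (dl β) y) '' Icc (Y1 β t) ym)
    (isCompact_Icc.image hztc) (by
      rintro z ⟨y, hy, rfl⟩
      exact hgood y ⟨hy.1, hy.2.trans hymI.2⟩ (hym2 y hy))
  set θp : ℝ := arg (zt (dl β) yp) with hθp
  set θm : ℝ := arg (zt (dl β) ym) with hθm
  have hθ : ∀ φ ∈ uIcc θm θp, |φ| < fc k := by
    intro φ hφ
    have h1 := abs_lt.1 hzp.2
    have h2 := abs_lt.1 hzm.2
    rw [mem_uIcc] at hφ
    rw [abs_lt]
    rcases hφ with h | h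
    · exact ⟨by linarith, by linarith⟩
    · exact ⟨by linarith, by linarith⟩
  have hgc : ContinuousOn (gam k b₁) (uIcc θm θp) := fun φ hφ =>
    (gam_deriv hk b₁ (hθ φ hφ)).continuousAt.continuousWithinAt
  have hgc' : ContinuousOn (gam' k b₁) (uIcc θm θp) := fun φ hφ =>
    (gam'_cont hk b₁ (hθ φ hφ)).continuousWithinAt
  have hgm : ∀ φ ∈ uIcc θm θp, gam k b₁ φ ∈ HB k b := fun φ hφ => by
    obtain ⟨-, h2, h3⟩ := gam_arg hk hb10 (hθ φ hφ)
    exact ⟨h2, by rw [h3]; exact hb1⟩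
  obtain ⟨C₃, hC₃, hK3⟩ := Kr_compact hk hb20.le (K := gam k b₁ '' uIcc θm θp)
    (isCompact_uIcc.image_of_continuousOn hgc) (by
      rintro z ⟨φ, hφ, rfl⟩
      obtain ⟨-, h2, h3⟩ := gam_arg hk hb10 (hθ φ hφ)
      exact good_in hk h2 (by rw [h3]; exact hb2))
  obtain ⟨MΨ, hMΨ⟩ := isCompact_uIcc.exists_bound_of_continuousOn
    (hΨ.continuousOn.comp hgc hgm)
  obtain ⟨Mg, hMg⟩ := isCompact_uIcc.exists_bound_of_continuousOn hgc'
  have hMΨ0 : 0 ≤ MΨ := (norm_nonneg _).trans (hMΨ θm left_mem_uIcc)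
  have hMg0 : 0 ≤ Mg := (norm_nonneg _).trans (hMg θm left_mem_uIcc)
  obtain ⟨M, hM0, hM⟩ := ser_line S
  have hScont := ser_line_cont S
  -- the rest of the kernel
  set Rr : ℝ → ℂ := fun y => conj (dl β) * (1 / zt (dl β) y) - (1 / (3 + y * I) + 1 / (1 - y * I)) with hRr
  have hRc : ContinuousOn Rr (Icc (Y1 β t) (Y2 β t)) := by
    refine ContinuousOn.sub ?_ frac_cont.continuousOn
    refine continuousOn_const.mul (continuousOn_const.div hztc.continuousOn fun y hy h => ?_)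
    have := line_pos P hy
    rw [h] at this
    simp at this
  obtain ⟨MR, hMR⟩ := isCompact_Icc.exists_bound_of_continuousOn hRc
  have hMR0 : 0 ≤ MR := (norm_nonneg _).trans (hMR _ (left_mem_Icc.2 h12.le))
  obtain ⟨CT, hCT, hTail⟩ := NN_tail P
  set Ip : ℝ := ∫ y : ℝ, (1 + y ^ 2)⁻¹ with hIp
  have hIp0 : 0 ≤ Ip := integral_nonneg fun y => by positivity
  set Ly : ℝ := Y2 β t - Y1 β t with hLy
  have hLy0 : 0 ≤ Ly := by rw [hLy]; linarith
  -- the estimate of the integral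
  have key : ∀ ρ : ℝ, 0 < ρ → ρ ≤ 1 → ‖∫ y : ℝ, NN k (sk k β ρ) y * ser lam c (3 + y * I)‖ ≤
      ((C₁ + C₂) * M * Ly + C₃ * MΨ * Mg * |θp - θm| + MR * M * Ly + (CT + 4) * M * Ip) *
        (ρ ^ (-kp k) * Real.exp (Ex k b₂ * ρ ^ (-kp k))) := by
    intro ρ hρ hρ1
    set V : ℝ := ρ ^ (-kp k) * Real.exp (Ex k b₂ * ρ ^ (-kp k)) with hV
    have hv1 : 1 ≤ ρ ^ (-kp k) := Real.one_le_rpow_of_pos_of_le_one_of_nonpos hρ hρ1 (by
      have := kp_pos hk
      linarith)
    have hV1 : 1 ≤ V := by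
      have h1 : 1 ≤ Real.exp (Ex k b₂ * ρ ^ (-kp k)) := Real.one_le_exp (by
        have := Ex_nonneg hk hb20.le
        positivity)
      have := one_le_mul_of_one_le_of_one_le hv1 h1
      exact this
    have hV0 : 0 ≤ V := by linarith
    have hNi := NN_int P hρ
    have hNS : Integrable fun y : ℝ => NN k (sk k β ρ) y * ser lam c (3 + y * I) :=
      hNi.mul_bdd (c := M) hScont.aestronglyMeasurable (Eventually.of_forall hM)
    have hρk1 : ρ ^ k ≤ 1 := Real.rpow_le_one hρ.le hρ1 hk0.le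
    have hfirst := split_line hNS h12.le (g := fun y => ((CT + 4) * M) * (1 + y ^ 2)⁻¹)
      (integrable_inv_one_add_sq.const_mul _) (fun y => by positivity) (fun y hy => by
        rw [norm_mul]
        calc _ ≤ ((CT * ρ ^ k + 4) * (1 + y ^ 2)⁻¹) * M :=
              mul_le_mul (hTail ρ hρ y hy) (hM y) (norm_nonneg _) (by
                have : 0 < ρ ^ k := Real.rpow_pos_of_pos hρ _
                positivity)
          _ ≤ ((CT * 1 + 4) * (1 + y ^ 2)⁻¹) * M := by gcongr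
          _ = _ := by ring)
    rw [integral_const_mul, ← hIp] at hfirst
    -- the middle
    set g : ℂ → ℂ := fun z => Kr k ρ z * Ψ z with hg
    have hgd : DifferentiableOn ℂ g (HB k b) := (kcont hk ρ).differentiableOn.mul hΨ
    obtain ⟨Pr, hPr⟩ := exists_prim (HB_open hk b) (HB_conv hk b) hgd
    set f : ℝ → ℂ := fun y => conj (dl β) * Kr k ρ (zt (dl β) y) * ser lam c (3 + y * I) with hf
    have hKc : Continuous fun y : ℝ => Kr k ρ (zt (dl β) y) := (kcont hk ρ).continuous.comp hztc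
    have hfc : Continuous f := (continuous_const.mul hKc).mul hScont
    have hRS : ContinuousOn (fun y => Rr y * ser lam c (3 + y * I)) (Icc (Y1 β t) (Y2 β t)) :=
      hRc.mul hScont.continuousOn
    have hsplit : ∫ y in (Y1 β t)..(Y2 β t), NN k (sk k β ρ) y * ser lam c (3 + y * I) =
        (∫ y in (Y1 β t)..(Y2 β t), f y) + ∫ y in (Y1 β t)..(Y2 β t), Rr y * ser lam c (3 + y * I) := by
      rw [← intervalIntegral.integral_add (hfc.intervalIntegrable _ _)
        (ContinuousOn.intervalIntegrable (by rw [uIcc_of_le h12.le]; exact hRS))]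
      refine intervalIntegral.integral_congr fun y _ => ?_
      rw [NN_eq P hρ, hf, hRr]
      ring
    have hR1 : ‖∫ y in (Y1 β t)..(Y2 β t), Rr y * ser lam c (3 + y * I)‖ ≤ MR * M * Ly := by
      have := intervalIntegral.norm_integral_le_of_norm_le_const (a := Y1 β t) (b := Y2 β t)
        (f := fun y => Rr y * ser lam c (3 + y * I)) (C := MR * M) (fun y hy => by
          rw [uIoc_of_le h12.le] at hy
          rw [norm_mul]
          exact mul_le_mul (hMR y ⟨hy.1.le, hy.2⟩) (hM y) (norm_nonneg _) hMR0)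
      rwa [abs_of_nonneg (by linarith : 0 ≤ Y2 β t - Y1 β t)] at this
    have houter : ∀ {C x y : ℝ}, 0 ≤ C → x ≤ y → y - x ≤ Ly →
        (∀ z ∈ (fun y : ℝ => zt (dl β) y) '' Icc x y, ‖Kr k ρ z‖ ≤ C * ρ ^ (-kp k) *
          Real.exp (Ex k b₂ * ρ ^ (-kp k))) → ‖∫ y in x..y, f y‖ ≤ C * M * Ly * V := by
      intro C x y hC hxy hyL h1
      have h2 := intervalIntegral.norm_integral_le_of_norm_le_const (a := x) (b := y)
        (f := f) (C := (C * V) * M) (fun u hu => by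
          rw [uIoc_of_le hxy] at hu
          rw [hf]
          simp only
          rw [norm_mul, norm_mul, Complex.norm_conj, dl_norm, one_mul]
          refine mul_le_mul ?_ (hM u) (norm_nonneg _) (by positivity)
          refine (h1 _ ⟨u, ⟨hu.1.le, hu.2⟩, rfl⟩).trans (le_of_eq ?_)
          rw [hV]
          ring)
      rw [abs_of_nonneg (by linarith : 0 ≤ y - x)] at h2
      refine h2.trans ?_
      calc C * V * M * (y - x) ≤ C * V * M * Ly := mul_le_mul_of_nonneg_left hyL (by positivity)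
        _ = _ := by ring
    have ho1 := houter hC₁ hyp.2 (by rw [hLy]; linarith [hypI.1]) (hK1 ρ hρ hρ1)
    have ho2 := houter hC₂ hym.1 (by rw [hLy]; linarith [hymI.2]) (hK2 ρ hρ hρ1)
    have hmem : ∀ y ∈ Icc ym yp, zt (dl β) y ∈ HB k b := by
      intro y hy
      rcases hmp.eq_or_lt with h | h
      · have : y = yp := le_antisymm hy.2 (by rw [← h]; exact hy.1)
        rw [this]
        exact ⟨hzp, by rw [hBp]; exact hb1⟩
      · exact zt_mem (HB_conv hk b) h ⟨hzm, by rw [hBm]; exact hb1⟩ ⟨hzp, by rw [hBp]; exact hb1⟩ hy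
    have hmid : ∫ y in ym..yp, f y = (Pr (zt (dl β) yp) - Pr (zt (dl β) ym)) / I := by
      have h1 : ∀ y ∈ uIcc ym yp, HasDerivAt (fun y : ℝ => Pr (zt (dl β) y) / I) (f y) y := by
        intro y hy
        rw [uIcc_of_le hmp] at hy
        have h2 := ((hPr _ (hmem y hy)).comp y (zt_hasDeriv (dl β) y)).div_const I
        refine h2.congr_deriv ?_
        have h3 : Ψ (zt (dl β) y) = ser lam c (3 + y * I) := by
          rw [heq _ (hmem y hy) (by
            rw [mul_zt]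
            simp
            norm_num), mul_zt]
        rw [hg, hf]
        simp only
        rw [h3, mul_div_assoc, mul_div_assoc, div_self I_ne_zero, mul_one]
        ring
      rw [intervalIntegral.integral_eq_sub_of_hasDerivAt h1 (hfc.intervalIntegrable _ _), sub_div]
    have hcurve : ‖Pr (zt (dl β) yp) - Pr (zt (dl β) ym)‖ ≤ C₃ * V * MΨ * Mg * |θp - θm| := by
      have h1 : ∀ φ ∈ uIcc θm θp, HasDerivWithinAt (fun φ => Pr (gam k b₁ φ))
          (g (gam k b₁ φ) * gam' k b₁ φ) (uIcc θm θp) φ := fun φ hφ =>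
        ((hPr _ (hgm φ hφ)).comp φ (gam_deriv hk b₁ (hθ φ hφ))).hasDerivWithinAt
      have h2 : ∀ φ ∈ uIcc θm θp, ‖g (gam k b₁ φ) * gam' k b₁ φ‖ ≤ C₃ * V * MΨ * Mg := by
        intro φ hφ
        rw [hg, norm_mul, norm_mul]
        have h3 := hK3 ρ hρ hρ1 _ ⟨φ, hφ, rfl⟩
        have h4 : ‖Kr k ρ (gam k b₁ φ)‖ ≤ C₃ * V := h3.trans (le_of_eq (by rw [hV]; ring))
        exact mul_le_mul (mul_le_mul h4 (hMΨ φ hφ) (norm_nonneg _) (by positivity)) (hMg φ hφ)
          (norm_nonneg _) (by positivity)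
      have h3 := (convex_uIcc θm θp).norm_image_sub_le_of_norm_hasDerivWithin_le h1 h2
        left_mem_uIcc right_mem_uIcc
      rw [hθp, hθm, gam_of hk hzp hBp, gam_of hk hzm hBm] at h3
      rwa [Real.norm_eq_abs] at h3
    have hall : ‖∫ y in (Y1 β t)..(Y2 β t), f y‖ ≤
        ((C₁ + C₂) * M * Ly + C₃ * MΨ * Mg * |θp - θm|) * V := by
      have e1 : ∫ y in (Y1 β t)..(Y2 β t), f y =
          (∫ y in (Y1 β t)..ym, f y) + (∫ y in ym..yp, f y) + ∫ y in yp..(Y2 β t), f y := by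
        rw [intervalIntegral.integral_add_adjacent_intervals (hfc.intervalIntegrable _ _)
          (hfc.intervalIntegrable _ _), intervalIntegral.integral_add_adjacent_intervals
          (hfc.intervalIntegrable _ _) (hfc.intervalIntegrable _ _)]
      rw [e1]
      refine (norm_add_le _ _).trans ?_
      refine (add_le_add (norm_add_le _ _) le_rfl).trans ?_
      have hm2 : ‖∫ y in ym..yp, f y‖ ≤ C₃ * V * MΨ * Mg * |θp - θm| := by
        rw [hmid, norm_div, Complex.norm_I, div_one]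
        exact hcurve
      refine (add_le_add (add_le_add ho2 hm2) ho1).trans (le_of_eq ?_)
      ring
    calc ‖∫ y : ℝ, NN k (sk k β ρ) y * ser lam c (3 + y * I)‖ ≤
        ‖∫ y in (Y1 β t)..(Y2 β t), NN k (sk k β ρ) y * ser lam c (3 + y * I)‖ + (CT + 4) * M * Ip := hfirst
      _ ≤ (((C₁ + C₂) * M * Ly + C₃ * MΨ * Mg * |θp - θm|) * V + MR * M * Ly) + (CT + 4) * M * Ip := by
          rw [hsplit]
          exact add_le_add ((norm_add_le _ _).trans (add_le_add hall hR1)) le_rfl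
      _ ≤ (((C₁ + C₂) * M * Ly + C₃ * MΨ * Mg * |θp - θm|) * V + MR * M * Ly * V) +
          (CT + 4) * M * Ip * V := by
          have h1 : MR * M * Ly ≤ MR * M * Ly * V := le_mul_of_one_le_right (by positivity) hV1
          have h2 : (CT + 4) * M * Ip ≤ (CT + 4) * M * Ip * V := le_mul_of_one_le_right (by positivity) hV1
          linarith
      _ = _ := by ring
  set K0 : ℝ := (C₁ + C₂) * M * Ly + C₃ * MΨ * Mg * |θp - θm| + MR * M * Ly + (CT + 4) * M * Ip with hK0
  have hK00 : 0 ≤ K0 := by positivity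
  have hE : 0 < Ex k b' - Ex k b₂ := sub_pos.2 (Ex_lt hk hb20.le hb2')
  refine ⟨1 / (2 * Real.pi) * K0 * (Ex k b' - Ex k b₂)⁻¹ + ‖ser lam c 4‖, by positivity,
    fun κ hκ hκ1 => ?_⟩
  set ρ : ℝ := κ ^ (1 / k) with hρd
  have hρ : 0 < ρ := Real.rpow_pos_of_pos hκ _
  have hρ1 : ρ ≤ 1 := Real.rpow_le_one hκ.le hκ1 (by positivity)
  have hρk : ρ ^ k = κ := by
    rw [hρd, ← Real.rpow_mul hκ.le]
    have : 1 / k * k = 1 := by field_simp
    rw [this, Real.rpow_one]
  have hρq : ρ ^ (-kp k) = κ ^ (-(1 / (k - 1))) := by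
    rw [hρd, ← Real.rpow_mul hκ.le]
    congr 1
    rw [← kp_div hk]
    ring
  have hsk : sk k β ρ = kb k β κ := by
    unfold sk kb
    rw [hρk]
  have h1 := rep_sys P S hρ
  have h2 : fk lam c k (kb k β κ) = (1 / (2 * Real.pi) : ℝ) *
      (∫ y : ℝ, NN k (sk k β ρ) y * ser lam c (3 + y * I)) + ser lam c 4 := by
    rw [h1, hsk]
    ring
  have h3 := key ρ hρ hρ1
  rw [hρq] at h3
  set v : ℝ := κ ^ (-(1 / (k - 1))) with hv
  have hv0 : 0 ≤ v := Real.rpow_nonneg hκ.le _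
  have h4 := absorb hk hb20.le hb2' hv0
  have h5 : 1 ≤ Real.exp (Ex k b' * v) := Real.one_le_exp (by
    have := Ex_nonneg hk hb'0.le
    positivity)
  rw [h2]
  refine (norm_add_le _ _).trans ?_
  rw [norm_mul, Complex.norm_real, Real.norm_of_nonneg (by positivity : (0:ℝ) ≤ 1 / (2 * Real.pi))]
  calc 1 / (2 * Real.pi) * ‖∫ y : ℝ, NN k (sk k β ρ) y * ser lam c (3 + y * I)‖ + ‖ser lam c 4‖ ≤
      1 / (2 * Real.pi) * (K0 * ((Ex k b' - Ex k b₂)⁻¹ * Real.exp (Ex k b' * v))) +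
        ‖ser lam c 4‖ * Real.exp (Ex k b' * v) := by
        refine add_le_add (mul_le_mul_of_nonneg_left (h3.trans (mul_le_mul_of_nonneg_left h4 hK00))
          (by positivity)) (le_mul_of_one_le_right (norm_nonneg _) h5)
    _ = _ := by ring

end Pool.Agent.D0H40.CX
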