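import Pool.Agent.D0H40.CX.Basic

/-! The local factor `1 - t X + δ² X²` with `|t| ≤ 2δ`, `δ < 1/2`. -/

set_option autoImplicit false

namespace Pool.Agent.D0H40.CX

open Complex Filter Topology Set
open scoped ComplexConjugate

/-- a root -/
noncomputable def al (t δ : ℝ) : ℂ := ⟨t / 2, √(δ ^ 2 - (t / 2) ^ 2)⟩

variable {t δ : ℝ}

theorem al_normSq (ht : |t| ≤ 2 * δ) : normSq (al t δ) = δ ^ 2 := by
  have h1 : (t / 2) ^ 2 ≤ δ ^ 2 := by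
    rw [← sq_abs, abs_div, abs_two]
    have : |t| / 2 ≤ δ := by linarith
    exact pow_le_pow_left₀ (by positivity) this 2
  unfold al
  rw [Complex.normSq_apply]
  simp only
  rw [Real.mul_self_sqrt (by linarith)]
  ring

theorem al_norm (hδ : 0 ≤ δ) (ht : |t| ≤ 2 * δ) : ‖al t δ‖ = δ := by
  rw [Complex.norm_def, al_normSq ht, Real.sqrt_sq hδ]

theorem al_add : al t δ + conj (al t δ) = t := by
  rw [Complex.add_conj]
  unfold al
  simp only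
  push_cast
  ring

theorem al_mul (ht : |t| ≤ 2 * δ) : al t δ * conj (al t δ) = (δ : ℂ) ^ 2 := by
  rw [Complex.mul_conj, al_normSq ht]
  push_cast
  rfl

theorem fac_eq (ht : |t| ≤ 2 * δ) (X : ℂ) :
    (1 - al t δ * X) * (1 - conj (al t δ) * X) = 1 - t * X + (δ : ℂ) ^ 2 * X ^ 2 := by
  linear_combination (-X) * (al_add (t := t) (δ := δ)) + X ^ 2 * al_mul ht

/-- the logarithm of the local factor -/
noncomputable def lf (t δ : ℝ) (X : ℂ) : ℂ := log (1 - al t δ * X) + log (1 - conj (al t δ) * X)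

theorem one_sub_slit {z : ℂ} (hz : ‖z‖ < 1) : 1 - z ∈ slitPlane := by
  rw [sub_eq_add_neg]
  exact mem_slitPlane_of_norm_lt_one (by rwa [norm_neg])

theorem lf_slit (hδ : 0 ≤ δ) (hδ1 : δ < 1) (ht : |t| ≤ 2 * δ) {X : ℂ} (hX : ‖X‖ ≤ 1) :
    1 - al t δ * X ∈ slitPlane ∧ 1 - conj (al t δ) * X ∈ slitPlane := by
  have h1 : ‖al t δ * X‖ < 1 := by
    rw [norm_mul, al_norm hδ ht]
    exact (mul_le_of_le_one_right hδ hX).trans_lt hδ1
  have h2 : ‖conj (al t δ) * X‖ < 1 := by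
    rw [norm_mul, Complex.norm_conj, al_norm hδ ht]
    exact (mul_le_of_le_one_right hδ hX).trans_lt hδ1
  exact ⟨one_sub_slit h1, one_sub_slit h2⟩

theorem exp_lf (hδ : 0 ≤ δ) (hδ1 : δ < 1) (ht : |t| ≤ 2 * δ) {X : ℂ} (hX : ‖X‖ ≤ 1) :
    exp (lf t δ X) = 1 - t * X + (δ : ℂ) ^ 2 * X ^ 2 := by
  obtain ⟨h1, h2⟩ := lf_slit hδ hδ1 ht hX
  unfold lf
  rw [Complex.exp_add, Complex.exp_log (slitPlane_ne_zero h1), Complex.exp_log (slitPlane_ne_zero h2),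
    fac_eq ht]

theorem lf_diff (hδ : 0 ≤ δ) (hδ1 : δ < 1) (ht : |t| ≤ 2 * δ) {f : ℂ → ℂ} {w : ℂ}
    (hf : DifferentiableAt ℂ f w) (hX : ‖f w‖ ≤ 1) : DifferentiableAt ℂ (fun w => lf t δ (f w)) w := by
  obtain ⟨h1, h2⟩ := lf_slit hδ hδ1 ht hX
  unfold lf
  exact (((hf.const_mul _).const_sub 1).clog h1).add (((hf.const_mul _).const_sub 1).clog h2)

/-- the value at `1` -/
theorem lf_one (hδ : 0 ≤ δ) (hδ1 : δ < 1) (ht : |t| ≤ 2 * δ) :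
    lf t δ 1 = (Real.log (1 - t + δ ^ 2) : ℝ) := by
  obtain ⟨h1, h2⟩ := lf_slit hδ hδ1 ht (X := 1) (by simp)
  have he := exp_lf hδ hδ1 ht (X := 1) (by simp)
  have hreal : (lf t δ 1).im = 0 := by
    have h3 : conj (lf t δ 1) = lf t δ 1 := by
      unfold lf
      rw [map_add, ← Complex.log_conj _ (slitPlane_arg_ne_pi h1), ← Complex.log_conj _ (slitPlane_arg_ne_pi h2)]
      simp only [map_sub, map_one, map_mul, Complex.conj_conj]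
      ring
    exact Complex.conj_eq_iff_im.1 h3
  have e1 : lf t δ 1 = ((lf t δ 1).re : ℂ) := by
    apply Complex.ext
    · simp
    · simp [hreal]
  rw [e1, ← Complex.ofReal_exp] at he
  have e2 : Real.exp (lf t δ 1).re = 1 - t + δ ^ 2 := by
    have : ((Real.exp (lf t δ 1).re : ℝ) : ℂ) = ((1 - t + δ ^ 2 : ℝ) : ℂ) := by
      rw [he]
      push_cast
      ring
    exact_mod_cast this
  rw [e1, ← e2, Real.log_exp]

/-- the second coefficient -/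
noncomputable def m2 (t δ : ℝ) : ℝ := δ ^ 2 - t ^ 2 / 2

theorem m2_le (ht : |t| ≤ 2 * δ) : |m2 t δ| ≤ δ ^ 2 := by
  have h1 : t ^ 2 ≤ (2 * δ) ^ 2 := by
    rw [← sq_abs]
    exact pow_le_pow_left₀ (abs_nonneg _) ht 2
  unfold m2
  rw [abs_le]
  constructor <;> nlinarith [sq_nonneg t]

theorem log_three {z : ℂ} (hz : ‖z‖ ≤ 1 / 2) : ‖log (1 - z) - (-z - z ^ 2 / 2)‖ ≤ ‖z‖ ^ 3 := by
  have h1 := Complex.norm_log_sub_logTaylor_le 2 (z := -z) (by rw [norm_neg]; linarith)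
  have e : logTaylor (2 + 1) (-z) = -z - z ^ 2 / 2 := by
    rw [show (2 + 1 : ℕ) = 3 from rfl, logTaylor_succ, logTaylor_succ, logTaylor_succ, logTaylor_zero]
    simp only [Pi.add_apply]
    push_cast
    ring
  rw [e, norm_neg, ← sub_eq_add_neg] at h1
  refine h1.trans ?_
  have h2 : (1 - ‖z‖)⁻¹ ≤ 2 := by
    rw [inv_le_comm₀ (by linarith) (by norm_num)]
    linarith
  have h3 : 0 ≤ ‖z‖ ^ 3 := by positivity
  have h4 : 0 ≤ (1 - ‖z‖)⁻¹ := inv_nonneg.2 (by linarith)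
  calc ‖z‖ ^ (2 + 1) * (1 - ‖z‖)⁻¹ / ((2 : ℕ) + 1) ≤ ‖z‖ ^ 3 * 2 / ((2 : ℕ) + 1) := by gcongr
    _ ≤ ‖z‖ ^ 3 := by
        push_cast
        linarith

/-- the expansion -/
theorem lf_expand (hδ : 0 ≤ δ) (hδ1 : δ ≤ 1 / 2) (ht : |t| ≤ 2 * δ) {X : ℂ} (hX : ‖X‖ ≤ 1) :
    ‖lf t δ X - (-t * X + m2 t δ * X ^ 2)‖ ≤ 2 * δ ^ 3 := by
  have hn1 : ‖al t δ * X‖ ≤ δ := by
    rw [norm_mul, al_norm hδ ht]
    exact mul_le_of_le_one_right hδ hX
  have hn2 : ‖conj (al t δ) * X‖ ≤ δ := by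
    rw [norm_mul, Complex.norm_conj, al_norm hδ ht]
    exact mul_le_of_le_one_right hδ hX
  have h1 := log_three (hn1.trans hδ1)
  have h2 := log_three (hn2.trans hδ1)
  have h3 : ‖al t δ * X‖ ^ 3 ≤ δ ^ 3 := pow_le_pow_left₀ (norm_nonneg _) hn1 3
  have h4 : ‖conj (al t δ) * X‖ ^ 3 ≤ δ ^ 3 := pow_le_pow_left₀ (norm_nonneg _) hn2 3
  have e : lf t δ X - (-t * X + m2 t δ * X ^ 2) =
      (log (1 - al t δ * X) - (-(al t δ * X) - (al t δ * X) ^ 2 / 2)) +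
      (log (1 - conj (al t δ) * X) - (-(conj (al t δ) * X) - (conj (al t δ) * X) ^ 2 / 2)) := by
    have e1 := al_add (t := t) (δ := δ)
    have e2 := al_mul ht
    have e3 : al t δ ^ 2 + conj (al t δ) ^ 2 = (t : ℂ) ^ 2 - 2 * (δ : ℂ) ^ 2 := by
      rw [← e1, ← e2]
      ring
    unfold lf m2
    push_cast
    linear_combination (-X) * e1 - X ^ 2 / 2 * e3
  rw [e]
  refine (norm_add_le _ _).trans ?_
  linarith

/-- the coefficient -/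
noncomputable def c2 (t δ : ℝ) : ℝ := Real.log (1 - t + δ ^ 2)

theorem c2_le (hδ : 0 ≤ δ) (hδ1 : δ ≤ 1 / 2) (ht : |t| ≤ 2 * δ) : |c2 t δ| ≤ 3 * δ := by
  have h1 := lf_expand hδ hδ1 ht (X := 1) (by simp)
  rw [lf_one hδ (by linarith) ht] at h1
  have e : ((Real.log (1 - t + δ ^ 2) : ℝ) : ℂ) - (-t * 1 + m2 t δ * 1 ^ 2) =
      ((Real.log (1 - t + δ ^ 2) - (-t + m2 t δ) : ℝ) : ℂ) := by
    push_cast
    ring
  rw [e, Complex.norm_real, Real.norm_eq_abs] at h1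
  have h2 := abs_le.1 h1
  have h3 := abs_le.1 ht
  have h4 := abs_le.1 (m2_le ht)
  have h5 : δ ^ 2 ≤ 1 / 2 * δ := by
    rw [sq]
    exact mul_le_mul_of_nonneg_right hδ1 hδ
  have h6 : δ ^ 3 ≤ 1 / 4 * δ := by
    calc δ ^ 3 = δ ^ 2 * δ := by ring
      _ ≤ (1 / 2 * δ) * δ := mul_le_mul_of_nonneg_right h5 hδ
      _ = 1 / 2 * δ ^ 2 := by ring
      _ ≤ 1 / 2 * (1 / 2 * δ) := by gcongr
      _ = _ := by ring
  unfold c2
  rw [abs_le]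
  constructor <;> linarith [h2.1, h2.2, h3.1, h3.2, h4.1, h4.2]

/-- the correction term -/
noncomputable def g2 (t δ : ℝ) (X : ℂ) : ℂ := c2 t δ * X - lf t δ X

theorem g2_main (hδ : 0 ≤ δ) (hδ1 : δ ≤ 1 / 2) (ht : |t| ≤ 2 * δ) {X : ℂ} (hX : ‖X‖ ≤ 1) :
    ‖g2 t δ X - m2 t δ * (X - X ^ 2)‖ ≤ 4 * δ ^ 3 := by
  have h1 := lf_expand hδ hδ1 ht hX
  have h2 := lf_expand hδ hδ1 ht (X := 1) (by simp)
  rw [lf_one hδ (by linarith) ht] at h2
  have e : g2 t δ X - m2 t δ * (X - X ^ 2) =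
      (((Real.log (1 - t + δ ^ 2) : ℝ) : ℂ) - (-t * 1 + m2 t δ * 1 ^ 2)) * X -
        (lf t δ X - (-t * X + m2 t δ * X ^ 2)) := by
    unfold g2 c2
    ring
  rw [e]
  refine (norm_sub_le _ _).trans ?_
  rw [norm_mul]
  have h3 : ‖((Real.log (1 - t + δ ^ 2) : ℝ) : ℂ) - (-t * 1 + m2 t δ * 1 ^ 2)‖ * ‖X‖ ≤ 2 * δ ^ 3 * 1 :=
    mul_le_mul h2 hX (norm_nonneg _) (by positivity)
  linarith

end Pool.Agent.D0H40.CX
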