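import Pool.Agent.D0H40.CX.Stab4

/-! From the growth of the weighted sums to the continuation of the series. -/

set_option autoImplicit false

namespace Pool.Agent.D0H40.CX

open Complex MeasureTheory Filter Topology Set
open Pool.Agent.D0H40.KX
open Pool.Agent.W189.ML (ser)
open scoped ComplexConjugate

variable {k : ℝ} {lam c : ℕ → ℝ}

/-- a Dirichlet series -/
structure Sys (lam c : ℕ → ℝ) : Prop where
  nonneg : ∀ i, 0 ≤ lam i
  low : ∀ i, c i ≠ 0 → 0 < lam i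
  sum : Summable fun i => |c i| * Real.exp (-(2 * lam i))

theorem young (hk : 1 < k) {x a u : ℝ} (hx : 0 ≤ x) (ha : 0 < a) (hu : 0 ≤ u) :
    x * u - a * u ^ k ≤ Ex k x * a ^ (-(1 / (k - 1))) := by
  have hk0 : 0 < k := by linarith
  have hk1 : 0 < k - 1 := by linarith
  rcases hx.eq_or_lt with h | h
  · rw [← h, zero_mul]
    have h1 : 0 ≤ a * u ^ k := by positivity
    have h2 : 0 ≤ Ex k 0 * a ^ (-(1 / (k - 1))) := mul_nonneg (Ex_nonneg hk le_rfl) (by positivity)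
    linarith
  set u₀ : ℝ := (x / (a * k)) ^ (1 / (k - 1)) with hu₀
  have hxa : 0 < x / (a * k) := by positivity
  have hu0 : 0 < u₀ := Real.rpow_pos_of_pos hxa _
  have h1 : u₀ ^ (k - 1) = x / (a * k) := by
    rw [hu₀, ← Real.rpow_mul hxa.le]
    have : 1 / (k - 1) * (k - 1) = 1 := by field_simp
    rw [this, Real.rpow_one]
  have h2 := one_add_mul_self_le_rpow_one_add (s := u / u₀ - 1) (p := k) (by
    have : 0 ≤ u / u₀ := by positivity
    linarith) hk.le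
  rw [add_sub_cancel, Real.div_rpow hu hu0.le] at h2
  have h3 : u₀ ^ k = u₀ ^ (k - 1) * u₀ := by
    rw [← Real.rpow_add_one hu0.ne']
    congr 1
    ring
  have hu0k : 0 < u₀ ^ k := Real.rpow_pos_of_pos hu0 _
  have h4 : u₀ ^ k + k * (u - u₀) * u₀ ^ (k - 1) ≤ u ^ k := by
    have h5 := mul_le_mul_of_nonneg_left h2 hu0k.le
    have e1 : u₀ ^ k * (u ^ k / u₀ ^ k) = u ^ k := by field_simp
    rw [e1] at h5
    refine le_trans (le_of_eq ?_) h5
    rw [h3]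
    field_simp
  have h6 : a * (u₀ ^ k + k * (u - u₀) * u₀ ^ (k - 1)) ≤ a * u ^ k := mul_le_mul_of_nonneg_left h4 ha.le
  rw [h3, h1] at h6
  have h7 : a * (x / (a * k) * u₀ + k * (u - u₀) * (x / (a * k))) = x * u₀ / k + x * (u - u₀) := by
    field_simp
  rw [h7] at h6
  have h8 : x * u - a * u ^ k ≤ x * u₀ * (1 - 1 / k) := by
    have e2 : x * u₀ * (1 - 1 / k) = x * u₀ - x * u₀ / k := by ring
    rw [e2]
    linarith
  refine h8.trans (le_of_eq ?_)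
  unfold Ex
  have e3 : x / (a * k) = x / k * a⁻¹ := by field_simp
  have e4 : (x / k) ^ kp k = (x / k) * (x / k) ^ (1 / (k - 1)) := by
    conv_lhs => rw [kp_eq hk, kp_div hk]
    rw [Real.rpow_add (by positivity), Real.rpow_one]
  rw [hu₀, e3, Real.mul_rpow (by positivity) (by positivity), e4, Real.inv_rpow ha.le,
    Real.rpow_neg ha.le]
  field_simp

/-- the bound of the weights -/
theorem EE_young (hk : 1 < k) {κ : ℂ} (hκ : 0 < κ.re) {x u : ℝ} (hx : 0 ≤ x) (hu : 0 ≤ u) :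
    ‖EE k κ u‖ ≤ Real.exp (-(x * u)) * Real.exp (Ex k x * κ.re ^ (-(1 / (k - 1)))) := by
  rw [EE_norm, ← Real.exp_add]
  apply Real.exp_le_exp.2
  have := young hk hx hκ hu
  linarith

theorem Sys.term_summable (S : Sys lam c) (hk : 1 < k) {κ : ℂ} (hκ : 0 < κ.re) :
    Summable fun i => ‖(c i : ℂ) * EE k κ (lam i)‖ := by
  refine Summable.of_nonneg_of_le (fun i => norm_nonneg _) (fun i => ?_)
    (S.sum.mul_right (Real.exp (Ex k 2 * κ.re ^ (-(1 / (k - 1))))))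
  rw [norm_mul, Complex.norm_real, Real.norm_eq_abs, mul_assoc]
  exact mul_le_mul_of_nonneg_left (EE_young hk hκ (by norm_num) (S.nonneg i)) (abs_nonneg _)

theorem Sys.fk_le (S : Sys lam c) (hk : 1 < k) {κ : ℂ} (hκ : 0 < κ.re) :
    ‖fk lam c k κ‖ ≤ (∑' i, |c i| * Real.exp (-(2 * lam i))) *
      Real.exp (Ex k 2 * κ.re ^ (-(1 / (k - 1)))) := by
  unfold fk
  refine tsum_of_norm_bounded (S.sum.hasSum.mul_right _) fun i => ?_
  rw [norm_mul, Complex.norm_real, Real.norm_eq_abs, mul_assoc]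
  exact mul_le_mul_of_nonneg_left (EE_young hk hκ (by norm_num) (S.nonneg i)) (abs_nonneg _)

/-- boundedness of `κ⁻¹ exp (-c κ^(-p))` -/
theorem pw_exp_le {p a : ℝ} (hp : 0 < p) (ha : 0 < a) :
    ∃ C : ℝ, 0 ≤ C ∧ ∀ κ : ℝ, 0 < κ → κ ≤ 1 → κ⁻¹ * Real.exp (-(a * κ ^ (-p))) ≤ C := by
  obtain ⟨n, hn⟩ := exists_nat_ge (1 / p)
  refine ⟨(n.factorial : ℝ) / a ^ n, by positivity, fun κ hκ hκ1 => ?_⟩
  set v : ℝ := κ ^ (-p) with hv
  have hv1 : 1 ≤ v := Real.one_le_rpow_of_pos_of_le_one_of_nonpos hκ hκ1 (by linarith)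
  have h1 : κ⁻¹ = v ^ (1 / p) := by
    rw [hv, ← Real.rpow_mul hκ.le]
    have : -p * (1 / p) = -1 := by field_simp
    rw [this, Real.rpow_neg_one]
  have h2 : v ^ (1 / p) ≤ v ^ n := by
    rw [← Real.rpow_natCast]
    exact Real.rpow_le_rpow_of_exponent_le hv1 hn
  have h3 := Real.pow_div_factorial_le_exp (a * v) (by positivity) n
  have hf : (0:ℝ) < n.factorial := by exact_mod_cast n.factorial_pos
  rw [h1]
  have h4 : v ^ n ≤ (n.factorial : ℝ) / a ^ n * Real.exp (a * v) := by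
    rw [div_le_iff₀ hf, mul_pow] at h3
    rw [div_mul_eq_mul_div, le_div_iff₀ (by positivity)]
    linarith
  calc v ^ (1 / p) * Real.exp (-(a * v)) ≤
      ((n.factorial : ℝ) / a ^ n * Real.exp (a * v)) * Real.exp (-(a * v)) :=
        mul_le_mul_of_nonneg_right (h2.trans h4) (Real.exp_pos _).le
    _ = (n.factorial : ℝ) / a ^ n := by
        rw [mul_assoc, ← Real.exp_add]
        simp

/-- the dominating function -/
noncomputable def gdom (k C₁ C₂ κ : ℝ) : ℝ := if κ ≤ 1 then C₁ else C₂ * κ ^ (-1 - 1 / k)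

theorem gdom_int (hk : 1 < k) (C₁ C₂ : ℝ) : IntegrableOn (gdom k C₁ C₂) (Ioi 0) := by
  have hu : (Ioi (0:ℝ)) = Ioc 0 1 ∪ Ioi 1 := (Ioc_union_Ioi_eq_Ioi zero_le_one).symm
  rw [hu]
  refine IntegrableOn.union ?_ ?_
  · refine (integrableOn_const (C := C₁) (by simp)).congr_fun (fun κ hκ => ?_) measurableSet_Ioc
    unfold gdom
    rw [if_pos hκ.2]
  · have h1 : IntegrableOn (fun κ : ℝ => C₂ * κ ^ (-1 - 1 / k)) (Ioi 1) := by
      refine Integrable.const_mul ?_ _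
      refine integrableOn_Ioi_rpow_of_lt ?_ one_pos
      have := (inv_k hk).1
      linarith
    refine h1.congr_fun (fun κ hκ => ?_) measurableSet_Ioi
    unfold gdom
    rw [if_neg (not_le.2 hκ)]

/-- domination -/
theorem dominate (hk : 1 < k) {b' : ℝ} (hb' : 0 ≤ b') {z₀ : ℂ} (hz : z₀ ∈ HB k b') (C M : ℝ)
    (hC : 0 ≤ C) (hM : 0 ≤ M) :
    ∃ r : ℝ, 0 < r ∧ Metric.ball z₀ r ⊆ HB k b' ∧ ∃ C₁ C₂ : ℝ, ∀ z ∈ Metric.ball z₀ r,
      ∀ κ : ℝ, 0 < κ → ∀ h : ℝ, 0 ≤ h →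
      (κ ≤ 1 → h ≤ C * Real.exp (Ex k b' * κ ^ (-(1 / (k - 1))))) → (1 < κ → h ≤ M) →
      ‖pp k κ z‖ * h ≤ gdom k C₁ C₂ κ := by
  obtain ⟨φ, r, h0, hφ, hr, h⟩ := nbhd hk hz.1
  obtain ⟨b₁, h1, h2⟩ := exists_between hz.2
  obtain ⟨b₂, h3, h4⟩ := exists_between h1
  have hn : 0 < ‖z₀‖ := norm_pos_iff.2 hz.1.1
  have hb1 : 0 < b₁ := by linarith
  have hev : ∀ᶠ z in 𝓝 z₀, b₁ < B k z := continuousAt_const.eventually_lt (B_cont hk hz.1) h2
  obtain ⟨r₂, hr₂, h5⟩ := Metric.eventually_nhds_iff_ball.1 hev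
  obtain ⟨C₀, hC₀, hp1⟩ := pp_le1 hk h0 hφ
  set δ : ℝ := 1 - b₂ / b₁ with hδ
  have hδ0 : 0 < δ := by
    have : b₂ / b₁ < 1 := by rw [div_lt_one hb1]; exact h4
    linarith
  have hδ1 : δ < 1 := by
    have : 0 < b₂ / b₁ := div_pos (by linarith) hb1
    linarith
  obtain ⟨C₃, hC₃, hp2⟩ := pp_le2 hk h0 hφ (half_pos hn) hδ0 hδ1
  have hk1 : 0 < k - 1 := by linarith
  have hE : 0 < Ex k b₂ - Ex k b' := sub_pos.2 (Ex_lt hk hb' h3)
  obtain ⟨C₄, hC₄, hp3⟩ := pw_exp_le (p := 1 / (k - 1)) (by positivity) hE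
  refine ⟨min r r₂, lt_min hr hr₂, fun z hz' => ?_, C₃ * C * C₄, C₀ * (2 * ‖z₀‖) * M,
    fun z hz' κ hκ y hy hy1 hy2 => ?_⟩
  · have h6 := h z (Metric.ball_subset_ball (min_le_left _ _) hz')
    have h7 := h5 z (Metric.ball_subset_ball (min_le_right _ _) hz')
    exact ⟨Cs_sub hk hφ h6.1, h1.trans h7⟩
  · obtain ⟨h6, h6a, h6b⟩ := h z (Metric.ball_subset_ball (min_le_left _ _) hz')
    have h7 := h5 z (Metric.ball_subset_ball (min_le_right _ _) hz')
    unfold gdom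
    split_ifs with hκ1
    · have h8 := hp2 κ hκ hκ1 z h6 h6a
      have h9 : Ex k b₂ ≤ Ex k ((1 - δ) * B k z) := by
        refine Ex_mono hk (by linarith) ?_
        have e : (1 - δ) = b₂ / b₁ := by rw [hδ]; ring
        rw [e, div_mul_eq_mul_div, le_div_iff₀ hb1]
        exact mul_le_mul_of_nonneg_left h7.le (by linarith)
      set v : ℝ := κ ^ (-(1 / (k - 1))) with hv
      have hv0 : 0 ≤ v := Real.rpow_nonneg hκ.le _
      have hκi : 0 < κ⁻¹ := inv_pos.2 hκ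
      have h10 : ‖pp k κ z‖ ≤ C₃ * κ⁻¹ * Real.exp (-(Ex k b₂ * v)) := by
        refine h8.trans ?_
        refine mul_le_mul_of_nonneg_left ?_ (by positivity)
        apply Real.exp_le_exp.2
        have := mul_le_mul_of_nonneg_right h9 hv0
        linarith
      calc ‖pp k κ z‖ * y ≤ (C₃ * κ⁻¹ * Real.exp (-(Ex k b₂ * v))) * (C * Real.exp (Ex k b' * v)) :=
            mul_le_mul h10 (hy1 hκ1) hy (by positivity)
        _ = C₃ * C * (κ⁻¹ * (Real.exp (-(Ex k b₂ * v)) * Real.exp (Ex k b' * v))) := by ring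
        _ = C₃ * C * (κ⁻¹ * Real.exp (-((Ex k b₂ - Ex k b') * v))) := by
            rw [← Real.exp_add]
            ring_nf
        _ ≤ C₃ * C * C₄ := mul_le_mul_of_nonneg_left (hp3 κ hκ hκ1) (by positivity)
    · push Not at hκ1
      have h8 := hp1 κ hκ z h6
      have hκp : 0 ≤ κ ^ (-1 - 1 / k) := Real.rpow_nonneg hκ.le _
      calc ‖pp k κ z‖ * y ≤ (C₀ * ‖z‖ * κ ^ (-1 - 1 / k)) * M :=
            mul_le_mul h8 (hy2 hκ1) hy (by positivity)
        _ ≤ (C₀ * (2 * ‖z₀‖) * κ ^ (-1 - 1 / k)) * M := by gcongr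
        _ = _ := by ring

end Pool.Agent.D0H40.CX
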