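import Pool.Agent.D0H40.CX.Fwd

/-! The continuation. -/

set_option autoImplicit false

namespace Pool.Agent.D0H40.CX

open Complex MeasureTheory Filter Topology Set
open Pool.Agent.D0H40.KX
open Pool.Agent.W189.ML (ser)
open scoped ComplexConjugate

variable {k : ℝ} {lam c : ℕ → ℝ}

/-- the parameter `κ e^{ikβ}` -/
noncomputable def kb (k β κ : ℝ) : ℂ := exp ((k * β : ℝ) * I) * (κ : ℂ)

theorem kb_re (k β κ : ℝ) : (kb k β κ).re = Real.cos (k * β) * κ := by
  unfold kb
  rw [Complex.re_mul_ofReal, Complex.exp_ofReal_mul_I_re]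

theorem cos_kb {β : ℝ} (hβ : |k * β| < Real.pi / 2) : 0 < Real.cos (k * β) :=
  Real.cos_pos_of_mem_Ioo ⟨(abs_lt.1 hβ).1, (abs_lt.1 hβ).2⟩

theorem kb_pos {β : ℝ} (hβ : |k * β| < Real.pi / 2) {κ : ℝ} (hκ : 0 < κ) : 0 < (kb k β κ).re := by
  rw [kb_re]
  exact mul_pos (cos_kb hβ) hκ

/-- the continuation -/
noncomputable def Phi (lam c : ℕ → ℝ) (k β : ℝ) (w : ℂ) : ℂ :=
  ∫ κ in Ioi (0:ℝ), pp k κ (conj (dl β) * w) * fk lam c k (kb k β κ)

theorem pp_meas (k : ℝ) (z : ℂ) : StronglyMeasurable fun κ : ℝ => pp k κ z := by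
  unfold pp
  exact (JJ_meas z one_pos).const_mul _

theorem fk_meas (S : Sys lam c) (hk : 1 < k) {β : ℝ} (hβ : |k * β| < Real.pi / 2) :
    AEStronglyMeasurable (fun κ : ℝ => fk lam c k (kb k β κ)) (volume.restrict (Ioi (0:ℝ))) := by
  refine aestronglyMeasurable_of_tendsto_ae atTop
    (f := fun (n : ℕ) (κ : ℝ) => ∑ i ∈ Finset.range n, (c i : ℂ) * EE k (kb k β κ) (lam i)) (fun n => ?_) ?_
  · refine Continuous.aestronglyMeasurable ?_
    unfold EE kb
    fun_prop
  · refine (ae_restrict_iff' measurableSet_Ioi).2 (Eventually.of_forall fun κ hκ => ?_)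
    exact (S.term_summable hk (kb_pos hβ hκ)).of_norm.hasSum.tendsto_sum_nat

/-- the sums are bounded for large `κ` -/
theorem fk_large (S : Sys lam c) (hk : 1 < k) {β : ℝ} (hβ : |k * β| < Real.pi / 2) :
    ∃ M : ℝ, 0 ≤ M ∧ ∀ κ : ℝ, 1 < κ → ‖fk lam c k (kb k β κ)‖ ≤ M := by
  have hc := cos_kb hβ
  have hk1 : 0 < k - 1 := by linarith
  refine ⟨(∑' i, |c i| * Real.exp (-(2 * lam i))) *
    Real.exp (Ex k 2 * (Real.cos (k * β)) ^ (-(1 / (k - 1)))),
    mul_nonneg (tsum_nonneg fun i => by positivity) (Real.exp_pos _).le, fun κ hκ => ?_⟩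
  refine (S.fk_le hk (kb_pos hβ (by linarith))).trans ?_
  refine mul_le_mul_of_nonneg_left ?_ (tsum_nonneg fun i => by positivity)
  apply Real.exp_le_exp.2
  refine mul_le_mul_of_nonneg_left ?_ (Ex_nonneg hk (by norm_num))
  rw [kb_re]
  refine Real.rpow_le_rpow_of_nonpos hc ?_ (by
    have : 0 < 1 / (k - 1) := by positivity
    linarith)
  exact le_mul_of_one_le_right hc.le hκ.le

/-- growth of the sums -/
def Growth (lam c : ℕ → ℝ) (k β b : ℝ) : Prop :=
  ∀ b' : ℝ, b < b' → ∃ C : ℝ, 0 ≤ C ∧ ∀ κ : ℝ, 0 < κ → κ ≤ 1 →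
    ‖fk lam c k (kb k β κ)‖ ≤ C * Real.exp (Ex k b' * κ ^ (-(1 / (k - 1))))

theorem conj_dl_mul_mem (β : ℝ) : Continuous fun w : ℂ => conj (dl β) * w := by fun_prop

theorem ball_turn {β : ℝ} {w w₀ : ℂ} {r : ℝ} (h : w ∈ Metric.ball w₀ r) :
    conj (dl β) * w ∈ Metric.ball (conj (dl β) * w₀) r := by
  rw [Metric.mem_ball, dist_eq_norm] at h ⊢
  rw [← mul_sub, norm_mul, Complex.norm_conj, dl_norm, one_mul]
  exact h

theorem Phi_diff (S : Sys lam c) (hk : 1 < k) {β : ℝ} (hβ : |k * β| < Real.pi / 2) {b : ℝ} (hb : 0 ≤ b)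
    (hG : Growth lam c k β b) {w₀ : ℂ} (hw : conj (dl β) * w₀ ∈ HB k b) :
    DifferentiableAt ℂ (Phi lam c k β) w₀ := by
  obtain ⟨b', h1, h2⟩ := exists_between hw.2
  obtain ⟨C, hC0, hC⟩ := hG b' h1
  obtain ⟨M, hM0, hM⟩ := fk_large S hk hβ
  obtain ⟨r, hr, hsub, C₁, C₂, hdom⟩ := dominate hk (by linarith : 0 ≤ b') ⟨hw.1, h2⟩ C M hC0 hM0
  unfold Phi
  refine diff_param (F := fun w (κ : ℝ) => pp k κ (conj (dl β) * w) * fk lam c k (kb k β κ)) hr
    (Eventually.of_forall fun κ w hw' => ?_) (fun w _ => ?_) (gdom_int hk C₁ C₂) ?_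
  · have h3 := pp_diff hk κ (hsub (ball_turn hw')).1
    have h4 : DifferentiableAt ℂ (fun w : ℂ => conj (dl β) * w) w := by fun_prop
    exact (DifferentiableAt.comp (g := pp k κ) w h3 h4).mul_const _
  · exact (pp_meas k _).aestronglyMeasurable.mul (fk_meas S hk hβ)
  · refine (ae_restrict_iff' measurableSet_Ioi).2 (Eventually.of_forall fun κ hκ w hw' => ?_)
    rw [norm_mul]
    exact hdom _ (ball_turn hw') κ hκ _ (norm_nonneg _) (hC κ hκ) (hM κ)

/-- the kernel applied to one term -/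
theorem term_eq (hk : 1 < k) {β : ℝ} (hβ : |k * β| < Real.pi / 2) {w : ℂ}
    (hw : conj (dl β) * w ∈ Sk k) {l : ℝ} (hl : 0 < l) :
    ∫ κ in Ioi (0:ℝ), pp k κ (conj (dl β) * w) * EE k (kb k β κ) l = exp (-(w * l)) := by
  have hk0 : k ≠ 0 := by linarith
  set s : ℂ := ((l ^ k : ℝ) : ℂ) * exp ((k * β : ℝ) * I) with hs
  have hlk : 0 < l ^ k := Real.rpow_pos_of_pos hl _
  have hsre : 0 < s.re := by
    rw [hs, Complex.re_ofReal_mul, Complex.exp_ofReal_mul_I_re]
    exact mul_pos hlk (cos_kb hβ)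
  have h1 := laplace hk (abs_nonneg (arg (conj (dl β) * w))) hw.2 (z := conj (dl β) * w)
    ⟨hw.1, le_rfl⟩ hsre
  have e1 : ∀ κ : ℝ, EE k (kb k β κ) l = exp (-(s * κ)) := by
    intro κ
    unfold EE kb
    rw [hs]
    congr 1
    ring
  simp only [e1]
  rw [h1]
  unfold hh
  have harg : arg s = k * β := by
    rw [hs, Complex.arg_real_mul _ hlk, Complex.arg_exp_mul_I, toIocMod_eq_self]
    have := abs_lt.1 hβ
    have := Real.pi_pos
    exact ⟨by linarith, by linarith⟩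
  have hnorm : ‖s‖ = l ^ k := by
    rw [hs, norm_mul, Complex.norm_exp_ofReal_mul_I, mul_one, Complex.norm_real,
      Real.norm_of_nonneg hlk.le]
  rw [cpow_polar (ne_of_re hsre), harg, hnorm, ← Real.rpow_mul hl.le]
  have e2 : k * (1 / k) = 1 := by field_simp
  have e3 : 1 / k * (k * β) = β := by field_simp
  rw [e2, e3, Real.rpow_one]
  have e4 := dl_mul_conj β
  unfold dl at e4 ⊢
  congr 2
  linear_combination (w * l) * e4

/-- the parameter beyond which the integral is the series -/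
noncomputable def b0 (k β : ℝ) : ℝ := 2 * (Real.cos (k * β)) ^ (-(1 / k))

theorem b0_nonneg {β : ℝ} (hβ : |k * β| < Real.pi / 2) : 0 ≤ b0 k β := by
  unfold b0
  have := cos_kb hβ
  positivity

theorem Ex_b0 (hk : 1 < k) {β : ℝ} (hβ : |k * β| < Real.pi / 2) (κ : ℝ) (hκ : 0 < κ) :
    Ex k 2 * (kb k β κ).re ^ (-(1 / (k - 1))) = Ex k (b0 k β) * κ ^ (-(1 / (k - 1))) := by
  have hc := cos_kb hβ
  have hk0 : 0 < k := by linarith
  rw [kb_re, Real.mul_rpow hc.le hκ.le]
  unfold Ex b0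
  have e : 2 * Real.cos (k * β) ^ (-(1 / k)) / k = Real.cos (k * β) ^ (-(1 / k)) * (2 / k) := by ring
  rw [e, Real.mul_rpow (by positivity) (by positivity), ← Real.rpow_mul hc.le]
  have h7 : -(1 / k) * kp k = -(1 / (k - 1)) := by
    rw [← kp_div hk]
    ring
  rw [h7]
  ring

theorem Phi_eq (S : Sys lam c) (hk : 1 < k) {β : ℝ} (hβ : |k * β| < Real.pi / 2) {w : ℂ}
    (hw : conj (dl β) * w ∈ HB k (b0 k β)) : Phi lam c k β w = ser lam c w := by
  have hb0 := b0_nonneg hβ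
  obtain ⟨r, hr, hsub, C₁, C₂, hdom⟩ := dominate hk hb0 hw 1 (Real.exp (Ex k (b0 k β)))
    zero_le_one (Real.exp_pos _).le
  have hself : conj (dl β) * w ∈ Metric.ball (conj (dl β) * w) r := Metric.mem_ball_self hr
  have hk1 : 0 < k - 1 := by linarith
  set F : ℕ → ℝ → ℂ := fun i κ => pp k κ (conj (dl β) * w) * ((c i : ℂ) * EE k (kb k β κ) (lam i)) with hF
  have hEm : ∀ i, Continuous fun κ : ℝ => EE k (kb k β κ) (lam i) := fun i => by
    unfold EE kb
    fun_prop
  have hFm : ∀ i, AEStronglyMeasurable (F i) (volume.restrict (Ioi (0:ℝ))) := fun i =>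
    (pp_meas k _).aestronglyMeasurable.mul ((hEm i).const_mul _ |>.aestronglyMeasurable)
  have hFb : ∀ i, ∀ κ : ℝ, 0 < κ → ‖F i κ‖ ≤ |c i| * Real.exp (-(2 * lam i)) * gdom k C₁ C₂ κ := by
    intro i κ hκ
    rw [hF]
    simp only
    rw [norm_mul, norm_mul, Complex.norm_real, Real.norm_eq_abs]
    have h1 := EE_young hk (kb_pos hβ hκ) (x := 2) (by norm_num) (S.nonneg i)
    rw [Ex_b0 hk hβ κ hκ] at h1
    have h2 := hdom _ hself κ hκ (Real.exp (Ex k (b0 k β) * κ ^ (-(1 / (k - 1))))) (Real.exp_pos _).le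
      (fun _ => by rw [one_mul]) (fun h => by
        apply Real.exp_le_exp.2
        refine mul_le_of_le_one_right (Ex_nonneg hk hb0) ?_
        exact Real.rpow_le_one_of_one_le_of_nonpos h.le (by
          have : 0 < 1 / (k - 1) := by positivity
          linarith))
    calc ‖pp k κ (conj (dl β) * w)‖ * (|c i| * ‖EE k (kb k β κ) (lam i)‖) ≤
        ‖pp k κ (conj (dl β) * w)‖ * (|c i| * (Real.exp (-(2 * lam i)) *
          Real.exp (Ex k (b0 k β) * κ ^ (-(1 / (k - 1)))))) := by gcongr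
      _ = |c i| * Real.exp (-(2 * lam i)) * (‖pp k κ (conj (dl β) * w)‖ *
          Real.exp (Ex k (b0 k β) * κ ^ (-(1 / (k - 1))))) := by ring
      _ ≤ _ := mul_le_mul_of_nonneg_left h2 (by positivity)
  have hFi : ∀ i, Integrable (F i) (volume.restrict (Ioi (0:ℝ))) := fun i =>
    ((gdom_int hk C₁ C₂).const_mul _).mono' (hFm i)
      ((ae_restrict_iff' measurableSet_Ioi).2 (Eventually.of_forall fun κ hκ => hFb i κ hκ))
  have hFs : Summable fun i => ∫ κ in Ioi (0:ℝ), ‖F i κ‖ := by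
    refine Summable.of_nonneg_of_le (fun i => integral_nonneg fun κ => norm_nonneg _) (fun i => ?_)
      (S.sum.mul_right (∫ κ in Ioi (0:ℝ), gdom k C₁ C₂ κ))
    rw [← integral_const_mul]
    refine setIntegral_mono_on (hFi i).norm ((gdom_int hk C₁ C₂).const_mul _) measurableSet_Ioi
      fun κ hκ => hFb i κ hκ
  have h := hasSum_integral_of_summable_integral_norm hFi hFs
  have e1 : ∀ i, ∫ κ in Ioi (0:ℝ), F i κ = (c i : ℂ) * exp (-(w * lam i)) := by
    intro i
    by_cases hc : c i = 0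
    · rw [hF]
      simp only [hc, Complex.ofReal_zero, zero_mul, mul_zero, integral_zero]
    · rw [← term_eq hk hβ hw.1 (S.low i hc), ← integral_const_mul]
      refine integral_congr_ae (Eventually.of_forall fun κ => ?_)
      rw [hF]
      ring
  simp only [e1] at h
  have e2 : ∀ κ : ℝ, ∑' i, F i κ = pp k κ (conj (dl β) * w) * fk lam c k (kb k β κ) := by
    intro κ
    rw [hF]
    simp only
    rw [tsum_mul_left]
    rfl
  simp only [e2] at h
  unfold ser
  exact h.tsum_eq.symm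

theorem ser_diff (S : Sys lam c) : DifferentiableOn ℂ (ser lam c) {w | 2 < w.re} := by
  unfold ser
  refine differentiableOn_tsum_of_summable_norm S.sum (fun i => by fun_prop)
    (isOpen_lt continuous_const Complex.continuous_re) fun i w hw => ?_
  have hw' : 2 < w.re := hw
  rw [norm_mul, Complex.norm_real, Real.norm_eq_abs, Complex.norm_exp]
  refine mul_le_mul_of_nonneg_left ?_ (abs_nonneg _)
  apply Real.exp_le_exp.2
  have : (-(w * lam i)).re = -(w.re * lam i) := by simp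
  rw [this]
  have := mul_le_mul_of_nonneg_right hw'.le (S.nonneg i)
  linarith

theorem isOpen_two : IsOpen {w : ℂ | 2 < w.re} := isOpen_lt continuous_const Complex.continuous_re

theorem HBt_open (hk : 1 < k) (β b : ℝ) : IsOpen {w : ℂ | conj (dl β) * w ∈ HB k b} :=
  (HB_open hk b).preimage (by fun_prop)

/-- **The continuation agrees with the series.** -/
theorem Phi_eq2 (S : Sys lam c) (hk : 1 < k) {β : ℝ} (hβ : |k * β| < Real.pi / 2) {b : ℝ} (hb : 0 ≤ b)
    (hG : Growth lam c k β b) {w : ℂ} (hw : conj (dl β) * w ∈ HB k b) (hw2 : 2 < w.re) :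
    Phi lam c k β w = ser lam c w := by
  have hβ2 : 0 < Real.cos β := by
    refine Real.cos_pos_of_mem_Ioo ?_
    have h1 : |β| ≤ |k * β| := by
      rw [abs_mul, abs_of_pos (by linarith : 0 < k)]
      exact le_mul_of_one_le_left (abs_nonneg _) hk.le
    have := abs_lt.1 (h1.trans_lt hβ)
    exact ⟨by linarith, this.2⟩
  set R : Set ℂ := (fun t : ℝ => w + t * dl β) '' Ici (0:ℝ) with hR
  have hturn : ∀ t : ℝ, conj (dl β) * (w + t * dl β) = conj (dl β) * w + t := by
    intro t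
    linear_combination (t : ℂ) * dl_mul_conj β
  have hmem : ∀ t : ℝ, 0 ≤ t → conj (dl β) * (w + t * dl β) ∈ HB k b ∧ 2 < (w + t * dl β).re := by
    intro t ht
    rw [hturn]
    have h1 := B_add hk hw.1 ht
    refine ⟨⟨h1.1, ?_⟩, ?_⟩
    · have := hw.2
      linarith [h1.2]
    · rw [Complex.add_re, Complex.re_ofReal_mul, dl_re]
      have := mul_nonneg ht hβ2.le
      linarith
  have hpre : IsPreconnected R := by
    refine isPreconnected_Ici.image _ ?_
    fun_prop
  have hf : AnalyticOnNhd ℂ (Phi lam c k β) R := by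
    rintro v ⟨t, ht, rfl⟩
    have h1 : DifferentiableOn ℂ (Phi lam c k β) {w : ℂ | conj (dl β) * w ∈ HB k b} :=
      fun w hw => (Phi_diff S hk hβ hb hG hw).differentiableWithinAt
    exact h1.analyticAt ((HBt_open hk β b).mem_nhds (hmem t ht).1)
  have hg : AnalyticOnNhd ℂ (ser lam c) R := by
    rintro v ⟨t, ht, rfl⟩
    exact (ser_diff S).analyticAt (isOpen_two.mem_nhds (hmem t ht).2)
  set T : ℝ := b0 k β + 1 with hT
  have hT0 : 0 ≤ T := by
    have := b0_nonneg hβ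
    linarith
  have hTm : conj (dl β) * (w + T * dl β) ∈ HB k (b0 k β) := by
    rw [hturn]
    have h1 := B_add hk hw.1 hT0
    refine ⟨h1.1, ?_⟩
    have h2 := B_pos hk hw.1
    have := h1.2
    linarith
  have key := hf.eqOn_of_preconnected_of_eventuallyEq hg hpre (z₀ := w + T * dl β) ⟨T, hT0, rfl⟩ (by
    filter_upwards [(HBt_open hk β (b0 k β)).mem_nhds hTm] with v hv
    exact Phi_eq S hk hβ hv)
  have := key (show w ∈ R from ⟨0, self_mem_Ici, by simp⟩)
  exact this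

end Pool.Agent.D0H40.CX
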