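import Pool.Agent.D0H40.CX.Abs2

/-! The data of an elliptic curve over `ℚ`, without any assumption on its `L`-function. -/

set_option autoImplicit false

namespace Pool.Agent.D0H40.CX

open Complex MeasureTheory Filter Topology Set Classical
open Pool.Agent.D0H40.KX
open Pool.Agent.W189.ML (ser xp_eq)
open Pool.Agent.W263.BSD (EData GG cc fac xp norm_xp norm_xp_le tt mm dl_sq dl_cube dl_nonneg dl_le
  pointCount GoodPrime SS Ap eData ef ef_eq small small_differentiable factor_slit gterm cc_eq_lp lp)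
open Pool.Agent.W524.RY (cf small_ne_zero GG_sector' ef_ne_zero')
open Pool.Agent.W334.BSD (exists_log log_unique)
open Pool.Agent.D0H40.GC (cf_abs_le)
open scoped ComplexConjugate

variable {k : ℝ}

/-- a function without zeros in the closed half-plane has a logarithm that is bounded near `0` -/
theorem half_log {f : ℂ → ℂ} (hf : Differentiable ℂ f) (h0 : ∀ w : ℂ, 0 ≤ w.re → f w ≠ 0) :
    ∃ g : ℂ → ℂ, DifferentiableOn ℂ g {w | 0 < w.re} ∧ (∀ w : ℂ, 0 < w.re → exp (g w) = f w) ∧
      ∃ C : ℝ, ∀ w : ℂ, 0 < w.re → ‖w‖ ≤ 1 → ‖g w‖ ≤ C := by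
  have hne : ({w : ℂ | 0 < w.re}).Nonempty := ⟨1, by simp⟩
  obtain ⟨g, hg1, hg2⟩ := exists_log (re_open 0) (re_conv 0) hne hf.differentiableOn
    (fun w hw => h0 w (le_of_lt hw))
  refine ⟨g, hg1, fun w hw => hg2 w hw, ?_⟩
  set K : Set ℂ := Metric.closedBall 0 1 ∩ {w | 0 ≤ w.re} with hK
  have hKc : IsCompact K := (isCompact_closedBall 0 1).inter_right
    (isClosed_le continuous_const Complex.continuous_re)
  have hKv : Convex ℝ K := (convex_closedBall 0 1).inter (convex_halfSpace_re_ge 0)
  have hOo : IsOpen {w : ℂ | f w ≠ 0} := isOpen_ne_fun hf.continuous continuous_const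
  obtain ⟨δ, hδ, hsub⟩ := hKc.exists_cthickening_subset_open hOo (fun w hw => h0 w hw.2)
  set V : Set ℂ := Metric.thickening δ K with hV
  have hVo : IsOpen V := Metric.isOpen_thickening
  have hVc : Convex ℝ V := hKv.thickening δ
  have hKV : K ⊆ V := Metric.self_subset_thickening hδ _
  have h0K : (0 : ℂ) ∈ K := by
    constructor
    · simp
    · simp
  obtain ⟨L, hL1, hL2⟩ := exists_log hVo hVc ⟨0, hKV h0K⟩ hf.differentiableOn
    (fun w hw => hsub (Metric.thickening_subset_cthickening _ _ hw))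
  obtain ⟨M, hM⟩ := hKc.exists_bound_of_continuousOn (hL1.continuousOn.mono hKV)
  set W : Set ℂ := V ∩ {w | 0 < w.re} with hW
  have h1K : (1 : ℂ) ∈ K := by
    constructor
    · simp
    · simp
  have h1W : (1 : ℂ) ∈ W := ⟨hKV h1K, by simp⟩
  have hu := log_unique (hVo.inter (re_open 0)) (hVc.inter (re_conv 0)).isPreconnected (f := g) (g := L)
    (hg1.mono inter_subset_right) (hL1.mono inter_subset_left) (fun q hq => by
      rw [hg2 q hq.2, hL2 q hq.1]) h1W
  refine ⟨M + ‖g 1 - L 1‖, fun w hw hw1 => ?_⟩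
  have hwK : w ∈ K := ⟨by rwa [mem_closedBall_zero_iff], hw.le⟩
  have h1 := hu w ⟨hKV hwK, hw⟩
  have e : g w = L w + (g 1 - L 1) := by linear_combination h1
  rw [e]
  exact (norm_add_le _ _).trans (add_le_add (hM w hwK) le_rfl)

section General

variable {S : Set ℕ} {A : ℕ → ℝ}

/-- the sharper bound of the coefficients -/
theorem cc_abs' (E : EData S A) {p : ℕ} (hp : p ∈ S) : |cc A p| ≤ 4 * (p : ℝ) ^ (-(1 / 2) : ℝ) := by
  have h25 := E.big p hp
  have hp0 : (0 : ℝ) < p := by
    have : 0 < p := by omega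
    exact_mod_cast this
  have h2 := E.log_fac hp (X := 1) (by simp)
  rw [← E.cc_eq hp] at h2
  have h3 : ((cc A p : ℂ) - (-(tt A p) * 1 + mm A p * 1 ^ 2)) =
      ((cc A p - (-(tt A p) + mm A p) : ℝ) : ℂ) := by push_cast; ring
  rw [h3, Complex.norm_real, Real.norm_eq_abs] at h2
  have h4 := abs_le.mp h2
  have h5 := abs_le.mp (E.tt_le hp)
  have h6 := E.mm_le hp
  rw [← dl_sq (by omega)] at h6
  have h6' := abs_le.mp h6
  have h7 := dl_nonneg p
  have h8 := dl_le h25
  have h9 : Pool.Agent.W263.BSD.dl p ^ 2 ≤ 1 / 5 * Pool.Agent.W263.BSD.dl p := by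
    rw [sq]
    exact mul_le_mul_of_nonneg_right h8 h7
  have h10 : Pool.Agent.W263.BSD.dl p ^ 3 ≤ 1 / 25 * Pool.Agent.W263.BSD.dl p := by
    calc Pool.Agent.W263.BSD.dl p ^ 3 = Pool.Agent.W263.BSD.dl p ^ 2 * Pool.Agent.W263.BSD.dl p := by ring
      _ ≤ (1 / 5 * Pool.Agent.W263.BSD.dl p) * Pool.Agent.W263.BSD.dl p :=
          mul_le_mul_of_nonneg_right h9 h7
      _ = 1 / 5 * Pool.Agent.W263.BSD.dl p ^ 2 := by ring
      _ ≤ 1 / 5 * (1 / 5 * Pool.Agent.W263.BSD.dl p) := by gcongr
      _ = _ := by ring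
  have h11 : Pool.Agent.W263.BSD.dl p = (p : ℝ) ^ (-(1 / 2) : ℝ) := by
    unfold Pool.Agent.W263.BSD.dl
    rw [Real.sqrt_eq_rpow, one_div, Real.rpow_neg hp0.le]
  rw [← h11, abs_le]
  constructor <;> linarith [h4.1, h4.2, h5.1, h5.2, h6'.1, h6'.2]

theorem ser_term_le (E : EData S A) (w : ℂ) (p : ℕ) :
    ‖((if p ∈ S then cc A p else 0 : ℝ) : ℂ) * Complex.exp (-(w * Real.log p))‖ ≤
      4 * (p : ℝ) ^ (-(1 / 2 + w.re)) := by
  by_cases hp : p ∈ S
  · have h25 := E.big p hp
    have hp0 : (0 : ℝ) < p := by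
      have : 0 < p := by omega
      exact_mod_cast this
    rw [if_pos hp, ← xp_eq (by omega), norm_mul, norm_xp (by omega), Complex.norm_real,
      Real.norm_eq_abs]
    have h1 := cc_abs' E hp
    have h2 : (p : ℝ) ^ (-(1 / 2 + w.re)) = (p : ℝ) ^ (-(1 / 2) : ℝ) * (p : ℝ) ^ (-w.re) := by
      rw [← Real.rpow_add hp0]
      congr 1
      ring
    rw [h2, ← mul_assoc]
    exact mul_le_mul_of_nonneg_right h1 (by positivity)
  · rw [if_neg hp]
    simp
    positivity

theorem half_sum (E : EData S A) {w : ℂ} (hw : 1 / 2 < w.re) :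
    Summable fun p : ℕ => ((if p ∈ S then cc A p else 0 : ℝ) : ℂ) *
      Complex.exp (-(w * Real.log p)) := by
  refine Summable.of_norm_bounded ((Real.summable_nat_rpow.mpr
    (by linarith : -(1 / 2 + w.re) < -1)).mul_left 4) fun p => ser_term_le E w p

/-- the Euler product over the large primes converges for `Re w > 1/2` -/
theorem half_prod (E : EData S A) {w : ℂ} (hw : 1 / 2 < w.re) :
    HasProd (fun p => if p ∈ S then (fac A p (xp p w))⁻¹ else 1)
      (Complex.exp (GG S A w - ser (fun p : ℕ => Real.log p) (fun p => if p ∈ S then cc A p else 0) w)) := by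
  have h2 := (E.gterm_summable (by linarith : 0 < w.re)).hasSum
  have hsum := half_sum E hw
  have h3 := h2.sub hsum.hasSum
  have h4 : (fun p => gterm S A p w - ((if p ∈ S then cc A p else 0 : ℝ) : ℂ) *
      Complex.exp (-(w * Real.log p))) =
      fun p => if p ∈ S then -Complex.log (fac A p (xp p w)) else 0 := by
    funext p
    unfold gterm
    split_ifs with hp
    · have h25 := E.big p hp
      rw [← xp_eq (by omega)]
      ring
    · simp
  rw [h4] at h3
  have h5 := h3.cexp
  have h6 : (Complex.exp ∘ fun p => if p ∈ S then -Complex.log (fac A p (xp p w)) else 0) =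
      fun p => if p ∈ S then (fac A p (xp p w))⁻¹ else 1 := by
    funext p
    simp only [Function.comp_apply]
    split_ifs with h
    · rw [Complex.exp_neg, Complex.exp_log]
      have h25 := E.big p h
      have := factor_slit (dl_nonneg p) (dl_le h25) (E.tt_le h)
        (norm_xp_le (p := p) (by omega) (by linarith : 0 ≤ w.re))
      exact Complex.slitPlane_ne_zero this
    · simp
  rw [h6] at h5
  exact h5

theorem half_diff (E : EData S A) : DifferentiableOn ℂ
    (ser (fun p : ℕ => Real.log p) (fun p => if p ∈ S then cc A p else 0)) {w | 1 / 2 < w.re} := by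
  intro w hw
  have hw' : 1 / 2 < w.re := hw
  obtain ⟨s, hs1, hs2⟩ := exists_between hw'
  have hopen : IsOpen {z : ℂ | s < z.re} := re_open s
  have h1 : DifferentiableOn ℂ (ser (fun p : ℕ => Real.log p) (fun p => if p ∈ S then cc A p else 0))
      {z : ℂ | s < z.re} := by
    unfold ser
    refine Complex.differentiableOn_tsum_of_summable_norm
      ((Real.summable_nat_rpow.mpr (by linarith : -(1 / 2 + s) < -1)).mul_left 4) (fun i => ?_) hopen
      (fun p z hz => ?_)
    · exact Differentiable.differentiableOn (by fun_prop)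
    · refine (ser_term_le E z p).trans ?_
      have hz' : s < z.re := hz
      rcases Nat.eq_zero_or_pos p with h0 | h0
      · subst h0
        rw [Nat.cast_zero, Real.zero_rpow (by linarith), Real.zero_rpow (by linarith)]
      · refine mul_le_mul_of_nonneg_left ?_ (by norm_num)
        exact Real.rpow_le_rpow_of_exponent_le (by exact_mod_cast h0) (by linarith)
  exact (h1.differentiableAt (hopen.mem_nhds hs2)).differentiableWithinAt

end General

variable {a b : ℤ}

/-- the Euler product as a function of `w = s - 1` -/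
noncomputable def Eu (a b : ℤ) (w : ℂ) : ℂ := ∏' p : ℕ, if GoodPrime a b p then (ef a b p w)⁻¹ else 1

/-- the logarithm of the factors of the small primes -/
theorem small_log (a b : ℤ) : ∃ g : ℂ → ℂ, DifferentiableOn ℂ g {w | 0 < w.re} ∧
    (∀ w : ℂ, 0 < w.re → exp (g w) = small a b w) ∧
      ∃ C : ℝ, ∀ w : ℂ, 0 < w.re → ‖w‖ ≤ 1 → ‖g w‖ ≤ C :=
  half_log small_differentiable fun _ hw => small_ne_zero hw

theorem full_prod {w : ℂ} (hw : 1 / 2 < w.re) :
    HasProd (fun p : ℕ => if GoodPrime a b p then (ef a b p w)⁻¹ else 1)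
      (Complex.exp (GG (SS a b) (Ap a b) w - ser (fun p : ℕ => Real.log p) (cf a b) w) *
        (small a b w)⁻¹) := by
  have h1 := half_prod (eData a b) hw
  have h2 : HasProd (fun p : ℕ => if p ∈ Finset.range 25 then
      (if GoodPrime a b p then (ef a b p w)⁻¹ else 1) else 1) (small a b w)⁻¹ := by
    have : (small a b w)⁻¹ = ∏ p ∈ Finset.range 25, if p ∈ Finset.range 25 then
        (if GoodPrime a b p then (ef a b p w)⁻¹ else 1) else 1 := by
      unfold small
      rw [← Finset.prod_inv_distrib]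
      refine Finset.prod_congr rfl fun p hp => ?_
      rw [if_pos hp]
      split_ifs
      · rfl
      · exact inv_one
    rw [this]
    refine hasProd_prod_of_ne_finset_one fun p hp => ?_
    rw [if_neg hp]
  have h3 := h1.mul h2
  have h4 : (fun p : ℕ => (if p ∈ SS a b then (fac (Ap a b) p (xp p w))⁻¹ else 1) *
      (if p ∈ Finset.range 25 then (if GoodPrime a b p then (ef a b p w)⁻¹ else 1) else 1)) =
      fun p => if GoodPrime a b p then (ef a b p w)⁻¹ else 1 := by
    funext p
    by_cases hg : GoodPrime a b p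
    · by_cases h25 : 25 ≤ p
      · have hm : p ∉ Finset.range 25 := by rw [Finset.mem_range]; omega
        have hS : p ∈ SS a b := ⟨hg, h25⟩
        simp only [if_pos hg, if_neg hm, if_pos hS, mul_one, ef_eq hg.1.one_le]
      · have hm : p ∈ Finset.range 25 := by rw [Finset.mem_range]; omega
        have hS : p ∉ SS a b := fun h => h25 h.2
        simp only [if_pos hg, if_pos hm, if_neg hS, one_mul]
    · have hS : p ∉ SS a b := fun h => hg h.1
      simp only [if_neg hg, if_neg hS, ite_self, mul_one]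
  rw [h4] at h3
  exact h3

theorem Eu_hasProd {w : ℂ} (hw : 1 / 2 < w.re) :
    HasProd (fun p : ℕ => if GoodPrime a b p then (ef a b p w)⁻¹ else 1) (Eu a b w) := by
  have := full_prod (a := a) (b := b) hw
  unfold Eu
  rw [this.tprod_eq]
  exact this

theorem sys_curve (a b : ℤ) : Sys (fun p : ℕ => Real.log p) (cf a b) where
  nonneg := fun p => Real.log_natCast_nonneg p
  low := fun p h => by
    have hS : p ∈ SS a b := by
      by_contra hc
      apply h
      unfold cf
      rw [if_neg hc]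
    have := hS.2
    apply Real.log_pos
    exact_mod_cast (by omega : 1 < p)
  sum := (Pool.Agent.W189.ML.sdata (eData a b)).sum

/-- **the data of the curve** -/
theorem esys (a b : ℤ) : ∃ G : ℂ → ℂ, ESys (fun p : ℕ => Real.log p) (cf a b) G (Eu a b) (1 / 2) := by
  obtain ⟨g, hg1, hg2, C₀, hC₀⟩ := small_log a b
  refine ⟨fun w => GG (SS a b) (Ap a b) w - g w, sys_curve a b, by norm_num, half_diff (eData a b),
    ?_, ?_, ?_⟩
  · intro w hw
    have hw' : 0 < w.re := hw
    exact (((eData a b).GG_differentiable hw').differentiableWithinAt).sub (hg1 w hw)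
  · intro M
    obtain ⟨C, hC⟩ := GG_sector' (eData a b) (R := |M|) (abs_nonneg M)
    refine ⟨C + C₀, fun w hw hw1 hwM => (norm_sub_le _ _).trans (add_le_add (hC w hw ?_) (hC₀ w hw hw1))⟩
    exact hwM.trans (mul_le_mul_of_nonneg_right (le_abs_self M) hw.le)
  · intro w hw
    have hw0 : 0 < w.re := by linarith
    have h1 := full_prod (a := a) (b := b) hw
    unfold Eu
    rw [h1.tprod_eq, ← hg2 w hw0, ← Complex.exp_neg, ← Complex.exp_add]
    congr 1
    ring

/-! ### The finite sums -/

theorem tk_summable' (hk : 1 < k) (τ : ℝ) {L : ℝ} (hL : 0 < L) : Summable (tk a b k τ L) :=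
  ((sys_curve a b).term_summable hk (kap_pos k τ hL)).of_norm

theorem trunc_le' (hk : 1 < k) (τ : ℝ) {X : ℝ} (hX : 1 < X) :
    ‖fk (fun p : ℕ => Real.log p) (cf a b) k (kap k τ (Real.log X)) -
      ∑ p ∈ Finset.range (⌊X⌋₊ + 1), tk a b k τ (Real.log X) p‖ ≤ 2 ^ (k - 1) / (k - 1) := by
  have hL : 0 < Real.log X := Real.log_pos hX
  have hs := tk_summable' (a := a) (b := b) hk τ hL
  set N := ⌊X⌋₊ + 1 with hN
  have e1 : fk (fun p : ℕ => Real.log p) (cf a b) k (kap k τ (Real.log X)) =
      ∑' p, tk a b k τ (Real.log X) p := rfl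
  rw [e1, ← hs.sum_add_tsum_compl (s := Finset.range N), add_sub_cancel_left]
  set h : ℕ → ℝ := fun p => if p < N then 0 else ‖tk a b k τ (Real.log X) p‖ with hh
  have h0 : ∀ n, 0 ≤ h n := by
    intro n
    rw [hh]
    simp only
    split_ifs
    · exact le_rfl
    · exact norm_nonneg _
  have hb : ∀ n, ∑ i ∈ Finset.range n, h i ≤ 2 ^ (k - 1) / (k - 1) := tail_pw hk hX.le h0
    (fun n hn => by rw [hh]; simp only; rw [if_pos hn])
    (fun n hn => by
      rw [hh]
      simp only
      rw [if_neg (by omega)]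
      exact tk_tail hk τ hX hn)
  have hsum : Summable h := summable_of_sum_range_le h0 hb
  have hle : ∑' n, h n ≤ 2 ^ (k - 1) / (k - 1) := Real.tsum_le_of_sum_range_le h0 hb
  refine le_trans ?_ hle
  rw [tsum_subtype ((Finset.range N : Set ℕ)ᶜ) (tk a b k τ (Real.log X))]
  refine tsum_of_norm_bounded hsum.hasSum fun i => ?_
  by_cases hi : i < N
  · have : i ∉ ((Finset.range N : Set ℕ)ᶜ) := by simpa using hi
    rw [indicator_of_notMem this, norm_zero]
    exact h0 i
  · have : i ∈ ((Finset.range N : Set ℕ)ᶜ) := by simpa using hi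
    rw [indicator_of_mem this, hh]
    simp only
    rw [if_neg hi]

/-- the finite sum is the full sum up to a bounded amount -/
theorem wk_le' (hk : 1 < k) (a b : ℤ) : ∃ C : ℝ, 0 ≤ C ∧ ∀ τ X : ℝ, 1 < X →
    ‖wk a b k τ X - fk (fun p : ℕ => Real.log p) (cf a b) k (kap k τ (Real.log X))‖ ≤ C := by
  have hk1 : 0 < k - 1 := by linarith
  refine ⟨∑ p ∈ Finset.range 25, |lp a b p| + 2 ^ (k - 1) / (k - 1), by positivity, fun τ X hX => ?_⟩
  have h1 := small_le (a := a) (b := b) k τ hX
  have h2 := trunc_le' (a := a) (b := b) hk τ hX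
  rw [norm_sub_rev] at h2
  have e : wk a b k τ X - fk (fun p : ℕ => Real.log p) (cf a b) k (kap k τ (Real.log X)) =
    (wk a b k τ X - ∑ p ∈ Finset.range (⌊X⌋₊ + 1), tk a b k τ (Real.log X) p) +
    (∑ p ∈ Finset.range (⌊X⌋₊ + 1), tk a b k τ (Real.log X) p -
      fk (fun p : ℕ => Real.log p) (cf a b) k (kap k τ (Real.log X))) := by ring
  rw [e]
  exact (norm_add_le _ _).trans (add_le_add h1 h2)

/-- the parameter in terms of the direction -/
theorem kap_kb (hk : 1 < k) (τ L : ℝ) : kap k τ L = kb k (bt k τ) (qq τ * (L ^ (k - 1))⁻¹) := by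
  unfold kap kb
  rw [k_bt hk, theta_eq]
  push_cast
  ring

end Pool.Agent.D0H40.CX
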