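import Pool.Agent.D0H40.CX.Fwd2

/-! From the law for the sums to the behaviour of the continuation at the vertex. -/

set_option autoImplicit false

namespace Pool.Agent.D0H40.CX

open Complex MeasureTheory Filter Topology Set
open Pool.Agent.D0H40.KX
open Pool.Agent.W189.ML (ser)
open scoped ComplexConjugate

variable {k : ℝ} {lam c : ℕ → ℝ}

/-- uniform bound for the kernel at unit vectors -/
theorem pp_unit (hk : 1 < k) {φ : ℝ} (h0 : 0 ≤ φ) (hφ : φ < fc k) :
    ∃ C₁ C₂ : ℝ, 0 ≤ C₁ ∧ 0 ≤ C₂ ∧ ∀ u ∈ Cs φ, ‖u‖ = 1 → ∀ v : ℝ, 0 < v →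
      ‖pp k v u‖ ≤ gdom k C₁ C₂ v := by
  obtain ⟨C₀, hC₀, hp1⟩ := pp_le1 hk h0 hφ
  obtain ⟨C₃, hC₃, hp2⟩ := pp_le2 hk h0 hφ one_pos (δ := 1 / 2) (by norm_num) (by norm_num)
  have hk1 : 0 < k - 1 := by linarith
  have hcφ : 0 < Real.cos (kp k * φ) := cos_kp_pos hk (by rw [abs_of_nonneg h0]; exact hφ)
  set bm : ℝ := Real.cos (kp k * φ) ^ (1 / kp k) with hbm
  have hbm0 : 0 < bm := Real.rpow_pos_of_pos hcφ _
  have hE : 0 < Ex k ((1 / 2) * bm) := Ex_pos hk (by positivity)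
  obtain ⟨C₄, hC₄, hp3⟩ := pw_exp_le (p := 1 / (k - 1)) (by positivity) hE
  refine ⟨C₃ * C₄, C₀, by positivity, hC₀, fun u hu hu1 v hv => ?_⟩
  unfold gdom
  split_ifs with h
  · have h1 := hp2 v hv h u hu hu1.ge
    have h2 : bm ≤ B k u := by
      unfold B
      rw [hu1, one_mul, hbm]
      refine Real.rpow_le_rpow hcφ.le ?_ (by have := kp_pos hk; positivity)
      rw [← Real.cos_abs (kp k * arg u), abs_mul, abs_of_pos (kp_pos hk)]
      refine Real.cos_le_cos_of_nonneg_of_le_pi (by have := kp_pos hk; positivity) ?_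
        (mul_le_mul_of_nonneg_left hu.2 (kp_pos hk).le)
      have h3 := kp_arg hk (x := φ) (by rw [abs_of_nonneg h0]; exact hφ)
      have := (abs_lt.1 h3).2
      linarith [Real.pi_pos]
    have h3 : Ex k ((1 / 2) * bm) ≤ Ex k ((1 - 1 / 2) * B k u) := by
      refine Ex_mono hk (by positivity) ?_
      linarith
    have hv0 : 0 ≤ v ^ (-(1 / (k - 1))) := Real.rpow_nonneg hv.le _
    have hvi : 0 < v⁻¹ := inv_pos.2 hv
    calc ‖pp k v u‖ ≤ C₃ * v⁻¹ * Real.exp (-(Ex k ((1 - 1 / 2) * B k u) * v ^ (-(1 / (k - 1))))) := h1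
      _ ≤ C₃ * v⁻¹ * Real.exp (-(Ex k ((1 / 2) * bm) * v ^ (-(1 / (k - 1))))) := by
          refine mul_le_mul_of_nonneg_left ?_ (by positivity)
          apply Real.exp_le_exp.2
          have := mul_le_mul_of_nonneg_right h3 hv0
          linarith
      _ = C₃ * (v⁻¹ * Real.exp (-(Ex k ((1 / 2) * bm) * v ^ (-(1 / (k - 1)))))) := by ring
      _ ≤ C₃ * C₄ := mul_le_mul_of_nonneg_left (hp3 v hv h) hC₃
  · have h1 := hp1 v hv u hu
    rw [hu1, mul_one] at h1
    exact h1

theorem log_le_pw {a x : ℝ} (ha : 0 < a) (hx : 1 ≤ x) : Real.log x ≤ a⁻¹ * x ^ a := by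
  have hx0 : 0 < x := by linarith
  have h1 := Real.log_le_sub_one_of_pos (Real.rpow_pos_of_pos hx0 a)
  rw [Real.log_rpow hx0] at h1
  rw [← div_eq_inv_mul, le_div_iff₀ ha]
  linarith

/-- the weighted dominating function -/
theorem gdom_log_int (hk : 1 < k) {C₁ C₂ : ℝ} (hC₂ : 0 ≤ C₂) :
    IntegrableOn (fun v => gdom k C₁ C₂ v * |Real.log v|) (Ioi 0) := by
  have ha := (inv_k hk).1
  have hu : (Ioi (0:ℝ)) = Ioc 0 1 ∪ Ioi 1 := (Ioc_union_Ioi_eq_Ioi zero_le_one).symm
  rw [hu]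
  have hlogm : Measurable fun v : ℝ => |Real.log v| := Real.measurable_log.abs
  have hgm : Measurable (gdom k C₁ C₂) := by
    unfold gdom
    refine Measurable.ite measurableSet_Iic measurable_const ?_
    fun_prop
  refine IntegrableOn.union ?_ ?_
  · have h1 : IntegrableOn (fun v : ℝ => C₁ * |Real.log v|) (Ioc 0 1) := by
      have h2 : IntervalIntegrable Real.log volume 0 1 := intervalIntegral.intervalIntegrable_log'
      rw [intervalIntegrable_iff_integrableOn_Ioc_of_le zero_le_one] at h2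
      exact h2.abs.const_mul C₁
    refine h1.congr_fun (fun v hv => ?_) measurableSet_Ioc
    unfold gdom
    rw [if_pos hv.2]
  · have h1 : IntegrableOn (fun v : ℝ => (C₂ * (1 / k / 2)⁻¹) * v ^ (-1 - 1 / k / 2)) (Ioi 1) := by
      refine Integrable.const_mul ?_ _
      refine integrableOn_Ioi_rpow_of_lt ?_ one_pos
      linarith
    refine Integrable.mono' h1 (hgm.mul hlogm).aestronglyMeasurable ?_
    refine (ae_restrict_iff' measurableSet_Ioi).2 (Eventually.of_forall fun v hv => ?_)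
    have hv1 : 1 < v := hv
    have hv0 : 0 < v := by linarith
    have h2 : 0 ≤ Real.log v := Real.log_nonneg hv1.le
    unfold gdom
    rw [if_neg (not_le.2 hv1), abs_of_nonneg h2]
    have h3 := log_le_pw (a := 1 / k / 2) (by positivity) hv1.le
    have hvp : 0 ≤ v ^ (-1 - 1 / k) := Real.rpow_nonneg hv0.le _
    rw [Real.norm_of_nonneg (by positivity)]
    calc C₂ * v ^ (-1 - 1 / k) * Real.log v ≤
        C₂ * v ^ (-1 - 1 / k) * ((1 / k / 2)⁻¹ * v ^ (1 / k / 2)) := by gcongr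
      _ = (C₂ * (1 / k / 2)⁻¹) * (v ^ (-1 - 1 / k) * v ^ (1 / k / 2)) := by ring
      _ = _ := by
          rw [← Real.rpow_add hv0]
          congr 2
          ring

/-- the kernel has total mass one -/
theorem pp_mass (hk : 1 < k) {φ : ℝ} (h0 : 0 ≤ φ) (hφ : φ < fc k) {u : ℂ} (hu : u ∈ Cs φ)
    (hu1 : ‖u‖ = 1) : ∫ v in Ioi (0:ℝ), pp k v u = 1 := by
  obtain ⟨C₁, C₂, hC₁, hC₂, hb⟩ := pp_unit hk h0 hφ
  have ha := (inv_k hk).1
  set s : ℕ → ℝ := fun n => 1 / ((n : ℝ) + 1) with hs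
  have hs0 : ∀ n, 0 < s n := fun n => by rw [hs]; positivity
  have hsz : Tendsto s atTop (𝓝 0) := tendsto_one_div_add_atTop_nhds_zero_nat
  have h1 : Tendsto (fun n => ∫ v in Ioi (0:ℝ), pp k v u * exp (-((s n : ℂ) * v))) atTop
      (𝓝 (∫ v in Ioi (0:ℝ), pp k v u)) := by
    refine tendsto_integral_of_dominated_convergence (gdom k C₁ C₂) (fun n => ?_) (gdom_int hk C₁ C₂)
      (fun n => ?_) ?_
    · exact (pp_meas k u).aestronglyMeasurable.mul
        (by fun_prop : Continuous fun v : ℝ => exp (-((s n : ℂ) * v))).aestronglyMeasurable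
    · refine (ae_restrict_iff' measurableSet_Ioi).2 (Eventually.of_forall fun v hv => ?_)
      have hv0 : 0 < v := hv
      rw [norm_mul, Complex.norm_exp]
      have h2 : Real.exp (-((s n : ℂ) * v)).re ≤ 1 := by
        apply Real.exp_le_one_iff.2
        rw [← Complex.ofReal_mul, ← Complex.ofReal_neg, Complex.ofReal_re]
        have := mul_pos (hs0 n) hv0
        linarith
      calc ‖pp k v u‖ * Real.exp (-((s n : ℂ) * v)).re ≤ ‖pp k v u‖ * 1 :=
            mul_le_mul_of_nonneg_left h2 (norm_nonneg _)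
        _ ≤ _ := by rw [mul_one]; exact hb u hu hu1 v hv0
    · refine Eventually.of_forall fun v => ?_
      have h3 : Tendsto (fun n => exp (-((s n : ℂ) * v))) atTop (𝓝 (exp (-(((0 : ℝ) : ℂ) * v)))) := by
        have h4 : Continuous fun x : ℝ => exp (-((x : ℂ) * v)) := by fun_prop
        exact (h4.tendsto 0).comp hsz
      rw [Complex.ofReal_zero, zero_mul, neg_zero, Complex.exp_zero] at h3
      simpa using h3.const_mul (pp k v u)
  have h2 : ∀ n, ∫ v in Ioi (0:ℝ), pp k v u * exp (-((s n : ℂ) * v)) =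
      exp (-(u * ((s n ^ (1 / k) : ℝ) : ℂ))) := by
    intro n
    rw [laplace hk h0 hφ hu (by simpa using hs0 n)]
    unfold hh
    rw [← Complex.ofReal_cpow (hs0 n).le]
  simp only [h2] at h1
  have h3 : Tendsto (fun n => exp (-(u * ((s n ^ (1 / k) : ℝ) : ℂ)))) atTop (𝓝 1) := by
    have h4 : Tendsto (fun n => s n ^ (1 / k)) atTop (𝓝 0) := by
      have h5 : ContinuousAt (fun x : ℝ => x ^ (1 / k)) 0 := Real.continuousAt_rpow_const _ _ (Or.inr ha.le)
      have h6 := h5.tendsto.comp hsz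
      rw [Real.zero_rpow ha.ne'] at h6
      exact h6
    have h7 : Continuous fun x : ℝ => exp (-(u * (x : ℂ))) := by fun_prop
    have h8 : Tendsto (fun n => exp (-(u * ((s n ^ (1 / k) : ℝ) : ℂ)))) atTop
        (𝓝 (exp (-(u * ((0 : ℝ) : ℂ))))) := (h7.tendsto 0).comp h4
    rw [Complex.ofReal_zero, mul_zero, neg_zero, Complex.exp_zero] at h8
    exact h8
  exact tendsto_nhds_unique h1 h3

theorem pp_scale2 (hk : 1 < k) {φ : ℝ} (h0 : 0 ≤ φ) (hφ : φ < fc k) {u : ℂ} (hu : u ∈ Cs φ)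
    {R v : ℝ} (hR : 0 < R) (hv : 0 < v) :
    ((R ^ k : ℝ) : ℂ) * pp k (R ^ k * v) (u * R) = pp k v u := by
  have hk0 : 0 < k := by linarith
  have hRk : 0 < R ^ k := Real.rpow_pos_of_pos hR _
  rw [pp_scale hk h0 hφ (Cs_mul hR hu) (mul_pos hRk hv), pp_scale hk h0 hφ hu hv]
  have e1 : (R ^ k * v) ^ (-(1 / k)) = R⁻¹ * v ^ (-(1 / k)) := by
    rw [Real.mul_rpow hRk.le hv.le, ← Real.rpow_mul hR.le]
    have : k * -(1 / k) = -1 := by field_simp
    rw [this, Real.rpow_neg_one]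
  rw [e1]
  have hRc : (R : ℂ) ≠ 0 := by exact_mod_cast hR.ne'
  have hRkc : ((R ^ k : ℝ) : ℂ) ≠ 0 := by exact_mod_cast hRk.ne'
  have hvc : (v : ℂ) ≠ 0 := by exact_mod_cast hv.ne'
  have e2 : u * (R : ℂ) * ((R⁻¹ * v ^ (-(1 / k)) : ℝ) : ℂ) = u * ((v ^ (-(1 / k)) : ℝ) : ℂ) := by
    push_cast
    field_simp
  rw [e2]
  push_cast
  field_simp

/-- **The behaviour at the vertex.** -/
theorem law_fwd (hk : 1 < k) (S : Sys lam c) {β : ℝ} (hβ : |k * β| < Real.pi / 2) {r : ℂ} {φ : ℝ}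
    (h0 : 0 ≤ φ) (hφ : φ < fc k) :
    ∃ K : ℝ, 0 ≤ K ∧ ∀ ε C : ℝ, 0 ≤ ε → 0 ≤ C →
      (∀ κ : ℝ, 0 < κ → κ ≤ 1 → ‖fk lam c k (kb k β κ) - (r / k) * (Real.log (1 / κ) : ℝ)‖ ≤
        ε * Real.log (1 / κ) + C) →
      ∃ C' : ℝ, 0 ≤ C' ∧ ∀ w : ℂ, conj (dl β) * w ∈ Cs φ → ‖w‖ ≤ 1 →
        ‖Phi lam c k β w - r * (Real.log (1 / ‖w‖) : ℝ)‖ ≤ K * ε * Real.log (1 / ‖w‖) + C' := by
  have hk0 : 0 < k := by linarith
  obtain ⟨C₁, C₂, hC₁, hC₂, hb⟩ := pp_unit hk h0 hφ
  obtain ⟨M, hM0, hM⟩ := fk_large S hk hβ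
  have hgi := gdom_int hk C₁ C₂
  have hgli := gdom_log_int (C₁ := C₁) hk hC₂
  set K0 : ℝ := ∫ v in Ioi (0:ℝ), gdom k C₁ C₂ v with hK0
  set K1 : ℝ := ∫ v in Ioi (0:ℝ), gdom k C₁ C₂ v * |Real.log v| with hK1
  have hg0 : ∀ v : ℝ, 0 < v → 0 ≤ gdom k C₁ C₂ v := fun v hv => by
    unfold gdom
    split_ifs
    · exact hC₁
    · have := Real.rpow_nonneg hv.le (-1 - 1 / k)
      positivity
  have hK00 : 0 ≤ K0 := setIntegral_nonneg measurableSet_Ioi fun v hv => hg0 v hv
  have hK10 : 0 ≤ K1 := setIntegral_nonneg measurableSet_Ioi fun v hv =>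
    mul_nonneg (hg0 v hv) (abs_nonneg _)
  refine ⟨K0 * k, by positivity, fun ε C hε hC hG => ⟨(‖r‖ / k + ε) * K1 + (C + M) * K0, by positivity,
    fun w hw hw1 => ?_⟩⟩
  have hwn : 0 < ‖w‖ := by
    have := Cs_pos hw
    rwa [norm_mul, Complex.norm_conj, dl_norm, one_mul] at this
  set R : ℝ := ‖w‖ with hR
  have hRk : 0 < R ^ k := Real.rpow_pos_of_pos hwn _
  set u : ℂ := conj (dl β) * w * ((R⁻¹ : ℝ) : ℂ) with hu
  have huC : u ∈ Cs φ := Cs_mul (inv_pos.2 hwn) hw
  have hu1 : ‖u‖ = 1 := by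
    rw [hu, norm_mul, norm_mul, Complex.norm_conj, dl_norm, one_mul, Complex.norm_real,
      Real.norm_of_nonneg (inv_pos.2 hwn).le, ← hR, mul_inv_cancel₀ hwn.ne']
  have huR : u * (R : ℂ) = conj (dl β) * w := by
    rw [hu, mul_assoc, ← Complex.ofReal_mul, inv_mul_cancel₀ hwn.ne', Complex.ofReal_one, mul_one]
  have hlogR : 0 ≤ Real.log (1 / R) := Real.log_nonneg (by
    rw [le_div_iff₀ hwn]
    linarith)
  set T : ℝ := Real.log (1 / R) with hT
  have hTR : T = -Real.log R := by rw [hT, one_div, Real.log_inv]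
  -- change of variables
  have h1 : Phi lam c k β w = ∫ v in Ioi (0:ℝ), pp k v u * fk lam c k (kb k β (R ^ k * v)) := by
    unfold Phi
    have h2 := integral_comp_mul_left_Ioi
      (fun κ : ℝ => pp k κ (conj (dl β) * w) * fk lam c k (kb k β κ)) 0 hRk
    rw [mul_zero, Complex.real_smul] at h2
    have h3 : ∫ κ in Ioi (0:ℝ), pp k κ (conj (dl β) * w) * fk lam c k (kb k β κ) =
        ((R ^ k : ℝ) : ℂ) * ∫ v in Ioi (0:ℝ), pp k (R ^ k * v) (conj (dl β) * w) *
          fk lam c k (kb k β (R ^ k * v)) := by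
      rw [h2, ← mul_assoc, ← Complex.ofReal_mul, mul_inv_cancel₀ hRk.ne', Complex.ofReal_one, one_mul]
    rw [h3, ← integral_const_mul]
    refine setIntegral_congr_fun measurableSet_Ioi fun v hv => ?_
    have hv0 : 0 < v := hv
    show ((R ^ k : ℝ) : ℂ) * (pp k (R ^ k * v) (conj (dl β) * w) * fk lam c k (kb k β (R ^ k * v))) =
      pp k v u * fk lam c k (kb k β (R ^ k * v))
    rw [← mul_assoc, ← huR, pp_scale2 hk h0 hφ huC hwn hv0]
  -- the bound of the difference
  have h4 : ∀ v : ℝ, 0 < v → ‖fk lam c k (kb k β (R ^ k * v)) - r * (T : ℝ)‖ ≤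
      (‖r‖ / k + ε) * |Real.log v| + (ε * k * T + (C + M)) := by
    intro v hv
    have hlog : Real.log (R ^ k * v) = k * Real.log R + Real.log v := by
      rw [Real.log_mul hRk.ne' hv.ne', Real.log_rpow hwn]
    have hlog2 : Real.log (1 / (R ^ k * v)) = k * T - Real.log v := by
      rw [one_div, Real.log_inv, hlog, hTR]
      ring
    rcases le_or_gt (R ^ k * v) 1 with h5 | h5
    · have h6 := hG _ (mul_pos hRk hv) h5
      rw [hlog2] at h6
      have e : fk lam c k (kb k β (R ^ k * v)) - r * (T : ℝ) =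
          (fk lam c k (kb k β (R ^ k * v)) - (r / k) * ((k * T - Real.log v : ℝ) : ℂ)) -
            (r / k) * (Real.log v : ℝ) := by
        have hkc : (k : ℂ) ≠ 0 := by exact_mod_cast hk0.ne'
        push_cast
        field_simp
        ring
      rw [e]
      refine (norm_sub_le _ _).trans ?_
      rw [norm_mul, norm_div, Complex.norm_real, Complex.norm_real, Real.norm_of_nonneg hk0.le,
        Real.norm_eq_abs]
      have h7 : ε * (k * T - Real.log v) ≤ ε * (k * T + |Real.log v|) :=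
        mul_le_mul_of_nonneg_left (by have := neg_abs_le (Real.log v); linarith) hε
      calc _ ≤ (ε * (k * T + |Real.log v|) + C) + ‖r‖ / k * |Real.log v| :=
            add_le_add (h6.trans (add_le_add h7 le_rfl)) le_rfl
        _ ≤ _ := by linarith
    · have h6 := hM _ h5
      have h7 : k * T ≤ |Real.log v| := by
        have h8 : 0 ≤ Real.log (R ^ k * v) := Real.log_nonneg h5.le
        rw [hlog] at h8
        have := le_abs_self (Real.log v)
        rw [hTR]
        linarith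
      have h9 : ‖r * ((T : ℝ) : ℂ)‖ ≤ ‖r‖ / k * |Real.log v| := by
        rw [norm_mul, Complex.norm_real, Real.norm_of_nonneg hlogR]
        calc ‖r‖ * T = ‖r‖ / k * (k * T) := by field_simp
          _ ≤ _ := mul_le_mul_of_nonneg_left h7 (by positivity)
      have h10 : 0 ≤ ε * |Real.log v| := by positivity
      have h11 : 0 ≤ ε * k * T := by positivity
      refine (norm_sub_le _ _).trans ?_
      linarith
  have hmass := pp_mass hk h0 hφ huC hu1
  have hppi : IntegrableOn (fun v : ℝ => pp k v u) (Ioi 0) :=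
    hgi.mono' (pp_meas k u).aestronglyMeasurable
      ((ae_restrict_iff' measurableSet_Ioi).2 (Eventually.of_forall fun v hv => hb u huC hu1 v hv))
  have hdomi : IntegrableOn (fun v : ℝ => gdom k C₁ C₂ v *
      ((‖r‖ / k + ε) * |Real.log v| + (ε * k * T + (C + M)))) (Ioi 0) := by
    refine ((hgli.const_mul (‖r‖ / k + ε)).add (hgi.const_mul (ε * k * T + (C + M)))).congr
      (Eventually.of_forall fun v => ?_)
    simp only [Pi.add_apply]
    ring
  have hfm : AEStronglyMeasurable (fun v : ℝ => fk lam c k (kb k β (R ^ k * v)))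
      (volume.restrict (Ioi (0:ℝ))) := by
    refine aestronglyMeasurable_of_tendsto_ae atTop
      (f := fun (n : ℕ) (v : ℝ) => ∑ i ∈ Finset.range n, (c i : ℂ) * EE k (kb k β (R ^ k * v)) (lam i))
      (fun n => ?_) ?_
    · refine Continuous.aestronglyMeasurable ?_
      unfold EE kb
      fun_prop
    · refine (ae_restrict_iff' measurableSet_Ioi).2 (Eventually.of_forall fun v hv => ?_)
      exact (S.term_summable hk (kb_pos hβ (mul_pos hRk hv))).of_norm.hasSum.tendsto_sum_nat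
  have hdi : IntegrableOn (fun v : ℝ => pp k v u * (fk lam c k (kb k β (R ^ k * v)) - r * (T : ℝ)))
      (Ioi 0) := by
    refine hdomi.mono' ((pp_meas k u).aestronglyMeasurable.mul (hfm.sub aestronglyMeasurable_const))
      ((ae_restrict_iff' measurableSet_Ioi).2 (Eventually.of_forall fun v hv => ?_))
    rw [norm_mul]
    exact mul_le_mul (hb u huC hu1 v hv) (h4 v hv) (norm_nonneg _) (hg0 v hv)
  have h5 : Phi lam c k β w - r * (T : ℝ) =
      ∫ v in Ioi (0:ℝ), pp k v u * (fk lam c k (kb k β (R ^ k * v)) - r * (T : ℝ)) := by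
    have e : (fun v : ℝ => pp k v u * fk lam c k (kb k β (R ^ k * v))) =
        fun v : ℝ => pp k v u * (fk lam c k (kb k β (R ^ k * v)) - r * (T : ℝ)) +
          pp k v u * (r * (T : ℝ)) := by
      funext v
      ring
    rw [h1, e, integral_add hdi (hppi.mul_const _), integral_mul_const, hmass]
    ring
  rw [h5]
  refine (norm_integral_le_of_norm_le hdomi
    ((ae_restrict_iff' measurableSet_Ioi).2 (Eventually.of_forall fun v hv => ?_))).trans ?_
  · rw [norm_mul]
    exact mul_le_mul (hb u huC hu1 v hv) (h4 v hv) (norm_nonneg _) (hg0 v hv)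
  · have e2 : ∫ v in Ioi (0:ℝ), gdom k C₁ C₂ v * ((‖r‖ / k + ε) * |Real.log v| + (ε * k * T + (C + M))) =
        (‖r‖ / k + ε) * K1 + (ε * k * T + (C + M)) * K0 := by
      rw [hK0, hK1, ← integral_const_mul, ← integral_const_mul,
        ← integral_add (hgli.const_mul _) (hgi.const_mul _)]
      refine integral_congr_ae (Eventually.of_forall fun v => ?_)
      simp only
      ring
    rw [e2]
    refine le_of_eq ?_
    ring

end Pool.Agent.D0H40.CX
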