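import Pool.Agent.D0H40.CX.Bwd3
import Pool.Agent.D0H40.CX.LawF
import Pool.Agent.D0H40.KX.AbsK

/-! From the behaviour of the continuation at the vertex to the law for the sums. -/

set_option autoImplicit false

namespace Pool.Agent.D0H40.CX

open Complex MeasureTheory Filter Topology Set
open Pool.Agent.D0H40.KX
open Pool.Agent.D0H40.GC (zt zt_re zt_im pt pt_re pt_im zt_hasDeriv zt_mem exists_prim split_line half_convex)
open Pool.Agent.W189.ML (ser)
open scoped ComplexConjugate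

variable {k β t ψ : ℝ} {lam c : ℕ → ℝ}

theorem fc_mono {k k₂ : ℝ} (hk : 1 < k) (h : k < k₂) : fc k < fc k₂ := by
  unfold fc
  have hpi := Real.pi_pos
  have h1 : 1 / k₂ < 1 / k := one_div_lt_one_div_of_lt (by linarith) h
  refine mul_lt_mul_of_pos_left ?_ (by positivity)
  linarith

theorem frac_int : Integrable fun y : ℝ => (1 / (3 + y * I) + 1 / (1 - y * I) : ℂ) := by
  refine Integrable.mono' (g := fun y : ℝ => 4 * (1 + y ^ 2)⁻¹)
    (integrable_inv_one_add_sq.const_mul _) frac_cont.aestronglyMeasurable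
    (Eventually.of_forall fun y => frac_le y)

theorem frac_mass : ∫ y : ℝ, (1 / (3 + y * I) + 1 / (1 - y * I) : ℂ) = 2 * Real.pi := by
  have h1 : ∫ y : ℝ, (1 / (3 + ((-y : ℝ) : ℂ) * I) + 1 / (1 - ((-y : ℝ) : ℂ) * I) : ℂ) =
      ∫ y : ℝ, (1 / (3 + y * I) + 1 / (1 - y * I) : ℂ) :=
    integral_neg_eq_self (fun y : ℝ => (1 / (3 + y * I) + 1 / (1 - y * I) : ℂ)) volume
  have hi1 := frac_int
  have hi2 : Integrable fun y : ℝ => (1 / (3 + ((-y : ℝ) : ℂ) * I) + 1 / (1 - ((-y : ℝ) : ℂ) * I) : ℂ) :=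
    hi1.comp_neg
  have h2 : ∀ y : ℝ, (1 / (3 + y * I) + 1 / (1 - y * I) : ℂ) +
      (1 / (3 + ((-y : ℝ) : ℂ) * I) + 1 / (1 - ((-y : ℝ) : ℂ) * I)) =
      ((2 * ((1 / 3) * (1 + (1 / 3 * y) ^ 2)⁻¹ + (1 + y ^ 2)⁻¹) : ℝ) : ℂ) := by
    intro y
    have e3 : (3 + (y : ℂ) * I) ≠ 0 := fun h => by
      have := congrArg Complex.re h
      simp at this
    have e3' : (3 + ((-y : ℝ) : ℂ) * I) ≠ 0 := fun h => by
      have := congrArg Complex.re h
      simp at this
    have e1 : (1 - (y : ℂ) * I) ≠ 0 := fun h => by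
      have := congrArg Complex.re h
      simp at this
    have e1' : (1 - ((-y : ℝ) : ℂ) * I) ≠ 0 := fun h => by
      have := congrArg Complex.re h
      simp at this
    have e4 : (1 + (1 / 3 * (y : ℂ)) ^ 2) ≠ 0 := by
      have h : ((1 + (1 / 3 * y) ^ 2 : ℝ) : ℂ) ≠ 0 := by
        have : (0:ℝ) < 1 + (1 / 3 * y) ^ 2 := by positivity
        exact_mod_cast this.ne'
      push_cast at h
      exact h
    have e5 : (1 + (y : ℂ) ^ 2) ≠ 0 := by
      have h : ((1 + y ^ 2 : ℝ) : ℂ) ≠ 0 := by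
        have : (0:ℝ) < 1 + y ^ 2 := by positivity
        exact_mod_cast this.ne'
      push_cast at h
      exact h
    have f1 : (1 / (3 + (y : ℂ) * I) + 1 / (3 + ((-y : ℝ) : ℂ) * I)) =
        2 * ((1 / 3) * (1 + (1 / 3 * (y : ℂ)) ^ 2)⁻¹) := by
      rw [div_add_div _ _ e3 e3', div_eq_iff (mul_ne_zero e3 e3'),
        show (3 + (y : ℂ) * I) * (3 + ((-y : ℝ) : ℂ) * I) = 9 * (1 + (1 / 3 * (y : ℂ)) ^ 2) by
          push_cast
          ring_nf
          rw [Complex.I_sq]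
          ring]
      have e6 : 2 * ((1 / 3) * (1 + (1 / 3 * (y : ℂ)) ^ 2)⁻¹) * (9 * (1 + (1 / 3 * (y : ℂ)) ^ 2)) =
          6 * ((1 + (1 / 3 * (y : ℂ)) ^ 2)⁻¹ * (1 + (1 / 3 * (y : ℂ)) ^ 2)) := by ring
      rw [e6, inv_mul_cancel₀ e4]
      push_cast
      ring
    have f2 : (1 / (1 - (y : ℂ) * I) + 1 / (1 - ((-y : ℝ) : ℂ) * I)) = 2 * (1 + (y : ℂ) ^ 2)⁻¹ := by
      rw [div_add_div _ _ e1 e1', div_eq_iff (mul_ne_zero e1 e1'),
        show (1 - (y : ℂ) * I) * (1 - ((-y : ℝ) : ℂ) * I) = 1 + (y : ℂ) ^ 2 by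
          push_cast
          ring_nf
          rw [Complex.I_sq]
          ring]
      field_simp
      push_cast
      ring
    have e : (1 / (3 + y * I) + 1 / (1 - y * I) : ℂ) +
      (1 / (3 + ((-y : ℝ) : ℂ) * I) + 1 / (1 - ((-y : ℝ) : ℂ) * I)) =
      (1 / (3 + (y : ℂ) * I) + 1 / (3 + ((-y : ℝ) : ℂ) * I)) +
      (1 / (1 - (y : ℂ) * I) + 1 / (1 - ((-y : ℝ) : ℂ) * I)) := by ring
    rw [e, f1, f2]
    push_cast
    ring
  have h3 : (∫ y : ℝ, (1 / (3 + y * I) + 1 / (1 - y * I) : ℂ)) +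
      (∫ y : ℝ, (1 / (3 + y * I) + 1 / (1 - y * I) : ℂ)) = ((4 * Real.pi : ℝ) : ℂ) := by
    nth_rewrite 2 [← h1]
    rw [← integral_add hi1 hi2]
    simp only [h2]
    rw [integral_complex_ofReal, integral_const_mul, integral_add
      ((integrable_inv_one_add_sq.comp_mul_left' (by norm_num : (1 / 3 : ℝ) ≠ 0)).const_mul _)
      integrable_inv_one_add_sq, integral_const_mul,
      MeasureTheory.Measure.integral_comp_mul_left (fun y : ℝ => (1 + y ^ 2)⁻¹),
      integral_univ_inv_one_add_sq]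
    congr 1
    rw [smul_eq_mul, abs_of_pos (by norm_num : (0:ℝ) < (1 / 3)⁻¹)]
    ring
  have h4 : (2 : ℂ) * ∫ y : ℝ, (1 / (3 + y * I) + 1 / (1 - y * I) : ℂ) = 2 * (2 * Real.pi) := by
    rw [two_mul, h3]
    push_cast
    ring
  exact mul_left_cancel₀ two_ne_zero h4

theorem NN_zero_mass (P : Par k β t ψ) {ρ : ℝ} (hρ : 0 < ρ) : ∫ y : ℝ, NN k (sk k β ρ) y = 0 := by
  have h := inv_sk P hρ le_rfl
  rw [EE_zero P.hk] at h
  simp only [Complex.ofReal_zero, mul_zero, neg_zero, Complex.exp_zero, mul_one, sub_self] at h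
  have hne : ((1 / (2 * Real.pi) : ℝ) : ℂ) ≠ 0 := by
    have : 0 < 1 / (2 * Real.pi) := by positivity
    exact_mod_cast this.ne'
  rcases mul_eq_zero.1 h.symm with h1 | h1
  · exact absurd h1 hne
  · exact h1

theorem pt_norm {x u t : ℝ} (hx : 0 < x) (hu : |u| ≤ t) : x ≤ ‖pt x u‖ ∧ ‖pt x u‖ ≤ (1 + t) * x := by
  constructor
  · have := Complex.abs_re_le_norm (pt x u)
    rwa [pt_re, abs_of_pos hx] at this
  · have h5 := Complex.norm_le_abs_re_add_abs_im (pt x u)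
    rw [pt_re, pt_im, abs_mul, abs_of_pos hx] at h5
    have := mul_le_mul_of_nonneg_left hu hx.le
    linarith

theorem pt_cs {φ : ℝ} (hφ0 : 0 < φ) (hφ : φ < Real.pi / 2) {x u : ℝ} (hx : 0 < x) (hu : |u| ≤ Real.tan φ) :
    pt x u ∈ Cs φ := by
  refine ⟨fun h => ?_, (cone_arg hφ0 hφ _).1 ?_⟩
  · have := congrArg Complex.re h
    rw [pt_re, Complex.zero_re] at this
    exact hx.ne' this
  · show |(pt x u).im| ≤ Real.tan φ * (pt x u).re
    rw [pt_re, pt_im, abs_mul, abs_of_pos hx, mul_comm (Real.tan φ)]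
    exact mul_le_mul_of_nonneg_left hu hx.le

theorem fk_mid (hk : 1 < k) (S : Sys lam c) (hβ : |k * β| < Real.pi / 2) {κ₀ : ℝ} (h0 : 0 < κ₀) :
    ∃ M : ℝ, 0 ≤ M ∧ ∀ κ : ℝ, κ₀ ≤ κ → ‖fk lam c k (kb k β κ)‖ ≤ M := by
  have hk1 : 0 < k - 1 := by linarith
  have hA0 : 0 ≤ ∑' i, |c i| * Real.exp (-(2 * lam i)) := tsum_nonneg fun i => by positivity
  refine ⟨(∑' i, |c i| * Real.exp (-(2 * lam i))) * Real.exp (Ex k (b0 k β) * κ₀ ^ (-(1 / (k - 1)))),
    by positivity, fun κ hκ => ?_⟩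
  have hκ0 : 0 < κ := h0.trans_le hκ
  refine (S.fk_le hk (kb_pos hβ hκ0)).trans ?_
  rw [Ex_b0 hk hβ κ hκ0]
  refine mul_le_mul_of_nonneg_left ?_ hA0
  apply Real.exp_le_exp.2
  refine mul_le_mul_of_nonneg_left ?_ (Ex_nonneg hk (b0_nonneg hβ))
  exact Real.rpow_le_rpow_of_nonpos h0 hκ (by
    have : 0 < 1 / (k - 1) := by positivity
    linarith)

/-- **From the behaviour at the vertex to the law.** -/
theorem law_bwd (hk : 1 < k) (S : Sys lam c) (hβ : |k * β| < Real.pi / 2) {k₂ : ℝ} (hk2 : k < k₂)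
    {Ψ : ℂ → ℂ} (hΨ : DifferentiableOn ℂ Ψ (Sk k₂))
    (heq : ∀ z ∈ Sk k₂, 2 < (dl β * z).re → Ψ z = ser lam c (dl β * z)) (r : ℂ) :
    ∃ φ K : ℝ, 0 < φ ∧ φ < fc k₂ ∧ 0 ≤ K ∧ ∀ ε C δ : ℝ, 0 ≤ ε → 0 ≤ C → 0 < δ → δ ≤ 1 →
      (∀ z ∈ Cs φ, ‖z‖ ≤ δ → ‖Ψ z - r * (Real.log (1 / ‖z‖) : ℝ)‖ ≤ ε * Real.log (1 / ‖z‖) + C) →
      ∃ C' : ℝ, 0 ≤ C' ∧ ∀ κ : ℝ, 0 < κ → κ ≤ 1 →
        ‖fk lam c k (kb k β κ) - (r / k) * (Real.log (1 / κ) : ℝ)‖ ≤ K * ε * Real.log (1 / κ) + C' := by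
  have hk0 : 0 < k := by linarith
  have hk02 : 1 < k₂ := by linarith
  obtain ⟨φ, hφ1, hφ2⟩ := exists_between (lt_min (fc_mono hk hk2) (beta_lt hk hβ))
  have hφ3 : φ < fc k₂ := hφ2.trans_le (min_le_left _ _)
  have hφ4 : φ < Real.pi / 2 - |β| := hφ2.trans_le (min_le_right _ _)
  have hφ0 : 0 < φ := (fc_pos hk).trans hφ1
  have hφ5 : φ < Real.pi / 2 := hφ3.trans (fc_lt hk02)
  obtain ⟨ψ, P⟩ := exists_par hk hφ1 hφ4
  set t : ℝ := Real.tan φ with ht
  have ht0 : 0 < t := P.t0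
  have h12 := P.Y12
  have hx1 := P.X1pos
  have hx2 := P.X2pos
  have hztc := zt_cont (dl β)
  obtain ⟨M, hM0, hM⟩ := ser_line S
  have hScont := ser_line_cont S
  obtain ⟨C₁, hC₁, hE1⟩ := E_tail P
  obtain ⟨C₂, hC₂, hE2⟩ := E_ray P
  obtain ⟨C₃, hC₃, hE3⟩ := E_seg P.hk
  set Ip : ℝ := ∫ y : ℝ, (1 + y ^ 2)⁻¹ with hIp
  have hIp0 : 0 ≤ Ip := integral_nonneg fun y => by positivity
  set K₁ : ℝ := 2 * (1 + t) * C₂ / (k - 1 / 2) + 2 * t * C₃ with hK₁
  have hkh : 0 < k - 1 / 2 := by linarith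
  have hK₁0 : 0 ≤ K₁ := by positivity
  refine ⟨φ, K₁, hφ0, hφ3, hK₁0, fun ε C δ hε hC hδ hδ1 hG => ?_⟩
  set R : ℝ := max (X1 β t) (X2 β t) with hR
  have hR0 : 0 < R := hx1.trans_le (le_max_left _ _)
  set δ' : ℝ := δ / (1 + t) with hδ'
  have hδ'0 : 0 < δ' := by positivity
  have hδ'1 : δ' ≤ 1 := by
    rw [hδ', div_le_one (by positivity)]
    linarith
  -- the compact set
  have hKc : IsCompact ((fun q : ℝ × ℝ => pt q.1 q.2) '' (Icc δ' R ×ˢ Icc (-t) t)) := by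
    refine (isCompact_Icc.prod isCompact_Icc).image ?_
    unfold pt
    fun_prop
  have hKs : (fun q : ℝ × ℝ => pt q.1 q.2) '' (Icc δ' R ×ˢ Icc (-t) t) ⊆ Sk k₂ := by
    rintro z ⟨q, ⟨hq1, hq2⟩, rfl⟩
    have := pt_cs hφ0 hφ5 (x := q.1) (u := q.2) (hδ'0.trans_le hq1.1) (abs_le.2 hq2)
    exact ⟨this.1, this.2.trans_lt hφ3⟩
  obtain ⟨M', hM'⟩ := hKc.exists_bound_of_continuousOn (hΨ.continuousOn.mono hKs)
  set A : ℝ := C + |M'| + ‖r‖ * (Real.log (1 + t) + Real.log (1 / δ')) + 2 * ‖r‖ with hA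
  have hl1 : 0 ≤ Real.log (1 + t) := Real.log_nonneg (by linarith)
  have hl2 : 0 ≤ Real.log (1 / δ') := Real.log_nonneg (by
    rw [le_div_iff₀ hδ'0]
    linarith)
  have hA0 : 0 ≤ A := by positivity
  have hbound : ∀ ρ : ℝ, 0 < ρ → ρ ≤ 1 → ∀ x ∈ Icc ρ R, ∀ u : ℝ, |u| ≤ t →
      ‖Ψ (pt x u) - r * (Real.log (1 / ρ) : ℝ)‖ ≤ (A + ε * Real.log (1 / ρ)) * (x / ρ) ^ (1 / 2 : ℝ) := by
    intro ρ hρ hρ1 x hx u hu
    have hx0 : 0 < x := hρ.trans_le hx.1
    have hxr : 1 ≤ x / ρ := by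
      rw [le_div_iff₀ hρ]
      linarith [hx.1]
    have hT0 : 0 ≤ Real.log (1 / ρ) := Real.log_nonneg (by
      rw [le_div_iff₀ hρ]
      linarith)
    obtain ⟨hn1, hn2⟩ := pt_norm hx0 hu
    have hpw1 : 1 ≤ (x / ρ) ^ (1 / 2 : ℝ) := Real.one_le_rpow hxr (by norm_num)
    have hlogx : 0 ≤ Real.log (x / ρ) := Real.log_nonneg hxr
    have hlog2 : Real.log (x / ρ) ≤ 2 * (x / ρ) ^ (1 / 2 : ℝ) := by
      have := log_le_pw (a := 1 / 2) (by norm_num) hxr
      norm_num at this ⊢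
      exact this
    have hzp : 0 < ‖pt x u‖ := hx0.trans_le hn1
    have hmain : ‖Ψ (pt x u) - r * (Real.log (1 / ρ) : ℝ)‖ ≤ (C + |M'| +
        ‖r‖ * (Real.log (1 + t) + Real.log (1 / δ'))) + ε * Real.log (1 / ρ) + ‖r‖ * Real.log (x / ρ) := by
      rcases le_or_gt ‖pt x u‖ δ with h | h
      · have h1 := hG (pt x u) (pt_cs hφ0 hφ5 hx0 hu) h
        have h2 : Real.log (1 / ‖pt x u‖) ≤ Real.log (1 / ρ) := by
          refine Real.log_le_log (by positivity) ?_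
          exact one_div_le_one_div_of_le hρ (hx.1.trans hn1)
        have h3 : Real.log (1 / ρ) - Real.log (1 / ‖pt x u‖) ≤ Real.log (1 + t) + Real.log (x / ρ) := by
          rw [one_div, one_div, Real.log_inv, Real.log_inv, Real.log_div hx0.ne' hρ.ne']
          have : Real.log ‖pt x u‖ ≤ Real.log (1 + t) + Real.log x := by
            rw [← Real.log_mul (by linarith) hx0.ne']
            exact Real.log_le_log hzp hn2
          linarith
        have e : Ψ (pt x u) - r * (Real.log (1 / ρ) : ℝ) = (Ψ (pt x u) - r * (Real.log (1 / ‖pt x u‖) : ℝ)) -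
            r * ((Real.log (1 / ρ) - Real.log (1 / ‖pt x u‖) : ℝ) : ℂ) := by
          push_cast
          ring
        rw [e]
        refine (norm_sub_le _ _).trans ?_
        rw [norm_mul, Complex.norm_real, Real.norm_of_nonneg (by linarith)]
        have h4 : ε * Real.log (1 / ‖pt x u‖) ≤ ε * Real.log (1 / ρ) := mul_le_mul_of_nonneg_left h2 hε
        have h5 := mul_le_mul_of_nonneg_left h3 (norm_nonneg r)
        have h6 : 0 ≤ ‖r‖ * Real.log (1 / δ') := by positivity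
        have h7 := abs_nonneg M'
        linarith
      · have h1 : δ' ≤ x := by
          rw [hδ', div_le_iff₀ (by positivity)]
          linarith
        have h2 : ‖Ψ (pt x u)‖ ≤ |M'| :=
          (hM' _ ⟨(x, u), ⟨⟨h1, hx.2⟩, abs_le.1 hu⟩, rfl⟩).trans (le_abs_self _)
        have h3 : Real.log (1 / ρ) ≤ Real.log (x / ρ) + Real.log (1 / δ') := by
          rw [one_div, one_div, Real.log_inv, Real.log_inv, Real.log_div hx0.ne' hρ.ne']
          have := Real.log_le_log hδ'0 h1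
          linarith
        refine (norm_sub_le _ _).trans ?_
        rw [norm_mul, Complex.norm_real, Real.norm_of_nonneg hT0]
        have h4 := mul_le_mul_of_nonneg_left h3 (norm_nonneg r)
        have h5 : 0 ≤ ‖r‖ * Real.log (1 + t) := by positivity
        have h6 : 0 ≤ ε * Real.log (1 / ρ) := by positivity
        linarith
    refine hmain.trans ?_
    have h8 : ‖r‖ * Real.log (x / ρ) ≤ ‖r‖ * (2 * (x / ρ) ^ (1 / 2 : ℝ)) :=
      mul_le_mul_of_nonneg_left hlog2 (norm_nonneg _)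
    have h9 : (C + |M'| + ‖r‖ * (Real.log (1 + t) + Real.log (1 / δ'))) + ε * Real.log (1 / ρ) ≤
        ((C + |M'| + ‖r‖ * (Real.log (1 + t) + Real.log (1 / δ'))) + ε * Real.log (1 / ρ)) *
          (x / ρ) ^ (1 / 2 : ℝ) := le_mul_of_one_le_right (by positivity) hpw1
    calc _ ≤ ((C + |M'| + ‖r‖ * (Real.log (1 + t) + Real.log (1 / δ'))) + ε * Real.log (1 / ρ)) *
          (x / ρ) ^ (1 / 2 : ℝ) + ‖r‖ * (2 * (x / ρ) ^ (1 / 2 : ℝ)) := add_le_add h9 h8
      _ = _ := by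
          rw [hA]
          ring
  -- the main estimate
  have key : ∀ ρ : ℝ, 0 < ρ → ρ ≤ 1 → ρ ≤ X1 β t → ρ ≤ X2 β t →
      ‖fk lam c k (sk k β ρ) - r * (Real.log (1 / ρ) : ℝ)‖ ≤ K₁ * (A + ε * Real.log (1 / ρ)) +
        (C₁ * M + C₁ * ‖r‖ / k + 4 * M) * Ip + ‖ser lam c 4‖ := by
    intro ρ hρ hρ1 hρx1 hρx2
    set T : ℝ := Real.log (1 / ρ) with hT
    have hT0 : 0 ≤ T := Real.log_nonneg (by
      rw [le_div_iff₀ hρ]
      linarith)
    set Bb : ℝ := A + ε * T with hBb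
    have hBb0 : 0 ≤ Bb := by positivity
    have hρk : 0 < ρ ^ k := Real.rpow_pos_of_pos hρ _
    have hρk1 : ρ ^ k ≤ 1 := Real.rpow_le_one hρ.le hρ1 hk0.le
    have hρT : ρ ^ k * T ≤ 1 / k := by
      have h1 := log_le_pw hk0 (x := 1 / ρ) (by
        rw [le_div_iff₀ hρ]
        linarith)
      have h2 : (1 / ρ) ^ k = (ρ ^ k)⁻¹ := by
        rw [one_div, Real.inv_rpow hρ.le]
      rw [h2] at h1
      calc ρ ^ k * T ≤ ρ ^ k * (k⁻¹ * (ρ ^ k)⁻¹) := mul_le_mul_of_nonneg_left h1 hρk.le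
        _ = 1 / k := by field_simp
    have hNi := NN_int P hρ
    set sr : ℝ → ℂ := fun y => ser lam c (3 + y * I) - r * (T : ℝ) with hsr
    have hsrc : Continuous sr := hScont.sub continuous_const
    have hsrb : ∀ y, ‖sr y‖ ≤ M + ‖r‖ * T := by
      intro y
      refine (norm_sub_le _ _).trans ?_
      rw [norm_mul, Complex.norm_real, Real.norm_of_nonneg hT0]
      exact add_le_add (hM y) le_rfl
    have hNS : Integrable fun y : ℝ => NN k (sk k β ρ) y * sr y :=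
      hNi.mul_bdd (c := M + ‖r‖ * T) hsrc.aestronglyMeasurable (Eventually.of_forall hsrb)
    have hfS : Integrable fun y : ℝ => (1 / (3 + y * I) + 1 / (1 - y * I) : ℂ) * sr y :=
      frac_int.mul_bdd (c := M + ‖r‖ * T) hsrc.aestronglyMeasurable (Eventually.of_forall hsrb)
    set f : ℝ → ℂ := fun y => conj (dl β) * (Kr k ρ (zt (dl β) y) + 1 / zt (dl β) y) * sr y with hf
    have hfe : ∀ y : ℝ, f y = NN k (sk k β ρ) y * sr y +
        (1 / (3 + y * I) + 1 / (1 - y * I) : ℂ) * sr y := by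
      intro y
      rw [hf, NN_eq P hρ]
      ring
    have hfi : Integrable f := (hNS.add hfS).congr (Eventually.of_forall fun y => (hfe y).symm)
    -- the algebra
    have hNser : ∫ y : ℝ, NN k (sk k β ρ) y * ser lam c (3 + y * I) = (∫ y, f y) -
        (∫ y : ℝ, (1 / (3 + y * I) + 1 / (1 - y * I) : ℂ) * ser lam c (3 + y * I)) +
          r * (T : ℝ) * (2 * Real.pi) := by
      have i1 : Integrable fun y : ℝ => NN k (sk k β ρ) y * ser lam c (3 + y * I) :=
        hNi.mul_bdd (c := M) hScont.aestronglyMeasurable (Eventually.of_forall hM)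
      have i2 : Integrable fun y : ℝ => (1 / (3 + y * I) + 1 / (1 - y * I) : ℂ) * ser lam c (3 + y * I) :=
        frac_int.mul_bdd (c := M) hScont.aestronglyMeasurable (Eventually.of_forall hM)
      have e1 : ∫ y : ℝ, NN k (sk k β ρ) y * sr y = ∫ y : ℝ, NN k (sk k β ρ) y * ser lam c (3 + y * I) := by
        have : (fun y : ℝ => NN k (sk k β ρ) y * sr y) = fun y : ℝ =>
            NN k (sk k β ρ) y * ser lam c (3 + y * I) - NN k (sk k β ρ) y * (r * (T : ℝ)) := by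
          funext y
          rw [hsr]
          ring
        rw [this, integral_sub i1 (hNi.mul_const _), integral_mul_const, NN_zero_mass P hρ, zero_mul,
          sub_zero]
      have e2 : ∫ y : ℝ, (1 / (3 + y * I) + 1 / (1 - y * I) : ℂ) * sr y =
          (∫ y : ℝ, (1 / (3 + y * I) + 1 / (1 - y * I) : ℂ) * ser lam c (3 + y * I)) -
            r * (T : ℝ) * (2 * Real.pi) := by
        have : (fun y : ℝ => (1 / (3 + y * I) + 1 / (1 - y * I) : ℂ) * sr y) = fun y : ℝ =>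
            (1 / (3 + y * I) + 1 / (1 - y * I) : ℂ) * ser lam c (3 + y * I) -
              (1 / (3 + y * I) + 1 / (1 - y * I) : ℂ) * (r * (T : ℝ)) := by
          funext y
          rw [hsr]
          ring
        rw [this, integral_sub i2 (frac_int.mul_const _), integral_mul_const, frac_mass]
        ring
      have e3 : ∫ y, f y = (∫ y : ℝ, NN k (sk k β ρ) y * sr y) +
          ∫ y : ℝ, (1 / (3 + y * I) + 1 / (1 - y * I) : ℂ) * sr y := by
        rw [← integral_add hNS hfS]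
        exact integral_congr_ae (Eventually.of_forall hfe)
      rw [e3, e1, e2]
      ring
    have hsec : ‖∫ y : ℝ, (1 / (3 + y * I) + 1 / (1 - y * I) : ℂ) * ser lam c (3 + y * I)‖ ≤
        4 * M * Ip := by
      rw [hIp, ← integral_const_mul]
      refine norm_integral_le_of_norm_le (integrable_inv_one_add_sq.const_mul _)
        (Eventually.of_forall fun y => ?_)
      rw [norm_mul]
      calc _ ≤ (4 * (1 + y ^ 2)⁻¹) * M := mul_le_mul (frac_le y) (hM y) (norm_nonneg _) (by positivity)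
        _ = _ := by ring
    -- the primitive
    set g : ℂ → ℂ := fun z => (Kr k ρ z + 1 / z) * (Ψ z - r * (T : ℝ)) with hg
    have hgd : DifferentiableOn ℂ g (Sk k₂) := by
      refine DifferentiableOn.mul ?_ (hΨ.sub_const _)
      refine (kcont P.hk ρ).differentiableOn.add ?_
      exact (differentiableOn_const _).div differentiableOn_id fun z hz => hz.1
    obtain ⟨Pr, hPr⟩ := exists_prim (Sk_open k₂ hk02) (Sk_conv hk02) hgd
    have hmem : ∀ y ∈ Icc (Y1 β t) (Y2 β t), zt (dl β) y ∈ Sk k₂ := by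
      intro y hy
      refine ⟨fun h => ?_, ((cone_arg hφ0 hφ5 _).1 (line_cone P hy)).trans_lt hφ3⟩
      have := line_pos P hy
      rw [h] at this
      simp at this
    have hmid : ∫ y in (Y1 β t)..(Y2 β t), f y =
        (Pr (zt (dl β) (Y2 β t)) - Pr (zt (dl β) (Y1 β t))) / I := by
      have key : ∀ y ∈ uIcc (Y1 β t) (Y2 β t), HasDerivAt (fun y : ℝ => Pr (zt (dl β) y) / I) (f y) y := by
        intro y hy'
        rw [uIcc_of_le h12.le] at hy'
        have h1 := (hPr _ (hmem y hy')).comp y (zt_hasDeriv (dl β) y)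
        have h2 := h1.div_const I
        refine h2.congr_deriv ?_
        have h3 : Ψ (zt (dl β) y) = ser lam c (3 + y * I) := by
          rw [heq _ (hmem y hy') (by
            rw [mul_zt]
            simp
            norm_num), mul_zt]
        rw [hg, hf, hsr]
        simp only
        rw [h3, mul_div_assoc, mul_div_assoc, div_self I_ne_zero, mul_one]
        ring
      rw [intervalIntegral.integral_eq_sub_of_hasDerivAt key hfi.intervalIntegrable, sub_div]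
    have habs : |t| ≤ t := by rw [abs_of_pos ht0]
    have habs' : |-t| ≤ t := by rw [abs_neg]; exact habs
    have hpw : ∀ x : ℝ, 0 < x → C₂ * ρ ^ k * x ^ (-(k + 1)) * (Bb * (x / ρ) ^ (1 / 2 : ℝ)) =
        C₂ * ρ ^ (k - 1 / 2) * x ^ (-((k - 1 / 2) + 1)) * Bb := by
      intro x hx
      have h1 : ρ ^ (k - 1 / 2) = ρ ^ k * (ρ ^ (1 / 2 : ℝ))⁻¹ := by
        rw [Real.rpow_sub hρ, div_eq_mul_inv]
      have h2 : x ^ (-((k - 1 / 2) + 1)) = x ^ (-(k + 1)) * x ^ (1 / 2 : ℝ) := by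
        rw [← Real.rpow_add hx]
        congr 1
        ring
      rw [h1, h2, Real.div_rpow hx.le hρ.le]
      ring
    have hray2 := kray (k := k - 1 / 2) (C := C₂) (B := Bb) (x₀ := ρ) (x₁ := X2 β t) (u := t) hkh hC₂ hρ
      le_rfl hρx2 (fun x hx => by
        have := pt_cs hφ0 hφ5 (x := x) (u := t) (hρ.trans_le hx.1) habs
        exact ⟨this.1, this.2.trans_lt hφ3⟩) hPr hgd.continuousOn
      (fun x hx => by
        have hx0 : 0 < x := hρ.trans_le hx.1
        rw [hg, norm_mul, ← hpw x hx0]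
        exact mul_le_mul (hE2 ρ hρ x hx0).1
          (hbound ρ hρ hρ1 x ⟨hx.1, hx.2.trans (le_max_right _ _)⟩ t habs) (norm_nonneg _) (by
            have : 0 < x ^ (-(k + 1)) := Real.rpow_pos_of_pos hx0 _
            positivity)) hBb0
    have hray1 := kray (k := k - 1 / 2) (C := C₂) (B := Bb) (x₀ := ρ) (x₁ := X1 β t) (u := -t) hkh hC₂ hρ
      le_rfl hρx1 (fun x hx => by
        have := pt_cs hφ0 hφ5 (x := x) (u := -t) (hρ.trans_le hx.1) habs'
        exact ⟨this.1, this.2.trans_lt hφ3⟩) hPr hgd.continuousOn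
      (fun x hx => by
        have hx0 : 0 < x := hρ.trans_le hx.1
        rw [hg, norm_mul, ← hpw x hx0]
        exact mul_le_mul (hE2 ρ hρ x hx0).2
          (hbound ρ hρ hρ1 x ⟨hx.1, hx.2.trans (le_max_left _ _)⟩ (-t) habs') (norm_nonneg _) (by
            have : 0 < x ^ (-(k + 1)) := Real.rpow_pos_of_pos hx0 _
            positivity)) hBb0
    have hρR : ρ ≤ R := hρx1.trans (le_max_left _ _)
    have hseg := kseg (C := C₃) (B := Bb) hρ ht0.le (fun u hu => by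
        have := pt_cs hφ0 hφ5 (x := ρ) (u := u) hρ (abs_le.2 hu)
        exact ⟨this.1, this.2.trans_lt hφ3⟩) hPr
      (fun u hu => by
        rw [hg, norm_mul]
        refine mul_le_mul (hE3 ρ hρ u) ?_ (norm_nonneg _) (by positivity)
        have := hbound ρ hρ hρ1 ρ ⟨le_rfl, hρR⟩ u (abs_le.2 hu)
        rw [div_self hρ.ne', Real.one_rpow, mul_one] at this
        exact this)
    rw [abs_of_pos ht0] at hray2
    rw [abs_neg, abs_of_pos ht0] at hray1
    have hmid2 : ‖∫ y in (Y1 β t)..(Y2 β t), f y‖ ≤ K₁ * Bb := by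
      rw [hmid, norm_div, Complex.norm_I, div_one, P.zY2, P.zY1]
      have e : Pr (pt (X2 β t) t) - Pr (pt (X1 β t) (-t)) = (Pr (pt (X2 β t) t) - Pr (pt ρ t)) +
          (Pr (pt ρ t) - Pr (pt ρ (-t))) - (Pr (pt (X1 β t) (-t)) - Pr (pt ρ (-t))) := by ring
      rw [e]
      refine (norm_sub_le _ _).trans ?_
      refine (add_le_add (norm_add_le _ _) le_rfl).trans ?_
      refine (add_le_add (add_le_add hray2 hseg) hray1).trans (le_of_eq ?_)
      rw [hK₁]
      ring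
    have hbd : ∀ y, (y < Y1 β t ∨ Y2 β t < y) → ‖f y‖ ≤ (C₁ * M + C₁ * ‖r‖ / k) * (1 + y ^ 2)⁻¹ := by
      intro y hy
      rw [hf]
      simp only
      rw [norm_mul, norm_mul, Complex.norm_conj, dl_norm, one_mul]
      have hy2 : 0 < (1 + y ^ 2)⁻¹ := by positivity
      have h1 : ρ ^ k * (M + ‖r‖ * T) ≤ M + ‖r‖ / k := by
        have h2 : ρ ^ k * M ≤ M := mul_le_of_le_one_left hM0 hρk1
        have h3 : ‖r‖ * (ρ ^ k * T) ≤ ‖r‖ * (1 / k) := mul_le_mul_of_nonneg_left hρT (norm_nonneg _)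
        calc ρ ^ k * (M + ‖r‖ * T) = ρ ^ k * M + ‖r‖ * (ρ ^ k * T) := by ring
          _ ≤ M + ‖r‖ * (1 / k) := add_le_add h2 h3
          _ = _ := by ring
      calc _ ≤ (C₁ * ρ ^ k * (1 + y ^ 2)⁻¹) * (M + ‖r‖ * T) :=
            mul_le_mul (hE1 ρ hρ y hy) (hsrb y) (norm_nonneg _) (by positivity)
        _ = C₁ * (ρ ^ k * (M + ‖r‖ * T)) * (1 + y ^ 2)⁻¹ := by ring
        _ ≤ C₁ * (M + ‖r‖ / k) * (1 + y ^ 2)⁻¹ := by gcongr
        _ = _ := by ring
    have hfirst := split_line hfi h12.le (g := fun y => (C₁ * M + C₁ * ‖r‖ / k) * (1 + y ^ 2)⁻¹)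
      (integrable_inv_one_add_sq.const_mul _) (fun y => by positivity) hbd
    rw [integral_const_mul, ← hIp] at hfirst
    have hrep := rep_sys P S hρ
    have hpi : (Real.pi : ℂ) ≠ 0 := by exact_mod_cast Real.pi_ne_zero
    have hfin : fk lam c k (sk k β ρ) - r * (T : ℝ) = (1 / (2 * Real.pi) : ℝ) * ((∫ y, f y) -
        (∫ y : ℝ, (1 / (3 + y * I) + 1 / (1 - y * I) : ℂ) * ser lam c (3 + y * I))) + ser lam c 4 := by
      have h1 : fk lam c k (sk k β ρ) = (1 / (2 * Real.pi) : ℝ) *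
          (∫ y : ℝ, NN k (sk k β ρ) y * ser lam c (3 + y * I)) + ser lam c 4 := by
        rw [hrep]
        ring
      have h5 : ((1 / (2 * Real.pi) : ℝ) : ℂ) * (2 * Real.pi) = 1 := by
        push_cast
        field_simp
      rw [h1, hNser]
      linear_combination (r * (T : ℂ)) * h5
    have h2pi : (1 / (2 * Real.pi) : ℝ) ≤ 1 := by
      rw [div_le_one (by positivity)]
      linarith [Real.pi_gt_three]
    rw [hfin]
    refine (norm_add_le _ _).trans (add_le_add ?_ le_rfl)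
    rw [norm_mul, Complex.norm_real, Real.norm_of_nonneg (by positivity : (0:ℝ) ≤ 1 / (2 * Real.pi))]
    calc (1 / (2 * Real.pi) : ℝ) * ‖(∫ y, f y) -
        (∫ y : ℝ, (1 / (3 + y * I) + 1 / (1 - y * I) : ℂ) * ser lam c (3 + y * I))‖ ≤
        1 * ‖(∫ y, f y) -
        (∫ y : ℝ, (1 / (3 + y * I) + 1 / (1 - y * I) : ℂ) * ser lam c (3 + y * I))‖ :=
          mul_le_mul_of_nonneg_right h2pi (norm_nonneg _)
      _ ≤ (K₁ * Bb + (C₁ * M + C₁ * ‖r‖ / k) * Ip) + 4 * M * Ip := by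
          rw [one_mul]
          refine (norm_sub_le _ _).trans (add_le_add ?_ hsec)
          exact hfirst.trans (add_le_add hmid2 le_rfl)
      _ = _ := by ring
  -- conclusion
  set ρ₀ : ℝ := min 1 (min (X1 β t) (X2 β t)) with hρ₀
  have hρ₀0 : 0 < ρ₀ := lt_min one_pos (lt_min hx1 hx2)
  have hκ₀ : 0 < ρ₀ ^ k := Real.rpow_pos_of_pos hρ₀0 _
  have hρ₀1 : ρ₀ ^ k ≤ 1 := Real.rpow_le_one hρ₀0.le (min_le_left _ _) hk0.le
  obtain ⟨M₂, hM₂0, hM₂⟩ := fk_mid hk S hβ hκ₀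
  have hl3 : 0 ≤ Real.log (1 / ρ₀ ^ k) := Real.log_nonneg (by
    rw [le_div_iff₀ hκ₀]
    linarith)
  refine ⟨(K₁ * A + (C₁ * M + C₁ * ‖r‖ / k + 4 * M) * Ip + ‖ser lam c 4‖) +
    (M₂ + ‖r‖ / k * Real.log (1 / ρ₀ ^ k)), by positivity, fun κ hκ hκ1 => ?_⟩
  have hlκ : 0 ≤ Real.log (1 / κ) := Real.log_nonneg (by
    rw [le_div_iff₀ hκ]
    linarith)
  rcases le_or_gt κ (ρ₀ ^ k) with h | h
  · set ρ : ℝ := κ ^ (1 / k) with hρd
    have hρ : 0 < ρ := Real.rpow_pos_of_pos hκ _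
    have hρk : ρ ^ k = κ := by
      rw [hρd, ← Real.rpow_mul hκ.le]
      have : 1 / k * k = 1 := by field_simp
      rw [this, Real.rpow_one]
    have hρρ : ρ ≤ ρ₀ := by
      by_contra hc
      push Not at hc
      have := Real.rpow_lt_rpow hρ₀0.le hc hk0
      rw [hρk] at this
      linarith
    have hsk : sk k β ρ = kb k β κ := by
      unfold sk kb
      rw [hρk]
    have hlog : Real.log (1 / κ) = k * Real.log (1 / ρ) := by
      rw [one_div, one_div, Real.log_inv, Real.log_inv, ← hρk, Real.log_rpow hρ]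
      ring
    have h1 := key ρ hρ (hρρ.trans (min_le_left _ _))
      ((hρρ.trans (min_le_right _ _)).trans (min_le_left _ _))
      ((hρρ.trans (min_le_right _ _)).trans (min_le_right _ _))
    have hlρ : 0 ≤ Real.log (1 / ρ) := by
      rw [hlog] at hlκ
      exact nonneg_of_mul_nonneg_right hlκ hk0
    have hkc : (k : ℂ) ≠ 0 := by exact_mod_cast hk0.ne'
    have e1 : (r / k) * (Real.log (1 / κ) : ℝ) = r * (Real.log (1 / ρ) : ℝ) := by
      rw [hlog]
      push_cast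
      field_simp
    rw [e1, ← hsk]
    have h2 : K₁ * (ε * Real.log (1 / ρ)) ≤ K₁ * ε * Real.log (1 / κ) := by
      rw [hlog]
      have : ε * Real.log (1 / ρ) ≤ ε * (k * Real.log (1 / ρ)) := by
        refine mul_le_mul_of_nonneg_left ?_ hε
        exact le_mul_of_one_le_left hlρ hk.le
      calc K₁ * (ε * Real.log (1 / ρ)) ≤ K₁ * (ε * (k * Real.log (1 / ρ))) :=
            mul_le_mul_of_nonneg_left this hK₁0
        _ = _ := by ring
    have h3 : 0 ≤ M₂ + ‖r‖ / k * Real.log (1 / ρ₀ ^ k) := by positivity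
    linarith
  · have h1 := hM₂ κ h.le
    have h2 : Real.log (1 / κ) ≤ Real.log (1 / ρ₀ ^ k) := by
      refine Real.log_le_log (by positivity) ?_
      exact one_div_le_one_div_of_le hκ₀ h.le
    refine (norm_sub_le _ _).trans ?_
    rw [norm_mul, norm_div, Complex.norm_real, Complex.norm_real, Real.norm_of_nonneg hk0.le,
      Real.norm_of_nonneg hlκ]
    have h3 : ‖r‖ / k * Real.log (1 / κ) ≤ ‖r‖ / k * Real.log (1 / ρ₀ ^ k) :=
      mul_le_mul_of_nonneg_left h2 (by positivity)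
    have h4 : 0 ≤ K₁ * A + (C₁ * M + C₁ * ‖r‖ / k + 4 * M) * Ip + ‖ser lam c 4‖ := by positivity
    have h5 : 0 ≤ K₁ * ε * Real.log (1 / κ) := by positivity
    linarith

end Pool.Agent.D0H40.CX
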