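import Pool.Agent.D0H40.CX.Trans3

/-! Compactness on closed subsectors; functions that are meromorphic near the vertex. -/

set_option autoImplicit false

namespace Pool.Agent.D0H40.CX

open Complex MeasureTheory Filter Topology Set
open Pool.Agent.D0H40.KX
open Pool.Agent.W189.ML (ser)
open Pool.Agent.W334.BSD (exists_log log_unique)
open scoped ComplexConjugate

variable {k σ : ℝ} {lam c : ℕ → ℝ} {G E : ℂ → ℂ} {W : ℝ → ℝ → ℝ → ℂ}

/-- continuous functions on the sector are bounded on the closed subsectors away from the vertex -/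
theorem annulus_bound {θ φ φ' δ : ℝ} (hφ : |θ| + φ ≤ Real.pi / 2) (hφ' : φ' < φ) (hδ : 0 < δ)
    {ℓ : ℂ → ℂ} (hℓ : ContinuousOn ℓ (Os θ φ)) :
    ∃ C : ℝ, ∀ w ∈ Os θ φ', δ ≤ ‖w‖ → ‖w‖ ≤ 1 → ‖ℓ w‖ ≤ C := by
  have hpi := Real.pi_pos
  set S : Set (ℝ × ℝ) := Icc δ 1 ×ˢ Icc (θ - φ') (θ + φ') with hS
  have hSc : IsCompact S := isCompact_Icc.prod isCompact_Icc
  set g : ℝ × ℝ → ℂ := fun p => (p.1 : ℂ) * exp ((p.2 : ℂ) * I) with hg
  have hgc : Continuous g := by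
    rw [hg]
    fun_prop
  have harg : ∀ p ∈ S, g p ≠ 0 ∧ arg (g p) = p.2 := by
    rintro ⟨r, t⟩ ⟨⟨h1, h2⟩, h3, h4⟩
    simp only at h1 h2 h3 h4
    have hr : 0 < r := hδ.trans_le h1
    refine ⟨?_, ?_⟩
    · rw [hg]
      simp only
      exact mul_ne_zero (by exact_mod_cast hr.ne') (exp_ne_zero _)
    · rw [hg]
      simp only
      have := neg_abs_le θ
      have := le_abs_self θ
      rw [Complex.exp_mul_I, Complex.arg_mul_cos_add_sin_mul_I hr ⟨by linarith, by linarith⟩]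
  have hsub : g '' S ⊆ Os θ φ := by
    rintro _ ⟨p, hp, rfl⟩
    obtain ⟨h1, h2⟩ := harg p hp
    refine ⟨h1, ?_⟩
    rw [h2]
    obtain ⟨-, h3, h4⟩ := hp
    have : |p.2 - θ| ≤ φ' := abs_le.2 ⟨by linarith, by linarith⟩
    linarith
  obtain ⟨C, hC⟩ := (hSc.image hgc).exists_bound_of_continuousOn (hℓ.mono hsub)
  refine ⟨C, fun w hw h1 h2 => hC w ⟨(‖w‖, arg w), ⟨⟨h1, h2⟩, ?_⟩, ?_⟩⟩
  · have := abs_lt.1 hw.2
    exact ⟨by linarith [this.1], by linarith [this.2]⟩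
  · rw [hg]
    simp only
    exact norm_mul_exp_arg_mul_I w

/-- the two forms of the weak condition at the vertex -/
theorem vertex_iff {θ φ : ℝ} (hφ : |θ| + φ ≤ Real.pi / 2) (r : ℂ) {ℓ : ℂ → ℂ}
    (hℓ : ContinuousOn ℓ (Os θ φ)) : VB (Ioi 0) θ φ r ℓ ↔
    ∀ φ' < φ, Tendsto (fun w => ℓ w / (Real.log ‖w‖ : ℝ)) (𝓝[Os θ φ'] 0) (𝓝 r) := by
  constructor
  · intro h φ' hφ'
    rw [Metric.tendsto_nhds]
    intro ε hε
    obtain ⟨C, hC⟩ := h φ' hφ' (ε / 2) (half_pos hε)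
    have h1 : ∀ᶠ w : ℂ in 𝓝[≠] (0 : ℂ), max 1 (|C| / (ε / 2) + 1) ≤ -Real.log ‖w‖ := by
      have ht : Tendsto (fun w : ℂ => -Real.log ‖w‖) (𝓝[≠] (0 : ℂ)) atTop :=
        tendsto_neg_atBot_atTop.comp (Real.tendsto_log_nhdsGT_zero.comp tendsto_norm_nhdsNE_zero)
      exact ht.eventually (eventually_ge_atTop _)
    have h2 : 𝓝[Os θ φ'] (0 : ℂ) ≤ 𝓝[≠] (0 : ℂ) := nhdsWithin_mono _ fun w hw => hw.1
    filter_upwards [h2 h1, self_mem_nhdsWithin] with w h3 hw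
    have hL1 : 1 ≤ -Real.log ‖w‖ := (le_max_left _ _).trans h3
    have hL2 : |C| / (ε / 2) + 1 ≤ -Real.log ‖w‖ := (le_max_right _ _).trans h3
    have hw1 : ‖w‖ ≤ 1 := by
      by_contra hc
      push Not at hc
      have := Real.log_pos hc
      linarith
    have h4 := hC w hw hw1
    have h5 : Real.log (1 / ‖w‖) = -Real.log ‖w‖ := by rw [one_div, Real.log_inv]
    rw [h5] at h4
    have hne : ((Real.log ‖w‖ : ℝ) : ℂ) ≠ 0 := by
      have : Real.log ‖w‖ ≠ 0 := by linarith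
      exact_mod_cast this
    rw [dist_eq_norm]
    have e : ℓ w / (Real.log ‖w‖ : ℝ) - r = (ℓ w - r * (Real.log ‖w‖ : ℝ)) / (Real.log ‖w‖ : ℝ) := by
      field_simp
    rw [e, norm_div, Complex.norm_real, Real.norm_eq_abs, abs_of_neg (by linarith : Real.log ‖w‖ < 0),
      div_lt_iff₀ (by linarith)]
    refine lt_of_le_of_lt h4 ?_
    have h6 : |C| < -Real.log ‖w‖ * (ε / 2) := by
      rw [← div_lt_iff₀ (half_pos hε)]
      linarith
    have h7 := le_abs_self C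
    have e2 : ε * -Real.log ‖w‖ = ε / 2 * -Real.log ‖w‖ + -Real.log ‖w‖ * (ε / 2) := by ring
    rw [e2]
    linarith
  · intro h φ' hφ' ε hε
    have hε0 : 0 < ε := hε
    have h1 := h φ' hφ'
    rw [Metric.tendsto_nhds] at h1
    have h2 := h1 ε hε
    rw [eventually_nhdsWithin_iff, Metric.eventually_nhds_iff] at h2
    obtain ⟨δ₀, hδ₀, h3⟩ := h2
    obtain ⟨δ, hδ, hδ1, hδ2⟩ : ∃ δ : ℝ, 0 < δ ∧ δ ≤ δ₀ ∧ δ < 1 :=
      ⟨min δ₀ (1 / 2), lt_min hδ₀ (by norm_num), min_le_left _ _, by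
        have := min_le_right δ₀ (1 / 2)
        linarith⟩
    obtain ⟨C, hC⟩ := annulus_bound hφ hφ' hδ hℓ
    have hlδ : 0 ≤ Real.log (1 / δ) := Real.log_nonneg (by
      rw [le_div_iff₀ hδ]
      linarith)
    refine ⟨|C| + ‖r‖ * Real.log (1 / δ), fun w hw hw1 => ?_⟩
    have hw0 : 0 < ‖w‖ := norm_pos_iff.2 hw.1
    have hL0 : 0 ≤ Real.log (1 / ‖w‖) := log_inv_nonneg hw0 hw1
    have h5 : Real.log ‖w‖ = -Real.log (1 / ‖w‖) := by rw [one_div, Real.log_inv, neg_neg]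
    rcases lt_or_ge ‖w‖ δ with h4 | h4
    · have h6 := h3 (y := w) (by rw [dist_zero_right]; linarith) hw
      have hlneg : Real.log ‖w‖ < 0 := Real.log_neg hw0 (by linarith)
      have hne : ((Real.log ‖w‖ : ℝ) : ℂ) ≠ 0 := by exact_mod_cast hlneg.ne
      rw [dist_eq_norm] at h6
      have e : ℓ w - r * (Real.log ‖w‖ : ℝ) = (ℓ w / (Real.log ‖w‖ : ℝ) - r) * (Real.log ‖w‖ : ℝ) := by
        field_simp
      have h5' : -Real.log ‖w‖ = Real.log (1 / ‖w‖) := by rw [one_div, Real.log_inv]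
      rw [e, norm_mul, Complex.norm_real, Real.norm_eq_abs, abs_of_neg hlneg, h5']
      have h7 := mul_le_mul_of_nonneg_right h6.le hL0
      have h8 : 0 ≤ |C| + ‖r‖ * Real.log (1 / δ) := by positivity
      linarith
    · have h6 := hC w hw h4 hw1
      have h7 : ‖r * ((Real.log ‖w‖ : ℝ) : ℂ)‖ ≤ ‖r‖ * Real.log (1 / δ) := by
        rw [norm_mul, Complex.norm_real, Real.norm_eq_abs, h5, abs_neg, abs_of_nonneg hL0]
        refine mul_le_mul_of_nonneg_left ?_ (norm_nonneg r)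
        exact Real.log_le_log (by positivity) (one_div_le_one_div_of_le hδ h4)
      refine (norm_sub_le _ _).trans ?_
      have h8 : 0 ≤ ε * Real.log (1 / ‖w‖) := by positivity
      have h9 := le_abs_self C
      linarith

end Pool.Agent.D0H40.CX
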