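import Pool.Agent.D0H40.CX.Mero

/-! Functions that are meromorphic at the vertex and in the half-plane. -/

set_option autoImplicit false

namespace Pool.Agent.D0H40.CX

open Complex MeasureTheory Filter Topology Set
open Pool.Agent.D0H40.KX
open Pool.Agent.W189.ML (ser)
open Pool.Agent.W334.BSD (exists_log log_unique)
open scoped ComplexConjugate

variable {k σ : ℝ} {lam c : ℕ → ℝ} {G E : ℂ → ℂ} {W : ℝ → ℝ → ℝ → ℂ}

/-- a logarithm of a function that is meromorphic at the vertex -/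
theorem vertex_bound {θ φ : ℝ} (h0 : 0 < φ) (hφ : |θ| + φ ≤ Real.pi / 2) {F ℓ : ℂ → ℂ}
    (hF : MeromorphicAt F 0) {r : ℤ} (hr : meromorphicOrderAt F 0 = r)
    (hℓ : DifferentiableOn ℂ ℓ (Os θ φ)) {ρ₁ : ℝ} (hρ₁ : 0 < ρ₁)
    (hE : ∀ w ∈ Os θ φ, ‖w‖ < ρ₁ → exp (ℓ w) = F w) :
    ∃ ρ C : ℝ, 0 < ρ ∧ ∀ w ∈ Os θ φ, ‖w‖ < ρ → ‖ℓ w - r * (Real.log ‖w‖ : ℝ)‖ ≤ C := by
  have hpi := Real.pi_pos
  obtain ⟨g, hg, hg0, hFg⟩ := (meromorphicOrderAt_eq_int_iff hF).1 hr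
  -- a small ball
  have h1 : ∀ᶠ z : ℂ in 𝓝 0, ‖g z / g 0 - 1‖ < 1 / 2 := by
    have hc : ContinuousAt (fun z => ‖g z / g 0 - 1‖) 0 := by
      have := hg.continuousAt
      fun_prop
    refine hc.tendsto.eventually (eventually_lt_nhds ?_)
    rw [div_self hg0, sub_self, norm_zero]
    norm_num
  have h2 : ∀ᶠ z : ℂ in 𝓝 0, DifferentiableAt ℂ g z :=
    hg.eventually_analyticAt.mono fun z hz => hz.differentiableAt
  have h3 := (h1.and h2).and (eventually_nhdsWithin_iff.1 hFg)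
  obtain ⟨ρ₀, hρ₀, h4⟩ := Metric.eventually_nhds_iff.1 h3
  obtain ⟨ρ, hρ, hρ1, hρ2⟩ : ∃ ρ : ℝ, 0 < ρ ∧ ρ ≤ ρ₀ ∧ ρ ≤ ρ₁ :=
    ⟨min ρ₀ ρ₁, lt_min hρ₀ hρ₁, min_le_left _ _, min_le_right _ _⟩
  have hdom := Os_dom' h0 hφ
  set V : Set ℂ := Os θ φ ∩ Metric.ball 0 ρ with hV
  have hVo : IsOpen V := hdom.op.inter Metric.isOpen_ball
  have hVc : Convex ℝ V := hdom.cv.inter (convex_ball 0 ρ)
  have hb : ∀ w ∈ V, ‖w‖ < ρ := fun w hw => by
    have := hw.2
    rwa [Metric.mem_ball, dist_zero_right] at this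
  have hb2 : ∀ w ∈ V, (‖g w / g 0 - 1‖ < 1 / 2 ∧ DifferentiableAt ℂ g w) ∧
      (w ∈ ({0} : Set ℂ)ᶜ → F w = (w - 0) ^ r • g w) := fun w hw => h4 (y := w) (by
    rw [dist_zero_right]
    have := hb w hw
    linarith)
  set f₂ : ℂ → ℂ := fun w => r * log w + log (g w / g 0) + log (g 0) with hf₂
  have hslit : ∀ w ∈ V, g w / g 0 ∈ slitPlane := by
    intro w hw
    refine Or.inl ?_
    have h5 := (hb2 w hw).1.1
    have h6 := (abs_le.1 ((abs_re_le_norm (g w / g 0 - 1)).trans h5.le)).1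
    rw [Complex.sub_re, Complex.one_re] at h6
    linarith
  have hd₂ : DifferentiableOn ℂ f₂ V := by
    intro w hw
    have h5 : w ∈ slitPlane := Or.inl (hdom.pos w hw.1)
    have h6 := (hb2 w hw).1.2
    have h7 := hslit w hw
    refine DifferentiableAt.differentiableWithinAt ?_
    refine ((DifferentiableAt.const_mul ?_ _).add ?_).add_const _
    · exact (hasStrictDerivAt_log h5).hasDerivAt.differentiableAt
    · exact (h6.div_const _).clog h7
  have hexp : ∀ w ∈ V, exp (ℓ w) = exp (f₂ w) := by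
    intro w hw
    have hw0 : w ≠ 0 := hw.1.1
    have h5 := slitPlane_ne_zero (hslit w hw)
    rw [hE w hw.1 ((hb w hw).trans_le hρ2), (hb2 w hw).2 hw0, hf₂]
    simp only
    rw [exp_add, exp_add, exp_log hg0, exp_log h5, Complex.exp_int_mul, exp_log hw0, sub_zero, smul_eq_mul]
    field_simp
  by_cases hne : V.Nonempty
  · obtain ⟨p, hp⟩ := hne
    have hu := log_unique hVo hVc.isPreconnected (hℓ.mono inter_subset_left) hd₂ hexp hp
    refine ⟨ρ, ‖(r : ℂ)‖ * Real.pi + 3 / 4 + ‖log (g 0)‖ + ‖ℓ p - f₂ p‖, hρ, fun w hw hwρ => ?_⟩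
    have hwV : w ∈ V := ⟨hw, by rwa [Metric.mem_ball, dist_zero_right]⟩
    have h5 := hu w hwV
    have h6 : log w = (Real.log ‖w‖ : ℝ) + (arg w : ℝ) * I := rfl
    have h7 : ℓ w - r * (Real.log ‖w‖ : ℝ) =
        r * ((arg w : ℝ) * I) + log (g w / g 0) + log (g 0) + (ℓ p - f₂ p) := by
      rw [← h5, hf₂]
      simp only
      rw [h6]
      ring
    rw [h7]
    have h8 : ‖log (g w / g 0)‖ ≤ 3 / 4 := by
      have h9 := (hb2 w hwV).1.1
      have h10 := Complex.norm_log_one_add_half_le_self h9.le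
      rw [add_sub_cancel] at h10
      linarith
    have h9 : ‖(r : ℂ) * ((arg w : ℝ) * I)‖ ≤ ‖(r : ℂ)‖ * Real.pi := by
      rw [norm_mul, norm_mul, Complex.norm_real, Complex.norm_I, mul_one]
      exact mul_le_mul_of_nonneg_left (abs_arg_le_pi w) (norm_nonneg _)
    refine (norm_add_le _ _).trans ?_
    refine (add_le_add (norm_add_le _ _) le_rfl).trans ?_
    refine (add_le_add (add_le_add (norm_add_le _ _) le_rfl) le_rfl).trans ?_
    linarith
  · refine ⟨ρ, 0, hρ, fun w hw hwρ => ?_⟩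
    exact absurd ⟨w, hw, by rwa [Metric.mem_ball, dist_zero_right]⟩ hne

/-- from a neighbourhood of the vertex to the ball of radius one -/
theorem vertex_VB {θ φ : ℝ} (hφ : |θ| + φ ≤ Real.pi / 2) {ℓ : ℂ → ℂ} {r : ℂ}
    (hℓ : DifferentiableOn ℂ ℓ (Os θ φ)) {ρ C : ℝ} (hρ : 0 < ρ)
    (h : ∀ w ∈ Os θ φ, ‖w‖ < ρ → ‖ℓ w - r * (Real.log ‖w‖ : ℝ)‖ ≤ C) : VB {0} θ φ r ℓ := by
  intro φ' hφ' ε hε
  rw [mem_singleton_iff] at hε
  subst hε
  obtain ⟨δ, hδ, hδ1, hδ2⟩ : ∃ δ : ℝ, 0 < δ ∧ δ ≤ ρ ∧ δ ≤ 1 :=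
    ⟨min ρ 1, lt_min hρ one_pos, min_le_left _ _, min_le_right _ _⟩
  obtain ⟨C₁, hC₁⟩ := annulus_bound hφ hφ' hδ hℓ.continuousOn
  have hlδ : 0 ≤ Real.log (1 / δ) := Real.log_nonneg (by
    rw [le_div_iff₀ hδ]
    linarith)
  refine ⟨|C| + |C₁| + ‖r‖ * Real.log (1 / δ), fun w hw hw1 => ?_⟩
  have hw0 : 0 < ‖w‖ := norm_pos_iff.2 hw.1
  have hL0 : 0 ≤ Real.log (1 / ‖w‖) := log_inv_nonneg hw0 hw1
  have h9 : 0 ≤ ‖r‖ * Real.log (1 / δ) := by positivity
  rw [zero_mul, zero_add]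
  rcases lt_or_ge ‖w‖ δ with h4 | h4
  · have h5 := h w ⟨hw.1, hw.2.trans hφ'⟩ (h4.trans_le hδ1)
    have := le_abs_self C
    have := abs_nonneg C₁
    linarith
  · have h6 := hC₁ w hw h4 hw1
    have h5 : |Real.log ‖w‖| = Real.log (1 / ‖w‖) := by
      rw [one_div, Real.log_inv, abs_of_nonpos (Real.log_nonpos hw0.le hw1)]
    have h7 : ‖r * ((Real.log ‖w‖ : ℝ) : ℂ)‖ ≤ ‖r‖ * Real.log (1 / δ) := by
      rw [norm_mul, Complex.norm_real, Real.norm_eq_abs, h5]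
      refine mul_le_mul_of_nonneg_left ?_ (norm_nonneg r)
      exact Real.log_le_log (by positivity) (one_div_le_one_div_of_le hδ h4)
    refine (norm_sub_le _ _).trans ?_
    have := le_abs_self C₁
    have := abs_nonneg C
    linarith

/-- exceptional points in a compact set -/
theorem finite_bad {T : Set ℂ} (hT : IsCompact T) {Q : ℂ → Prop}
    (h : ∀ w ∈ T, ∀ᶠ z in 𝓝[≠] w, Q z) : {w | w ∈ T ∧ ¬ Q w}.Finite := by
  obtain ⟨t, -, ht⟩ := hT.elim_nhds_subcover (fun w => {z | z ∈ ({w} : Set ℂ)ᶜ → Q z}) fun w hw =>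
    eventually_nhdsWithin_iff.1 (h w hw)
  refine t.finite_toSet.subset fun w hw => ?_
  have h1 := ht hw.1
  simp only [mem_iUnion] at h1
  obtain ⟨z, hz, hwz⟩ := h1
  by_contra hc
  refine hw.2 (hwz fun h2 => hc ?_)
  rw [mem_singleton_iff] at h2
  rw [h2]
  exact hz

theorem ESys.E_diff (S : ESys lam c G E σ) (hσ0 : 0 ≤ σ) : DifferentiableOn ℂ E {w | σ < w.re} := by
  have h1 : DifferentiableOn ℂ (fun w => exp (G w - ser lam c w)) {w | σ < w.re} :=
    ((S.Gd.mono fun w hw => by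
      have h : σ < w.re := hw
      show 0 < w.re
      linarith).sub S.sd).cexp
  exact h1.congr fun w hw => (S.eq w hw).symm

theorem ESys.E_ne (S : ESys lam c G E σ) {w : ℂ} (hw : σ < w.re) : E w ≠ 0 := by
  rw [← S.eq w hw]
  exact exp_ne_zero _

/-- `F` is a meromorphic continuation of `E` to the half-plane and to the vertex -/
structure MCont (E : ℂ → ℂ) (σ : ℝ) (F : ℂ → ℂ) : Prop where
  mero : ∀ w : ℂ, 0 < w.re → MeromorphicAt F w
  vert : MeromorphicAt F 0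
  eq : ∀ w : ℂ, σ < w.re → F w = E w

theorem MCont.order_ne (S : ESys lam c G E σ) {F : ℂ → ℂ} (hF : MCont E σ F)
    {w : ℂ} (hw : 0 < w.re) : meromorphicOrderAt F w ≠ ⊤ := by
  set M : ℝ := max σ 0 + 1 with hM
  have hM1 : σ < M := by
    have := le_max_left σ 0
    linarith
  have hM0 : 0 < M := by
    have := le_max_right σ 0
    linarith
  have h1 : meromorphicOrderAt F (M : ℂ) ≠ ⊤ := by
    rw [meromorphicOrderAt_ne_top_iff_eventually_ne_zero (hF.mero _ (by rwa [Complex.ofReal_re]))]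
    refine eventually_nhdsWithin_of_eventually_nhds ?_
    filter_upwards [(re_open σ).mem_nhds (show ((M : ℝ) : ℂ) ∈ {w : ℂ | σ < w.re} from by
      show σ < ((M : ℝ) : ℂ).re
      rwa [Complex.ofReal_re])] with z hz
    rw [hF.eq z hz]
    exact S.E_ne hz
  have h2 : MeromorphicOn F {w : ℂ | 0 < w.re} := fun w hw => hF.mero w hw
  exact h2.meromorphicOrderAt_ne_top_of_isPreconnected (re_conv 0).isPreconnected
    (show ((M : ℝ) : ℂ) ∈ {w : ℂ | 0 < w.re} by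
      show 0 < ((M : ℝ) : ℂ).re
      rwa [Complex.ofReal_re]) hw h1

/-- near the vertex there are no other zeros and no other poles -/
theorem MCont.near (S : ESys lam c G E σ) {F : ℂ → ℂ} (hF : MCont E σ F) :
    ∃ ρ : ℝ, 0 < ρ ∧ ∀ w : ℂ, w ≠ 0 → ‖w‖ < ρ → AnalyticAt ℂ F w ∧ F w ≠ 0 := by
  have h1 : ∀ᶠ z in 𝓝[≠] (0 : ℂ), F z ≠ 0 := by
    rcases hF.vert.eventually_eq_zero_or_eventually_ne_zero with h | h
    · exfalso
      rw [eventually_nhdsWithin_iff, Metric.eventually_nhds_iff] at h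
      obtain ⟨ρ, hρ, h⟩ := h
      have h2 : meromorphicOrderAt F ((ρ / 2 : ℝ) : ℂ) ≠ ⊤ := hF.order_ne S (by
        rw [Complex.ofReal_re]
        positivity)
      rw [meromorphicOrderAt_ne_top_iff_eventually_ne_zero (hF.mero _ (by
        rw [Complex.ofReal_re]
        positivity))] at h2
      have h3 : ∀ᶠ z : ℂ in 𝓝[≠] ((ρ / 2 : ℝ) : ℂ), F z = 0 := by
        refine eventually_nhdsWithin_of_eventually_nhds ?_
        filter_upwards [Metric.ball_mem_nhds ((ρ / 2 : ℝ) : ℂ) (half_pos hρ)] with z hz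
        rw [Metric.mem_ball, dist_eq_norm] at hz
        have h5 : ‖((ρ / 2 : ℝ) : ℂ)‖ = ρ / 2 := by
          rw [Complex.norm_real, Real.norm_of_nonneg (by positivity)]
        refine h (y := z) ?_ ?_
        · rw [dist_zero_right]
          have := norm_le_norm_add_norm_sub' z ((ρ / 2 : ℝ) : ℂ)
          linarith
        · intro h6
          rw [mem_singleton_iff] at h6
          rw [h6, zero_sub, norm_neg, h5] at hz
          linarith
      obtain ⟨z, h4, h5⟩ := (h2.and h3).exists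
      exact h4 h5
    · exact h
  have h2 := hF.vert.eventually_analyticAt.and h1
  rw [eventually_nhdsWithin_iff, Metric.eventually_nhds_iff] at h2
  obtain ⟨ρ, hρ, h⟩ := h2
  exact ⟨ρ, hρ, fun w hw hwρ => h (y := w) (by rwa [dist_zero_right]) hw⟩

end Pool.Agent.D0H40.CX
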