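import Pool.Agent.D0H40.CX.Norms2
import Pool.Agent.H921R2.TatePole.Dedekind
import Pool.Agent.H341R2.NF.ECCount

/-! Elliptic curves over number fields. -/

set_option autoImplicit false

namespace Pool.Agent.D0H40.CX

open Complex MeasureTheory Filter Topology Set NumberField IsDedekindDomain
open Pool.Agent.H921R2.TatePole (nm two_le_nm nm_summable prime_sum_bdd Lam Bdd)

section Fields

/-- the bound of Hasse in the form needed here -/
theorem hasse_field {k : Type} [Field k] [Finite k] (a b : k) (h6 : (6 : k) ≠ 0)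
    (hΔ : 4 * a ^ 3 + 27 * b ^ 2 ≠ 0) :
    |(Nat.card k : ℝ) - Nat.card {z : k × k // z.2 ^ 2 = z.1 ^ 3 + a * z.1 + b}| ≤ 2 * √(Nat.card k) := by
  classical
  have := Fintype.ofFinite k
  have h2 : (2 : k) ≠ 0 := fun h => h6 (by
    have : (6 : k) = 3 * 2 := by norm_num
    rw [this, h, mul_zero])
  have h3 : (3 : k) ≠ 0 := fun h => h6 (by
    have : (6 : k) = 2 * 3 := by norm_num
    rw [this, h, mul_zero])
  have h27 : (27 : k) ≠ 0 := by
    rw [show (27 : k) = 3 ^ 3 by norm_num]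
    exact pow_ne_zero _ h3
  have h54 : (54 : k) ≠ 0 := by
    rw [show (54 : k) = 2 * 27 by norm_num]
    exact mul_ne_zero h2 h27
  set c : k := -a / 27 with hc
  set c' : k := -b / 54 with hc'
  have hca : -27 * c = a := by rw [hc]; field_simp
  have hcb : -54 * c' = b := by rw [hc']; field_simp
  have hcc : c ^ 3 - c' ^ 2 ≠ 0 := by
    intro h0
    apply hΔ
    rw [← hca, ← hcb]
    linear_combination (-78732 : k) * h0
  have e1 : Nat.card {z : k × k // z.2 ^ 2 = z.1 ^ 3 + a * z.1 + b} = Pool.Agent.H341R2.EC.short c c' := by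
    unfold Pool.Agent.H341R2.EC.short
    congr 1
    have : ∀ z : k × k, (z.2 ^ 2 = z.1 ^ 3 + a * z.1 + b) =
        (z.2 ^ 2 = z.1 ^ 3 - 27 * c * z.1 - 54 * c') := by
      intro z
      rw [← hca, ← hcb]
      congr 1; ring
    simp only [this]
  have e2 := Pool.Agent.H341R2.EC.short_eq h6 c c'
  have e3 := Pool.Agent.H341R2.EC.csum_bound h6 hcc
  rw [← e1] at e2
  have e4 : (Nat.card k : ℝ) - Nat.card {z : k × k // z.2 ^ 2 = z.1 ^ 3 + a * z.1 + b} =
      -(Pool.Agent.H341R2.EC.csum c c' : ℝ) := by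
    have : (((Nat.card {z : k × k // z.2 ^ 2 = z.1 ^ 3 + a * z.1 + b} : ℕ) : ℤ) : ℝ) =
        ((Fintype.card k + Pool.Agent.H341R2.EC.csum c c' : ℤ) : ℝ) := by
      rw [e2]; rfl
    push_cast at this
    rw [Nat.card_eq_fintype_card]
    linarith
  rw [e4, abs_neg, Nat.card_eq_fintype_card]
  exact e3

/-- a finite field in which `6 ≠ 0` has at least five elements -/
theorem five_le_card {k : Type} [Field k] [Finite k] (h6 : (6 : k) ≠ 0) : 5 ≤ Nat.card k := by
  have := Fintype.ofFinite k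
  have h0 : ((Nat.card k : ℕ) : k) = 0 := by
    rw [Nat.card_eq_fintype_card]
    exact Nat.cast_card_eq_zero k
  have h1 : 2 ≤ Nat.card k := by
    rw [Nat.card_eq_fintype_card]
    exact Fintype.one_lt_card
  by_contra hc
  push Not at hc
  have h2 : Nat.card k = 2 ∨ Nat.card k = 3 ∨ Nat.card k = 4 := by omega
  rcases h2 with h | h | h
  · rw [h] at h0
    apply h6
    have : (6 : k) = 3 * ((2 : ℕ) : k) := by norm_num
    rw [this, h0, mul_zero]
  · rw [h] at h0
    apply h6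
    have : (6 : k) = 2 * ((3 : ℕ) : k) := by norm_num
    rw [this, h0, mul_zero]
  · rw [h] at h0
    have h3 : (2 : k) * 2 = 0 := by
      have : (2 : k) * 2 = ((4 : ℕ) : k) := by norm_num
      rw [this, h0]
    have h4 : (2 : k) = 0 := by
      rcases mul_eq_zero.1 h3 with h | h <;> exact h
    apply h6
    have : (6 : k) = 3 * 2 := by norm_num
    rw [this, h4, mul_zero]

end Fields

variable {K : Type} [Field K] [NumberField K]

/-- the number of affine points modulo `v` -/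
noncomputable def affV (a b : 𝓞 K) (v : HeightOneSpectrum (𝓞 K)) : ℕ :=
  Nat.card {z : (𝓞 K ⧸ v.asIdeal) × (𝓞 K ⧸ v.asIdeal) //
    z.2 ^ 2 = z.1 ^ 3 + Ideal.Quotient.mk v.asIdeal a * z.1 + Ideal.Quotient.mk v.asIdeal b}

/-- `v` does not divide `6 (4 a³ + 27 b²)` -/
def GoodV (a b : 𝓞 K) (v : HeightOneSpectrum (𝓞 K)) : Prop :=
  6 * (4 * a ^ 3 + 27 * b ^ 2) ∉ v.asIdeal

theorem card_quot (v : HeightOneSpectrum (𝓞 K)) : Nat.card (𝓞 K ⧸ v.asIdeal) = nm v := by
  unfold nm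
  rw [Ideal.absNorm_apply, Submodule.cardQuot_apply]

theorem hasse_V {a b : 𝓞 K} {v : HeightOneSpectrum (𝓞 K)} (h : GoodV a b v) :
    5 ≤ nm v ∧ |(nm v : ℝ) - affV a b v| ≤ 2 * √(nm v) := by
  have hmax := v.isMaximal
  letI : Field (𝓞 K ⧸ v.asIdeal) := Ideal.Quotient.field v.asIdeal
  have hfin : Finite (𝓞 K ⧸ v.asIdeal) := by
    refine Nat.finite_of_card_ne_zero ?_
    rw [card_quot]
    have := two_le_nm v
    omega
  have h0 : (Ideal.Quotient.mk v.asIdeal) (6 * (4 * a ^ 3 + 27 * b ^ 2)) ≠ 0 := by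
    rw [Ne, Ideal.Quotient.eq_zero_iff_mem]
    exact h
  have h1 : (Ideal.Quotient.mk v.asIdeal) (6 * (4 * a ^ 3 + 27 * b ^ 2)) =
      6 * (4 * (Ideal.Quotient.mk v.asIdeal a) ^ 3 + 27 * (Ideal.Quotient.mk v.asIdeal b) ^ 2) := by
    simp only [map_mul, map_add, map_pow, map_ofNat]
  rw [h1] at h0
  have h6 := left_ne_zero_of_mul h0
  have hΔ := right_ne_zero_of_mul h0
  have h3 := hasse_field (k := 𝓞 K ⧸ v.asIdeal) (Ideal.Quotient.mk v.asIdeal a)
    (Ideal.Quotient.mk v.asIdeal b) h6 hΔ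
  have h4 := five_le_card (k := 𝓞 K ⧸ v.asIdeal) h6
  rw [card_quot] at h3 h4
  exact ⟨h4, h3⟩

/-- there are at most `[K : ℚ]` primes of a given norm -/
theorem mult_V (n : ℕ) (s : Finset (HeightOneSpectrum (𝓞 K))) (hs : ∀ v ∈ s, nm v = n) :
    s.card ≤ Module.finrank ℤ (𝓞 K) := by
  classical
  rcases s.eq_empty_or_nonempty with h | ⟨v₀, hv₀⟩
  · simp [h]
  have hn2 : 2 ≤ n := by
    rw [← hs v₀ hv₀]
    exact two_le_nm v₀
  have h1 : ∏ v ∈ s, v.asIdeal ∣ Ideal.span {(n : 𝓞 K)} := by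
    refine Finset.prod_dvd_of_coprime ?_ ?_
    · intro v hv w hw hvw
      have : v.asIdeal ≠ w.asIdeal := fun h => hvw (HeightOneSpectrum.ext h)
      exact Ideal.isCoprime_of_isMaximal this
    · intro v hv
      rw [Ideal.dvd_span_singleton]
      have := Ideal.absNorm_mem v.asIdeal
      have h2 : Ideal.absNorm v.asIdeal = n := hs v hv
      rwa [h2] at this
  have h2 := map_dvd Ideal.absNorm h1
  rw [map_prod, Ideal.absNorm_span_natCast] at h2
  have hs2 : ∀ v ∈ s, Ideal.absNorm v.asIdeal = n := hs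
  have h3 : ∏ v ∈ s, Ideal.absNorm v.asIdeal = n ^ s.card := Finset.prod_eq_pow_card hs2
  rw [h3] at h2
  exact (Nat.pow_dvd_pow_iff_le_right hn2).1 h2

/-- the logarithmic sum over the primes of `K` -/
theorem log_sum_V : ∃ C σ₀ : ℝ, 0 < σ₀ ∧ ∀ σ : ℝ, 0 < σ → σ < σ₀ →
    Summable (fun v : HeightOneSpectrum (𝓞 K) => Real.log (nm v) * (nm v : ℝ) ^ (-(1 + σ))) ∧
    σ * ∑' v : HeightOneSpectrum (𝓞 K), Real.log (nm v) * (nm v : ℝ) ^ (-(1 + σ)) ≤ C := by
  obtain ⟨C, hC⟩ := prime_sum_bdd (K := K)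
  obtain ⟨ε₀, hε₀, h1⟩ : ∃ ε₀ > 0, ∀ ε : ℝ, 0 < ε → ε < ε₀ →
      |∑' v : HeightOneSpectrum (𝓞 K), (nm v : ℝ) ^ (-(1 + ε)) + Real.log ε| ≤ C := by
    rw [eventually_nhdsWithin_iff, Metric.eventually_nhds_iff] at hC
    obtain ⟨ε₀, hε₀, h⟩ := hC
    refine ⟨ε₀, hε₀, fun ε h3 h4 => ?_⟩
    have h5 := h (y := 1 + ε) (by
      rw [Real.dist_eq, add_sub_cancel_left, abs_of_pos h3]
      exact h4) (by
      show 1 < 1 + ε
      linarith)
    unfold Lam at h5
    simp only [add_sub_cancel_left, one_div, Real.log_inv, sub_neg_eq_add] at h5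
    exact h5
  refine ⟨2 * (2 * C + Real.log 2), ε₀, hε₀, fun σ hσ hσ0 => ?_⟩
  set ε := σ / 2 with hε
  have hε1 : 0 < ε := by positivity
  have hs1 := nm_summable (K := K) (x := 1 + ε) (by linarith)
  have hs2 := nm_summable (K := K) (x := 1 + 2 * ε) (by linarith)
  have h2 := h1 ε hε1 (by linarith)
  have h3 := h1 (2 * ε) (by positivity) (by linarith)
  have key : ∀ v : HeightOneSpectrum (𝓞 K), ε * (Real.log (nm v) * (nm v : ℝ) ^ (-(1 + σ))) ≤
      (nm v : ℝ) ^ (-(1 + ε)) - (nm v : ℝ) ^ (-(1 + 2 * ε)) := by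
    intro v
    have hv := two_le_nm v
    have hp0 : (0 : ℝ) < nm v := by exact_mod_cast (by omega : 0 < nm v)
    have hσε : σ = 2 * ε := by rw [hε]; ring
    rw [hσε]
    set y := ε * Real.log (nm v) with hy
    have e1 : (nm v : ℝ) ^ (-(1 + ε)) = (nm v : ℝ) ^ (-(1 + 2 * ε)) * Real.exp y := by
      rw [Real.rpow_def_of_pos hp0, Real.rpow_def_of_pos hp0, ← Real.exp_add]
      congr 1
      rw [hy]; ring
    have e2 : y + 1 ≤ Real.exp y := Real.add_one_le_exp y
    have e3 : 0 < (nm v : ℝ) ^ (-(1 + 2 * ε)) := by positivity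
    rw [e1]
    have e4 : ε * (Real.log (nm v) * (nm v : ℝ) ^ (-(1 + 2 * ε))) = (nm v : ℝ) ^ (-(1 + 2 * ε)) * y := by
      rw [hy]; ring
    rw [e4]
    nlinarith
  have hnn : ∀ v : HeightOneSpectrum (𝓞 K), 0 ≤ ε * (Real.log (nm v) * (nm v : ℝ) ^ (-(1 + σ))) := by
    intro v
    have hv := two_le_nm v
    have hp1 : (1 : ℝ) ≤ nm v := by exact_mod_cast (by omega : 1 ≤ nm v)
    have := Real.log_nonneg hp1
    positivity
  have hsum := Summable.of_nonneg_of_le hnn key (hs1.sub hs2)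
  have hle := hsum.tsum_le_tsum key (hs1.sub hs2)
  rw [hs1.tsum_sub hs2] at hle
  constructor
  · have := hsum.mul_left ε⁻¹
    refine this.congr fun p => ?_
    field_simp
  · rw [tsum_mul_left] at hle
    have h4 := abs_le.mp h2
    have h5 := abs_le.mp h3
    rw [Real.log_mul (by norm_num) hε1.ne'] at h5
    have h6 : σ = 2 * ε := by rw [hε]; ring
    nth_rewrite 1 [h6]
    nlinarith [h4.1, h4.2, h5.1, h5.2]

/-- the good primes -/
abbrev PV (a b : 𝓞 K) : Type := {v : HeightOneSpectrum (𝓞 K) // GoodV a b v}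

/-- the norm of a good prime -/
noncomputable def qV (a b : 𝓞 K) (v : PV a b) : ℕ := nm v.1

/-- the trace of Frobenius divided by the norm -/
noncomputable def tV (a b : 𝓞 K) (v : PV a b) : ℝ := ((nm v.1 : ℝ) - affV a b v.1) / nm v.1

theorem ns_V (a b : 𝓞 K) : NS (qV a b) (tV a b) (Module.finrank ℤ (𝓞 K)) where
  five := fun v => (hasse_V v.2).1
  mult := fun n s hs => by
    have h := mult_V n (s.map (Function.Embedding.subtype (GoodV a b))) (fun v hv => by
      obtain ⟨u, hu, rfl⟩ := Finset.mem_map.1 hv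
      exact hs u hu)
    rwa [Finset.card_map] at h
  hasse := fun v => by
    obtain ⟨h5, hh⟩ := hasse_V v.2
    have h0 : (0 : ℝ) < nm v.1 := by exact_mod_cast (by omega : 0 < nm v.1)
    unfold tV qV dn
    rw [abs_div, abs_of_pos h0, div_le_iff₀ h0]
    refine hh.trans (le_of_eq ?_)
    rw [Real.sqrt_eq_rpow, mul_assoc]
    congr 1
    nth_rewrite 3 [← Real.rpow_one (nm v.1 : ℝ)]
    rw [← Real.rpow_add h0]
    norm_num
  lg := by
    obtain ⟨C, σ₀, hσ₀, h⟩ := log_sum_V (K := K)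
    refine ⟨C, σ₀, hσ₀, fun σ h1 h2 => ?_⟩
    obtain ⟨hs, hle⟩ := h σ h1 h2
    have hs' : Summable fun v : PV a b => Real.log (qV a b v) * (qV a b v : ℝ) ^ (-(1 + σ)) :=
      hs.subtype (GoodV a b)
    refine ⟨hs', le_trans (mul_le_mul_of_nonneg_left ?_ h1.le) hle⟩
    refine Summable.tsum_subtype_le (f := fun v : HeightOneSpectrum (𝓞 K) =>
      Real.log (nm v) * (nm v : ℝ) ^ (-(1 + σ))) {v | GoodV a b v} (fun v => ?_) hs
    have hv := two_le_nm v
    have hp1 : (1 : ℝ) ≤ nm v := by exact_mod_cast (by omega : 1 ≤ nm v)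
    have := Real.log_nonneg hp1
    positivity

end Pool.Agent.D0H40.CX
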