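import Pool.Agent.D0H40.CX.Trans3
import Pool.Agent.D0H40.CX.Fac

/-! Euler products of degree two over a family of primes with norms of bounded multiplicity. -/

set_option autoImplicit false

namespace Pool.Agent.D0H40.CX

open Complex MeasureTheory Filter Topology Set
open Pool.Agent.D0H40.KX
open Pool.Agent.W189.ML (ser norm_exp_sub_one_le_of_re)
open scoped ComplexConjugate

/-- `1/√n` -/
noncomputable def dn (n : ℕ) : ℝ := (n : ℝ) ^ (-(1 / 2) : ℝ)

/-- Norms `q` of primes and the traces of Frobenius divided by the norm. -/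
structure NS {P : Type} (q : P → ℕ) (t : P → ℝ) (d : ℕ) : Prop where
  five : ∀ v, 5 ≤ q v
  mult : ∀ (n : ℕ) (s : Finset P), (∀ v ∈ s, q v = n) → s.card ≤ d
  hasse : ∀ v, |t v| ≤ 2 * dn (q v)
  lg : ∃ C σ₀ : ℝ, 0 < σ₀ ∧ ∀ σ : ℝ, 0 < σ → σ < σ₀ →
    Summable (fun v => Real.log (q v) * (q v : ℝ) ^ (-(1 + σ))) ∧
    σ * ∑' v, Real.log (q v) * (q v : ℝ) ^ (-(1 + σ)) ≤ C

variable {P : Type} {q : P → ℕ} {t : P → ℝ} {d : ℕ}

theorem NS.q0 (N : NS q t d) (v : P) : (0 : ℝ) < q v := by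
  have := N.five v
  exact_mod_cast (by omega : 0 < q v)

theorem NS.q1 (N : NS q t d) (v : P) : (1 : ℝ) ≤ q v := by
  have := N.five v
  exact_mod_cast (by omega : 1 ≤ q v)

theorem NS.lq (N : NS q t d) (v : P) : 0 < Real.log (q v) := by
  have := N.five v
  exact Real.log_pos (by exact_mod_cast (by omega : 1 < q v))

theorem dn_nonneg (n : ℕ) : 0 ≤ dn n := Real.rpow_nonneg (Nat.cast_nonneg _) _

theorem dn_le {n : ℕ} (hn : 5 ≤ n) : dn n ≤ 1 / 2 := by
  unfold dn
  have h4 : (4 : ℝ) ^ (-(1 / 2) : ℝ) = 1 / 2 := by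
    rw [Real.rpow_neg (by norm_num), ← Real.sqrt_eq_rpow, show (4:ℝ) = 2 ^ 2 by norm_num,
      Real.sqrt_sq (by norm_num), one_div]
  have h5 : (5 : ℝ) ≤ n := by exact_mod_cast hn
  have h6 := Real.rpow_le_rpow_of_nonpos (x := 4) (y := (n : ℝ)) (z := (-(1 / 2) : ℝ)) (by norm_num)
    (by linarith) (by norm_num)
  rw [h4] at h6
  exact h6

theorem dn_sq (n : ℕ) : dn n ^ 2 = (n : ℝ)⁻¹ := by
  unfold dn
  rw [← Real.rpow_natCast, ← Real.rpow_mul (Nat.cast_nonneg _)]
  norm_num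
  rw [Real.rpow_neg_one]

theorem dn_cube {n : ℕ} : dn n ^ 3 = (n : ℝ) ^ (-(3 / 2) : ℝ) := by
  unfold dn
  rw [← Real.rpow_natCast, ← Real.rpow_mul (Nat.cast_nonneg _)]
  norm_num

/-- `q_v^{-w}` -/
noncomputable def xq (n : ℕ) (w : ℂ) : ℂ := exp (-(w * Real.log n))

theorem xq_norm {n : ℕ} (hn : 0 < n) (w : ℂ) : ‖xq n w‖ = (n : ℝ) ^ (-w.re) := by
  unfold xq
  rw [Complex.norm_exp, Real.rpow_def_of_pos (by exact_mod_cast hn)]
  congr 1
  rw [Complex.neg_re, Complex.re_mul_ofReal]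
  ring

theorem xq_le {n : ℕ} (hn : 0 < n) {w : ℂ} (hw : 0 ≤ w.re) : ‖xq n w‖ ≤ 1 := by
  rw [xq_norm hn]
  exact Real.rpow_le_one_of_one_le_of_nonpos (by exact_mod_cast hn) (by linarith)

theorem xq_cpow {n : ℕ} (hn : 0 < n) (w : ℂ) : xq n w = (n : ℂ) ^ (-w) := by
  unfold xq
  have hn0 : (n : ℂ) ≠ 0 := by exact_mod_cast hn.ne'
  rw [Complex.cpow_def_of_ne_zero hn0, ← Complex.ofReal_natCast, ← Complex.ofReal_log (Nat.cast_nonneg _)]
  congr 1
  ring

/-! ### Sums over the family -/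

theorem NS.fiber_finite (N : NS q t d) (n : ℕ) : (q ⁻¹' {n}).Finite := by
  by_contra hc
  obtain ⟨s, hs1, hs2⟩ := (show (q ⁻¹' {n}).Infinite from hc).exists_subset_card_eq (d + 1)
  have := N.mult n s (fun v hv => hs1 hv)
  omega

theorem NS.sum_le (N : NS q t d) {g : ℕ → ℝ} (hg : ∀ n, 0 ≤ g n) (hs : Summable g) (s : Finset P) :
    ∑ v ∈ s, g (q v) ≤ d * ∑' n, g n := by
  classical
  rw [Finset.sum_comp g q]
  have h1 : ∀ n ∈ s.image q, ({v ∈ s | q v = n}.card) • g n ≤ d * g n := by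
    intro n _
    rw [nsmul_eq_mul]
    refine mul_le_mul_of_nonneg_right ?_ (hg n)
    exact_mod_cast N.mult n _ (fun v hv => (Finset.mem_filter.1 hv).2)
  refine (Finset.sum_le_sum h1).trans ?_
  rw [← Finset.mul_sum]
  exact mul_le_mul_of_nonneg_left (hs.sum_le_tsum _ fun n _ => hg n) (Nat.cast_nonneg _)

theorem NS.summable (N : NS q t d) {g : ℕ → ℝ} (hg : ∀ n, 0 ≤ g n) (hs : Summable g) :
    Summable fun v => g (q v) :=
  summable_of_sum_le (fun _ => hg _) (N.sum_le hg hs)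

theorem NS.sum_pow (N : NS q t d) {x : ℝ} (hx : 1 < x) : Summable fun v => (q v : ℝ) ^ (-x) :=
  N.summable (g := fun n : ℕ => (n : ℝ) ^ (-x)) (fun n => Real.rpow_nonneg (Nat.cast_nonneg _) _)
    (Real.summable_nat_rpow.mpr (by linarith))

/-- the coefficient at `v` -/
noncomputable def cv (q : P → ℕ) (t : P → ℝ) (v : P) : ℝ := c2 (t v) (dn (q v))

theorem NS.cv_le (N : NS q t d) (v : P) : |cv q t v| ≤ 3 * dn (q v) :=
  c2_le (dn_nonneg _) (dn_le (N.five v)) (N.hasse v)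

/-- the coefficients of the Dirichlet series -/
noncomputable def cn (q : P → ℕ) (t : P → ℝ) (n : ℕ) : ℝ := ∑' v : (q ⁻¹' {n}), cv q t v

theorem NS.cn_le (N : NS q t d) (n : ℕ) : |cn q t n| ≤ d * (3 * dn n) := by
  have hfin := N.fiber_finite n
  have := hfin.fintype
  unfold cn
  rw [tsum_fintype]
  refine (Finset.abs_sum_le_sum_abs _ _).trans ?_
  have h1 : ∀ v ∈ (Finset.univ : Finset (q ⁻¹' {n})), |cv q t v| ≤ 3 * dn n := by
    intro v _
    have := N.cv_le (v : P)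
    have hv : q v = n := v.2
    rwa [hv] at this
  refine (Finset.sum_le_sum h1).trans ?_
  rw [Finset.sum_const, nsmul_eq_mul]
  refine mul_le_mul_of_nonneg_right ?_ (by have := dn_nonneg n; positivity)
  have h2 := N.mult n (Finset.univ.map (Function.Embedding.subtype (fun v => v ∈ q ⁻¹' {n}))) (fun v hv => by
    obtain ⟨u, -, rfl⟩ := Finset.mem_map.1 hv
    exact u.2)
  rw [Finset.card_map] at h2
  exact_mod_cast h2

theorem NS.cn_small (N : NS q t d) {n : ℕ} (hn : n < 5) : cn q t n = 0 := by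
  have : IsEmpty (q ⁻¹' {n}) := ⟨fun v => by
    have h1 := N.five v
    have h2 : q v = n := v.2
    omega⟩
  unfold cn
  exact tsum_empty

/-- summation over the fibres -/
theorem NS.fiber_sum (_N : NS q t d) {h : ℕ → ℂ}
    (hs : Summable fun v => (cv q t v : ℂ) * h (q v)) :
    HasSum (fun n => (cn q t n : ℂ) * h n) (∑' v, (cv q t v : ℂ) * h (q v)) := by
  have h1 := hs.hasSum.tsum_fiberwise q
  have e : (fun n => (cn q t n : ℂ) * h n) = fun n => ∑' v : (q ⁻¹' {n}), (cv q t v : ℂ) * h (q v) := by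
    funext n
    exact key n
  rw [e]
  exact h1
where
  key {h : ℕ → ℂ} (n : ℕ) : (cn q t n : ℂ) * h n = ∑' v : (q ⁻¹' {n}), (cv q t v : ℂ) * h (q v) := by
    unfold cn
    rw [Complex.ofReal_tsum, ← tsum_mul_right]
    refine tsum_congr fun v => ?_
    have : q v = n := v.2
    rw [this]

/-! ### The correction function -/

/-- the correction term at `v` -/
noncomputable def gv (q : P → ℕ) (t : P → ℝ) (v : P) (w : ℂ) : ℂ := g2 (t v) (dn (q v)) (xq (q v) w)

/-- the correction function -/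
noncomputable def Gn (q : P → ℕ) (t : P → ℝ) (w : ℂ) : ℂ := ∑' v, gv q t v w

theorem NS.gv_main (N : NS q t d) (v : P) {w : ℂ} (hw : 0 ≤ w.re) :
    ‖gv q t v w - m2 (t v) (dn (q v)) * (xq (q v) w - xq (q v) w ^ 2)‖ ≤
      4 * (q v : ℝ) ^ (-(3 / 2) : ℝ) := by
  have h5 := N.five v
  rw [← dn_cube]
  exact g2_main (dn_nonneg _) (dn_le h5) (N.hasse v) (xq_le (by omega) hw)

theorem NS.m_le (N : NS q t d) (v : P) : |m2 (t v) (dn (q v))| ≤ (q v : ℝ)⁻¹ := by
  rw [← dn_sq]
  exact m2_le (N.hasse v)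

theorem NS.gv_norm (N : NS q t d) {δ : ℝ} (hδ : 0 < δ) (v : P) {w : ℂ} (hw : δ < w.re) :
    ‖gv q t v w‖ ≤ 2 * (q v : ℝ) ^ (-(1 + δ)) + 4 * (q v : ℝ) ^ (-(3 / 2) : ℝ) := by
  have h5 := N.five v
  have hq0 := N.q0 v
  have hq1 := N.q1 v
  have h1 := N.gv_main v (w := w) (by linarith)
  have hX := xq_norm (n := q v) (by omega) w
  have hX1 := xq_le (n := q v) (by omega) (w := w) (by linarith)
  have h2 : ‖(m2 (t v) (dn (q v)) * (xq (q v) w - xq (q v) w ^ 2) : ℂ)‖ ≤ 2 * (q v : ℝ) ^ (-(1 + δ)) := by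
    rw [norm_mul, Complex.norm_real, Real.norm_eq_abs]
    have e2 : ‖xq (q v) w‖ ≤ (q v : ℝ) ^ (-δ) := by
      rw [hX]
      exact Real.rpow_le_rpow_of_exponent_le hq1 (by linarith)
    have e1 : ‖xq (q v) w - xq (q v) w ^ 2‖ ≤ 2 * (q v : ℝ) ^ (-δ) := by
      refine (norm_sub_le _ _).trans ?_
      rw [norm_pow]
      nlinarith [norm_nonneg (xq (q v) w)]
    have e3 : (q v : ℝ) ^ (-(1 + δ)) = (q v : ℝ)⁻¹ * (q v : ℝ) ^ (-δ) := by
      rw [show (-(1 + δ) : ℝ) = -1 + -δ by ring, Real.rpow_add hq0, Real.rpow_neg_one]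
    rw [e3]
    calc |m2 (t v) (dn (q v))| * ‖xq (q v) w - xq (q v) w ^ 2‖ ≤ (q v : ℝ)⁻¹ * (2 * (q v : ℝ) ^ (-δ)) :=
          mul_le_mul (N.m_le v) e1 (norm_nonneg _) (by positivity)
      _ = _ := by ring
  have h3 : ‖gv q t v w‖ ≤ ‖gv q t v w - m2 (t v) (dn (q v)) * (xq (q v) w - xq (q v) w ^ 2)‖ +
      ‖(m2 (t v) (dn (q v)) * (xq (q v) w - xq (q v) w ^ 2) : ℂ)‖ := by
    have := norm_add_le (gv q t v w - m2 (t v) (dn (q v)) * (xq (q v) w - xq (q v) w ^ 2))
      (m2 (t v) (dn (q v)) * (xq (q v) w - xq (q v) w ^ 2))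
    rwa [sub_add_cancel] at this
  linarith

theorem NS.gv_bound (N : NS q t d) {δ : ℝ} (hδ : 0 < δ) :
    Summable fun v => 2 * (q v : ℝ) ^ (-(1 + δ)) + 4 * (q v : ℝ) ^ (-(3 / 2) : ℝ) :=
  ((N.sum_pow (by linarith)).mul_left 2).add ((N.sum_pow (by norm_num)).mul_left 4)

theorem NS.gv_summable (N : NS q t d) {w : ℂ} (hw : 0 < w.re) : Summable fun v => gv q t v w :=
  Summable.of_norm_bounded (N.gv_bound (half_pos hw)) fun v => N.gv_norm (half_pos hw) v (by linarith)

theorem NS.gv_diff (N : NS q t d) (v : P) {w : ℂ} (hw : 0 < w.re) :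
    DifferentiableAt ℂ (gv q t v) w := by
  have h5 := N.five v
  have hx : DifferentiableAt ℂ (xq (q v)) w := by
    unfold xq
    fun_prop
  unfold gv g2
  exact (hx.const_mul _).sub (lf_diff (dn_nonneg _) (by have := dn_le h5; linarith) (N.hasse v) hx
    (xq_le (by omega) hw.le))

theorem NS.Gn_diff (N : NS q t d) : DifferentiableOn ℂ (Gn q t) {w | 0 < w.re} := by
  intro w hw
  have hw' : 0 < w.re := hw
  have hopen := re_open (w.re / 2)
  have hd : DifferentiableOn ℂ (Gn q t) {z : ℂ | w.re / 2 < z.re} := by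
    refine Complex.differentiableOn_tsum_of_summable_norm (N.gv_bound (half_pos hw')) ?_ hopen ?_
    · intro v z hz
      have hz' : w.re / 2 < z.re := hz
      exact (N.gv_diff v (by linarith)).differentiableWithinAt
    · intro v z hz
      exact N.gv_norm (half_pos hw') v hz
  exact (hd.differentiableAt (hopen.mem_nhds (by show w.re / 2 < w.re; linarith))).differentiableWithinAt

theorem NS.Gn_bound (N : NS q t d) (M : ℝ) : ∃ C : ℝ, ∀ w : ℂ, 0 < w.re → ‖w‖ ≤ 1 →
    ‖w‖ ≤ M * w.re → ‖Gn q t w‖ ≤ C := by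
  obtain ⟨C, σ₀, hσ₀, hC⟩ := N.lg
  set δ := σ₀ / 2 with hδ
  have hδ0 : 0 < δ := by positivity
  set B1 : ℝ := ∑' v, 4 * (q v : ℝ) ^ (-(3 / 2) : ℝ) with hB1
  set B2 : ℝ := ∑' v, (2 * (q v : ℝ) ^ (-(1 + δ)) + 4 * (q v : ℝ) ^ (-(3 / 2) : ℝ)) with hB2
  refine ⟨max (|M| * C + B1) B2, fun w hw _ hwM => ?_⟩
  by_cases hc : δ < w.re
  · refine le_max_of_le_right ?_
    unfold Gn
    exact tsum_of_norm_bounded (N.gv_bound hδ0).hasSum fun v => N.gv_norm hδ0 v hc
  · refine le_max_of_le_left ?_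
    push Not at hc
    obtain ⟨hs, hle⟩ := hC w.re hw (by linarith)
    have hf1 : Summable fun v => ‖w‖ * (Real.log (q v) * (q v : ℝ) ^ (-(1 + w.re))) := hs.mul_left ‖w‖
    have hg1 : Summable fun v => 4 * (q v : ℝ) ^ (-(3 / 2) : ℝ) := (N.sum_pow (by norm_num)).mul_left 4
    have hb : ∀ v, ‖gv q t v w‖ ≤ ‖w‖ * (Real.log (q v) * (q v : ℝ) ^ (-(1 + w.re))) +
        4 * (q v : ℝ) ^ (-(3 / 2) : ℝ) := by
      intro v
      have h5 := N.five v
      have hq0 := N.q0 v
      have h4 := N.gv_main v (w := w) hw.le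
      have hlog := (N.lq v).le
      have h6 : ‖(m2 (t v) (dn (q v)) * (xq (q v) w - xq (q v) w ^ 2) : ℂ)‖ ≤
          ‖w‖ * (Real.log (q v) * (q v : ℝ) ^ (-(1 + w.re))) := by
        have e1 : ‖1 - xq (q v) w‖ ≤ ‖w‖ * Real.log (q v) := by
          unfold xq
          rw [norm_sub_rev]
          refine (norm_exp_sub_one_le_of_re ?_).trans (le_of_eq ?_)
          · have : (-(w * Real.log (q v))).re = -(w.re * Real.log (q v)) := by
              rw [Complex.neg_re, Complex.re_mul_ofReal]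
            rw [this]
            have := mul_nonneg hw.le hlog
            linarith
          · rw [norm_neg, norm_mul, Complex.norm_real, Real.norm_eq_abs, abs_of_nonneg hlog]
        have e2 : (m2 (t v) (dn (q v)) * (xq (q v) w - xq (q v) w ^ 2) : ℂ) =
            m2 (t v) (dn (q v)) * (xq (q v) w * (1 - xq (q v) w)) := by ring
        rw [e2, norm_mul, norm_mul, Complex.norm_real, Real.norm_eq_abs, xq_norm (by omega)]
        have e3 : (q v : ℝ) ^ (-(1 + w.re)) = (q v : ℝ)⁻¹ * (q v : ℝ) ^ (-w.re) := by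
          rw [show (-(1 + w.re) : ℝ) = -1 + -w.re by ring, Real.rpow_add hq0, Real.rpow_neg_one]
        rw [e3]
        calc |m2 (t v) (dn (q v))| * ((q v : ℝ) ^ (-w.re) * ‖1 - xq (q v) w‖) ≤
            (q v : ℝ)⁻¹ * ((q v : ℝ) ^ (-w.re) * (‖w‖ * Real.log (q v))) := by
              have := N.m_le v
              gcongr
          _ = _ := by ring
      have h8 : ‖gv q t v w‖ ≤ ‖gv q t v w - m2 (t v) (dn (q v)) * (xq (q v) w - xq (q v) w ^ 2)‖ +
          ‖(m2 (t v) (dn (q v)) * (xq (q v) w - xq (q v) w ^ 2) : ℂ)‖ := by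
        have := norm_add_le (gv q t v w - m2 (t v) (dn (q v)) * (xq (q v) w - xq (q v) w ^ 2))
          (m2 (t v) (dn (q v)) * (xq (q v) w - xq (q v) w ^ 2))
        rwa [sub_add_cancel] at this
      linarith
    have h9 : ‖Gn q t w‖ ≤ ∑' v, (‖w‖ * (Real.log (q v) * (q v : ℝ) ^ (-(1 + w.re))) +
        4 * (q v : ℝ) ^ (-(3 / 2) : ℝ)) := by
      unfold Gn
      exact tsum_of_norm_bounded (hf1.add hg1).hasSum hb
    rw [hf1.tsum_add hg1, tsum_mul_left] at h9
    have h11 : 0 ≤ ∑' v, Real.log (q v) * (q v : ℝ) ^ (-(1 + w.re)) := by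
      refine tsum_nonneg fun v => ?_
      have := (N.lq v).le
      positivity
    have h10 : ‖w‖ * ∑' v, Real.log (q v) * (q v : ℝ) ^ (-(1 + w.re)) ≤ |M| * C := by
      calc _ ≤ (|M| * w.re) * ∑' v, Real.log (q v) * (q v : ℝ) ^ (-(1 + w.re)) := by
            refine mul_le_mul_of_nonneg_right ?_ h11
            exact hwM.trans (mul_le_mul_of_nonneg_right (le_abs_self M) hw.le)
        _ = |M| * (w.re * ∑' v, Real.log (q v) * (q v : ℝ) ^ (-(1 + w.re))) := by ring
        _ ≤ |M| * C := mul_le_mul_of_nonneg_left hle (abs_nonneg _)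
    linarith

/-! ### The Dirichlet series and the Euler product -/

theorem NS.term_le (N : NS q t d) (v : P) (w : ℂ) :
    ‖(cv q t v : ℂ) * xq (q v) w‖ ≤ 3 * (q v : ℝ) ^ (-(1 / 2 + w.re)) := by
  have h5 := N.five v
  rw [norm_mul, Complex.norm_real, Real.norm_eq_abs, xq_norm (by omega)]
  have h2 : (q v : ℝ) ^ (-(1 / 2 + w.re)) = dn (q v) * (q v : ℝ) ^ (-w.re) := by
    unfold dn
    rw [← Real.rpow_add (N.q0 v)]
    congr 1
    ring
  rw [h2, ← mul_assoc]
  exact mul_le_mul_of_nonneg_right (N.cv_le v) (by positivity)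

theorem NS.term_summable (N : NS q t d) {w : ℂ} (hw : 1 / 2 < w.re) :
    Summable fun v => (cv q t v : ℂ) * xq (q v) w :=
  Summable.of_norm_bounded ((N.sum_pow (by linarith)).mul_left 3) fun v => N.term_le v w

/-- the local Euler factor as a function of `w = s - 1` -/
noncomputable def Ev (q : P → ℕ) (t : P → ℝ) (v : P) (w : ℂ) : ℂ :=
  (1 - t v * xq (q v) w + (q v : ℂ)⁻¹ * xq (q v) w ^ 2)⁻¹

/-- the Euler product -/
noncomputable def En (q : P → ℕ) (t : P → ℝ) (w : ℂ) : ℂ := ∏' v, Ev q t v w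

theorem NS.ser_eq (N : NS q t d) {w : ℂ} (hw : 1 / 2 < w.re) :
    ser (fun n : ℕ => Real.log n) (cn q t) w = ∑' v, (cv q t v : ℂ) * xq (q v) w := by
  have h := N.fiber_sum (h := fun n => xq n w) (N.term_summable hw)
  unfold ser
  exact h.tsum_eq

theorem NS.hasProd (N : NS q t d) {w : ℂ} (hw : 1 / 2 < w.re) :
    HasProd (fun v => Ev q t v w)
      (exp (Gn q t w - ser (fun n : ℕ => Real.log n) (cn q t) w)) := by
  have h2 : HasSum (fun v => gv q t v w) (Gn q t w) := (N.gv_summable (by linarith)).hasSum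
  have h3 := h2.sub (N.term_summable hw).hasSum
  rw [← N.ser_eq hw] at h3
  have h4 : (fun v => gv q t v w - (cv q t v : ℂ) * xq (q v) w) =
      fun v => -lf (t v) (dn (q v)) (xq (q v) w) := by
    funext v
    unfold gv g2 cv
    ring
  rw [h4] at h3
  have h5 := h3.cexp
  have h6 : (Complex.exp ∘ fun v => -lf (t v) (dn (q v)) (xq (q v) w)) = fun v => Ev q t v w := by
    funext v
    have h7 := N.five v
    simp only [Function.comp_apply]
    rw [Complex.exp_neg, exp_lf (dn_nonneg _) (by have := dn_le h7; linarith) (N.hasse v)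
      (xq_le (by omega) (by linarith))]
    unfold Ev
    have e : ((dn (q v) : ℝ) : ℂ) ^ 2 = (q v : ℂ)⁻¹ := by
      rw [← Complex.ofReal_pow, dn_sq]
      push_cast
      rfl
    rw [e]
  rw [h6] at h5
  exact h5

theorem NS.En_eq (N : NS q t d) {w : ℂ} (hw : 1 / 2 < w.re) :
    exp (Gn q t w - ser (fun n : ℕ => Real.log n) (cn q t) w) = En q t w :=
  (N.hasProd hw).tprod_eq.symm

theorem NS.cn_term (N : NS q t d) (n : ℕ) (w : ℂ) :
    ‖(cn q t n : ℂ) * exp (-(w * Real.log n))‖ ≤ (3 * d) * (n : ℝ) ^ (-(1 / 2 + w.re)) := by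
  rcases Nat.eq_zero_or_pos n with h0 | h0
  · rw [N.cn_small (by omega), Complex.ofReal_zero, zero_mul, norm_zero]
    positivity
  · have e := xq_norm h0 w
    unfold xq at e
    rw [norm_mul, Complex.norm_real, Real.norm_eq_abs, e]
    have h2 : (n : ℝ) ^ (-(1 / 2 + w.re)) = dn n * (n : ℝ) ^ (-w.re) := by
      unfold dn
      rw [← Real.rpow_add (by exact_mod_cast h0)]
      congr 1
      ring
    rw [h2, ← mul_assoc]
    refine mul_le_mul_of_nonneg_right ((N.cn_le n).trans (le_of_eq ?_)) (by positivity)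
    ring

theorem NS.ser_diff (N : NS q t d) : DifferentiableOn ℂ (ser (fun n : ℕ => Real.log n) (cn q t))
    {w | 1 / 2 < w.re} := by
  intro w hw
  have hw' : 1 / 2 < w.re := hw
  obtain ⟨s, hs1, hs2⟩ := exists_between hw'
  have hopen : IsOpen {z : ℂ | s < z.re} := re_open s
  have h1 : DifferentiableOn ℂ (ser (fun n : ℕ => Real.log n) (cn q t)) {z : ℂ | s < z.re} := by
    unfold ser
    refine Complex.differentiableOn_tsum_of_summable_norm
      ((Real.summable_nat_rpow.mpr (by linarith : -(1 / 2 + s) < -1)).mul_left (3 * d : ℝ)) (fun i => ?_)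
      hopen (fun n z hz => ?_)
    · exact Differentiable.differentiableOn (by fun_prop)
    · refine (N.cn_term n z).trans ?_
      have hz' : s < z.re := hz
      rcases Nat.eq_zero_or_pos n with h0 | h0
      · subst h0
        rw [Nat.cast_zero, Real.zero_rpow (by linarith), Real.zero_rpow (by linarith)]
      · refine mul_le_mul_of_nonneg_left ?_ (by positivity)
        exact Real.rpow_le_rpow_of_exponent_le (by exact_mod_cast h0) (by linarith)
  exact (h1.differentiableAt (hopen.mem_nhds hs2)).differentiableWithinAt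

theorem NS.sys (N : NS q t d) : Sys (fun n : ℕ => Real.log n) (cn q t) where
  nonneg := fun n => Real.log_natCast_nonneg n
  low := fun n h => by
    have : 5 ≤ n := by
      by_contra hc
      exact h (N.cn_small (by omega))
    apply Real.log_pos
    exact_mod_cast (by omega : 1 < n)
  sum := by
    refine Summable.of_nonneg_of_le (fun n => by positivity) (fun n => ?_)
      ((Real.summable_nat_rpow.mpr (by norm_num : -(1 / 2 + (2:ℝ)) < -1)).mul_left (3 * d : ℝ))
    have h1 := N.cn_term n 2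
    rw [norm_mul, Complex.norm_real, Real.norm_eq_abs, Complex.norm_exp] at h1
    have e : (-((2:ℂ) * Real.log n)).re = -(2 * Real.log n) := by
      rw [Complex.neg_re, Complex.re_mul_ofReal]
      simp
    rw [e] at h1
    exact h1

/-- **the data of the Euler product** -/
theorem NS.esys (N : NS q t d) :
    ESys (fun n : ℕ => Real.log n) (cn q t) (Gn q t) (En q t) (1 / 2) where
  sys := N.sys
  hσ := by norm_num
  sd := N.ser_diff
  Gd := N.Gn_diff
  Gb := N.Gn_bound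
  eq := fun _ hw => N.En_eq hw

end Pool.Agent.D0H40.CX
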