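import Pool.Agent.D0H40.CX.Norms

/-! The finite sums over the primes of norm at most `X`. -/

set_option autoImplicit false

namespace Pool.Agent.D0H40.CX

open Complex MeasureTheory Filter Topology Set
open Pool.Agent.D0H40.KX
open Pool.Agent.W189.ML (ser)
open scoped ComplexConjugate

variable {P : Type} {q : P → ℕ} {t : P → ℝ} {d : ℕ} {k : ℝ}

/-- the finite sum -/
noncomputable def Wn (q : P → ℕ) (t : P → ℝ) (k τ X : ℝ) : ℂ :=
  ∑' v, if (q v : ℝ) ≤ X then (cv q t v : ℂ) * EE k (kap k τ (Real.log X)) (Real.log (q v)) else 0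

theorem EE_tail (hk : 1 < k) (τ : ℝ) {X : ℝ} (hX : 1 < X) {n : ℕ} (hn : ⌊X⌋₊ + 1 ≤ n) :
    ‖EE k (kap k τ (Real.log X)) (Real.log n)‖ ≤ X ^ (k - 1) * ((n : ℝ)) ^ (-k) := by
  have hL : 0 < Real.log X := Real.log_pos hX
  have hX0 : 0 < X := by linarith
  have hXp : X < n := (Nat.lt_floor_add_one X).trans_le (by exact_mod_cast hn)
  have hp0 : (0:ℝ) < n := hX0.trans hXp
  set L := Real.log X with hLd
  set u := Real.log (n : ℝ) with hu
  have hu0 : 0 < u := Real.log_pos (by linarith)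
  rw [EE_norm, kap_re]
  have h0 : L + k * (u - L) ≤ (L ^ (k - 1))⁻¹ * u ^ k := by
    have h1 := one_add_mul_self_le_rpow_one_add (s := u / L - 1) (p := k) (by
      have : 0 < u / L := by positivity
      linarith) hk.le
    rw [add_sub_cancel, Real.div_rpow hu0.le hL.le] at h1
    have h2 := mul_le_mul_of_nonneg_left h1 hL.le
    have e1 : L * (1 + k * (u / L - 1)) = L + k * (u - L) := by field_simp
    have e2 : L * (u ^ k / L ^ k) = (L ^ (k - 1))⁻¹ * u ^ k := by
      rw [pow_split (k := k) hL]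
      have : 0 < L ^ (k - 1) := Real.rpow_pos_of_pos hL _
      field_simp
    rw [e1, e2] at h2
    exact h2
  have h2 : Real.exp ((k - 1) * L + -k * u) = X ^ (k - 1) * ((n : ℝ)) ^ (-k) := by
    rw [Real.exp_add, Real.rpow_def_of_pos hX0, Real.rpow_def_of_pos hp0, mul_comm (k - 1), mul_comm (-k)]
  rw [← h2]
  apply Real.exp_le_exp.2
  linarith

theorem NS.le_finite (N : NS q t d) (X : ℝ) : {v | (q v : ℝ) ≤ X}.Finite := by
  have h1 : {v | (q v : ℝ) ≤ X} ⊆ ⋃ n ∈ Finset.range (⌊X⌋₊ + 1), q ⁻¹' {n} := by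
    intro v hv
    have hv' : (q v : ℝ) ≤ X := hv
    have h2 : q v ≤ ⌊X⌋₊ := Nat.le_floor hv'
    simp only [mem_iUnion]
    exact ⟨q v, Finset.mem_range.2 (by omega), rfl⟩
  exact (Set.Finite.biUnion (Finset.range (⌊X⌋₊ + 1)).finite_toSet fun n _ => N.fiber_finite n).subset h1

theorem NS.Wn_eq (N : NS q t d) (k τ : ℝ) {X : ℝ} (hX : 0 ≤ X) : Wn q t k τ X =
    ∑ n ∈ Finset.range (⌊X⌋₊ + 1), (cn q t n : ℂ) * EE k (kap k τ (Real.log X)) (Real.log n) := by
  set h : ℕ → ℂ := fun n => if (n : ℝ) ≤ X then EE k (kap k τ (Real.log X)) (Real.log n) else 0 with hh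
  have e : (fun v => if (q v : ℝ) ≤ X then (cv q t v : ℂ) * EE k (kap k τ (Real.log X)) (Real.log (q v))
      else 0) = fun v => (cv q t v : ℂ) * h (q v) := by
    funext v
    rw [hh]
    simp only
    split_ifs
    · rfl
    · rw [mul_zero]
  have hs : Summable fun v => (cv q t v : ℂ) * h (q v) := by
    refine summable_of_finite_support ((N.le_finite X).subset fun v hv => ?_)
    by_contra hc
    apply hv
    have hc' : ¬ (q v : ℝ) ≤ X := hc
    simp only [hh, if_neg hc', mul_zero]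
  have h1 := N.fiber_sum hs
  unfold Wn
  rw [e, ← h1.tsum_eq, tsum_eq_sum (s := Finset.range (⌊X⌋₊ + 1))]
  · refine Finset.sum_congr rfl fun n hn => ?_
    have h2 : (n : ℝ) ≤ X := (Nat.le_floor_iff hX).1 (by have := Finset.mem_range.1 hn; omega)
    simp only [hh, if_pos h2]
  · intro n hn
    have h2 : ¬ (n : ℝ) ≤ X := fun hc => hn (Finset.mem_range.2 (by
      have := Nat.le_floor hc
      omega))
    simp only [hh, if_neg h2, mul_zero]

/-- the truncation -/
theorem NS.trunc (N : NS q t d) (hk : 1 < k) (τ : ℝ) {X : ℝ} (hX : 1 < X) :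
    ‖Wn q t k τ X - fk (fun n : ℕ => Real.log n) (cn q t) k (kap k τ (Real.log X))‖ ≤
      (3 * d) * (2 ^ (k - 1) / (k - 1)) := by
  have hL : 0 < Real.log X := Real.log_pos hX
  have hs : Summable fun n : ℕ => (cn q t n : ℂ) * EE k (kap k τ (Real.log X)) (Real.log n) :=
    (N.sys.term_summable hk (kap_pos k τ hL)).of_norm
  rw [N.Wn_eq k τ (by linarith), norm_sub_rev]
  set M := ⌊X⌋₊ + 1 with hM
  have e1 : fk (fun n : ℕ => Real.log n) (cn q t) k (kap k τ (Real.log X)) =
      ∑' n, (cn q t n : ℂ) * EE k (kap k τ (Real.log X)) (Real.log n) := rfl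
  rw [e1, ← hs.sum_add_tsum_compl (s := Finset.range M), add_sub_cancel_left]
  set h : ℕ → ℝ := fun n => if n < M then 0 else X ^ (k - 1) * ((n : ℝ)) ^ (-k) with hh
  have hX0 : 0 < X := by linarith
  have h0 : ∀ n, 0 ≤ h n := by
    intro n
    rw [hh]
    simp only
    split_ifs
    · exact le_rfl
    · positivity
  have hb : ∀ n, ∑ i ∈ Finset.range n, h i ≤ 2 ^ (k - 1) / (k - 1) := tail_pw hk hX.le h0
    (fun n hn => by rw [hh]; simp only; rw [if_pos hn])
    (fun n hn => by
      rw [hh]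
      simp only
      rw [if_neg (by omega)])
  have hsum : Summable h := summable_of_sum_range_le h0 hb
  have hle : ∑' n, h n ≤ 2 ^ (k - 1) / (k - 1) := Real.tsum_le_of_sum_range_le h0 hb
  have hle2 : (3 * d : ℝ) * ∑' n, h n ≤ (3 * d) * (2 ^ (k - 1) / (k - 1)) :=
    mul_le_mul_of_nonneg_left hle (by positivity)
  refine le_trans ?_ hle2
  rw [← tsum_mul_left, tsum_subtype ((Finset.range M : Set ℕ)ᶜ)
    (fun n : ℕ => (cn q t n : ℂ) * EE k (kap k τ (Real.log X)) (Real.log n))]
  refine tsum_of_norm_bounded (hsum.mul_left (3 * d : ℝ)).hasSum fun i => ?_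
  by_cases hi : i < M
  · have : i ∉ ((Finset.range M : Set ℕ)ᶜ) := by simpa using hi
    rw [indicator_of_notMem this, norm_zero]
    have := h0 i
    positivity
  · have : i ∈ ((Finset.range M : Set ℕ)ᶜ) := by simpa using hi
    rw [indicator_of_mem this, hh]
    simp only
    rw [if_neg hi, norm_mul, Complex.norm_real, Real.norm_eq_abs]
    have h1 := EE_tail hk τ hX (n := i) (by omega)
    have h2 : |cn q t i| ≤ 3 * d := by
      refine (N.cn_le i).trans ?_
      have h3 : dn i ≤ 1 := by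
        unfold dn
        refine Real.rpow_le_one_of_one_le_of_nonpos ?_ (by norm_num)
        exact_mod_cast (by omega : 1 ≤ i)
      calc (d : ℝ) * (3 * dn i) ≤ d * (3 * 1) := by gcongr
        _ = 3 * d := by ring
    exact mul_le_mul h2 h1 (norm_nonneg _) (by positivity)

/-- **All the data.** -/
theorem NS.data (N : NS q t d) : Data (Wn q t) (fun n : ℕ => Real.log n) (cn q t) (Gn q t) (En q t)
    (1 / 2) where
  S := N.esys
  tr := fun k hk => ⟨(3 * d) * (2 ^ (k - 1) / (k - 1)), fun τ _ hX => N.trunc hk τ hX⟩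

end Pool.Agent.D0H40.CX
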