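import Mathlib

/-! Differentiability of parameter integrals of holomorphic functions. -/

set_option autoImplicit false

namespace Pool.Agent.D0H40.CX

open Complex MeasureTheory Filter Topology Set

theorem diff_param {α : Type*} [MeasurableSpace α] {μ : Measure α} {F : ℂ → α → ℂ} {w0 : ℂ} {r : ℝ}
    (hr : 0 < r) (hF : ∀ᵐ a ∂μ, ∀ w ∈ Metric.ball w0 r, DifferentiableAt ℂ (fun w => F w a) w)
    (hm : ∀ w ∈ Metric.ball w0 r, AEStronglyMeasurable (F w) μ) {g : α → ℝ} (hg : Integrable g μ)
    (hb : ∀ᵐ a ∂μ, ∀ w ∈ Metric.ball w0 r, ‖F w a‖ ≤ g a) :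
    DifferentiableAt ℂ (fun w => ∫ a, F w a ∂μ) w0 := by
  have hw0 : w0 ∈ Metric.ball w0 r := Metric.mem_ball_self hr
  have hmeas : AEStronglyMeasurable (fun a => deriv (fun w => F w a) w0) μ := by
    set t : ℕ → ℝ := fun n => r / 2 / (n + 1) with ht
    have ht0 : ∀ n, 0 < t n := fun n => by rw [ht]; positivity
    have htr : ∀ n, t n < r := fun n => by
      rw [ht]
      simp only
      have h1 : r / 2 / ((n : ℝ) + 1) ≤ r / 2 := div_le_self (by positivity) (by
        have : (0:ℝ) ≤ n := Nat.cast_nonneg n
        linarith)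
      linarith
    have htz : Tendsto t atTop (𝓝 0) := by
      have h1 := tendsto_one_div_add_atTop_nhds_zero_nat (𝕜 := ℝ)
      have h2 := h1.const_mul (r / 2)
      rw [mul_zero] at h2
      refine h2.congr fun n => ?_
      rw [ht]
      simp only
      ring
    refine aestronglyMeasurable_of_tendsto_ae atTop
      (f := fun (n : ℕ) a => ((t n : ℝ) : ℂ)⁻¹ * (F (w0 + t n) a - F w0 a)) (fun n => ?_) ?_
    · refine AEStronglyMeasurable.const_mul ?_ _
      refine (hm _ ?_).sub (hm _ hw0)
      rw [Metric.mem_ball, dist_eq_norm, add_sub_cancel_left, Complex.norm_real,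
        Real.norm_of_nonneg (ht0 n).le]
      exact htr n
    · filter_upwards [hF] with a ha
      have h1 := (ha w0 hw0).hasDerivAt.tendsto_slope_zero
      have h2 : Tendsto (fun n : ℕ => ((t n : ℝ) : ℂ)) atTop (𝓝[≠] 0) := by
        rw [tendsto_nhdsWithin_iff]
        refine ⟨?_, Eventually.of_forall fun n => ?_⟩
        · have h5 := (Complex.continuous_ofReal.tendsto 0).comp htz
          rw [Complex.ofReal_zero] at h5
          exact h5
        · have h6 := (ht0 n).ne'
          simpa using h6
      have h3 := h1.comp h2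
      refine h3.congr fun n => ?_
      simp only [Function.comp_apply, smul_eq_mul]
  refine (hasDerivAt_integral_of_dominated_loc_of_deriv_le (F := F)
    (F' := fun w a => deriv (fun w => F w a) w) (s := Metric.ball w0 (r / 2))
    (bound := fun a => g a / (r / 4)) (Metric.ball_mem_nhds _ (by positivity)) ?_ ?_ hmeas ?_
    (hg.div_const _) ?_).2.differentiableAt
  · filter_upwards [Metric.ball_mem_nhds w0 hr] with w hw
    exact hm w hw
  · exact hg.mono' (hm w0 hw0) (hb.mono fun a ha => ha w0 hw0)
  · filter_upwards [hF, hb] with a h1 h2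
    intro w hw
    rw [Metric.mem_ball] at hw
    have hsub : ∀ v : ℂ, dist v w ≤ r / 4 → v ∈ Metric.ball w0 r := by
      intro v hv
      rw [Metric.mem_ball]
      have := dist_triangle v w w0
      linarith
    refine Complex.norm_deriv_le_of_forall_mem_sphere_norm_le (by positivity) ?_ fun v hv => ?_
    · refine DifferentiableOn.diffContOnCl fun v hv => ?_
      rw [closure_ball _ (by positivity)] at hv
      exact (h1 v (hsub v hv)).differentiableWithinAt
    · exact h2 v (hsub v (le_of_eq hv))
  · filter_upwards [hF] with a h1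
    intro w hw
    rw [Metric.mem_ball] at hw
    refine (h1 w ?_).hasDerivAt
    rw [Metric.mem_ball]
    linarith

end Pool.Agent.D0H40.CX
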