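import Pool.Agent.D0H40.CX.Basic

/-! Stable densities with a complex parameter: the inverse Laplace integral of `exp (-z s^a)`. -/

set_option autoImplicit false

namespace Pool.Agent.D0H40.CX

open Complex MeasureTheory Filter Topology Set
open Pool.Agent.D0H40.KX

variable {k : ℝ}

/-- moving a vertical line -/
theorem vshift {g : ℂ → ℂ} {x1 x2 : ℝ} (h12 : x1 ≤ x2)
    (hd : ∀ s : ℂ, x1 ≤ s.re → s.re ≤ x2 → DifferentiableAt ℂ g s) {bd : ℝ → ℝ} (hi : Integrable bd)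
    (h0 : Tendsto bd atTop (𝓝 0)) (h0' : Tendsto bd atBot (𝓝 0))
    (hb : ∀ x t : ℝ, x1 ≤ x → x ≤ x2 → ‖g (x + t * I)‖ ≤ bd t) :
    ∫ t : ℝ, g (x1 + t * I) = ∫ t : ℝ, g (x2 + t * I) := by
  have hc : ∀ x : ℝ, x1 ≤ x → x ≤ x2 → Continuous fun t : ℝ => g (x + t * I) := by
    intro x hx1 hx2
    rw [continuous_iff_continuousAt]
    intro t
    have h1 : ContinuousAt g (x + t * I) := (hd _ (by simpa using hx1) (by simpa using hx2)).continuousAt
    exact ContinuousAt.comp (f := fun t : ℝ => (x + t * I : ℂ)) h1 (by fun_prop)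
  have hint : ∀ x : ℝ, x1 ≤ x → x ≤ x2 → Integrable fun t : ℝ => g (x + t * I) := fun x hx1 hx2 =>
    hi.mono' (hc x hx1 hx2).aestronglyMeasurable (Eventually.of_forall fun t => hb x t hx1 hx2)
  have hT1 := intervalIntegral_tendsto_integral (hint x1 le_rfl h12) tendsto_neg_atTop_atBot tendsto_id
  have hT2 := intervalIntegral_tendsto_integral (hint x2 h12 le_rfl) tendsto_neg_atTop_atBot tendsto_id
  have hdiff := hT2.sub hT1
  have hz : Tendsto (fun T : ℝ => (∫ t in (-T)..T, g (x2 + t * I)) - ∫ t in (-T)..T, g (x1 + t * I))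
      atTop (𝓝 0) := by
    have hbz : Tendsto (fun T : ℝ => (bd (-T) + bd T) * (x2 - x1)) atTop (𝓝 0) := by
      have := ((h0'.comp tendsto_neg_atTop_atBot).add h0).mul_const (x2 - x1)
      simpa using this
    refine squeeze_zero_norm' ?_ hbz
    filter_upwards [eventually_gt_atTop 0] with T hT
    have hr := Complex.integral_boundary_rect_eq_zero_of_differentiableOn g (x1 - T * I) (x2 + T * I) (by
      intro s hs
      refine (hd s ?_ ?_).differentiableWithinAt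
      · have := hs.1
        simp only [sub_re, ofReal_re, mul_re, I_re, mul_zero, ofReal_im, I_im, mul_one, sub_self,
          sub_zero, add_re, add_zero, mem_preimage, uIcc_of_le h12] at this
        exact this.1
      · have := hs.1
        simp only [sub_re, ofReal_re, mul_re, I_re, mul_zero, ofReal_im, I_im, mul_one, sub_self,
          sub_zero, add_re, add_zero, mem_preimage, uIcc_of_le h12] at this
        exact this.2)
    simp only [sub_re, ofReal_re, mul_re, I_re, mul_zero, ofReal_im, I_im, mul_one, sub_self,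
      sub_zero, add_re, add_zero, sub_im, mul_im, zero_add, zero_sub, add_im, smul_eq_mul] at hr
    have e : (∫ t in (-T)..T, g (x2 + t * I)) - ∫ t in (-T)..T, g (x1 + t * I) =
        I * ((∫ x in x1..x2, g (x + (-T : ℝ) * I)) - ∫ x in x1..x2, g (x + T * I)) := by
      have hI : I * I = -1 := Complex.I_mul_I
      linear_combination (-I) * hr + ((∫ t in (-T)..T, g (x2 + t * I)) -
        ∫ t in (-T)..T, g (x1 + t * I)) * hI
    rw [e, norm_mul, Complex.norm_I, one_mul]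
    have e1 : ‖∫ x in x1..x2, g (x + (-T : ℝ) * I)‖ ≤ bd (-T) * |x2 - x1| := by
      refine intervalIntegral.norm_integral_le_of_norm_le_const fun x hx => ?_
      rw [uIoc_of_le h12] at hx
      exact hb x (-T) hx.1.le hx.2
    have e2 : ‖∫ x in x1..x2, g (x + T * I)‖ ≤ bd T * |x2 - x1| := by
      refine intervalIntegral.norm_integral_le_of_norm_le_const fun x hx => ?_
      rw [uIoc_of_le h12] at hx
      exact hb x T hx.1.le hx.2
    rw [abs_of_nonneg (sub_nonneg.2 h12)] at e1 e2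
    calc _ ≤ ‖∫ x in x1..x2, g (x + (-T : ℝ) * I)‖ + ‖∫ x in x1..x2, g (x + T * I)‖ := norm_sub_le _ _
      _ ≤ _ := by linarith
  have h3 : Tendsto (fun T : ℝ => (∫ t in (-T)..T, g (x2 + t * I)) - ∫ t in (-T)..T, g (x1 + t * I))
      atTop (𝓝 ((∫ t : ℝ, g (x2 + t * I)) - ∫ t : ℝ, g (x1 + t * I))) := hdiff
  have h4 := tendsto_nhds_unique h3 hz
  exact (sub_eq_zero.1 h4).symm

/-- the closed sectors -/
def Cs (φ : ℝ) : Set ℂ := {z | z ≠ 0 ∧ |arg z| ≤ φ}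

theorem cpow_polar {s : ℂ} (hs : s ≠ 0) (a : ℝ) :
    s ^ (a : ℂ) = (‖s‖ ^ a : ℝ) * exp ((a * arg s : ℝ) * I) := by
  rw [Complex.cpow_def_of_ne_zero hs, Complex.log, add_mul, Complex.exp_add]
  congr 1
  · rw [← Complex.ofReal_mul, ← Complex.ofReal_exp, Real.rpow_def_of_pos (norm_pos_iff.2 hs)]
  · congr 1
    push_cast
    ring

theorem mul_cpow_re (z : ℂ) {s : ℂ} (hs : s ≠ 0) (a : ℝ) :
    (z * s ^ (a : ℂ)).re = ‖z‖ * ‖s‖ ^ a * Real.cos (arg z + a * arg s) := by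
  rw [cpow_polar hs]
  have e : z * ((‖s‖ ^ a : ℝ) * exp ((a * arg s : ℝ) * I)) =
      ((‖s‖ ^ a : ℝ) : ℂ) * (z * exp ((a * arg s : ℝ) * I)) := by ring
  rw [e, Complex.re_ofReal_mul, mul_exp_re]
  ring

theorem arg_lt_of_re {s : ℂ} (hs : 0 < s.re) : |arg s| < Real.pi / 2 :=
  Complex.abs_arg_lt_pi_div_two_iff.2 (Or.inl hs)

theorem ne_of_re {s : ℂ} (hs : 0 < s.re) : s ≠ 0 := by
  rintro rfl
  simp at hs

/-- the first lower bound -/
theorem re_ge1 (hk : 1 < k) {z : ℂ} (hz : z ∈ Sk k) {s : ℂ} (hs : 0 < s.re) :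
    B k z * s.re ^ (1 / k) ≤ (z * s ^ ((1 / k : ℝ) : ℂ)).re := by
  have hk0 : 0 < k := by linarith
  rw [mul_cpow_re z (ne_of_re hs)]
  have h1 := arg_lt_of_re hs
  have e1 : k * (1 / k * arg s) = arg s := by field_simp
  have h2 := B_le hk hz (ψ := 1 / k * arg s) (by rwa [e1])
  rw [e1] at h2
  have e2 : s.re ^ (1 / k) = ‖s‖ ^ (1 / k) * Real.cos (arg s) ^ (1 / k) := by
    rw [← Real.mul_rpow (norm_nonneg _) (Real.cos_nonneg_of_mem_Icc ⟨by linarith [(abs_lt.1 h1).1],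
      (abs_lt.1 h1).2.le⟩), Complex.norm_mul_cos_arg]
  rw [e2]
  have h3 : 0 ≤ ‖s‖ ^ (1 / k) := by positivity
  have h4 := mul_le_mul_of_nonneg_left h2 h3
  linarith

/-- the second lower bound -/
theorem re_ge2 (hk : 1 < k) {φ : ℝ} (hφ : φ < fc k) {z : ℂ} (hz : z ∈ Cs φ) {s : ℂ} (hs : 0 < s.re) :
    Real.cos (φ + Real.pi / (2 * k)) * ‖z‖ * ‖s‖ ^ (1 / k) ≤ (z * s ^ ((1 / k : ℝ) : ℂ)).re := by
  have hk0 : 0 < k := by linarith
  have hpi := Real.pi_pos
  rw [mul_cpow_re z (ne_of_re hs)]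
  have h1 := arg_lt_of_re hs
  have h2 : |arg z + 1 / k * arg s| ≤ φ + Real.pi / (2 * k) := by
    refine (abs_add_le _ _).trans (add_le_add hz.2 ?_)
    rw [abs_mul, abs_of_pos (by positivity : (0:ℝ) < 1 / k)]
    have e : Real.pi / (2 * k) = 1 / k * (Real.pi / 2) := by field_simp
    rw [e]
    exact mul_le_mul_of_nonneg_left h1.le (by positivity)
  have h3 : φ + Real.pi / (2 * k) < Real.pi / 2 := by
    have := fc_eq hk
    linarith
  have h4 : Real.cos (φ + Real.pi / (2 * k)) ≤ Real.cos (arg z + 1 / k * arg s) := by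
    rw [← Real.cos_abs (arg z + 1 / k * arg s)]
    exact Real.cos_le_cos_of_nonneg_of_le_pi (abs_nonneg _) (by linarith) h2
  have h5 : 0 ≤ ‖z‖ * ‖s‖ ^ (1 / k) := by positivity
  have := mul_le_mul_of_nonneg_left h4 h5
  linarith

theorem c1_pos (hk : 1 < k) {φ : ℝ} (h0 : 0 ≤ φ) (hφ : φ < fc k) :
    0 < Real.cos (φ + Real.pi / (2 * k)) := by
  have h1 := fc_eq hk
  have h2 : 0 < Real.pi / (2 * k) := by
    have := Real.pi_pos
    have : 0 < k := by linarith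
    positivity
  exact Real.cos_pos_of_mem_Ioo ⟨by linarith [Real.pi_pos], by linarith⟩

theorem Cs_sub (_hk : 1 < k) {φ : ℝ} (hφ : φ < fc k) {z : ℂ} (hz : z ∈ Cs φ) : z ∈ Sk k :=
  ⟨hz.1, hz.2.trans_lt hφ⟩

/-- integrability -/
theorem int_stretch {a c : ℝ} (ha : 0 < a) (hc : 0 < c) : Integrable fun t : ℝ => Real.exp (-(c * |t| ^ a)) := by
  have h1 : IntegrableOn (fun x : ℝ => Real.exp (-(c * |x| ^ a))) (Ioi 0) := by
    refine (integrableOn_rpow_mul_exp_neg_mul_rpow (p := a) (s := 0) (b := c) (by norm_num) ha hc).congr_fun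
      (fun x hx => ?_) measurableSet_Ioi
    have hx0 : 0 < x := hx
    simp only [Real.rpow_zero, one_mul]
    rw [abs_of_pos hx0, neg_mul]
  rw [← integrableOn_univ, ← @Iio_union_Ici _ _ (0 : ℝ), integrableOn_union, integrableOn_Ici_iff_integrableOn_Ioi]
  refine ⟨?_, h1⟩
  rw [← (Measure.measurePreserving_neg (volume : Measure ℝ)).integrableOn_comp_preimage
    (Homeomorph.neg ℝ).measurableEmbedding]
  simp only [Function.comp_def, neg_preimage, neg_Iio, neg_zero, abs_neg]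
  exact h1

theorem tend_stretch {a c : ℝ} (ha : 0 < a) (hc : 0 < c) :
    Tendsto (fun t : ℝ => Real.exp (-(c * |t| ^ a))) atTop (𝓝 0) ∧
      Tendsto (fun t : ℝ => Real.exp (-(c * |t| ^ a))) atBot (𝓝 0) := by
  have h1 : Tendsto (fun t : ℝ => c * t ^ a) atTop atTop :=
    (tendsto_rpow_atTop ha).const_mul_atTop hc
  have h2 : Tendsto (fun t : ℝ => Real.exp (-(c * t ^ a))) atTop (𝓝 0) :=
    Real.tendsto_exp_neg_atTop_nhds_zero.comp h1
  constructor
  · exact h2.comp tendsto_abs_atTop_atTop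
  · exact h2.comp tendsto_abs_atBot_atTop

/-- the function `exp (-z s^(1/k))` -/
noncomputable def hh (k : ℝ) (z s : ℂ) : ℂ := exp (-(z * s ^ ((1 / k : ℝ) : ℂ)))

theorem hh_norm (k : ℝ) (z s : ℂ) : ‖hh k z s‖ = Real.exp (-(z * s ^ ((1 / k : ℝ) : ℂ)).re) := by
  unfold hh
  rw [Complex.norm_exp, Complex.neg_re]

theorem hh_le1 (hk : 1 < k) {z : ℂ} (hz : z ∈ Sk k) {s : ℂ} (hs : 0 < s.re) :
    ‖hh k z s‖ ≤ Real.exp (-(B k z * s.re ^ (1 / k))) := by
  rw [hh_norm]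
  exact Real.exp_le_exp.2 (neg_le_neg (re_ge1 hk hz hs))

theorem im_le_norm_rpow {a : ℝ} (ha : 0 ≤ a) (s : ℂ) : |s.im| ^ a ≤ ‖s‖ ^ a :=
  Real.rpow_le_rpow (abs_nonneg _) (Complex.abs_im_le_norm s) ha

theorem hh_le2 (hk : 1 < k) {φ : ℝ} (h0 : 0 ≤ φ) (hφ : φ < fc k) {z : ℂ} (hz : z ∈ Cs φ) {s : ℂ}
    (hs : 0 < s.re) :
    ‖hh k z s‖ ≤ Real.exp (-(Real.cos (φ + Real.pi / (2 * k)) * ‖z‖ * |s.im| ^ (1 / k))) := by
  rw [hh_norm]
  refine Real.exp_le_exp.2 (neg_le_neg (le_trans ?_ (re_ge2 hk hφ hz hs)))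
  have h1 := c1_pos hk h0 hφ
  exact mul_le_mul_of_nonneg_left (im_le_norm_rpow (inv_k hk).1.le s) (by positivity)

/-- the two bounds together -/
theorem hh_le3 (hk : 1 < k) {φ : ℝ} (h0 : 0 ≤ φ) (hφ : φ < fc k) {z : ℂ} (hz : z ∈ Cs φ) {s : ℂ}
    (hs : 0 < s.re) {δ : ℝ} (hδ0 : 0 ≤ δ) (hδ1 : δ ≤ 1) :
    ‖hh k z s‖ ≤ Real.exp (-((1 - δ) * (B k z * s.re ^ (1 / k)))) *
      Real.exp (-(δ * (Real.cos (φ + Real.pi / (2 * k)) * ‖z‖ * |s.im| ^ (1 / k)))) := by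
  rw [hh_norm, ← Real.exp_add]
  apply Real.exp_le_exp.2
  have h1 := re_ge1 hk (Cs_sub hk hφ hz) hs
  have h2 : Real.cos (φ + Real.pi / (2 * k)) * ‖z‖ * |s.im| ^ (1 / k) ≤
      (z * s ^ ((1 / k : ℝ) : ℂ)).re := by
    refine le_trans ?_ (re_ge2 hk hφ hz hs)
    have h1 := c1_pos hk h0 hφ
    exact mul_le_mul_of_nonneg_left (im_le_norm_rpow (inv_k hk).1.le s) (by positivity)
  have h3 := mul_le_mul_of_nonneg_left h1 (sub_nonneg.2 hδ1)
  have h4 := mul_le_mul_of_nonneg_left h2 hδ0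
  linarith

theorem hh_diff (z : ℂ) {s : ℂ} (hs : 0 < s.re) : DifferentiableAt ℂ (hh k z) s := by
  unfold hh
  have : DifferentiableAt ℂ (fun s : ℂ => s ^ ((1 / k : ℝ) : ℂ)) s :=
    DifferentiableAt.cpow_const differentiableAt_id (Or.inl hs)
  exact (this.const_mul z).neg.cexp

/-- the inverse Laplace integral on the line `Re s = x` -/
noncomputable def JJ (k y x : ℝ) (z : ℂ) : ℂ := ∫ t : ℝ, exp ((x + t * I) * y) * hh k z (x + t * I)

theorem JJ_norm (hk : 1 < k) {φ : ℝ} (h0 : 0 ≤ φ) (hφ : φ < fc k) {z : ℂ} (hz : z ∈ Cs φ)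
    {δ : ℝ} (hδ0 : 0 ≤ δ) (hδ1 : δ ≤ 1) {x : ℝ} (hx : 0 < x) (y t : ℝ) :
    ‖exp ((x + t * I) * y) * hh k z (x + t * I)‖ ≤
      Real.exp (x * y - (1 - δ) * (B k z * x ^ (1 / k))) *
        Real.exp (-(δ * (Real.cos (φ + Real.pi / (2 * k)) * ‖z‖ * |t| ^ (1 / k)))) := by
  have h1 := hh_le3 hk h0 hφ hz (s := x + t * I) (by simpa using hx) hδ0 hδ1
  have e1 : ((x : ℂ) + t * I).re = x := by simp
  have e2 : ((x : ℂ) + t * I).im = t := by simp
  rw [e1, e2] at h1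
  rw [norm_mul, Complex.norm_exp, Complex.re_mul_ofReal, e1]
  calc Real.exp (x * y) * ‖hh k z (x + t * I)‖ ≤ Real.exp (x * y) * _ :=
        mul_le_mul_of_nonneg_left h1 (Real.exp_pos _).le
    _ = _ := by
        rw [← mul_assoc, ← Real.exp_add]
        rfl

theorem JJ_cont (z : ℂ) {x : ℝ} (hx : 0 < x) (y : ℝ) :
    Continuous fun t : ℝ => exp ((x + t * I) * y) * hh k z (x + t * I) := by
  refine Continuous.mul (by fun_prop) ?_
  rw [continuous_iff_continuousAt]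
  intro t
  have h1 : ContinuousAt (hh k z) (x + t * I) := (hh_diff z (by simpa using hx)).continuousAt
  exact ContinuousAt.comp (f := fun t : ℝ => (x + t * I : ℂ)) h1 (by fun_prop)

theorem Cs_pos {φ : ℝ} {z : ℂ} (hz : z ∈ Cs φ) : 0 < ‖z‖ := norm_pos_iff.2 hz.1

theorem JJ_int (hk : 1 < k) {φ : ℝ} (h0 : 0 ≤ φ) (hφ : φ < fc k) {z : ℂ} (hz : z ∈ Cs φ)
    {x : ℝ} (hx : 0 < x) (y : ℝ) :
    Integrable fun t : ℝ => exp ((x + t * I) * y) * hh k z (x + t * I) := by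
  have hc := mul_pos (c1_pos hk h0 hφ) (Cs_pos hz)
  refine Integrable.mono' ((int_stretch (inv_k hk).1 hc).const_mul
    (Real.exp (x * y - (1 - 1) * (B k z * x ^ (1 / k))))) (JJ_cont z hx y).aestronglyMeasurable
    (Eventually.of_forall fun t => ?_)
  have := JJ_norm hk h0 hφ hz (δ := 1) zero_le_one le_rfl hx y t
  rwa [one_mul] at this

/-- the integral does not depend on the line -/
theorem JJ_indep (hk : 1 < k) {φ : ℝ} (h0 : 0 ≤ φ) (hφ : φ < fc k) {z : ℂ} (hz : z ∈ Cs φ)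
    {x1 x2 : ℝ} (h1 : 0 < x1) (h12 : x1 ≤ x2) (y : ℝ) : JJ k y x1 z = JJ k y x2 z := by
  have hc := mul_pos (c1_pos hk h0 hφ) (Cs_pos hz)
  have ht := tend_stretch (inv_k hk).1 hc
  unfold JJ
  refine vshift (g := fun s => exp (s * y) * hh k z s) h12 (fun s hs _ => ?_)
    (bd := fun t => Real.exp (|y| * x2) *
      Real.exp (-(Real.cos (φ + Real.pi / (2 * k)) * ‖z‖ * |t| ^ (1 / k))))
    ((int_stretch (inv_k hk).1 hc).const_mul _) (by simpa using ht.1.const_mul (Real.exp (|y| * x2)))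
    (by simpa using ht.2.const_mul (Real.exp (|y| * x2))) (fun x t hx hx2 => ?_)
  · exact DifferentiableAt.mul (by fun_prop) (hh_diff z (h1.trans_le hs))
  · have hx0 : 0 < x := h1.trans_le hx
    have := JJ_norm hk h0 hφ hz (δ := 1) zero_le_one le_rfl hx0 y t
    rw [one_mul, sub_self, zero_mul, sub_zero] at this
    refine this.trans ?_
    refine mul_le_mul_of_nonneg_right ?_ (Real.exp_pos _).le
    apply Real.exp_le_exp.2
    calc x * y ≤ x * |y| := mul_le_mul_of_nonneg_left (le_abs_self y) hx0.le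
      _ ≤ x2 * |y| := mul_le_mul_of_nonneg_right hx2 (abs_nonneg _)
      _ = _ := mul_comm _ _

theorem JJ_indep' (hk : 1 < k) {φ : ℝ} (h0 : 0 ≤ φ) (hφ : φ < fc k) {z : ℂ} (hz : z ∈ Cs φ)
    {x1 x2 : ℝ} (h1 : 0 < x1) (h2 : 0 < x2) (y : ℝ) : JJ k y x1 z = JJ k y x2 z := by
  rcases le_total x1 x2 with h | h
  · exact JJ_indep hk h0 hφ hz h1 h y
  · exact (JJ_indep hk h0 hφ hz h2 h y).symm

theorem JJ_le (hk : 1 < k) {φ : ℝ} (h0 : 0 ≤ φ) (hφ : φ < fc k) {z : ℂ} (hz : z ∈ Cs φ)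
    {δ : ℝ} (hδ0 : 0 < δ) (hδ1 : δ ≤ 1) {x : ℝ} (hx : 0 < x) (y : ℝ) :
    ‖JJ k y x z‖ ≤ Real.exp (x * y - (1 - δ) * (B k z * x ^ (1 / k))) *
      ∫ t : ℝ, Real.exp (-(δ * (Real.cos (φ + Real.pi / (2 * k)) * ‖z‖ * |t| ^ (1 / k)))) := by
  unfold JJ
  rw [← integral_const_mul]
  have hc := mul_pos hδ0 (mul_pos (c1_pos hk h0 hφ) (Cs_pos hz))
  have hi := int_stretch (inv_k hk).1 hc
  have e : (fun t : ℝ => Real.exp (-(δ * (Real.cos (φ + Real.pi / (2 * k)) * ‖z‖) * |t| ^ (1 / k)))) =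
      fun t : ℝ => Real.exp (-(δ * (Real.cos (φ + Real.pi / (2 * k)) * ‖z‖ * |t| ^ (1 / k)))) := by
    funext t
    rw [mul_assoc δ]
  rw [e] at hi
  exact norm_integral_le_of_norm_le (hi.const_mul _)
    (Eventually.of_forall fun t => JJ_norm hk h0 hφ hz hδ0.le hδ1 hx y t)

/-- on the negative half line the inverse transform is zero -/
theorem JJ_neg (hk : 1 < k) {φ : ℝ} (h0 : 0 ≤ φ) (hφ : φ < fc k) {z : ℂ} (hz : z ∈ Cs φ)
    {x : ℝ} (hx : 0 < x) {y : ℝ} (hy : y ≤ 0) : JJ k y x z = 0 := by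
  have hB := B_pos hk (Cs_sub hk hφ hz)
  set K : ℝ := ∫ t : ℝ, Real.exp (-((1 / 2) * (Real.cos (φ + Real.pi / (2 * k)) * ‖z‖ * |t| ^ (1 / k))))
    with hK
  have hK0 : 0 ≤ K := integral_nonneg fun t => (Real.exp_pos _).le
  have h1 : Tendsto (fun x' : ℝ => Real.exp (-((1 / 2) * (B k z * x' ^ (1 / k)))) * K) atTop (𝓝 0) := by
    have h2 : Tendsto (fun x' : ℝ => (1 / 2) * (B k z * x' ^ (1 / k))) atTop atTop :=
      ((tendsto_rpow_atTop (inv_k hk).1).const_mul_atTop hB).const_mul_atTop (by norm_num)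
    have := (Real.tendsto_exp_neg_atTop_nhds_zero.comp h2).mul_const K
    simpa using this
  have h2 : ∀ᶠ x' : ℝ in atTop, ‖JJ k y x z‖ ≤ Real.exp (-((1 / 2) * (B k z * x' ^ (1 / k)))) * K := by
    filter_upwards [eventually_gt_atTop 0] with x' hx'
    rw [JJ_indep' hk h0 hφ hz hx hx']
    refine (JJ_le hk h0 hφ hz (δ := 1 / 2) (by norm_num) (by norm_num) hx' y).trans ?_
    refine mul_le_mul_of_nonneg_right ?_ hK0
    apply Real.exp_le_exp.2
    have := mul_nonpos_of_nonneg_of_nonpos hx'.le hy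
    linarith
  have h3 := ge_of_tendsto h1 h2
  exact norm_le_zero_iff.1 h3

end Pool.Agent.D0H40.CX
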