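import Pool.Agent.D0H40.CX.Stab1
import Pool.Agent.D0H40.CX.Param

/-! Scaling, the Laplace transform. -/

set_option autoImplicit false

namespace Pool.Agent.D0H40.CX

open Complex MeasureTheory Filter Topology Set
open Pool.Agent.D0H40.KX
open scoped FourierTransform RealInnerProductSpace

variable {k : ℝ}

theorem cpow_scale {r : ℝ} (hr : 0 < r) {s : ℂ} (hs : s ≠ 0) (a : ℝ) :
    ((r : ℂ) * s) ^ (a : ℂ) = ((r ^ a : ℝ) : ℂ) * s ^ (a : ℂ) := by
  have h1 : (r : ℂ) * s ≠ 0 := mul_ne_zero (by exact_mod_cast hr.ne') hs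
  rw [cpow_polar h1, cpow_polar hs, Complex.arg_real_mul _ hr, norm_mul, Complex.norm_real,
    Real.norm_of_nonneg hr.le, Real.mul_rpow hr.le (norm_nonneg _)]
  push_cast
  ring

theorem JJ_scale {κ : ℝ} (hκ : 0 < κ) {x : ℝ} (hx : 0 < x) (z : ℂ) :
    JJ k κ x z = (κ : ℂ)⁻¹ * JJ k 1 (x * κ) (z * ((κ ^ (-(1 / k)) : ℝ) : ℂ)) := by
  unfold JJ
  have h1 := Measure.integral_comp_mul_left
    (fun t : ℝ => exp ((x + t * I) * κ) * hh k z (x + t * I)) κ⁻¹
  rw [inv_inv, abs_of_pos hκ, Complex.real_smul] at h1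
  have hκc : (κ : ℂ) ≠ 0 := by exact_mod_cast hκ.ne'
  have h2 : ∫ t : ℝ, exp ((x + t * I) * κ) * hh k z (x + t * I) =
      (κ : ℂ)⁻¹ * ∫ t : ℝ, exp ((x + (κ⁻¹ * t : ℝ) * I) * κ) * hh k z (x + (κ⁻¹ * t : ℝ) * I) := by
    rw [h1, ← mul_assoc, inv_mul_cancel₀ hκc, one_mul]
  rw [h2]
  congr 1
  refine integral_congr_ae (Eventually.of_forall fun t => ?_)
  simp only
  have hs : ((x * κ : ℝ) : ℂ) + t * I ≠ 0 := ne_of_re (by
    simp only [Complex.add_re, Complex.ofReal_re, Complex.mul_re, Complex.I_re, mul_zero,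
      Complex.ofReal_im, Complex.I_im, mul_one, sub_self, add_zero]
    positivity)
  have e1 : ((x : ℂ) + (κ⁻¹ * t : ℝ) * I) = ((κ⁻¹ : ℝ) : ℂ) * (((x * κ : ℝ) : ℂ) + t * I) := by
    push_cast
    field_simp
  congr 1
  · congr 1
    rw [e1]
    push_cast
    field_simp
  · unfold hh
    rw [e1, cpow_scale (inv_pos.2 hκ) hs]
    have e2 : κ⁻¹ ^ (1 / k) = κ ^ (-(1 / k)) := by
      rw [Real.inv_rpow hκ.le, Real.rpow_neg hκ.le]
    rw [e2]
    congr 2
    ring

/-- the kernel -/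
noncomputable def pp (k κ : ℝ) (z : ℂ) : ℂ := ((1 / (2 * Real.pi) : ℝ) : ℂ) * JJ k κ 1 z

theorem Cs_mul {φ r : ℝ} (hr : 0 < r) {z : ℂ} (hz : z ∈ Cs φ) : z * (r : ℂ) ∈ Cs φ := by
  refine ⟨mul_ne_zero hz.1 (by exact_mod_cast hr.ne'), ?_⟩
  rw [mul_comm, Complex.arg_real_mul _ hr]
  exact hz.2

theorem pp_scale (hk : 1 < k) {φ : ℝ} (h0 : 0 ≤ φ) (hφ : φ < fc k) {z : ℂ} (hz : z ∈ Cs φ)
    {κ : ℝ} (hκ : 0 < κ) :
    pp k κ z = (κ : ℂ)⁻¹ * pp k 1 (z * ((κ ^ (-(1 / k)) : ℝ) : ℂ)) := by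
  unfold pp
  have hr : 0 < κ ^ (-(1 / k)) := Real.rpow_pos_of_pos hκ _
  rw [JJ_scale hκ one_pos, one_mul, JJ_indep' hk h0 hφ (Cs_mul hr hz) hκ one_pos 1]
  ring

theorem JJ_meas (z : ℂ) {x : ℝ} (hx : 0 < x) : StronglyMeasurable fun y : ℝ => JJ k y x z := by
  unfold JJ
  refine StronglyMeasurable.integral_prod_right
    (f := fun (y t : ℝ) => exp ((x + t * I) * y) * hh k z (x + t * I)) ?_
  refine Continuous.stronglyMeasurable ?_
  refine Continuous.mul (by fun_prop) ?_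
  have h2 : Continuous fun t : ℝ => hh k z (x + t * I) := by
    rw [continuous_iff_continuousAt]
    intro t
    have h1 : ContinuousAt (hh k z) (x + t * I) := (hh_diff z (by simpa using hx)).continuousAt
    exact ContinuousAt.comp (f := fun t : ℝ => (x + t * I : ℂ)) h1 (by fun_prop)
  exact h2.comp continuous_snd

/-- the function in the variable `y` is integrable -/
theorem gy_int (hk : 1 < k) {φ : ℝ} (h0 : 0 ≤ φ) (hφ : φ < fc k) {z : ℂ} (hz : z ∈ Cs φ)
    {x : ℝ} (hx : 0 < x) : Integrable fun y : ℝ => exp (-(x * y)) * JJ k y x z := by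
  set K : ℝ := ∫ t : ℝ, Real.exp (-(1 * (Real.cos (φ + Real.pi / (2 * k)) * ‖z‖ * |t| ^ (1 / k))))
    with hK
  have hK0 : 0 ≤ K := integral_nonneg fun t => (Real.exp_pos _).le
  have hmeas : AEStronglyMeasurable (fun y : ℝ => exp (-(x * y)) * JJ k y x z) volume :=
    (by fun_prop : Continuous fun y : ℝ => exp (-(x * y : ℂ))).aestronglyMeasurable.mul
      (JJ_meas z hx).aestronglyMeasurable
  have h1 : Integrable ((Ioi (0:ℝ)).indicator fun y : ℝ => K * Real.exp (-(x / 2 * y))) := by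
    rw [integrable_indicator_iff measurableSet_Ioi]
    exact (int_exp_neg' (half_pos hx)).const_mul K
  refine h1.mono' hmeas (Eventually.of_forall fun y => ?_)
  rcases le_or_gt y 0 with hy | hy
  · rw [JJ_neg hk h0 hφ hz hx hy, mul_zero, norm_zero, indicator_of_notMem (by simpa using hy)]
  · rw [indicator_of_mem (show y ∈ Ioi (0:ℝ) from hy), norm_mul, Complex.norm_exp]
    have e1 : (-((x : ℂ) * y)).re = -(x * y) := by
      rw [← Complex.ofReal_mul, ← Complex.ofReal_neg, Complex.ofReal_re]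
    rw [e1, JJ_indep' hk h0 hφ hz hx (half_pos hx)]
    have h2 := JJ_le hk h0 hφ hz (δ := 1) one_pos le_rfl (half_pos hx) y
    rw [sub_self, zero_mul, sub_zero] at h2
    calc Real.exp (-(x * y)) * ‖JJ k y (x / 2) z‖ ≤
        Real.exp (-(x * y)) * (Real.exp (x / 2 * y) * K) :=
          mul_le_mul_of_nonneg_left h2 (Real.exp_pos _).le
      _ = K * (Real.exp (-(x * y)) * Real.exp (x / 2 * y)) := by ring
      _ = _ := by
          rw [← Real.exp_add]
          congr 2
          ring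

/-- **The Laplace transform of the kernel.** -/
theorem laplace (hk : 1 < k) {φ : ℝ} (h0 : 0 ≤ φ) (hφ : φ < fc k) {z : ℂ} (hz : z ∈ Cs φ)
    {s : ℂ} (hs : 0 < s.re) : ∫ κ in Ioi (0:ℝ), pp k κ z * exp (-(s * κ)) = hh k z s := by
  have hpi := Real.pi_pos
  set x : ℝ := s.re with hx
  set τ : ℝ := s.im with hτ
  have hs2 : s = x + τ * I := (Complex.re_add_im s).symm
  set H : ℝ → ℂ := fun t => hh k z (x + t * I) with hH
  have hHc : Continuous H := by
    have := JJ_cont (k := k) z hs 0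
    simpa using this
  have hHi : Integrable H := by
    have := JJ_int hk h0 hφ hz hs 0
    simpa using this
  set g : ℝ → ℂ := fun y => exp (-(x * y)) * JJ k y x z with hg
  have hF : 𝓕 H = fun ξ => g (-2 * Real.pi * ξ) := by
    funext ξ
    rw [Real.fourier_real_eq_integral_exp_smul, hg]
    simp only
    unfold JJ
    rw [← integral_const_mul]
    refine integral_congr_ae (Eventually.of_forall fun t => ?_)
    simp only
    rw [smul_eq_mul, ← mul_assoc, ← Complex.exp_add, hH]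
    congr 2
    push_cast
    ring
  have hne : (-2 * Real.pi : ℝ) ≠ 0 := by
    have : 0 < 2 * Real.pi := by positivity
    linarith
  have hFi : Integrable (𝓕 H) := by
    rw [hF]
    exact (gy_int hk h0 hφ hz hs).comp_mul_left' hne
  have h1 := hHc.fourierInv_fourier_eq hHi hFi
  have h2 := congrFun h1 τ
  rw [Real.fourierInv_eq', hF] at h2
  have h3 : ∫ v : ℝ, exp ((2 * Real.pi * ⟪v, τ⟫ : ℝ) * I) • g (-2 * Real.pi * v) =
      ∫ v : ℝ, (fun y : ℝ => exp (-(τ * I * y)) * g y) (-2 * Real.pi * v) := by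
    refine integral_congr_ae (Eventually.of_forall fun v => ?_)
    simp only
    rw [smul_eq_mul]
    congr 2
    have : (⟪v, τ⟫ : ℝ) = τ * v := by
      simp
    rw [this]
    push_cast
    ring
  rw [h3, MeasureTheory.Measure.integral_comp_mul_left (fun y : ℝ => exp (-(τ * I * y)) * g y)] at h2
  have habs : |(-2 * Real.pi)⁻¹| = 1 / (2 * Real.pi) := by
    rw [abs_inv, abs_mul, abs_neg, abs_of_pos hpi, abs_two, one_div]
  rw [habs, Complex.real_smul] at h2
  have h4 : H τ = hh k z s := by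
    rw [hH, hs2]
  rw [← h4, ← h2]
  have h5 : ∫ y : ℝ, exp (-(τ * I * y)) * g y = ∫ y in Ioi (0:ℝ), exp (-(τ * I * y)) * g y := by
    rw [← integral_indicator measurableSet_Ioi]
    refine integral_congr_ae (Eventually.of_forall fun y => ?_)
    simp only
    rcases le_or_gt y 0 with hy | hy
    · rw [indicator_of_notMem (by simpa using hy), hg]
      simp only
      rw [JJ_neg hk h0 hφ hz hs hy, mul_zero, mul_zero]
    · rw [indicator_of_mem (show y ∈ Ioi (0:ℝ) from hy)]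
  rw [h5, ← integral_const_mul]
  refine setIntegral_congr_fun measurableSet_Ioi fun y hy => ?_
  show pp k y z * exp (-(s * y)) =
    ((1 / (2 * Real.pi) : ℝ) : ℂ) * (exp (-(τ * I * y)) * (exp (-(x * y)) * JJ k y x z))
  unfold pp
  rw [JJ_indep' hk h0 hφ hz one_pos hs y, hs2]
  have e : exp (-((x + τ * I) * (y : ℂ))) = exp (-(τ * I * y)) * exp (-(x * y)) := by
    rw [← Complex.exp_add]
    congr 1
    ring
  rw [e]
  ring

end Pool.Agent.D0H40.CX
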