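import Pool.Agent.D0H40.CX.Stab2

/-! Bounds for the kernel. -/

set_option autoImplicit false

namespace Pool.Agent.D0H40.CX

open Complex MeasureTheory Filter Topology Set
open Pool.Agent.D0H40.KX

variable {k : ℝ}

/-- first derivative -/
noncomputable def D1 (k : ℝ) (z s : ℂ) : ℂ :=
  -(z * (((1 / k : ℝ) : ℂ) * s ^ ((1 / k - 1 : ℝ) : ℂ))) * hh k z s

/-- second derivative -/
noncomputable def D2 (k : ℝ) (z s : ℂ) : ℂ :=
  (-(z * (((1 / k : ℝ) : ℂ) * (((1 / k - 1 : ℝ) : ℂ) * s ^ ((1 / k - 2 : ℝ) : ℂ)))) +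
    (z * (((1 / k : ℝ) : ℂ) * s ^ ((1 / k - 1 : ℝ) : ℂ))) ^ 2) * hh k z s

theorem cpow_deriv (a : ℝ) {s : ℂ} (hs : 0 < s.re) :
    HasDerivAt (fun s : ℂ => s ^ (a : ℂ)) ((a : ℂ) * s ^ ((a - 1 : ℝ) : ℂ)) s := by
  have := (hasDerivAt_id s).cpow_const (c := (a : ℂ)) (Or.inl hs)
  simpa using this

theorem hh_deriv (k : ℝ) (z : ℂ) {s : ℂ} (hs : 0 < s.re) : HasDerivAt (hh k z) (D1 k z s) s := by
  have h1 := ((cpow_deriv (1 / k) hs).const_mul z).neg.cexp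
  unfold D1
  refine h1.congr_deriv ?_
  unfold hh
  simp only [Pi.neg_apply]
  ring

theorem D1_deriv (k : ℝ) (z : ℂ) {s : ℂ} (hs : 0 < s.re) : HasDerivAt (D1 k z) (D2 k z s) s := by
  have h1 := ((((cpow_deriv (1 / k - 1) hs).const_mul ((1 / k : ℝ) : ℂ)).const_mul z).neg).mul
    (hh_deriv k z hs)
  unfold D2
  refine h1.congr_deriv ?_
  have e : (1 / k - 1 - 1 : ℝ) = 1 / k - 2 := by ring
  rw [e]
  unfold D1
  simp only [Pi.neg_apply]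
  ring

theorem hh_le4 (hk : 1 < k) {φ : ℝ} (hφ : φ < fc k) {z : ℂ} (hz : z ∈ Cs φ) {s : ℂ} (hs : 0 < s.re) :
    ‖hh k z s‖ ≤ Real.exp (-(Real.cos (φ + Real.pi / (2 * k)) * (‖z‖ * ‖s‖ ^ (1 / k)))) := by
  rw [hh_norm]
  refine Real.exp_le_exp.2 (neg_le_neg (le_trans (le_of_eq ?_) (re_ge2 hk hφ hz hs)))
  ring

theorem mul_exp_neg_le {c x : ℝ} (hc : 0 < c) : x * Real.exp (-(c * x)) ≤ 1 / c := by
  have h1 := Real.add_one_le_exp (c * x)
  have h2 : Real.exp (-(c * x)) * Real.exp (c * x) = 1 := by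
    rw [← Real.exp_add]
    simp
  have h3 := Real.exp_pos (-(c * x))
  rw [le_div_iff₀ hc]
  calc x * Real.exp (-(c * x)) * c = Real.exp (-(c * x)) * (c * x) := by ring
    _ ≤ Real.exp (-(c * x)) * Real.exp (c * x) := by
        apply mul_le_mul_of_nonneg_left _ h3.le
        linarith
    _ = 1 := h2

theorem D2_le (hk : 1 < k) {φ : ℝ} (h0 : 0 ≤ φ) (hφ : φ < fc k) {z : ℂ} (hz : z ∈ Cs φ) {s : ℂ}
    (hs : 0 < s.re) :
    ‖D2 k z s‖ ≤ (1 + 1 / Real.cos (φ + Real.pi / (2 * k))) * ‖z‖ * ‖s‖ ^ (1 / k - 2) := by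
  obtain ⟨ha0, ha1⟩ := inv_k hk
  have hc := c1_pos hk h0 hφ
  set a : ℝ := 1 / k with ha
  set c : ℝ := Real.cos (φ + Real.pi / (2 * k)) with hcd
  have hs0 : 0 < ‖s‖ := norm_pos_iff.2 (ne_of_re hs)
  have hz0 : 0 ≤ ‖z‖ := norm_nonneg z
  unfold D2
  rw [norm_mul, ← ha]
  have h1 : ‖-(z * (((a : ℝ) : ℂ) * (((a - 1 : ℝ) : ℂ) * s ^ ((a - 2 : ℝ) : ℂ)))) +
      (z * (((a : ℝ) : ℂ) * s ^ ((a - 1 : ℝ) : ℂ))) ^ 2‖ ≤
      ‖z‖ * ‖s‖ ^ (a - 2) * (1 + ‖z‖ * ‖s‖ ^ a) := by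
    refine (norm_add_le _ _).trans ?_
    rw [norm_neg, norm_mul, norm_mul, norm_mul, norm_pow, norm_mul, norm_mul, Complex.norm_cpow_real,
      Complex.norm_cpow_real, Complex.norm_real, Complex.norm_real, Real.norm_of_nonneg ha0.le,
      Real.norm_eq_abs, abs_of_neg (by linarith : a - 1 < 0)]
    have e1 : ‖s‖ ^ (a - 1) * ‖s‖ ^ (a - 1) = ‖s‖ ^ (a - 2) * ‖s‖ ^ a := by
      rw [← Real.rpow_add hs0, ← Real.rpow_add hs0]
      congr 1
      ring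
    have h2 : 0 ≤ ‖s‖ ^ (a - 2) := by positivity
    have h3 : 0 ≤ ‖s‖ ^ a := by positivity
    have h4 : a * (-(a - 1)) ≤ 1 := by nlinarith
    have h5 : a * a ≤ 1 := by nlinarith
    calc ‖z‖ * (a * (-(a - 1) * ‖s‖ ^ (a - 2))) + (‖z‖ * (a * ‖s‖ ^ (a - 1))) ^ 2 =
        (a * (-(a - 1))) * (‖z‖ * ‖s‖ ^ (a - 2)) +
          (a * a) * (‖z‖ * ‖z‖ * (‖s‖ ^ (a - 1) * ‖s‖ ^ (a - 1))) := by ring
      _ ≤ 1 * (‖z‖ * ‖s‖ ^ (a - 2)) + 1 * (‖z‖ * ‖z‖ * (‖s‖ ^ (a - 1) * ‖s‖ ^ (a - 1))) := by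
          gcongr
      _ = _ := by
          rw [e1]
          ring
  have h2 := hh_le4 hk hφ hz hs
  rw [← hcd, ← ha] at h2
  have hx : 0 ≤ ‖z‖ * ‖s‖ ^ a := by positivity
  have h3 := mul_exp_neg_le (x := ‖z‖ * ‖s‖ ^ a) hc
  have h4 : Real.exp (-(c * (‖z‖ * ‖s‖ ^ a))) ≤ 1 := Real.exp_le_one_iff.2 (by
    have := mul_nonneg hc.le hx
    linarith)
  calc _ ≤ (‖z‖ * ‖s‖ ^ (a - 2) * (1 + ‖z‖ * ‖s‖ ^ a)) * Real.exp (-(c * (‖z‖ * ‖s‖ ^ a))) := by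
        gcongr
    _ = ‖z‖ * ‖s‖ ^ (a - 2) * (Real.exp (-(c * (‖z‖ * ‖s‖ ^ a))) +
        ‖z‖ * ‖s‖ ^ a * Real.exp (-(c * (‖z‖ * ‖s‖ ^ a)))) := by ring
    _ ≤ ‖z‖ * ‖s‖ ^ (a - 2) * (1 + 1 / c) := by gcongr
    _ = _ := by ring

theorem norm_line_ge (t : ℝ) : (1 + |t|) / 2 ≤ ‖((1 : ℝ) : ℂ) + t * I‖ := by
  have h1 : |(((1 : ℝ) : ℂ) + t * I).re| ≤ _ := Complex.abs_re_le_norm _
  have h2 : |(((1 : ℝ) : ℂ) + t * I).im| ≤ _ := Complex.abs_im_le_norm _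
  simp only [Complex.add_re, Complex.ofReal_re, Complex.mul_re, Complex.I_re, mul_zero,
    Complex.ofReal_im, Complex.I_im, mul_one, sub_self, add_zero, abs_one, Complex.add_im,
    Complex.mul_im, zero_add] at h1 h2
  linarith

theorem pw_le (hk : 1 < k) (t : ℝ) :
    ‖((1 : ℝ) : ℂ) + t * I‖ ^ (1 / k - 2) ≤ 2 ^ (2 - 1 / k) * (1 + ‖t‖) ^ (-(2 - 1 / k)) := by
  obtain ⟨ha0, ha1⟩ := inv_k hk
  have h1 := norm_line_ge t
  have h2 : 0 < (1 + |t|) / 2 := by positivity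
  have h3 := Real.rpow_le_rpow_of_nonpos h2 h1 (by linarith : 1 / k - 2 ≤ 0)
  refine h3.trans (le_of_eq ?_)
  rw [Real.div_rpow (by positivity) (by norm_num), Real.norm_eq_abs, div_eq_mul_inv,
    ← Real.rpow_neg (by norm_num : (0:ℝ) ≤ 2)]
  have e1 : -(1 / k - 2) = 2 - 1 / k := by ring
  have e2 : -(2 - 1 / k) = 1 / k - 2 := by ring
  rw [e1, e2, mul_comm]

theorem pw_int (hk : 1 < k) :
    Integrable fun t : ℝ => (2:ℝ) ^ (2 - 1 / k) * (1 + ‖t‖) ^ (-(2 - 1 / k)) := by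
  refine Integrable.const_mul ?_ _
  refine integrable_one_add_norm ?_
  rw [Module.finrank_self]
  have := (inv_k hk).2
  push_cast
  linarith

theorem line_deriv {f : ℂ → ℂ} {f' : ℂ} {t : ℝ} (h : HasDerivAt f f' (((1 : ℝ) : ℂ) + t * I)) :
    HasDerivAt (fun t : ℝ => f (((1 : ℝ) : ℂ) + t * I)) (f' * I) t := by
  have h1 : HasDerivAt (fun t : ℝ => ((1 : ℝ) : ℂ) + t * I) I t := by
    have := ((hasDerivAt_id t).ofReal_comp.mul_const I).const_add ((1 : ℝ) : ℂ)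
    simpa using this
  exact HasDerivAt.comp (h₂ := f) (h := fun t : ℝ => ((1 : ℝ) : ℂ) + t * I) t h h1

theorem line_re (t : ℝ) : 0 < (((1 : ℝ) : ℂ) + t * I).re := by simp

theorem D_cont {f : ℂ → ℂ} (h : ∀ s : ℂ, 0 < s.re → ContinuousAt f s) :
    Continuous fun t : ℝ => f (((1 : ℝ) : ℂ) + t * I) := by
  rw [continuous_iff_continuousAt]
  intro t
  exact ContinuousAt.comp (f := fun t : ℝ => (((1 : ℝ) : ℂ) + t * I : ℂ)) (h _ (line_re t)) (by fun_prop)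

theorem D2_contAt (k : ℝ) (z : ℂ) {s : ℂ} (hs : 0 < s.re) : ContinuousAt (D2 k z) s := by
  unfold D2
  have h1 := (cpow_deriv (1 / k - 2) hs).continuousAt
  have h2 := (cpow_deriv (1 / k - 1) hs).continuousAt
  have h3 := (hh_deriv k z hs).continuousAt
  exact (((h1.const_mul _).const_mul _).const_mul z).neg.add (((h2.const_mul _).const_mul z).pow 2)
    |>.mul h3

theorem D1_le (hk : 1 < k) {φ : ℝ} (h0 : 0 ≤ φ) (hφ : φ < fc k) {z : ℂ} (hz : z ∈ Cs φ) (t : ℝ) :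
    ‖D1 k z (((1 : ℝ) : ℂ) + t * I)‖ ≤
      ‖z‖ * Real.exp (-(Real.cos (φ + Real.pi / (2 * k)) * ‖z‖ * |t| ^ (1 / k))) := by
  obtain ⟨ha0, ha1⟩ := inv_k hk
  unfold D1
  rw [norm_mul, norm_neg, norm_mul, norm_mul, Complex.norm_cpow_real, Complex.norm_real,
    Real.norm_of_nonneg ha0.le]
  have h1 := hh_le2 hk h0 hφ hz (line_re t)
  have e2 : (((1 : ℝ) : ℂ) + t * I).im = t := by simp
  rw [e2] at h1
  have h2 : (1:ℝ) ≤ ‖((1 : ℝ) : ℂ) + t * I‖ := by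
    have h1 : |(((1 : ℝ) : ℂ) + t * I).re| ≤ _ := Complex.abs_re_le_norm _
    simp only [Complex.add_re, Complex.ofReal_re, Complex.mul_re, Complex.I_re, mul_zero,
      Complex.ofReal_im, Complex.I_im, mul_one, sub_self, add_zero, abs_one] at h1
    exact h1
  have h3 : ‖((1 : ℝ) : ℂ) + t * I‖ ^ (1 / k - 1) ≤ 1 :=
    Real.rpow_le_one_of_one_le_of_nonpos h2 (by linarith)
  have h4 : 1 / k * ‖((1 : ℝ) : ℂ) + t * I‖ ^ (1 / k - 1) ≤ 1 * 1 := by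
    gcongr
  rw [mul_one] at h4
  calc _ ≤ ‖z‖ * 1 * Real.exp (-(Real.cos (φ + Real.pi / (2 * k)) * ‖z‖ * |t| ^ (1 / k))) := by
        gcongr
    _ = _ := by ring

/-- the linear bound -/
theorem JJ_small (hk : 1 < k) {φ : ℝ} (h0 : 0 ≤ φ) (hφ : φ < fc k) :
    ∃ C : ℝ, 0 ≤ C ∧ ∀ z ∈ Cs φ, ‖JJ k 1 1 z‖ ≤ C * ‖z‖ := by
  have hc := c1_pos hk h0 hφ
  set Q : ℝ := ∫ t : ℝ, (2:ℝ) ^ (2 - 1 / k) * (1 + ‖t‖) ^ (-(2 - 1 / k)) with hQ
  have hQ0 : 0 ≤ Q := integral_nonneg fun t => by positivity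
  refine ⟨Real.exp 1 * (1 + 1 / Real.cos (φ + Real.pi / (2 * k))) * Q, by positivity,
    fun z hz => ?_⟩
  have hc2 := mul_pos hc (Cs_pos hz)
  set E : ℝ → ℂ := fun t => exp (((1 : ℝ) : ℂ) + t * I) with hE
  have hEn : ∀ t, ‖E t‖ = Real.exp 1 := fun t => by
    rw [hE]
    simp only
    rw [Complex.norm_exp]
    simp
  have hEc : Continuous E := by rw [hE]; fun_prop
  have hEd : ∀ t : ℝ, HasDerivAt (fun t => -I * E t) (E t) t := by
    intro t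
    have h1 := (line_deriv (Complex.hasDerivAt_exp (((1 : ℝ) : ℂ) + t * I))).const_mul (-I)
    refine h1.congr_deriv ?_
    rw [hE]
    simp only
    linear_combination (-exp (((1 : ℝ) : ℂ) + t * I)) * Complex.I_mul_I
  have hd1 : ∀ t : ℝ, HasDerivAt (fun t : ℝ => hh k z (((1 : ℝ) : ℂ) + t * I))
      (D1 k z (((1 : ℝ) : ℂ) + t * I) * I) t := fun t => line_deriv (hh_deriv k z (line_re t))
  have hd2 : ∀ t : ℝ, HasDerivAt (fun t : ℝ => D1 k z (((1 : ℝ) : ℂ) + t * I))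
      (D2 k z (((1 : ℝ) : ℂ) + t * I) * I) t := fun t => line_deriv (D1_deriv k z (line_re t))
  have hs := int_stretch (inv_k hk).1 hc2
  -- integrability
  have i0 : Integrable fun t : ℝ => hh k z (((1 : ℝ) : ℂ) + t * I) := by
    have := JJ_int hk h0 hφ hz one_pos 0
    simpa using this
  have i1 : Integrable fun t : ℝ => D1 k z (((1 : ℝ) : ℂ) + t * I) :=
    (hs.const_mul ‖z‖).mono' (D_cont fun s hs => (D1_deriv k z hs).continuousAt).aestronglyMeasurable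
      (Eventually.of_forall fun t => D1_le hk h0 hφ hz t)
  have b2 : ∀ t : ℝ, ‖D2 k z (((1 : ℝ) : ℂ) + t * I)‖ ≤
      (1 + 1 / Real.cos (φ + Real.pi / (2 * k))) * ‖z‖ *
        ((2:ℝ) ^ (2 - 1 / k) * (1 + ‖t‖) ^ (-(2 - 1 / k))) := fun t =>
    (D2_le hk h0 hφ hz (line_re t)).trans
      (mul_le_mul_of_nonneg_left (pw_le hk t) (by positivity))
  have i2 : Integrable fun t : ℝ => D2 k z (((1 : ℝ) : ℂ) + t * I) :=
    ((pw_int hk).const_mul _).mono' (D_cont fun s hs => D2_contAt k z hs).aestronglyMeasurable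
      (Eventually.of_forall b2)
  have hmul : ∀ {f : ℝ → ℂ}, Integrable f → Integrable fun t => f t * E t := fun {f} hf =>
    hf.mul_bdd (c := Real.exp 1) hEc.aestronglyMeasurable (Eventually.of_forall fun t => (hEn t).le)
  have hmulI : ∀ {f : ℝ → ℂ}, Integrable f → Integrable fun t => f t * (-I * E t) := fun {f} hf => by
    refine ((hmul hf).const_mul (-I)).congr (Eventually.of_forall fun t => ?_)
    simp only
    ring
  have hmulI2 : ∀ {f : ℝ → ℂ}, Integrable f → Integrable fun t => (f t * I) * (-I * E t) :=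
    fun {f} hf => by
      refine (hmul hf).congr (Eventually.of_forall fun t => ?_)
      simp only
      linear_combination (f t * E t) * Complex.I_mul_I
  have ibp1 := integral_mul_deriv_eq_deriv_mul_of_integrable
    (u := fun t : ℝ => hh k z (((1 : ℝ) : ℂ) + t * I)) (v := fun t => -I * E t)
    (u' := fun t : ℝ => D1 k z (((1 : ℝ) : ℂ) + t * I) * I) (v' := E)
    (fun t _ => hd1 t) (fun t _ => hEd t) (hmul i0) (hmulI2 i1) (hmulI i0)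
  have ibp2 := integral_mul_deriv_eq_deriv_mul_of_integrable
    (u := fun t : ℝ => D1 k z (((1 : ℝ) : ℂ) + t * I)) (v := fun t => -I * E t)
    (u' := fun t : ℝ => D2 k z (((1 : ℝ) : ℂ) + t * I) * I) (v' := E)
    (fun t _ => hd2 t) (fun t _ => hEd t) (hmul i1) (hmulI2 i2) (hmulI i1)
  have e1 : ∀ f : ℝ → ℂ, (fun t => (f t * I) * (-I * E t)) = fun t => f t * E t := by
    intro f
    funext t
    linear_combination (-(f t * E t)) * Complex.I_mul_I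
  have e2 : JJ k 1 1 z = ∫ t : ℝ, D2 k z (((1 : ℝ) : ℂ) + t * I) * E t := by
    unfold JJ
    have e3 : ∫ t : ℝ, exp ((((1 : ℝ) : ℂ) + t * I) * ((1 : ℝ) : ℂ)) * hh k z (((1 : ℝ) : ℂ) + t * I) =
        ∫ t : ℝ, hh k z (((1 : ℝ) : ℂ) + t * I) * E t := by
      refine integral_congr_ae (Eventually.of_forall fun t => ?_)
      simp only
      rw [hE, Complex.ofReal_one, mul_one, mul_comm]
    rw [e3, ibp1, e1 fun t : ℝ => D1 k z (((1 : ℝ) : ℂ) + t * I), ibp2,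
      e1 fun t : ℝ => D2 k z (((1 : ℝ) : ℂ) + t * I), neg_neg]
  rw [e2]
  have h5 : ‖∫ t : ℝ, D2 k z (((1 : ℝ) : ℂ) + t * I) * E t‖ ≤
      ∫ t : ℝ, (1 + 1 / Real.cos (φ + Real.pi / (2 * k))) * ‖z‖ *
        ((2:ℝ) ^ (2 - 1 / k) * (1 + ‖t‖) ^ (-(2 - 1 / k))) * Real.exp 1 := by
    refine norm_integral_le_of_norm_le (((pw_int hk).const_mul _).mul_const _)
      (Eventually.of_forall fun t => ?_)
    rw [norm_mul, hEn]
    exact mul_le_mul_of_nonneg_right (b2 t) (Real.exp_pos _).le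
  refine h5.trans (le_of_eq ?_)
  rw [integral_mul_const, integral_const_mul, ← hQ]
  ring

end Pool.Agent.D0H40.CX
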