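import Pool.Agent.D0H40.CX.Stab3

/-! Bounds for the kernel, and its dependence on `z`. -/

set_option autoImplicit false

namespace Pool.Agent.D0H40.CX

open Complex MeasureTheory Filter Topology Set
open Pool.Agent.D0H40.KX

variable {k : ℝ}

theorem pp_le1 (hk : 1 < k) {φ : ℝ} (h0 : 0 ≤ φ) (hφ : φ < fc k) :
    ∃ C : ℝ, 0 ≤ C ∧ ∀ κ : ℝ, 0 < κ → ∀ z ∈ Cs φ, ‖pp k κ z‖ ≤ C * ‖z‖ * κ ^ (-1 - 1 / k) := by
  obtain ⟨C, hC0, hC⟩ := JJ_small hk h0 hφ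
  refine ⟨1 / (2 * Real.pi) * C, by positivity, fun κ hκ z hz => ?_⟩
  have hr : 0 < κ ^ (-(1 / k)) := Real.rpow_pos_of_pos hκ _
  rw [pp_scale hk h0 hφ hz hκ]
  unfold pp
  have h1 := hC _ (Cs_mul hr hz)
  rw [norm_mul, norm_mul, norm_inv, Complex.norm_real, Complex.norm_real, Real.norm_of_nonneg hκ.le,
    Real.norm_of_nonneg (by positivity : (0:ℝ) ≤ 1 / (2 * Real.pi))]
  rw [norm_mul, Complex.norm_real, Real.norm_of_nonneg hr.le] at h1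
  have e : κ ^ (-1 - 1 / k) = κ⁻¹ * κ ^ (-(1 / k)) := by
    rw [← Real.rpow_neg_one, ← Real.rpow_add hκ]
    congr 1
  rw [e]
  calc κ⁻¹ * (1 / (2 * Real.pi) * ‖JJ k 1 1 (z * ((κ ^ (-(1 / k)) : ℝ) : ℂ))‖) ≤
      κ⁻¹ * (1 / (2 * Real.pi) * (C * (‖z‖ * κ ^ (-(1 / k))))) := by
        gcongr
    _ = _ := by ring

/-- the exponent -/
noncomputable def Ex (k b : ℝ) : ℝ := (k - 1) * (b / k) ^ kp k

theorem Ex_mono (hk : 1 < k) {b b' : ℝ} (hb : 0 ≤ b) (h : b ≤ b') : Ex k b ≤ Ex k b' := by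
  unfold Ex
  have hk0 : 0 < k := by linarith
  have h1 : (b / k) ^ kp k ≤ (b' / k) ^ kp k :=
    Real.rpow_le_rpow (by positivity) (div_le_div_of_nonneg_right h hk0.le) (kp_pos hk).le
  exact mul_le_mul_of_nonneg_left h1 (by linarith)

theorem Ex_lt (hk : 1 < k) {b b' : ℝ} (hb : 0 ≤ b) (h : b < b') : Ex k b < Ex k b' := by
  unfold Ex
  have hk0 : 0 < k := by linarith
  have h1 : (b / k) ^ kp k < (b' / k) ^ kp k :=
    Real.rpow_lt_rpow (by positivity) (div_lt_div_of_pos_right h hk0) (kp_pos hk)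
  exact mul_lt_mul_of_pos_left h1 (by linarith)

theorem Ex_nonneg (hk : 1 < k) {b : ℝ} (hb : 0 ≤ b) : 0 ≤ Ex k b := by
  unfold Ex
  have : 0 ≤ k - 1 := by linarith
  have hk0 : 0 < k := by linarith
  positivity

theorem Ex_pos (hk : 1 < k) {b : ℝ} (hb : 0 < b) : 0 < Ex k b := by
  unfold Ex
  have : 0 < k - 1 := by linarith
  have hk0 : 0 < k := by linarith
  positivity

theorem kp_eq (hk : 1 < k) : kp k = 1 + kp k / k := by
  unfold kp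
  have h1 : k ≠ 0 := by linarith
  have h2 : k - 1 ≠ 0 := by linarith
  field_simp
  ring

theorem kp_div (hk : 1 < k) : kp k / k = 1 / (k - 1) := by
  unfold kp
  have h1 : k ≠ 0 := by linarith
  have h2 : k - 1 ≠ 0 := by linarith
  field_simp

/-- the choice of the line -/
theorem opt_line (hk : 1 < k) {b : ℝ} (hb : 0 < b) :
    ((b / k) ^ kp k) * 1 - b * ((b / k) ^ kp k) ^ (1 / k) = -Ex k b := by
  have hk0 : 0 < k := by linarith
  have hbk : 0 < b / k := by positivity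
  unfold Ex
  have e1 : ((b / k) ^ kp k) ^ (1 / k) = (b / k) ^ (kp k / k) := by
    rw [← Real.rpow_mul hbk.le]
    congr 1
    ring
  have e2 : (b / k) ^ kp k = (b / k) * (b / k) ^ (kp k / k) := by
    conv_lhs => rw [kp_eq hk]
    rw [Real.rpow_add hbk, Real.rpow_one]
  rw [e1, e2]
  field_simp
  ring

theorem pp_le2 (hk : 1 < k) {φ : ℝ} (h0 : 0 ≤ φ) (hφ : φ < fc k) {r₁ δ : ℝ} (hr₁ : 0 < r₁)
    (hδ0 : 0 < δ) (hδ1 : δ < 1) :
    ∃ C : ℝ, 0 ≤ C ∧ ∀ κ : ℝ, 0 < κ → κ ≤ 1 → ∀ z ∈ Cs φ, r₁ ≤ ‖z‖ →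
      ‖pp k κ z‖ ≤ C * κ⁻¹ * Real.exp (-(Ex k ((1 - δ) * B k z) * κ ^ (-(1 / (k - 1))))) := by
  obtain ⟨ha0, ha1⟩ := inv_k hk
  have hc := c1_pos hk h0 hφ
  set c : ℝ := Real.cos (φ + Real.pi / (2 * k)) with hcd
  set K : ℝ := ∫ t : ℝ, Real.exp (-(δ * (c * r₁) * |t| ^ (1 / k))) with hK
  have hKi := int_stretch (a := 1 / k) ha0 (mul_pos hδ0 (mul_pos hc hr₁))
  have hK0 : 0 ≤ K := integral_nonneg fun t => (Real.exp_pos _).le
  refine ⟨1 / (2 * Real.pi) * K, by positivity, fun κ hκ hκ1 z hz hzr => ?_⟩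
  have hr : 0 < κ ^ (-(1 / k)) := Real.rpow_pos_of_pos hκ _
  have hr1 : 1 ≤ κ ^ (-(1 / k)) := Real.one_le_rpow_of_pos_of_le_one_of_nonpos hκ hκ1 (by linarith)
  rw [pp_scale hk h0 hφ hz hκ]
  unfold pp
  set z' : ℂ := z * ((κ ^ (-(1 / k)) : ℝ) : ℂ) with hz'
  have hz'C : z' ∈ Cs φ := Cs_mul hr hz
  have hB' : B k z' = κ ^ (-(1 / k)) * B k z := by
    rw [hz', mul_comm, B_mul k hr]
  have hBz := B_pos hk (Cs_sub hk hφ hz)
  set b : ℝ := (1 - δ) * B k z' with hb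
  have hb0 : 0 < b := by
    rw [hb, hB']
    have : 0 < 1 - δ := by linarith
    positivity
  have hx : 0 < (b / k) ^ kp k := Real.rpow_pos_of_pos (div_pos hb0 (by linarith)) _
  rw [JJ_indep' hk h0 hφ hz'C one_pos hx 1]
  have h1 := JJ_le hk h0 hφ hz'C hδ0 hδ1.le hx 1
  have e1 : (b / k) ^ kp k * 1 - (1 - δ) * (B k z' * ((b / k) ^ kp k) ^ (1 / k)) = -Ex k b := by
    rw [← opt_line hk hb0, hb]
    ring
  rw [e1] at h1
  have hn : r₁ ≤ ‖z'‖ := by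
    rw [hz', norm_mul, Complex.norm_real, Real.norm_of_nonneg hr.le]
    calc r₁ ≤ ‖z‖ * 1 := by rw [mul_one]; exact hzr
      _ ≤ ‖z‖ * κ ^ (-(1 / k)) := by gcongr
  have h2 : (∫ t : ℝ, Real.exp (-(δ * (c * ‖z'‖ * |t| ^ (1 / k))))) ≤ K := by
    have hi := int_stretch (a := 1 / k) ha0 (mul_pos hδ0 (mul_pos hc (Cs_pos hz'C)))
    have e : (fun t : ℝ => Real.exp (-(δ * (c * ‖z'‖) * |t| ^ (1 / k)))) =
        fun t : ℝ => Real.exp (-(δ * (c * ‖z'‖ * |t| ^ (1 / k)))) := by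
      funext t
      rw [mul_assoc δ]
    rw [e] at hi
    refine integral_mono hi hKi fun t => ?_
    apply Real.exp_le_exp.2
    have h3 : 0 ≤ |t| ^ (1 / k) := by positivity
    have h4 : δ * (c * r₁) * |t| ^ (1 / k) ≤ δ * (c * ‖z'‖) * |t| ^ (1 / k) := by gcongr
    linarith
  have e2 : Ex k b = Ex k ((1 - δ) * B k z) * κ ^ (-(1 / (k - 1))) := by
    have hk0 : 0 < k := by linarith
    have h5 : b / k = κ ^ (-(1 / k)) * ((1 - δ) * B k z / k) := by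
      rw [hb, hB']
      ring
    unfold Ex
    have h6 : 0 ≤ (1 - δ) * B k z / k := by
      have : 0 < 1 - δ := by linarith
      positivity
    rw [h5, Real.mul_rpow hr.le h6, ← Real.rpow_mul hκ.le]
    have h7 : -(1 / k) * kp k = -(1 / (k - 1)) := by
      rw [← kp_div hk]
      ring
    rw [h7]
    ring
  rw [norm_mul, norm_mul, norm_inv, Complex.norm_real, Complex.norm_real, Real.norm_of_nonneg hκ.le,
    Real.norm_of_nonneg (by positivity : (0:ℝ) ≤ 1 / (2 * Real.pi)), ← e2]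
  have h8 : ‖JJ k 1 ((b / k) ^ kp k) z'‖ ≤ Real.exp (-Ex k b) * K :=
    h1.trans (mul_le_mul_of_nonneg_left h2 (Real.exp_pos _).le)
  calc κ⁻¹ * (1 / (2 * Real.pi) * ‖JJ k 1 ((b / k) ^ kp k) z'‖) ≤
      κ⁻¹ * (1 / (2 * Real.pi) * (Real.exp (-Ex k b) * K)) := by gcongr
    _ = _ := by ring

/-- neighbourhoods -/
theorem nbhd (hk : 1 < k) {z₀ : ℂ} (hz : z₀ ∈ Sk k) : ∃ φ r : ℝ, 0 ≤ φ ∧ φ < fc k ∧ 0 < r ∧
    ∀ z ∈ Metric.ball z₀ r, z ∈ Cs φ ∧ ‖z₀‖ / 2 ≤ ‖z‖ ∧ ‖z‖ ≤ 2 * ‖z₀‖ := by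
  have hz2 : |arg z₀| < fc k := hz.2
  obtain ⟨φ, h1, h2⟩ := exists_between hz2
  have hn : 0 < ‖z₀‖ := norm_pos_iff.2 hz.1
  have hs : z₀ ∈ slitPlane := Or.inl (Sk_re hk hz)
  have e1 : ∀ᶠ w in 𝓝 z₀, |arg w| < φ :=
    (continuous_abs.continuousAt.comp (Complex.continuousAt_arg hs)).eventually_lt
      continuousAt_const h1
  have e2 : ∀ᶠ w in 𝓝 z₀, ‖z₀‖ / 2 < ‖w‖ :=
    continuousAt_const.eventually_lt continuous_norm.continuousAt (by linarith)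
  have e3 : ∀ᶠ w in 𝓝 z₀, ‖w‖ < 2 * ‖z₀‖ :=
    continuous_norm.continuousAt.eventually_lt continuousAt_const (by linarith)
  obtain ⟨r, hr, h3⟩ := Metric.eventually_nhds_iff_ball.1 ((e1.and e2).and (e3.and (eventually_ne_nhds hz.1)))
  exact ⟨φ, r, (abs_nonneg _).trans h1.le, h2, hr, fun z hz' =>
    ⟨⟨(h3 z hz').2.2, (h3 z hz').1.1.le⟩, (h3 z hz').1.2.le, (h3 z hz').2.1.le⟩⟩

theorem hh_diff_z (k : ℝ) (s : ℂ) : Differentiable ℂ fun z : ℂ => hh k z s := by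
  unfold hh
  fun_prop

/-- the kernel is holomorphic in `z` -/
theorem pp_diff (hk : 1 < k) (κ : ℝ) {z₀ : ℂ} (hz : z₀ ∈ Sk k) : DifferentiableAt ℂ (pp k κ) z₀ := by
  obtain ⟨φ, r, h0, hφ, hr, h⟩ := nbhd hk hz
  have hn : 0 < ‖z₀‖ := norm_pos_iff.2 hz.1
  have hc := c1_pos hk h0 hφ
  unfold pp JJ
  refine DifferentiableAt.const_mul ?_ _
  have hi := (int_stretch (a := 1 / k) (inv_k hk).1 (mul_pos hc (half_pos hn))).const_mul (Real.exp κ)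
  refine diff_param (F := fun z (t : ℝ) => exp ((((1 : ℝ) : ℂ) + t * I) * κ) * hh k z (((1 : ℝ) : ℂ) + t * I))
    hr (Eventually.of_forall fun t w _ => ?_) (fun w hw => ?_) hi
    (Eventually.of_forall fun t w hw => ?_)
  · exact ((hh_diff_z k _) w).const_mul _
  · exact (JJ_cont w one_pos κ).aestronglyMeasurable
  · obtain ⟨hwC, hw1, -⟩ := h w hw
    have h1 := JJ_norm hk h0 hφ hwC (δ := 1) zero_le_one le_rfl one_pos κ t
    simp only [sub_self, zero_mul, sub_zero, one_mul] at h1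
    refine h1.trans ?_
    refine mul_le_mul_of_nonneg_left ?_ (Real.exp_pos _).le
    apply Real.exp_le_exp.2
    have h3 : 0 ≤ |t| ^ (1 / k) := by positivity
    have h4 : Real.cos (φ + Real.pi / (2 * k)) * (‖z₀‖ / 2) * |t| ^ (1 / k) ≤
        Real.cos (φ + Real.pi / (2 * k)) * ‖w‖ * |t| ^ (1 / k) := by gcongr
    linarith

end Pool.Agent.D0H40.CX
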