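import Pool.Agent.D0H40.CX.InstQ
import Pool.Agent.D0H40.KX.CurveK3

/-! From the parameter `κ` to the variable `X`. -/

set_option autoImplicit false

namespace Pool.Agent.D0H40.CX

open Complex MeasureTheory Filter Topology Set
open Pool.Agent.D0H40.KX
open Pool.Agent.W189.ML (ser)
open Pool.Agent.W334.BSD (exists_log log_unique)
open scoped ComplexConjugate

variable {k σ : ℝ} {lam c : ℕ → ℝ} {G E : ℂ → ℂ}

/-- the modulus of the parameter -/
noncomputable def kx (k τ X : ℝ) : ℝ := qq τ * ((Real.log X) ^ (k - 1))⁻¹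

theorem kx_pos (k τ : ℝ) {X : ℝ} (hX : 1 < X) : 0 < kx k τ X := by
  unfold kx
  have := qq_pos τ
  have := Real.rpow_pos_of_pos (Real.log_pos hX) (k - 1)
  positivity

theorem qk_pow (hk : 1 < k) (τ : ℝ) : qk k τ ^ (k - 1) = qq τ := by
  have hk1 : 0 < k - 1 := by linarith
  unfold qk
  rw [← Real.rpow_mul (qq_pos τ).le, one_div, inv_mul_cancel₀ hk1.ne', Real.rpow_one]

theorem kx_pw (hk : 1 < k) (τ : ℝ) {X : ℝ} (hX : 1 < X) :
    kx k τ X ^ (-(1 / (k - 1))) = Real.log X / qk k τ := by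
  have hk1 : 0 < k - 1 := by linarith
  have hL := Real.log_pos hX
  have hq := qk_pos k τ
  unfold kx
  rw [← qk_pow hk, ← div_eq_mul_inv, ← Real.div_rpow hq.le hL.le, ← Real.rpow_mul (by positivity)]
  have e : (k - 1) * -(1 / (k - 1)) = -1 := by field_simp
  rw [e, Real.rpow_neg_one, inv_div]

theorem kx_le_one (hk : 1 < k) (τ : ℝ) : ∀ᶠ X : ℝ in atTop, kx k τ X ≤ 1 := by
  have hk1 : 0 < k - 1 := by linarith
  filter_upwards [Real.tendsto_log_atTop.eventually (eventually_ge_atTop (qk k τ))] with X hX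
  have hq := qk_pos k τ
  have h1 : qk k τ ^ (k - 1) ≤ (Real.log X) ^ (k - 1) := Real.rpow_le_rpow hq.le hX hk1.le
  rw [qk_pow hk] at h1
  unfold kx
  have h2 : 0 < (Real.log X) ^ (k - 1) := Real.rpow_pos_of_pos (by linarith) _
  rw [← div_eq_mul_inv, div_le_one h2]
  exact h1

/-- every small parameter comes from some `X` -/
theorem exists_X (hk : 1 < k) (τ : ℝ) {κ : ℝ} (hκ : 0 < κ) : ∃ X : ℝ, 1 < X ∧ kx k τ X = κ := by
  have hk1 : 0 < k - 1 := by linarith
  have hq := qk_pos k τ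
  set L : ℝ := qk k τ * κ ^ (-(1 / (k - 1))) with hL
  have hL0 : 0 < L := mul_pos hq (Real.rpow_pos_of_pos hκ _)
  refine ⟨Real.exp L, Real.one_lt_exp_iff.2 hL0, ?_⟩
  unfold kx
  rw [Real.log_exp, hL, Real.mul_rpow hq.le (Real.rpow_nonneg hκ.le _), qk_pow hk,
    ← Real.rpow_mul hκ.le]
  have e : -(1 / (k - 1)) * (k - 1) = -1 := by field_simp
  rw [e, Real.rpow_neg_one]
  have := (qq_pos τ).ne'
  field_simp

/-- large `X` correspond to small parameters -/
theorem small_of_large (hk : 1 < k) (τ X₀ : ℝ) : ∃ κ₀ : ℝ, 0 < κ₀ ∧ ∀ X : ℝ, 1 < X →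
    kx k τ X < κ₀ → X₀ ≤ X := by
  have hk1 : 0 < k - 1 := by linarith
  set Y : ℝ := max X₀ 2 with hY
  have hY1 : 1 < Y := lt_of_lt_of_le (by norm_num) (le_max_right _ _)
  refine ⟨kx k τ Y, kx_pos k τ hY1, fun X hX h => ?_⟩
  by_contra hc
  push Not at hc
  have hXY : X ≤ Y := hc.le.trans (le_max_left _ _)
  have h1 : Real.log X ≤ Real.log Y := Real.log_le_log (by linarith) hXY
  have h2 : (Real.log X) ^ (k - 1) ≤ (Real.log Y) ^ (k - 1) :=
    Real.rpow_le_rpow (Real.log_pos hX).le h1 hk1.le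
  have h3 : 0 < (Real.log X) ^ (k - 1) := Real.rpow_pos_of_pos (Real.log_pos hX) _
  have h4 : kx k τ Y ≤ kx k τ X := by
    unfold kx
    exact mul_le_mul_of_nonneg_left (inv_anti₀ h3 h2) (qq_pos τ).le
  linarith

/-- the exponential in terms of `X` -/
theorem exp_X (hk : 1 < k) (τ b : ℝ) {X : ℝ} (hX : 1 < X) :
    Real.exp (Ex k b * kx k τ X ^ (-(1 / (k - 1)))) = X ^ (Ex k b / qk k τ) := by
  rw [kx_pw hk τ hX, Real.rpow_def_of_pos (by linarith)]
  congr 1
  ring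

theorem Ex_cont (hk : 1 < k) : Continuous (Ex k) := by
  unfold Ex
  refine continuous_const.mul ?_
  refine Continuous.rpow_const (by fun_prop) fun x => Or.inr (kp_pos hk).le

/-- the growth in terms of `X` -/
theorem growth_X (hk : 1 < k) (S : Sys lam c) (τ : ℝ) {b : ℝ} (hb : 0 ≤ b) {W : ℝ → ℂ} {C₁ : ℝ}
    (hW : ∀ X : ℝ, 1 < X → ‖W X - fk lam c k (kap k τ (Real.log X))‖ ≤ C₁) :
    (∀ ε : ℝ, 0 < ε → ∀ᶠ X : ℝ in atTop, ‖W X‖ ≤ X ^ (Ex k b / qk k τ + ε)) ↔
      Growth lam c k (bt k τ) b := by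
  have hq := qk_pos k τ
  have hk1 : 0 < k - 1 := by linarith
  have hC₁ : 0 ≤ C₁ := (norm_nonneg _).trans (hW 2 (by norm_num))
  have hkb : ∀ X : ℝ, kap k τ (Real.log X) = kb k (bt k τ) (kx k τ X) := fun X => kap_kb hk τ _
  constructor
  · intro h b' hb'
    have hE := Ex_lt hk hb hb'
    set ε : ℝ := Ex k b' / qk k τ - Ex k b / qk k τ with hε
    have hε0 : 0 < ε := by
      rw [hε, ← sub_div]
      exact div_pos (by linarith) hq
    obtain ⟨X₀, hX₀⟩ := eventually_atTop.1 (h ε hε0)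
    obtain ⟨κ₀, hκ₀, hκ⟩ := small_of_large hk τ X₀
    obtain ⟨M, hM0, hM⟩ := fk_mid hk S (k_bt_lt hk τ) hκ₀
    refine ⟨1 + C₁ + M, by positivity, fun κ h1 h2 => ?_⟩
    have hE0 : 0 ≤ Ex k b' * κ ^ (-(1 / (k - 1))) :=
      mul_nonneg (Ex_nonneg hk (hb.trans hb'.le)) (Real.rpow_nonneg h1.le _)
    have he1 : 1 ≤ Real.exp (Ex k b' * κ ^ (-(1 / (k - 1)))) := Real.one_le_exp hE0
    rcases lt_or_ge κ κ₀ with h3 | h3
    · obtain ⟨X, hX, hXκ⟩ := exists_X hk τ h1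
      have h4 := hX₀ X (hκ X hX (by rw [hXκ]; exact h3))
      have h5 := hW X hX
      rw [hkb, hXκ] at h5
      have e : Ex k b / qk k τ + ε = Ex k b' / qk k τ := by rw [hε]; ring
      rw [e, ← exp_X hk τ b' hX, hXκ] at h4
      have h6 : ‖fk lam c k (kb k (bt k τ) κ)‖ ≤ ‖W X‖ + C₁ := by
        have := norm_sub_norm_le (fk lam c k (kb k (bt k τ) κ)) (W X)
        rw [norm_sub_rev] at this
        linarith
      have h7 : C₁ ≤ C₁ * Real.exp (Ex k b' * κ ^ (-(1 / (k - 1)))) := le_mul_of_one_le_right hC₁ he1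
      have h8 : 0 ≤ M * Real.exp (Ex k b' * κ ^ (-(1 / (k - 1)))) := by positivity
      linarith
    · have h4 := hM κ h3
      have h7 : M ≤ M * Real.exp (Ex k b' * κ ^ (-(1 / (k - 1)))) := le_mul_of_one_le_right hM0 he1
      have h8 : 0 ≤ (1 + C₁) * Real.exp (Ex k b' * κ ^ (-(1 / (k - 1)))) := by positivity
      linarith
  · intro h ε hε
    -- choose `b'`
    have hcont := (Ex_cont hk).continuousAt (x := b)
    have h1 : ∀ᶠ b' in 𝓝[>] b, Ex k b' < Ex k b + ε / 2 * qk k τ :=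
      (hcont.tendsto.mono_left nhdsWithin_le_nhds).eventually
        (eventually_lt_nhds (by linarith [mul_pos (half_pos hε) hq]))
    obtain ⟨b', h2, h3⟩ := (h1.and self_mem_nhdsWithin).exists
    obtain ⟨C, hC0, hC⟩ := h b' h3
    have h4 : Ex k b' / qk k τ ≤ Ex k b / qk k τ + ε / 2 := by
      rw [div_add' _ _ _ hq.ne']
      exact div_le_div_of_nonneg_right h2.le hq.le
    have hT : Tendsto (fun X : ℝ => X ^ (ε / 2)) atTop atTop := tendsto_rpow_atTop (by positivity)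
    filter_upwards [kx_le_one hk τ, eventually_gt_atTop (1:ℝ),
      hT.eventually (eventually_ge_atTop (C + C₁))] with X h5 h6 h7
    have h8 := hC _ (kx_pos k τ h6) h5
    rw [← hkb, exp_X hk τ b' h6] at h8
    have h9 := hW X h6
    have h10 : ‖W X‖ ≤ ‖fk lam c k (kap k τ (Real.log X))‖ + C₁ := by
      have := norm_sub_norm_le (W X) (fk lam c k (kap k τ (Real.log X)))
      linarith
    have hX0 : 0 < X := by linarith
    have h11 : X ^ (Ex k b' / qk k τ) ≤ X ^ (Ex k b / qk k τ + ε / 2) :=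
      Real.rpow_le_rpow_of_exponent_le h6.le h4
    have h12 : 1 ≤ X ^ (Ex k b / qk k τ + ε / 2) := Real.one_le_rpow h6.le (by
      have := div_nonneg (Ex_nonneg hk hb) hq.le
      positivity)
    calc ‖W X‖ ≤ C * X ^ (Ex k b' / qk k τ) + C₁ := by linarith
      _ ≤ C * X ^ (Ex k b / qk k τ + ε / 2) + C₁ * X ^ (Ex k b / qk k τ + ε / 2) :=
          add_le_add (mul_le_mul_of_nonneg_left h11 hC0) (le_mul_of_one_le_right hC₁ h12)
      _ = (C + C₁) * X ^ (Ex k b / qk k τ + ε / 2) := by ring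
      _ ≤ X ^ (ε / 2) * X ^ (Ex k b / qk k τ + ε / 2) := by gcongr
      _ = _ := by
          rw [← Real.rpow_add hX0]
          congr 1
          ring

/-- the parameter that belongs to a rate -/
theorem exists_b (hk : 1 < k) {y : ℝ} (hy : 0 ≤ y) : ∃ b : ℝ, 0 ≤ b ∧ Ex k b = y := by
  have hk1 : 0 < k - 1 := by linarith
  have hkp := kp_pos hk
  refine ⟨k * (y / (k - 1)) ^ (1 / kp k), by positivity, ?_⟩
  unfold Ex
  rw [mul_div_cancel_left₀ _ (by linarith : k ≠ 0), ← Real.rpow_mul (by positivity), one_div,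
    inv_mul_cancel₀ hkp.ne', Real.rpow_one]
  field_simp

/-- the rate in terms of the function `B` -/
theorem rate_B (hk : 1 < k) (τ : ℝ) {w : ℂ} (hw : w ∈ Sec k τ) :
    rate k τ w = Ex k (B k (conj (dl (bt k τ)) * w)) / qk k τ := by
  have hbf := bt_abs_lt hk τ
  have hz : conj (dl (bt k τ)) * w ∈ Sk k := (Os_Sk (by linarith) w).1 hw
  set z : ℂ := conj (dl (bt k τ)) * w with hzd
  have hwz : w = dl (bt k τ) * z := by
    rw [hzd]
    linear_combination (-w) * dl_mul_conj (bt k τ)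
  have h1 := rate_eq hk τ hz
  rw [← hwz, om_re] at h1
  have h2 : Ex k (B k z) = (k - 1) * Mz k z * Real.cos (kp k * arg z) := by
    have hc := cos_kp_pos hk hz.2
    have hkp := kp_pos hk
    have hn : 0 ≤ ‖z‖ := norm_nonneg z
    unfold Ex B Mz
    rw [mul_div_right_comm, Real.mul_rpow (by positivity) (Real.rpow_nonneg hc.le _),
      ← Real.rpow_mul hc.le, one_div, inv_mul_cancel₀ hkp.ne', Real.rpow_one]
    ring
  rw [h2, ← h1, mul_div_assoc, div_self (qk_pos k τ).ne', mul_one]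

/-- the region -/
theorem Hd_rate (hk : 1 < k) (τ : ℝ) {b : ℝ} (hb : 0 ≤ b) :
    Hd k (bt k τ) b = {w | w ∈ Sec k τ ∧ Ex k b / qk k τ < rate k τ w} := by
  have hbf := bt_abs_lt hk τ
  have hq := qk_pos k τ
  ext w
  constructor
  · intro hw
    have hs : w ∈ Sec k τ := (Os_Sk (by linarith) w).2 hw.1
    refine ⟨hs, ?_⟩
    rw [rate_B hk τ hs]
    exact div_lt_div_of_pos_right (Ex_lt hk hb hw.2) hq
  · rintro ⟨hs, hr⟩
    have hz : conj (dl (bt k τ)) * w ∈ Sk k := (Os_Sk (by linarith) w).1 hs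
    refine ⟨hz, ?_⟩
    rw [rate_B hk τ hs] at hr
    have h1 := (div_lt_div_iff_of_pos_right hq).1 hr
    by_contra hc
    push Not at hc
    have := Ex_mono hk (B_nonneg hk hz) hc
    linarith

/-- **Growth and continuation.** -/
theorem growth_cont (hk : 1 < k) (S : ESys lam c G E σ) (τ : ℝ) {η : ℝ} (hη : 0 ≤ η) {W : ℝ → ℂ} {C₁ : ℝ}
    (hW : ∀ X : ℝ, 1 < X → ‖W X - fk lam c k (kap k τ (Real.log X))‖ ≤ C₁) :
    (∀ ε : ℝ, 0 < ε → ∀ᶠ X : ℝ in atTop, ‖W X‖ ≤ X ^ (η + ε)) ↔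
      ∃ F : ℂ → ℂ, Cont E σ {w | w ∈ Sec k τ ∧ η < rate k τ w} F := by
  have hq := qk_pos k τ
  obtain ⟨b, hb, hEb⟩ := exists_b hk (mul_nonneg hη hq.le)
  have hη' : η = Ex k b / qk k τ := by
    rw [hEb, mul_div_assoc, div_self hq.ne', mul_one]
  rw [hη', growth_X hk S.sys τ hb hW, S.growth_iff hk (k_bt_lt hk τ) hb, Hd_rate hk τ hb]

end Pool.Agent.D0H40.CX
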