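import Pool.Agent.D0H40.CX.Trans

/-! The abstract theorems in the variable `X`. -/

set_option autoImplicit false

namespace Pool.Agent.D0H40.CX

open Complex MeasureTheory Filter Topology Set
open Pool.Agent.D0H40.KX
open Pool.Agent.W189.ML (ser)
open Pool.Agent.W334.BSD (exists_log log_unique)
open scoped ComplexConjugate

variable {k σ : ℝ} {lam c : ℕ → ℝ} {G E : ℂ → ℂ}

theorem log_kx (_hk : 1 < k) (τ : ℝ) {X : ℝ} (hX : 1 < X) :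
    Real.log (1 / kx k τ X) = (k - 1) * Real.log (Real.log X) - Real.log (qq τ) := by
  have hL := Real.log_pos hX
  have hp := Real.rpow_pos_of_pos hL (k - 1)
  have hq := qq_pos τ
  unfold kx
  rw [one_div, Real.log_inv, Real.log_mul hq.ne' (inv_pos.2 hp).ne', Real.log_inv, Real.log_rpow hL]
  ring

theorem qq_one (τ : ℝ) : 1 ≤ qq τ := by
  unfold qq
  rw [Real.one_le_sqrt]
  nlinarith [sq_nonneg τ]

/-- the law in the variable `X`, with an error `ε log log X + C` -/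
def XLaw (W : ℝ → ℂ) (k : ℝ) (r : ℂ) (ε C : ℝ) : Prop :=
  ∀ᶠ X : ℝ in atTop, ‖W X - (1 - 1 / k) * r * (Real.log (Real.log X) : ℝ)‖ ≤
    ε * Real.log (Real.log X) + C

theorem main_term (hk : 1 < k) (τ : ℝ) (r : ℂ) {X : ℝ} (hX : 1 < X) :
    (r / k) * (Real.log (1 / kx k τ X) : ℝ) =
      (1 - 1 / k) * r * (Real.log (Real.log X) : ℝ) - (r / k) * (Real.log (qq τ) : ℝ) := by
  rw [log_kx hk τ hX]
  have hkc : (k : ℂ) ≠ 0 := by exact_mod_cast (by linarith : k ≠ 0)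
  push_cast
  field_simp

/-- from `κ` to `X` -/
theorem Law.toX (hk : 1 < k) {τ : ℝ} {W : ℝ → ℂ} {C₁ : ℝ}
    (hW : ∀ X : ℝ, 1 < X → ‖W X - fk lam c k (kap k τ (Real.log X))‖ ≤ C₁) {r : ℂ} {ε C : ℝ}
    (hε : 0 ≤ ε) (h : Law lam c k (bt k τ) r ε C) :
    XLaw W k r (ε * (k - 1)) (C + C₁ + ‖r / k‖ * Real.log (qq τ)) := by
  have hlq : 0 ≤ Real.log (qq τ) := Real.log_nonneg (qq_one τ)
  filter_upwards [kx_le_one hk τ, eventually_gt_atTop (1:ℝ)] with X h1 h2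
  have h3 := h _ (kx_pos k τ h2) h1
  have h4 := hW X h2
  rw [kap_kb hk τ] at h4
  have h4' : ‖W X - fk lam c k (kb k (bt k τ) (kx k τ X))‖ ≤ C₁ := h4
  rw [main_term hk τ r h2, log_kx hk τ h2] at h3
  have e : W X - (1 - 1 / k) * r * (Real.log (Real.log X) : ℝ) =
      (W X - fk lam c k (kb k (bt k τ) (kx k τ X))) +
      (fk lam c k (kb k (bt k τ) (kx k τ X)) - ((1 - 1 / k) * r * (Real.log (Real.log X) : ℝ) -
        (r / k) * (Real.log (qq τ) : ℝ))) - (r / k) * (Real.log (qq τ) : ℝ) := by ring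
  rw [e]
  refine (norm_sub_le _ _).trans ?_
  refine (add_le_add (norm_add_le _ _) le_rfl).trans ?_
  rw [norm_mul _ ((Real.log (qq τ) : ℝ) : ℂ), Complex.norm_real, Real.norm_of_nonneg hlq]
  have h5 : 0 ≤ ε * Real.log (qq τ) := by positivity
  have h6 : ε * ((k - 1) * Real.log (Real.log X) - Real.log (qq τ)) =
      ε * (k - 1) * Real.log (Real.log X) - ε * Real.log (qq τ) := by ring
  linarith

/-- from `X` to `κ` -/
theorem XLaw.toK (hk : 1 < k) (S : Sys lam c) {τ : ℝ} {W : ℝ → ℂ} {C₁ : ℝ}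
    (hW : ∀ X : ℝ, 1 < X → ‖W X - fk lam c k (kap k τ (Real.log X))‖ ≤ C₁) {r : ℂ} {ε C : ℝ}
    (hε : 0 ≤ ε) (hC : 0 ≤ C) (h : XLaw W k r ε C) :
    ∃ C' : ℝ, 0 ≤ C' ∧ Law lam c k (bt k τ) r (ε / (k - 1)) C' := by
  have hk1 : 0 < k - 1 := by linarith
  have hC₁ : 0 ≤ C₁ := (norm_nonneg _).trans (hW 2 (by norm_num))
  have hlq : 0 ≤ Real.log (qq τ) := Real.log_nonneg (qq_one τ)
  obtain ⟨X₀, hX₀⟩ := eventually_atTop.1 h
  obtain ⟨κ₁, hκ₁, hκ⟩ := small_of_large hk τ X₀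
  obtain ⟨κ₀, hκ₀, hκ₀₁, hκ₀1⟩ : ∃ κ₀ : ℝ, 0 < κ₀ ∧ κ₀ ≤ κ₁ ∧ κ₀ ≤ 1 :=
    ⟨min κ₁ 1, lt_min hκ₁ one_pos, min_le_left _ _, min_le_right _ _⟩
  obtain ⟨M, hM0, hM⟩ := fk_mid hk S (k_bt_lt hk τ) hκ₀
  have hl0 := log_inv_nonneg hκ₀ hκ₀1
  refine ⟨(C + C₁ + ‖r / k‖ * Real.log (qq τ) + ε / (k - 1) * Real.log (qq τ)) +
    (M + ‖r / k‖ * Real.log (1 / κ₀)), by positivity, fun κ h1 h2 => ?_⟩
  have hlκ := log_inv_nonneg h1 h2
  rcases lt_or_ge κ κ₀ with h3 | h3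
  · obtain ⟨X, hX, hXκ⟩ := exists_X hk τ h1
    have h4 := hX₀ X (hκ X hX (by rw [hXκ]; linarith))
    have h5 := hW X hX
    rw [kap_kb hk τ] at h5
    have h5' : ‖W X - fk lam c k (kb k (bt k τ) (kx k τ X))‖ ≤ C₁ := h5
    have h6 := main_term hk τ r hX
    have h7 := log_kx hk τ hX
    rw [hXκ] at h5' h6 h7
    have e : fk lam c k (kb k (bt k τ) κ) - (r / k) * (Real.log (1 / κ) : ℝ) =
        -(W X - fk lam c k (kb k (bt k τ) κ)) + (W X - (1 - 1 / k) * r * (Real.log (Real.log X) : ℝ)) +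
          (r / k) * (Real.log (qq τ) : ℝ) := by
      rw [h6]
      ring
    rw [e]
    refine (norm_add_le _ _).trans ?_
    refine (add_le_add (norm_add_le _ _) le_rfl).trans ?_
    rw [norm_neg, norm_mul _ ((Real.log (qq τ) : ℝ) : ℂ), Complex.norm_real, Real.norm_of_nonneg hlq]
    have h8 : ε * Real.log (Real.log X) = ε / (k - 1) * Real.log (1 / κ) + ε / (k - 1) * Real.log (qq τ) := by
      rw [h7]
      field_simp
      ring
    have h9 : 0 ≤ M + ‖r / k‖ * Real.log (1 / κ₀) := by positivity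
    linarith
  · have h4 := hM κ h3
    have h5 : Real.log (1 / κ) ≤ Real.log (1 / κ₀) := by
      refine Real.log_le_log (by positivity) ?_
      exact one_div_le_one_div_of_le hκ₀ h3
    refine (norm_sub_le _ _).trans ?_
    rw [norm_mul _ ((Real.log (1 / κ) : ℝ) : ℂ), Complex.norm_real, Real.norm_of_nonneg hlκ]
    have h6 := mul_le_mul_of_nonneg_left h5 (norm_nonneg (r / k))
    have h7 : 0 ≤ ε / (k - 1) * Real.log (1 / κ) := by positivity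
    have h8 : 0 ≤ C + C₁ + ‖r / k‖ * Real.log (qq τ) + ε / (k - 1) * Real.log (qq τ) := by positivity
    linarith

/-- `ℓ` is a logarithm of `E` on the sector with `ℓ(w) = r log |w| + O(1)` at the vertex. -/
def OrdO (E : ℂ → ℂ) (σ θ φ : ℝ) (r : ℂ) (ℓ : ℂ → ℂ) : Prop :=
  DifferentiableOn ℂ ℓ (Os θ φ) ∧ (∀ w ∈ Os θ φ, σ < w.re → exp (ℓ w) = E w) ∧
    ∀ φ' < φ, ∃ C : ℝ, ∀ w ∈ Os θ φ', ‖w‖ ≤ 1 → ‖ℓ w - r * (Real.log ‖w‖ : ℝ)‖ ≤ C

/-- `ℓ` is a logarithm of `E` on the sector with `ℓ(w) = (r + o(1)) log |w|` at the vertex. -/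
def Ordo (E : ℂ → ℂ) (σ θ φ : ℝ) (r : ℂ) (ℓ : ℂ → ℂ) : Prop :=
  DifferentiableOn ℂ ℓ (Os θ φ) ∧ (∀ w ∈ Os θ φ, σ < w.re → exp (ℓ w) = E w) ∧
    ∀ φ' < φ, ∀ ε > 0, ∃ C : ℝ, ∀ w ∈ Os θ φ', ‖w‖ ≤ 1 →
      ‖ℓ w - r * (Real.log ‖w‖ : ℝ)‖ ≤ ε * Real.log (1 / ‖w‖) + C

/-- the sum and the Euler product -/
structure Data (W : ℝ → ℝ → ℝ → ℂ) (lam c : ℕ → ℝ) (G E : ℂ → ℂ) (σ : ℝ) : Prop where
  S : ESys lam c G E σ
  tr : ∀ k : ℝ, 1 < k → ∃ C : ℝ, ∀ τ X : ℝ, 1 < X → ‖W k τ X - fk lam c k (kap k τ (Real.log X))‖ ≤ C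

variable {W : ℝ → ℝ → ℝ → ℂ}

theorem Os_neg {θ φ : ℝ} (h : φ ≤ 0) (w : ℂ) : w ∉ Os θ φ := by
  rintro ⟨-, h2⟩
  have := abs_nonneg (arg w - θ)
  linarith

/-- **From the law to the logarithm.** -/
theorem Data.toO (D : Data W lam c G E σ) (hk : 1 < k) (τ : ℝ) {r : ℂ}
    (h : ∃ C : ℝ, XLaw (W k τ) k r 0 C) : ∃ ℓ : ℂ → ℂ, OrdO E σ (bt k τ) (fc k) r ℓ := by
  obtain ⟨C₁, hC₁⟩ := D.tr k hk
  obtain ⟨C, hC⟩ := h
  have hC' : XLaw (W k τ) k r 0 |C| := by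
    filter_upwards [hC] with X hX
    exact hX.trans (by linarith [le_abs_self C])
  obtain ⟨C', hC'0, hL⟩ := hC'.toK hk D.S.sys (hC₁ τ) le_rfl (abs_nonneg C)
  rw [zero_div] at hL
  obtain ⟨ℓ, h1, h2, h3⟩ := D.S.law_to_log hk (k_bt_lt hk τ) r hC'0 hL
  refine ⟨ℓ, h1, h2, fun φ' hφ' => ?_⟩
  rcases le_or_gt φ' 0 with h0 | h0
  · exact ⟨0, fun w hw => absurd hw (Os_neg h0 w)⟩
  · obtain ⟨K, -, hK⟩ := h3 φ' h0.le hφ'
    obtain ⟨C₂, -, hC₂⟩ := hK 0 C' le_rfl hC'0 hL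
    refine ⟨C₂, fun w hw hw1 => ?_⟩
    have := hC₂ w hw hw1
    rwa [mul_zero, zero_mul, zero_add] at this

/-- **From the weak law to the logarithm.** -/
theorem Data.too (D : Data W lam c G E σ) (hk : 1 < k) (τ : ℝ) {r : ℂ}
    (h : ∀ ε > 0, ∃ C : ℝ, XLaw (W k τ) k r ε C) : ∃ ℓ : ℂ → ℂ, Ordo E σ (bt k τ) (fc k) r ℓ := by
  obtain ⟨C₁, hC₁⟩ := D.tr k hk
  have hk1 : 0 < k - 1 := by linarith
  have hLaw : ∀ ε > 0, ∃ C' : ℝ, 0 ≤ C' ∧ Law lam c k (bt k τ) r ε C' := by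
    intro ε hε
    obtain ⟨C, hC⟩ := h (ε * (k - 1)) (by positivity)
    have hC' : XLaw (W k τ) k r (ε * (k - 1)) |C| := by
      filter_upwards [hC] with X hX
      exact hX.trans (by linarith [le_abs_self C])
    obtain ⟨C', hC'0, hL⟩ := hC'.toK hk D.S.sys (hC₁ τ) (by positivity) (abs_nonneg C)
    rw [mul_div_assoc, div_self hk1.ne', mul_one] at hL
    exact ⟨C', hC'0, hL⟩
  obtain ⟨C₀, hC₀, hL₀⟩ := hLaw 1 one_pos
  obtain ⟨ℓ, h1, h2, h3⟩ := D.S.law_to_log hk (k_bt_lt hk τ) r hC₀ hL₀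
  refine ⟨ℓ, h1, h2, fun φ' hφ' ε hε => ?_⟩
  rcases le_or_gt φ' 0 with h0 | h0
  · exact ⟨0, fun w hw => absurd hw (Os_neg h0 w)⟩
  · obtain ⟨K, hK0, hK⟩ := h3 φ' h0.le hφ'
    obtain ⟨C', hC'0, hL⟩ := hLaw (ε / (K + 1)) (by positivity)
    obtain ⟨C₂, -, hC₂⟩ := hK _ C' (by positivity) hC'0 hL
    refine ⟨C₂, fun w hw hw1 => (hC₂ w hw hw1).trans ?_⟩
    have h4 : K * (ε / (K + 1)) ≤ ε := by
      rw [← mul_div_assoc, div_le_iff₀ (by linarith)]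
      nlinarith
    have h5 : 0 ≤ Real.log (1 / ‖w‖) := log_inv_nonneg (norm_pos_iff.2 hw.1) hw1
    have := mul_le_mul_of_nonneg_right h4 h5
    linarith

/-- **From the logarithm to the law.** -/
theorem Data.ofO (D : Data W lam c G E σ) {θ φ : ℝ} (hφ : |θ| + φ ≤ Real.pi / 2) {r : ℂ} {ℓ : ℂ → ℂ}
    (h : OrdO E σ θ φ r ℓ) (hk : 1 < k) (τ : ℝ) (hin : |bt k τ - θ| + fc k < φ) :
    ∃ C : ℝ, XLaw (W k τ) k r 0 C := by
  obtain ⟨C₁, hC₁⟩ := D.tr k hk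
  obtain ⟨φ', K, hφ'0, hφ', -, hK⟩ := D.S.log_to_law hk (k_bt_lt hk τ) r hφ hin h.1 h.2.1
  obtain ⟨C, hC⟩ := h.2.2 φ' hφ'
  obtain ⟨C', -, hL⟩ := hK 0 |C| 1 le_rfl (abs_nonneg C) one_pos le_rfl (fun w hw hw1 => by
    rw [zero_mul, zero_add]
    exact (hC w hw hw1).trans (le_abs_self C))
  have := hL.toX hk (hC₁ τ) (by rw [mul_zero])
  rw [mul_zero, zero_mul] at this
  exact ⟨_, this⟩

/-- **From the logarithm to the weak law.** -/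
theorem Data.ofo (D : Data W lam c G E σ) {θ φ : ℝ} (hφ : |θ| + φ ≤ Real.pi / 2) {r : ℂ} {ℓ : ℂ → ℂ}
    (h : Ordo E σ θ φ r ℓ) (hk : 1 < k) (τ : ℝ) (hin : |bt k τ - θ| + fc k < φ) :
    ∀ ε > 0, ∃ C : ℝ, XLaw (W k τ) k r ε C := by
  intro ε hε
  have hk1 : 0 < k - 1 := by linarith
  obtain ⟨C₁, hC₁⟩ := D.tr k hk
  obtain ⟨φ', K, hφ'0, hφ', hK0, hK⟩ := D.S.log_to_law hk (k_bt_lt hk τ) r hφ hin h.1 h.2.1
  set ε' : ℝ := ε / ((K + 1) * (k - 1)) with hε'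
  have hε'0 : 0 < ε' := by positivity
  obtain ⟨C, hC⟩ := h.2.2 φ' hφ' ε' hε'0
  obtain ⟨C', -, hL⟩ := hK ε' |C| 1 hε'0.le (abs_nonneg C) one_pos le_rfl (fun w hw hw1 =>
    (hC w hw hw1).trans (by linarith [le_abs_self C]))
  have h1 := hL.toX hk (hC₁ τ) (by positivity)
  refine ⟨C' + C₁ + ‖r / k‖ * Real.log (qq τ), ?_⟩
  have h2 : K * ε' * (k - 1) ≤ ε := by
    have e : K * ε' * (k - 1) = ε * (K / (K + 1)) := by
      rw [hε']
      field_simp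
    rw [e]
    refine mul_le_of_le_one_right hε.le ?_
    rw [div_le_one (by linarith)]
    linarith
  filter_upwards [h1, Real.tendsto_log_atTop.eventually (eventually_ge_atTop 1)] with X h3 h4
  have h5 : 0 ≤ Real.log (Real.log X) := Real.log_nonneg h4
  have := mul_le_mul_of_nonneg_right h2 h5
  linarith

/-- uniqueness of the logarithm up to a constant -/
theorem log_const {U : Set ℂ} (hU : Dom U) {f g : ℂ → ℂ} (hf : DifferentiableOn ℂ f U)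
    (hg : DifferentiableOn ℂ g U) (hfE : ∀ w ∈ U, σ < w.re → exp (f w) = E w)
    (hgE : ∀ w ∈ U, σ < w.re → exp (g w) = E w) : ∃ κ : ℂ, ∀ w ∈ U, f w = g w + κ := by
  by_cases hne : U.Nonempty
  · obtain ⟨p, hp⟩ := hne
    obtain ⟨r, hr1, hr2, hr3⟩ := hU.far hp σ
    have hu := log_unique (hU.op.inter (re_open σ)) (hU.cv.inter (re_conv σ)).isPreconnected
      (hf.mono inter_subset_left) (hg.mono inter_subset_left) (fun q hq => by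
        rw [hfE q hq.1 hq.2, hgE q hq.1 hq.2]) (p := (r : ℂ) * p) ⟨hr2, hr3⟩
    refine ⟨f ((r : ℂ) * p) - g ((r : ℂ) * p), fun w hw => ?_⟩
    refine hU.ident' (M := σ) (f := f) (g := fun w => g w + (f ((r : ℂ) * p) - g ((r : ℂ) * p)))
      hf (hg.add_const _) (fun v hv hvσ => ?_) hw
    have := hu v ⟨hv, hvσ⟩
    linear_combination this
  · exact ⟨0, fun w hw => absurd ⟨w, hw⟩ hne⟩

/-- the sectors of all directions cover the closed subsectors of the half-plane -/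
theorem cover_dir (hk : 1 < k) {φ' : ℝ} (hφ' : φ' < Real.pi / 2) :
    ∃ (φ₁ : ℝ) (T : Finset ℝ), φ₁ < fc k ∧ ∀ θ : ℝ, |θ| < φ' → ∃ τ ∈ T, |θ - bt k τ| < φ₁ := by
  have hpi := Real.pi_pos
  have ha : 0 < 1 - 1 / k := by linarith [(inv_k hk).2]
  obtain ⟨φ'', h1, h2⟩ := exists_between hφ'
  have hφ1 : φ'' * (1 - 1 / k) < fc k := by
    unfold fc
    exact mul_lt_mul_of_pos_right h2 ha
  have hcomp : IsCompact (Icc (-φ') φ') := isCompact_Icc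
  obtain ⟨T, hT⟩ := hcomp.elim_finite_subcover
    (fun τ : ℝ => {θ : ℝ | |θ - bt k τ| < φ'' * (1 - 1 / k)})
    (fun τ => isOpen_lt (by fun_prop) continuous_const) (by
      intro θ hθ
      have h3 : |θ| ≤ φ' := abs_le.2 hθ
      refine mem_iUnion.2 ⟨Real.tan θ, ?_⟩
      show |θ - bt k (Real.tan θ)| < φ'' * (1 - 1 / k)
      have h4 : |θ| < Real.pi / 2 := by linarith
      have h5 := abs_lt.1 h4
      unfold bt
      rw [Real.arctan_tan h5.1 h5.2]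
      have e : θ - θ / k = θ * (1 - 1 / k) := by ring
      rw [e, abs_mul, abs_of_pos ha]
      exact mul_lt_mul_of_pos_right (by linarith) ha)
  refine ⟨φ'' * (1 - 1 / k), T, hφ1, fun θ hθ => ?_⟩
  have h3 := hT (show θ ∈ Icc (-φ') φ' from abs_le.1 hθ.le)
  simp only [mem_iUnion] at h3
  obtain ⟨τ, hτ1, hτ2⟩ := h3
  exact ⟨τ, hτ1, hτ2⟩

/-- every closed subsector of the half-plane is in the sector of some exponent -/
theorem cover_exp {φ' : ℝ} (hφ' : φ' < Real.pi / 2) : ∃ k : ℝ, 1 < k ∧ φ' < fc k := by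
  have hpi := Real.pi_pos
  obtain ⟨φ'', h1, h2⟩ := exists_between (max_lt hφ' (show (0:ℝ) < Real.pi / 2 by positivity))
  obtain ⟨k, hk, hfk⟩ := exists_fc ((le_max_right _ _).trans_lt h1) h2
  exact ⟨k, hk, by rw [hfk]; exact (le_max_left _ _).trans_lt h1⟩

/-- logarithms on a covering family of sectors give one on the half-plane -/
theorem glue_log {ι : Type} (θ φ : ι → ℝ) (h0 : ∀ i, 0 < φ i) (hφ : ∀ i, |θ i| + φ i ≤ Real.pi / 2)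
    (hcov : ∀ w : ℂ, 0 < w.re → ∃ i, w ∈ Os (θ i) (φ i)) (ℓ : ι → ℂ → ℂ)
    (h1 : ∀ i, DifferentiableOn ℂ (ℓ i) (Os (θ i) (φ i)))
    (h2 : ∀ i, ∀ w ∈ Os (θ i) (φ i), σ < w.re → exp (ℓ i w) = E w) :
    ∃ L : ℂ → ℂ, DifferentiableOn ℂ L (Os 0 (Real.pi / 2)) ∧
      (∀ w ∈ Os 0 (Real.pi / 2), σ < w.re → exp (L w) = E w) ∧
      ∀ i, ∃ κ : ℂ, ∀ w ∈ Os (θ i) (φ i), L w = ℓ i w + κ := by
  have hpi := Real.pi_pos
  have hdom : ∀ i, Dom (Os (θ i) (φ i)) := fun i => Os_dom' (h0 i) (hφ i)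
  obtain ⟨F, hF1, hF2, hF3⟩ := glue (E := E) (σ := σ) hdom (fun i => ⟨fun w => exp (ℓ i w), (h1 i).cexp,
    fun w _ => Complex.exp_ne_zero _, h2 i⟩)
  have hsub : Os 0 (Real.pi / 2) ⊆ ⋃ i, Os (θ i) (φ i) := by
    intro w hw
    rw [Os_half] at hw
    exact mem_iUnion.2 (hcov w hw)
  have hD : Dom (Os 0 (Real.pi / 2)) := Os_dom' (by positivity) (by simp)
  have hne : (Os 0 (Real.pi / 2)).Nonempty := ⟨1, by
    rw [Os_half]
    simp⟩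
  obtain ⟨L, hL1, hL2⟩ := exists_log hD.op hD.cv hne (hF1.mono hsub) (fun w hw => hF2 w (hsub hw))
  have hLE : ∀ w ∈ Os 0 (Real.pi / 2), σ < w.re → exp (L w) = E w := fun w hw hwσ => by
    rw [hL2 w hw, hF3 w (hsub hw) hwσ]
  refine ⟨L, hL1, hLE, fun i => ?_⟩
  have hs : Os (θ i) (φ i) ⊆ Os 0 (Real.pi / 2) := Os_mono (by rw [sub_zero]; exact hφ i)
  exact log_const (hdom i) (hL1.mono hs) (h1 i) (fun w hw hwσ => hLE w (hs hw) hwσ) (h2 i)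

end Pool.Agent.D0H40.CX
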