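import Pool.Agent.D0H40.CX.Trans2

/-! The abstract theorems. -/

set_option autoImplicit false

namespace Pool.Agent.D0H40.CX

open Complex MeasureTheory Filter Topology Set
open Pool.Agent.D0H40.KX
open Pool.Agent.W189.ML (ser)
open Pool.Agent.W334.BSD (exists_log log_unique)
open scoped ComplexConjugate

variable {k σ : ℝ} {lam c : ℕ → ℝ} {G E : ℂ → ℂ} {W : ℝ → ℝ → ℝ → ℂ}

/-- the bounds at the vertex on all closed subsectors, for the `ε` in `A` -/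
def VB (A : Set ℝ) (θ φ : ℝ) (r : ℂ) (ℓ : ℂ → ℂ) : Prop :=
  ∀ φ' < φ, ∀ ε ∈ A, ∃ C : ℝ, ∀ w ∈ Os θ φ', ‖w‖ ≤ 1 →
    ‖ℓ w - r * (Real.log ‖w‖ : ℝ)‖ ≤ ε * Real.log (1 / ‖w‖) + C

theorem glue_VB {ι : Type} (A : Set ℝ) {r : ℂ} (θ φ : ι → ℝ) (h0 : ∀ i, 0 < φ i)
    (hφ : ∀ i, |θ i| + φ i ≤ Real.pi / 2)
    (hcov : ∀ w : ℂ, 0 < w.re → ∃ i, w ∈ Os (θ i) (φ i)) (ℓ : ι → ℂ → ℂ)
    (h1 : ∀ i, DifferentiableOn ℂ (ℓ i) (Os (θ i) (φ i)))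
    (h2 : ∀ i, ∀ w ∈ Os (θ i) (φ i), σ < w.re → exp (ℓ i w) = E w)
    (h3 : ∀ i, VB A (θ i) (φ i) r (ℓ i))
    (hcov' : ∀ φ' < Real.pi / 2, ∃ (T : Finset ι) (ψ : ι → ℝ), (∀ i ∈ T, ψ i < φ i) ∧
      ∀ w ∈ Os 0 φ', ∃ i ∈ T, w ∈ Os (θ i) (ψ i)) :
    ∃ L : ℂ → ℂ, DifferentiableOn ℂ L (Os 0 (Real.pi / 2)) ∧
      (∀ w ∈ Os 0 (Real.pi / 2), σ < w.re → exp (L w) = E w) ∧ VB A 0 (Real.pi / 2) r L := by
  classical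
  obtain ⟨L, hL1, hL2, hL3⟩ := glue_log θ φ h0 hφ hcov ℓ h1 h2
  choose κ hκ using hL3
  refine ⟨L, hL1, hL2, fun φ' hφ' ε hε => ?_⟩
  obtain ⟨T, ψ, hψ, hT⟩ := hcov' φ' hφ'
  have hb : ∀ i : ι, ∃ C : ℝ, i ∈ T → ∀ w ∈ Os (θ i) (ψ i), ‖w‖ ≤ 1 →
      ‖ℓ i w - r * (Real.log ‖w‖ : ℝ)‖ ≤ ε * Real.log (1 / ‖w‖) + C := by
    intro i
    by_cases hi : i ∈ T
    · obtain ⟨C, hC⟩ := h3 i (ψ i) (hψ i hi) ε hε
      exact ⟨C, fun _ => hC⟩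
    · exact ⟨0, fun h => absurd h hi⟩
  choose C hC using hb
  refine ⟨∑ i ∈ T, (|C i| + ‖κ i‖), fun w hw hw1 => ?_⟩
  obtain ⟨i, hi, hwi⟩ := hT w hw
  have hwφ : w ∈ Os (θ i) (φ i) := ⟨hwi.1, hwi.2.trans (hψ i hi)⟩
  have h4 := hC i hi w hwi hw1
  have e : L w - r * (Real.log ‖w‖ : ℝ) = (ℓ i w - r * (Real.log ‖w‖ : ℝ)) + κ i := by
    rw [hκ i w hwφ]
    ring
  rw [e]
  have h5 : |C i| + ‖κ i‖ ≤ ∑ i ∈ T, (|C i| + ‖κ i‖) :=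
    Finset.single_le_sum (f := fun i => |C i| + ‖κ i‖) (fun j _ => by positivity) hi
  have h6 := norm_add_le (ℓ i w - r * (Real.log ‖w‖ : ℝ)) (κ i)
  have h7 := le_abs_self (C i)
  linarith

theorem OrdO_iff (θ φ : ℝ) (r : ℂ) (ℓ : ℂ → ℂ) : OrdO E σ θ φ r ℓ ↔
    DifferentiableOn ℂ ℓ (Os θ φ) ∧ (∀ w ∈ Os θ φ, σ < w.re → exp (ℓ w) = E w) ∧ VB {0} θ φ r ℓ := by
  unfold OrdO VB
  simp

theorem Ordo_iff (θ φ : ℝ) (r : ℂ) (ℓ : ℂ → ℂ) : Ordo E σ θ φ r ℓ ↔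
    DifferentiableOn ℂ ℓ (Os θ φ) ∧ (∀ w ∈ Os θ φ, σ < w.re → exp (ℓ w) = E w) ∧
      VB (Ioi 0) θ φ r ℓ := by
  unfold Ordo VB
  simp

theorem cov_exp1 (w : ℂ) (hw : 0 < w.re) : ∃ i : {k : ℝ // 1 < k}, w ∈ Os 0 (fc i.1) := by
  obtain ⟨k, h1, h2⟩ := ((mem_sec_large hw).and (eventually_gt_atTop 1)).exists
  refine ⟨⟨k, h2⟩, h1.1, ?_⟩
  have := h1.2
  rwa [bt_zero] at this

theorem cov_exp2 (φ' : ℝ) (hφ' : φ' < Real.pi / 2) : ∃ (T : Finset {k : ℝ // 1 < k})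
    (ψ : {k : ℝ // 1 < k} → ℝ), (∀ i ∈ T, ψ i < fc i.1) ∧ ∀ w ∈ Os 0 φ', ∃ i ∈ T, w ∈ Os 0 (ψ i) := by
  obtain ⟨k, hk, h1⟩ := cover_exp hφ'
  refine ⟨{⟨k, hk⟩}, fun _ => φ', fun i hi => ?_, fun w hw => ⟨⟨k, hk⟩, by simp, hw⟩⟩
  rw [Finset.mem_singleton] at hi
  rw [hi]
  exact h1

theorem cov_dir1 (hk : 1 < k) (w : ℂ) (hw : 0 < w.re) : ∃ τ : ℝ, w ∈ Os (bt k τ) (fc k) :=
  mem_sec_dir hk hw

theorem cov_dir2 (hk : 1 < k) (φ' : ℝ) (hφ' : φ' < Real.pi / 2) : ∃ (T : Finset ℝ)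
    (ψ : ℝ → ℝ), (∀ i ∈ T, ψ i < fc k) ∧ ∀ w ∈ Os 0 φ', ∃ τ ∈ T, w ∈ Os (bt k τ) (ψ τ) := by
  obtain ⟨φ₁, T, h1, h2⟩ := cover_dir hk hφ'
  refine ⟨T, fun _ => φ₁, fun _ _ => h1, fun w hw => ?_⟩
  have h3 := hw.2
  rw [sub_zero] at h3
  obtain ⟨τ, hτ, h4⟩ := h2 (arg w) h3
  exact ⟨τ, hτ, hw.1, h4⟩

/-- **All exponents.** -/
theorem Data.allO (D : Data W lam c G E σ) (r : ℂ) :
    (∀ k : ℝ, 1 < k → ∃ C : ℝ, XLaw (W k 0) k r 0 C) ↔ ∃ ℓ : ℂ → ℂ, OrdO E σ 0 (Real.pi / 2) r ℓ := by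
  constructor
  · intro h
    have h1 : ∀ i : {k : ℝ // 1 < k}, ∃ ℓ : ℂ → ℂ, OrdO E σ 0 (fc i.1) r ℓ := fun i => by
      have := D.toO i.2 0 (h i.1 i.2)
      rwa [bt_zero] at this
    choose ℓ hℓ using h1
    obtain ⟨L, hL⟩ := glue_VB (E := E) (σ := σ) {0} (r := r) (fun _ : {k : ℝ // 1 < k} => (0 : ℝ))
      (fun i => fc i.1) (fun i => fc_pos i.2) (fun i => by
        have := fc_lt i.2
        simp only [abs_zero]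
        linarith) cov_exp1 ℓ (fun i => (hℓ i).1) (fun i => (hℓ i).2.1)
      (fun i => ((OrdO_iff _ _ _ _).1 (hℓ i)).2.2) cov_exp2
    exact ⟨L, (OrdO_iff _ _ _ _).2 hL⟩
  · rintro ⟨ℓ, hℓ⟩ k hk
    refine D.ofO (by simp) hℓ hk 0 ?_
    rw [bt_zero, sub_zero, abs_zero, zero_add]
    exact fc_lt hk

theorem Data.allo (D : Data W lam c G E σ) (r : ℂ) :
    (∀ k : ℝ, 1 < k → ∀ ε > 0, ∃ C : ℝ, XLaw (W k 0) k r ε C) ↔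
      ∃ ℓ : ℂ → ℂ, Ordo E σ 0 (Real.pi / 2) r ℓ := by
  constructor
  · intro h
    have h1 : ∀ i : {k : ℝ // 1 < k}, ∃ ℓ : ℂ → ℂ, Ordo E σ 0 (fc i.1) r ℓ := fun i => by
      have := D.too i.2 0 (h i.1 i.2)
      rwa [bt_zero] at this
    choose ℓ hℓ using h1
    obtain ⟨L, hL⟩ := glue_VB (E := E) (σ := σ) (Ioi 0) (r := r) (fun _ : {k : ℝ // 1 < k} => (0 : ℝ))
      (fun i => fc i.1) (fun i => fc_pos i.2) (fun i => by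
        have := fc_lt i.2
        simp only [abs_zero]
        linarith) cov_exp1 ℓ (fun i => (hℓ i).1) (fun i => (hℓ i).2.1)
      (fun i => ((Ordo_iff _ _ _ _).1 (hℓ i)).2.2) cov_exp2
    exact ⟨L, (Ordo_iff _ _ _ _).2 hL⟩
  · rintro ⟨ℓ, hℓ⟩ k hk
    refine D.ofo (by simp) hℓ hk 0 ?_
    rw [bt_zero, sub_zero, abs_zero, zero_add]
    exact fc_lt hk

/-- **All directions.** -/
theorem Data.dirO (D : Data W lam c G E σ) (hk : 1 < k) (r : ℂ) :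
    (∀ τ : ℝ, ∃ C : ℝ, XLaw (W k τ) k r 0 C) ↔ ∃ ℓ : ℂ → ℂ, OrdO E σ 0 (Real.pi / 2) r ℓ := by
  constructor
  · intro h
    have h1 : ∀ τ : ℝ, ∃ ℓ : ℂ → ℂ, OrdO E σ (bt k τ) (fc k) r ℓ := fun τ => D.toO hk τ (h τ)
    choose ℓ hℓ using h1
    obtain ⟨L, hL⟩ := glue_VB (E := E) (σ := σ) {0} (r := r) (fun τ => bt k τ)
      (fun _ => fc k) (fun _ => fc_pos hk) (fun τ => (bt_abs_lt hk τ).le) (cov_dir1 hk) ℓ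
      (fun i => (hℓ i).1) (fun i => (hℓ i).2.1)
      (fun i => ((OrdO_iff _ _ _ _).1 (hℓ i)).2.2) (cov_dir2 hk)
    exact ⟨L, (OrdO_iff _ _ _ _).2 hL⟩
  · rintro ⟨ℓ, hℓ⟩ τ
    refine D.ofO (by simp) hℓ hk τ ?_
    rw [sub_zero]
    exact bt_abs_lt hk τ

theorem Data.diro (D : Data W lam c G E σ) (hk : 1 < k) (r : ℂ) :
    (∀ τ : ℝ, ∀ ε > 0, ∃ C : ℝ, XLaw (W k τ) k r ε C) ↔
      ∃ ℓ : ℂ → ℂ, Ordo E σ 0 (Real.pi / 2) r ℓ := by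
  constructor
  · intro h
    have h1 : ∀ τ : ℝ, ∃ ℓ : ℂ → ℂ, Ordo E σ (bt k τ) (fc k) r ℓ := fun τ => D.too hk τ (h τ)
    choose ℓ hℓ using h1
    obtain ⟨L, hL⟩ := glue_VB (E := E) (σ := σ) (Ioi 0) (r := r) (fun τ => bt k τ)
      (fun _ => fc k) (fun _ => fc_pos hk) (fun τ => (bt_abs_lt hk τ).le) (cov_dir1 hk) ℓ
      (fun i => (hℓ i).1) (fun i => (hℓ i).2.1)
      (fun i => ((Ordo_iff _ _ _ _).1 (hℓ i)).2.2) (cov_dir2 hk)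
    exact ⟨L, (Ordo_iff _ _ _ _).2 hL⟩
  · rintro ⟨ℓ, hℓ⟩ τ
    refine D.ofo (by simp) hℓ hk τ ?_
    rw [sub_zero]
    exact bt_abs_lt hk τ

/-- the exponent can be chosen for a given sector -/
theorem choose_k {θ φ : ℝ} (h0 : 0 < φ) (hφ : |θ| + φ ≤ Real.pi / 2) :
    ∃ k τ : ℝ, 1 < k ∧ |bt k τ - θ| + fc k < φ := by
  have hpi := Real.pi_pos
  have hθ : |θ| < Real.pi / 2 := by linarith
  -- `k θ` has to be smaller than a right angle and `fc k < φ`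
  have h1 : ∀ᶠ k : ℝ in 𝓝[>] 1, |k * θ| < Real.pi / 2 := by
    have hc : ContinuousAt (fun k : ℝ => |k * θ|) 1 := by fun_prop
    have : |(1:ℝ) * θ| < Real.pi / 2 := by rwa [one_mul]
    exact (hc.tendsto.mono_left nhdsWithin_le_nhds).eventually (eventually_lt_nhds this)
  have h2 : ∀ᶠ k : ℝ in 𝓝[>] 1, fc k < φ := by
    have hc : ContinuousAt fc 1 := by
      unfold fc
      have : (1:ℝ) ≠ 0 := one_ne_zero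
      fun_prop (disch := assumption)
    have : fc 1 < φ := by
      unfold fc
      simpa using h0
    exact (hc.tendsto.mono_left nhdsWithin_le_nhds).eventually (eventually_lt_nhds this)
  obtain ⟨k, h3, h4, h5⟩ := (h1.and (h2.and self_mem_nhdsWithin)).exists
  have hk : 1 < k := h5
  refine ⟨k, Real.tan (k * θ), hk, ?_⟩
  have h6 := abs_lt.1 h3
  have e : bt k (Real.tan (k * θ)) = θ := by
    unfold bt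
    rw [Real.arctan_tan h6.1 h6.2]
    field_simp
  rw [e, sub_self, abs_zero, zero_add]
  exact h4

/-- **Some exponent and direction.** -/
theorem Data.someO (D : Data W lam c G E σ) (r : ℂ) :
    (∃ k τ : ℝ, 1 < k ∧ ∃ C : ℝ, XLaw (W k τ) k r 0 C) ↔
      ∃ θ φ : ℝ, 0 < φ ∧ |θ| + φ ≤ Real.pi / 2 ∧ ∃ ℓ : ℂ → ℂ, OrdO E σ θ φ r ℓ := by
  constructor
  · rintro ⟨k, τ, hk, h⟩
    exact ⟨bt k τ, fc k, fc_pos hk, (bt_abs_lt hk τ).le, D.toO hk τ h⟩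
  · rintro ⟨θ, φ, h0, hφ, ℓ, hℓ⟩
    obtain ⟨k, τ, hk, hin⟩ := choose_k h0 hφ
    exact ⟨k, τ, hk, D.ofO hφ hℓ hk τ hin⟩

theorem Data.someo (D : Data W lam c G E σ) (r : ℂ) :
    (∃ k τ : ℝ, 1 < k ∧ ∀ ε > 0, ∃ C : ℝ, XLaw (W k τ) k r ε C) ↔
      ∃ θ φ : ℝ, 0 < φ ∧ |θ| + φ ≤ Real.pi / 2 ∧ ∃ ℓ : ℂ → ℂ, Ordo E σ θ φ r ℓ := by
  constructor
  · rintro ⟨k, τ, hk, h⟩
    exact ⟨bt k τ, fc k, fc_pos hk, (bt_abs_lt hk τ).le, D.too hk τ h⟩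
  · rintro ⟨θ, φ, h0, hφ, ℓ, hℓ⟩
    obtain ⟨k, τ, hk, hin⟩ := choose_k h0 hφ
    exact ⟨k, τ, hk, D.ofo hφ hℓ hk τ hin⟩

/-- **Growth.** -/
theorem Data.growth (D : Data W lam c G E σ) (hk : 1 < k) (τ : ℝ) {η : ℝ} (hη : 0 ≤ η) :
    (∀ ε : ℝ, 0 < ε → ∀ᶠ X : ℝ in atTop, ‖W k τ X‖ ≤ X ^ (η + ε)) ↔
      ∃ F : ℂ → ℂ, Cont E σ {w | w ∈ Sec k τ ∧ η < rate k τ w} F := by
  obtain ⟨C₁, hC₁⟩ := D.tr k hk
  exact growth_cont hk D.S τ hη (hC₁ τ)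

theorem sec_zero (hk : 1 < k) (τ : ℝ) : {w | w ∈ Sec k τ ∧ 0 < rate k τ w} = Os (bt k τ) (fc k) := by
  ext w
  constructor
  · intro hw
    exact hw.1
  · intro hw
    exact ⟨hw, rate_pos hk hw⟩

theorem Data.growth0 (D : Data W lam c G E σ) (hk : 1 < k) (τ : ℝ) :
    (∀ ε : ℝ, 0 < ε → ∀ᶠ X : ℝ in atTop, ‖W k τ X‖ ≤ X ^ ε) ↔
      ∃ F : ℂ → ℂ, Cont E σ (Os (bt k τ) (fc k)) F := by
  have h := D.growth hk τ (η := 0) le_rfl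
  rw [sec_zero hk τ] at h
  simpa using h

theorem Cont.mono {U V : Set ℂ} (h : U ⊆ V) {F : ℂ → ℂ} (hF : Cont E σ V F) : Cont E σ U F :=
  ⟨hF.1.mono h, fun w hw => hF.2.1 w (h hw), fun w hw => hF.2.2 w (h hw)⟩

/-- **Growth for all exponents.** -/
theorem Data.growth_all (D : Data W lam c G E σ) :
    (∀ k : ℝ, 1 < k → ∀ ε : ℝ, 0 < ε → ∀ᶠ X : ℝ in atTop, ‖W k 0 X‖ ≤ X ^ ε) ↔
      ∃ F : ℂ → ℂ, Cont E σ {w | 0 < w.re} F := by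
  constructor
  · intro h
    obtain ⟨F, hF⟩ := glue (E := E) (σ := σ) (U := fun i : {k : ℝ // 1 < k} => Os 0 (fc i.1))
      (fun i => Os_dom' (fc_pos i.2) (by
        have := fc_lt i.2
        simp only [abs_zero]
        linarith)) (fun i => by
        have := (D.growth0 i.2 0).1 (h i.1 i.2)
        rwa [bt_zero] at this)
    refine ⟨F, hF.mono fun w hw => ?_⟩
    exact mem_iUnion.2 (cov_exp1 w hw)
  · rintro ⟨F, hF⟩ k hk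
    refine (D.growth0 hk 0).2 ⟨F, hF.mono fun w hw => ?_⟩
    exact Os_pos (by rw [bt_zero, abs_zero]; linarith [fc_lt hk]) hw

/-- **Growth for all directions.** -/
theorem Data.growth_dir (D : Data W lam c G E σ) (hk : 1 < k) :
    (∀ τ : ℝ, ∀ ε : ℝ, 0 < ε → ∀ᶠ X : ℝ in atTop, ‖W k τ X‖ ≤ X ^ ε) ↔
      ∃ F : ℂ → ℂ, Cont E σ {w | 0 < w.re} F := by
  constructor
  · intro h
    obtain ⟨F, hF⟩ := glue (E := E) (σ := σ) (U := fun τ : ℝ => Os (bt k τ) (fc k))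
      (fun τ => Os_dom' (fc_pos hk) (bt_abs_lt hk τ).le) (fun τ => (D.growth0 hk τ).1 (h τ))
    refine ⟨F, hF.mono fun w hw => ?_⟩
    exact mem_iUnion.2 (cov_dir1 hk w hw)
  · rintro ⟨F, hF⟩ τ
    refine (D.growth0 hk τ).2 ⟨F, hF.mono fun w hw => ?_⟩
    exact Os_pos (bt_abs_lt hk τ).le hw

end Pool.Agent.D0H40.CX
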